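import Pool.Agent.Lib.MP_641cb6_lc.CD.Der
import Mathlib.Tactic.Linarith

/-!
# Claims E and L
-/

set_option autoImplicit false

namespace Pool.Agent.Lib.MP_641cb6_lc.CD

open Finset

namespace ClaimRow

open DerRow

section

variable {d : ℕ} {w : Fin d → ℤ} {F : Type} [Field F] (𝔇 : Der w F)

theorem num_hh_le_one (w : Fin d → ℤ) (B : Finset (Fin d)) : hh w B ≤ 1 := by
  unfold hh
  apply Real.rpow_le_one_of_one_le_of_nonpos (by norm_num)
  have : (0 : ℝ) ≤ |∑ i ∈ B, (w i : ℝ)| := abs_nonneg _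
  linarith

theorem num_step {θ ρ : ℝ} (h0 : 0 < θ) (h1 : θ ≤ 1) (hρ : 0 ≤ ρ) {m n : ℕ} (hmn : m ≤ n) :
    2 ^ (m ^ 2) * (θ ^ m + ρ) * θ ^ (n - m + 1) ≤ 2 ^ (n ^ 2) * (θ ^ (n + 1) + ρ) := by
  have e1 : θ ^ m * θ ^ (n - m + 1) = θ ^ (n + 1) := by
    rw [← pow_add]; congr 1; omega
  have e2 : θ ^ (n - m + 1) ≤ 1 := pow_le_one₀ h0.le h1
  have e3 : (2 : ℝ) ^ (m ^ 2) ≤ 2 ^ (n ^ 2) :=
    pow_le_pow_right₀ (by norm_num) (Nat.pow_le_pow_left hmn 2)
  calc 2 ^ (m ^ 2) * (θ ^ m + ρ) * θ ^ (n - m + 1)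
      = 2 ^ (m ^ 2) * (θ ^ m * θ ^ (n - m + 1) + ρ * θ ^ (n - m + 1)) := by ring
    _ ≤ 2 ^ (m ^ 2) * (θ ^ (n + 1) + ρ) := by
        rw [e1]
        have : ρ * θ ^ (n - m + 1) ≤ ρ := mul_le_of_le_one_right hρ e2
        gcongr
    _ ≤ 2 ^ (n ^ 2) * (θ ^ (n + 1) + ρ) := by
        have : 0 ≤ θ ^ (n + 1) + ρ := add_nonneg (pow_pos h0 _).le hρ
        gcongr

variable (hR : RankStatement)
include hR

theorem rk_nrm (B : Finset (Fin d)) (f : F) :
    Rk w B (fun σ => DB 𝔇 B σ f / f) (hh w B) :=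
  hR.triv d w F B _ (fun σ τ h => by
    show DB 𝔇 B σ f / f = DB 𝔇 B τ f / f
    rw [DB_congr 𝔇 h])

theorem rk_ell (i : Fin d) (B : Finset (Fin d)) (f : F) :
    Rk w (insert i B) (fun σ => ell 𝔇 i B σ f) (hh w (insert i B)) :=
  hR.triv d w F (insert i B) _ (derStatement.dep_ell d w F 𝔇 i B f)

theorem rk_nrm_one (B : Finset (Fin d)) (f : F) : Rk w B (fun σ => DB 𝔇 B σ f / f) 1 :=
  hR.mono d w F B _ _ _ (rk_nrm 𝔇 hR B f) (num_hh_le_one w B)

theorem rk_ell_one (i : Fin d) (B : Finset (Fin d)) (f : F) :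
    Rk w (insert i B) (fun σ => ell 𝔇 i B σ f) 1 :=
  hR.mono d w F _ _ _ _ (rk_ell 𝔇 hR i B f) (num_hh_le_one w _)

theorem rk_term {i : Fin d} {B C : Finset (Fin d)} (hi : i ∉ B) (hC : C ⊆ B) {f : F}
    {ρ ρ' : ℝ} (h0 : 0 ≤ ρ) (h0' : 0 ≤ ρ')
    (h : Rk w C (fun σ => DB 𝔇 C σ f / f) ρ)
    (h' : Rk w (insert i (B \ C)) (fun σ => ell 𝔇 i (B \ C) σ f) ρ') :
    Rk w (insert i B) (fun σ => DB 𝔇 C σ f / f * ell 𝔇 i (B \ C) σ f) (ρ * ρ') := by
  have hd : Disjoint C (insert i (B \ C)) := by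
    rw [Finset.disjoint_insert_right]
    exact ⟨fun h => hi (hC h), Finset.disjoint_sdiff⟩
  have e : C ∪ insert i (B \ C) = insert i B := by
    rw [Finset.union_insert, Finset.union_sdiff_of_subset hC]
  have := hR.mul d w F _ _ _ _ _ _ hd h0 h0' h h'
  rwa [e] at this

theorem claimE {T : ℕ} {θ : ℝ} (h0 : 0 < θ) (h1 : θ ≤ 1)
    (hh' : ∀ B : Finset (Fin d), B.Nonempty → B.card < T → hh w B ≤ θ ^ B.card) {f : F}
    (hf : f ≠ 0) {ρ : ℝ} (hρ : 0 ≤ ρ)
    (h : ∀ i B, i ∉ B → T ≤ B.card + 1 → Rk w (insert i B) (fun σ => ell 𝔇 i B σ f) ρ) :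
    ∀ (n : ℕ) (B : Finset (Fin d)), B.card = n →
      Rk w B (fun σ => DB 𝔇 B σ f / f) (2 ^ (n ^ 2) * (θ ^ n + ρ)) := by
  intro n
  induction n using Nat.strong_induction_on with
  | _ n ih =>
    intro B hB
    rcases n with _ | n
    · rw [Finset.card_eq_zero] at hB
      subst hB
      exact hR.mono d w F _ _ _ _ (rk_nrm_one 𝔇 hR ∅ f) (by simpa using hρ)
    · obtain ⟨i, B', hi, rfl, hB'⟩ := Finset.card_eq_succ.mp hB
      have hterm : ∀ C ∈ B'.powerset,
          Rk w (insert i B') (fun σ => DB 𝔇 C σ f / f * ell 𝔇 i (B' \ C) σ f)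
            (2 ^ (n ^ 2) * (θ ^ (n + 1) + ρ)) := by
        intro C hC
        have hC' := Finset.mem_powerset.mp hC
        have hcard : (B' \ C).card = n - C.card := by
          rw [Finset.card_sdiff_of_subset hC', hB']
        have hCn : C.card ≤ n := hB' ▸ Finset.card_le_card hC'
        have hi' : i ∉ B' \ C := fun h => hi (Finset.mem_sdiff.mp h).1
        by_cases hT : T ≤ (B' \ C).card + 1
        · refine hR.mono d w F _ _ _ _ (rk_term 𝔇 hR hi hC' zero_le_one hρ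
            (rk_nrm_one 𝔇 hR C f) (h i (B' \ C) hi' hT)) ?_
          have e3 : (1 : ℝ) ≤ 2 ^ (n ^ 2) := one_le_pow₀ (by norm_num)
          have : 0 ≤ θ ^ (n + 1) := (pow_pos h0 _).le
          calc 1 * ρ ≤ 2 ^ (n ^ 2) * ρ := by gcongr
            _ ≤ _ := by gcongr; linarith
        · push Not at hT
          have hl : Rk w (insert i (B' \ C)) (fun σ => ell 𝔇 i (B' \ C) σ f)
              (θ ^ (n - C.card + 1)) := by
            refine hR.mono d w F _ _ _ _ (rk_ell 𝔇 hR i (B' \ C) f) ?_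
            have hc : (insert i (B' \ C)).card = n - C.card + 1 := by
              rw [Finset.card_insert_of_notMem hi', hcard]
            rw [← hc]
            apply hh' _ (Finset.insert_nonempty _ _)
            rw [Finset.card_insert_of_notMem hi']
            exact hT
          have hpos : 0 ≤ (2 : ℝ) ^ (C.card ^ 2) * (θ ^ C.card + ρ) :=
            mul_nonneg (by positivity) (add_nonneg (pow_pos h0 _).le hρ)
          refine hR.mono d w F _ _ _ _ (rk_term 𝔇 hR hi hC' hpos (pow_pos h0 _).le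
            (ih C.card (by omega) C rfl) hl) ?_
          exact num_step h0 h1 hρ hCn
      have hsum := hR.sum d w F (insert i B') _ B'.powerset _ _ hterm
      rw [Finset.sum_const, Finset.card_powerset, hB', nsmul_eq_mul] at hsum
      have hfun : (fun σ => DB 𝔇 (insert i B') σ f / f) =
          fun σ => ∑ C ∈ B'.powerset, DB 𝔇 C σ f / f * ell 𝔇 i (B' \ C) σ f :=
        funext fun σ => leib' 𝔇 hi σ hf
      rw [hfun]
      refine hR.mono d w F _ _ _ _ hsum ?_
      have hpos : 0 ≤ θ ^ (n + 1) + ρ := add_nonneg (pow_pos h0 _).le hρ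
      rw [← mul_assoc]
      apply mul_le_mul_of_nonneg_right _ hpos
      push_cast
      rw [← pow_add]
      apply pow_le_pow_right₀ (by norm_num)
      nlinarith

theorem claimL {T : ℕ} {θ : ℝ} (h0 : 0 < θ) (h1 : θ ≤ 1)
    (hh' : ∀ B : Finset (Fin d), B.Nonempty → B.card < T → hh w B ≤ θ ^ B.card) {f : F}
    (hf : f ≠ 0) {ρ : ℝ} (hρ : 0 ≤ ρ)
    (h : ∀ B : Finset (Fin d), T ≤ B.card → Rk w B (fun σ => DB 𝔇 B σ f / f) ρ) :
    ∀ (n : ℕ) (B : Finset (Fin d)) (i : Fin d), B.card = n → i ∉ B →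
      Rk w (insert i B) (fun σ => ell 𝔇 i B σ f)
        (2 ^ ((n + 1) ^ 2) * (θ ^ (n + 1) + ρ)) := by
  intro n
  induction n using Nat.strong_induction_on with
  | _ n ih =>
    intro B i hB hi
    have hpos : 0 ≤ θ ^ (n + 1) + ρ := add_nonneg (pow_pos h0 _).le hρ
    have hfirst : Rk w (insert i B) (fun σ => DB 𝔇 (insert i B) σ f / f)
        (θ ^ (n + 1) + ρ) := by
      have hc : (insert i B).card = n + 1 := by rw [Finset.card_insert_of_notMem hi, hB]
      by_cases hT : T ≤ (insert i B).card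
      · refine hR.mono d w F _ _ _ _ (h _ hT) ?_
        have := (pow_pos h0 (n + 1)).le
        linarith
      · refine hR.mono d w F _ _ _ _ (rk_nrm 𝔇 hR (insert i B) f) ?_
        have := hh' (insert i B) (Finset.insert_nonempty _ _) (by omega)
        rw [hc] at this
        linarith
    have hterm : ∀ C ∈ B.powerset.erase ∅,
        Rk w (insert i B) (fun σ => DB 𝔇 C σ f / f * ell 𝔇 i (B \ C) σ f)
          (2 ^ (n ^ 2) * (θ ^ (n + 1) + ρ)) := by
      intro C hC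
      have hne : C ≠ ∅ := (Finset.mem_erase.mp hC).1
      have hC' := Finset.mem_powerset.mp (Finset.mem_erase.mp hC).2
      have hcne : C.Nonempty := Finset.nonempty_iff_ne_empty.mpr hne
      have hcpos : 0 < C.card := Finset.card_pos.mpr hcne
      have hcard : (B \ C).card = n - C.card := by
        rw [Finset.card_sdiff_of_subset hC', hB]
      have hCn : C.card ≤ n := hB ▸ Finset.card_le_card hC'
      have hi' : i ∉ B \ C := fun h => hi (Finset.mem_sdiff.mp h).1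
      by_cases hT : T ≤ C.card
      · refine hR.mono d w F _ _ _ _ (rk_term 𝔇 hR hi hC' hρ zero_le_one (h C hT)
          (rk_ell_one 𝔇 hR i (B \ C) f)) ?_
        have e3 : (1 : ℝ) ≤ 2 ^ (n ^ 2) := one_le_pow₀ (by norm_num)
        have : 0 ≤ θ ^ (n + 1) := (pow_pos h0 _).le
        calc ρ * 1 = 1 * ρ := by ring
          _ ≤ 2 ^ (n ^ 2) * ρ := by gcongr
          _ ≤ _ := by gcongr; linarith
      · push Not at hT
        have hl := ih (n - C.card) (by omega) (B \ C) i hcard hi'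
        have hn : Rk w C (fun σ => DB 𝔇 C σ f / f) (θ ^ C.card) :=
          hR.mono d w F _ _ _ _ (rk_nrm 𝔇 hR C f) (hh' C hcne hT)
        have hpos' : 0 ≤ (2 : ℝ) ^ ((n - C.card + 1) ^ 2) * (θ ^ (n - C.card + 1) + ρ) :=
          mul_nonneg (by positivity) (add_nonneg (pow_pos h0 _).le hρ)
        refine hR.mono d w F _ _ _ _ (rk_term 𝔇 hR hi hC' (pow_pos h0 _).le hpos' hn hl) ?_
        have := num_step h0 h1 hρ (m := n - C.card + 1) (n := n) (by omega)
        calc θ ^ C.card * (2 ^ ((n - C.card + 1) ^ 2) * (θ ^ (n - C.card + 1) + ρ))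
            = 2 ^ ((n - C.card + 1) ^ 2) * (θ ^ (n - C.card + 1) + ρ) *
              θ ^ (n - (n - C.card + 1) + 1) := by
              have e : n - (n - C.card + 1) + 1 = C.card := by omega
              rw [e]; ring
          _ ≤ _ := this
    have hsum := hR.sum d w F (insert i B) _ (B.powerset.erase ∅) _ _ hterm
    rw [Finset.sum_const, Finset.card_erase_of_mem (Finset.empty_mem_powerset B),
      Finset.card_powerset, hB, nsmul_eq_mul] at hsum
    have hneg := hR.smul d w F (insert i B) _ _ (-1) hsum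
    have hadd := hR.add d w F (insert i B) _ _ _ _ hfirst hneg
    have hfun : (fun σ => ell 𝔇 i B σ f) =
        fun σ => DB 𝔇 (insert i B) σ f / f +
          (-1) * ∑ C ∈ B.powerset.erase ∅, DB 𝔇 C σ f / f * ell 𝔇 i (B \ C) σ f := by
      funext σ
      rw [leib' 𝔇 hi σ hf, ← Finset.add_sum_erase _ _ (Finset.empty_mem_powerset B),
        DB_empty, Finset.sdiff_empty, div_self hf]
      ring
    rw [hfun]
    refine hR.mono d w F _ _ _ _ hadd ?_
    have e2 : ((2 ^ n - 1 : ℕ) : ℝ) = 2 ^ n - 1 := by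
      rw [Nat.cast_sub Nat.one_le_two_pow]; push_cast; ring
    rw [e2]
    have e3 : (1 : ℝ) ≤ 2 ^ (n ^ 2) := one_le_pow₀ (by norm_num)
    have e4 : (2 : ℝ) ^ n * 2 ^ (n ^ 2) ≤ 2 ^ ((n + 1) ^ 2) := by
      rw [← pow_add]
      apply pow_le_pow_right₀ (by norm_num)
      nlinarith
    calc θ ^ (n + 1) + ρ + (2 ^ n - 1) * (2 ^ (n ^ 2) * (θ ^ (n + 1) + ρ))
        = (1 + (2 ^ n * 2 ^ (n ^ 2) - 2 ^ (n ^ 2))) * (θ ^ (n + 1) + ρ) := by ring
      _ ≤ 2 ^ ((n + 1) ^ 2) * (θ ^ (n + 1) + ρ) := by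
          apply mul_le_mul_of_nonneg_right _ hpos
          linarith

end

end ClaimRow

open ClaimRow in
theorem claimStatement (hR : RankStatement) : ClaimStatement := by
  intro d w F _ 𝔇 f T θ ρ hf h0 h1 hρ hh'
  refine ⟨fun h B => claimE 𝔇 hR h0 h1 hh' hf hρ h _ B rfl, fun h i B hi => ?_⟩
  exact claimL 𝔇 hR h0 h1 hh' hf hρ h _ B i rfl hi

end Pool.Agent.Lib.MP_641cb6_lc.CD
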