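import Pool.Agent.Lib.MP_641cb6_lc.CD.Defs
import Mathlib.Algebra.DualNumber
import Mathlib.RingTheory.DualNumber

/-!
# Constant nesting: the derivations of the field of rational functions (row FRAC)
-/

set_option autoImplicit false

namespace Pool.Agent.Lib.MP_641cb6_lc.CD

open Pool.Agent.Lib.MP_641cb6_lc.KG (Pol cc)

section

variable (K : Type) [Field K] (N : ℕ)

theorem cF_zero : cF K N 0 = 0 := by simp [cF]

/-- the homomorphism of the polynomials to the dual numbers for the direction `a` -/
noncomputable def dHom (a : Fin N → K) : Pol K N →+* TrivSqZeroExt (FF K N) (FF K N) :=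
  Polynomial.eval₂RingHom
    (MvPolynomial.eval₂Hom
      ((TrivSqZeroExt.inlHom (FF K N) (FF K N)).comp
        ((algebraMap (Pol K N) (FF K N)).comp (cc K N)))
      fun l => TrivSqZeroExt.inl (xF K l) + TrivSqZeroExt.inr (cF K N (a l)))
    (TrivSqZeroExt.inl (zF K N))

theorem dHom_cc (a : Fin N → K) (c : K) : dHom K N a (cc K N c) = TrivSqZeroExt.inl (cF K N c) := by
  simp [dHom, cc, cF]

theorem dHom_x (a : Fin N → K) (l : Fin N) :
    dHom K N a (Polynomial.C (MvPolynomial.X l)) =
      TrivSqZeroExt.inl (xF K l) + TrivSqZeroExt.inr (cF K N (a l)) := by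
  simp [dHom]

theorem dHom_z (a : Fin N → K) : dHom K N a Polynomial.X = TrivSqZeroExt.inl (zF K N) := by
  simp [dHom]

theorem fst_dHom (a : Fin N → K) (P : Pol K N) :
    (dHom K N a P).fst = algebraMap (Pol K N) (FF K N) P := by
  have h : ((TrivSqZeroExt.fstHom (FF K N) (FF K N) (FF K N)).toRingHom.comp (dHom K N a)) =
      algebraMap (Pol K N) (FF K N) := by
    refine Polynomial.ringHom_ext' (MvPolynomial.ringHom_ext ?_ ?_) ?_
    · intro c
      have := dHom_cc K N a c
      simp only [cc, RingHom.comp_apply] at this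
      simp [this, cF, cc]
    · intro l
      simp [dHom_x, xF]
    · simp [dHom_z, zF]
  exact RingHom.congr_fun h P

theorem isUnit_dHom (a : Fin N → K) (y : nonZeroDivisors (Pol K N)) :
    IsUnit (dHom K N a y) := by
  rw [TrivSqZeroExt.isUnit_iff_isUnit_fst, fst_dHom, isUnit_iff_ne_zero]
  exact (IsFractionRing.injective (Pol K N) (FF K N)).ne_iff' (map_zero _) |>.2
    (nonZeroDivisors.coe_ne_zero y)

/-- the homomorphism of the field to the dual numbers for the direction `a` -/
noncomputable def dF (a : Fin N → K) : FF K N →+* TrivSqZeroExt (FF K N) (FF K N) :=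
  IsLocalization.lift (M := nonZeroDivisors (Pol K N)) (isUnit_dHom K N a)

theorem dF_alg (a : Fin N → K) (P : Pol K N) :
    dF K N a (algebraMap (Pol K N) (FF K N) P) = dHom K N a P :=
  IsLocalization.lift_eq _ _

theorem fst_dF (a : Fin N → K) (f : FF K N) : (dF K N a f).fst = f := by
  have h : ((TrivSqZeroExt.fstHom (FF K N) (FF K N) (FF K N)).toRingHom.comp (dF K N a)) =
      RingHom.id _ := by
    refine IsLocalization.ringHom_ext (nonZeroDivisors (Pol K N)) ?_
    refine RingHom.ext fun P => ?_
    simp only [RingHom.comp_apply, dF_alg, RingHom.id_apply]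
    exact fst_dHom K N a P
  exact RingHom.congr_fun h f

/-- the derivative in the direction `a` -/
noncomputable def dD (a : Fin N → K) (f : FF K N) : FF K N := (dF K N a f).snd

theorem dD_add (a : Fin N → K) (f g : FF K N) : dD K N a (f + g) = dD K N a f + dD K N a g := by
  simp [dD]

theorem dD_mul (a : Fin N → K) (f g : FF K N) :
    dD K N a (f * g) = dD K N a f * g + f * dD K N a g := by
  simp only [dD, map_mul, TrivSqZeroExt.snd_mul, fst_dF, smul_eq_mul, MulOpposite.smul_eq_mul_unop,
    MulOpposite.unop_op]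
  ring

theorem dD_c (a : Fin N → K) (c : K) : dD K N a (cF K N c) = 0 := by
  rw [dD, cF, dF_alg, dHom_cc, TrivSqZeroExt.snd_inl]

theorem dD_z (a : Fin N → K) : dD K N a (zF K N) = 0 := by
  rw [dD, zF, dF_alg, dHom_z, TrivSqZeroExt.snd_inl]

theorem dD_x (a : Fin N → K) (l : Fin N) : dD K N a (xF K l) = cF K N (a l) := by
  rw [dD, xF, dF_alg, dHom_x, TrivSqZeroExt.snd_add, TrivSqZeroExt.snd_inl, TrivSqZeroExt.snd_inr,
    zero_add]

variable {K N} in
/-- a derivation is zero if it is zero on constants and inputs -/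
theorem der_zero (C : FF K N → FF K N) (hadd : ∀ f g, C (f + g) = C f + C g)
    (hmul : ∀ f g, C (f * g) = C f * g + f * C g) (hc : ∀ c, C (cF K N c) = 0)
    (hz : C (zF K N) = 0) (hx : ∀ l, C (xF K l) = 0) (f : FF K N) : C f = 0 := by
  have hP : ∀ P : Pol K N, C (algebraMap (Pol K N) (FF K N) P) = 0 := by
    intro P
    induction P using Polynomial.induction_on with
    | C q =>
      induction q using MvPolynomial.induction_on with
      | C c => exact hc c
      | add p q hp hq => rw [Polynomial.C_add, map_add, hadd, hp, hq, add_zero]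
      | mul_X p l hp =>
        rw [Polynomial.C_mul, map_mul, hmul, hp]
        have := hx l
        rw [xF] at this
        rw [this]
        ring
    | add p q hp hq => rw [map_add, hadd, hp, hq, add_zero]
    | monomial n q hq =>
      rw [pow_succ, ← mul_assoc, map_mul, hmul, hq]
      rw [zF] at hz
      rw [hz]
      ring
  obtain ⟨P, Q, hQ, rfl⟩ := IsFractionRing.div_surjective (A := Pol K N) f
  have hQ0 : algebraMap (Pol K N) (FF K N) Q ≠ 0 :=
    (IsFractionRing.injective (Pol K N) (FF K N)).ne_iff' (map_zero _) |>.2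
      (nonZeroDivisors.ne_zero hQ)
  have h := hmul (algebraMap _ _ P / algebraMap _ _ Q) (algebraMap (Pol K N) (FF K N) Q)
  rw [div_mul_cancel₀ _ hQ0, hP, hP, mul_zero, add_zero] at h
  exact (mul_eq_zero.1 h.symm).resolve_right hQ0

theorem dD_neg (a : Fin N → K) (f : FF K N) : dD K N a (-f) = - dD K N a f := by
  simp [dD]

theorem dD_zero (a : Fin N → K) : dD K N a 0 = 0 := by
  simp [dD]

theorem dD_comm (a b : Fin N → K) (f : FF K N) :
    dD K N a (dD K N b f) = dD K N b (dD K N a f) := by
  have h := der_zero (fun f => dD K N a (dD K N b f) - dD K N b (dD K N a f)) ?_ ?_ ?_ ?_ ?_ f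
  · exact sub_eq_zero.1 h
  · intro f g
    simp only [dD_add]
    ring
  · intro f g
    simp only [dD_add, dD_mul]
    ring
  · intro c
    simp only [dD_c, dD_zero, sub_zero]
  · simp only [dD_z, dD_zero, sub_zero]
  · intro l
    simp only [dD_x, dD_c, sub_zero]

end

/-- the direction of the matrix `A` in the block `i` -/
def dirv {K : Type} [Field K] {m d : ℕ} (i : Fin d) (A : Matrix (Fin m) (Fin m) K)
    (l : Fin (d * (m * m))) : K :=
  if (finProdFinEquiv.symm l).1 = i then
    A (finProdFinEquiv.symm (finProdFinEquiv.symm l).2).1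
      (finProdFinEquiv.symm (finProdFinEquiv.symm l).2).2
  else 0

theorem dirv_ix {K : Type} [Field K] {m d : ℕ} (i : Fin d) (A : Matrix (Fin m) (Fin m) K)
    (t : Fin d) (a b : Fin m) : dirv i A (ix t a b) = if t = i then A a b else 0 := by
  simp only [dirv, ix, Equiv.symm_apply_apply]

theorem fracStatement : FracStatement := by
  intro K _ m d w Λ
  refine ⟨⟨fun i s => dD K _ (dirv i (Λ i s)), fun i s => dD_add K _ _, fun i s => dD_mul K _ _,
    fun i j s t f _ => dD_comm K _ _ _ f⟩, ⟨fun i s c => dD_c K _ _ c, fun i s => dD_z K _ _, ?_⟩⟩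
  intro i s t a b
  show dD K _ (dirv i (Λ i s)) (xF K (ix t a b)) = _
  rw [dD_x, dirv_ix]
  split_ifs with h
  · rfl
  · exact cF_zero K _

end Pool.Agent.Lib.MP_641cb6_lc.CD
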