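import Pool.Agent.Lib.MP_641cb6_lc.CD.Defs
import Mathlib.Tactic

/-!
# The directions for the product of matrices
-/

set_option autoImplicit false

namespace Pool.Agent.Lib.MP_641cb6_lc.CD

namespace Imm

open Matrix

/-- the numbers of bits read by the blocks before `i`: the `+` blocks and the `-` blocks; block `i`
has `l i` bits, it is a `+` block if the first number is at most the second one -/
def ac (l : ℕ → ℕ) : ℕ → ℕ × ℕ
  | 0 => (0, 0)
  | i + 1 => if (ac l i).1 ≤ (ac l i).2 then ((ac l i).1 + l i, (ac l i).2)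
      else ((ac l i).1, (ac l i).2 + l i)

/-- block `i` is a `+` block -/
def plus (l : ℕ → ℕ) (i : ℕ) : Prop := (ac l i).1 ≤ (ac l i).2

instance (l : ℕ → ℕ) (i : ℕ) : Decidable (plus l i) := inferInstanceAs (Decidable (_ ≤ _))

theorem ac_add (l : ℕ → ℕ) (d : ℕ) :
    (ac l d).1 + (ac l d).2 = ∑ i ∈ Finset.range d, l i := by
  induction d with
  | zero => simp [ac]
  | succ d ih =>
    rw [Finset.sum_range_succ, ← ih]
    by_cases h : (ac l d).1 ≤ (ac l d).2
    · simp only [ac, if_pos h]
      omega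
    · simp only [ac, if_neg h]
      omega

/-- the number of bits which are read but not yet compared before block `i` -/
def exc (l : ℕ → ℕ) (i : ℕ) : ℕ :=
  ((ac l i).1 - (ac l i).2) + ((ac l i).2 - (ac l i).1)

/-- the new string `s` of length `l` is compared with the excess `e` of length `m` -/
def cons (m l s e : ℕ) : Prop := if m ≤ l then s % 2 ^ m = e else e % 2 ^ l = s

instance (m l s e : ℕ) : Decidable (cons m l s e) := by unfold cons; infer_instance

/-- the new excess -/
def nxt (m l s e : ℕ) : ℕ := if m ≤ l then s / 2 ^ m else e / 2 ^ l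

/-- the direction in block `i` (of `d` blocks) for the string `s` -/
def dir (K : Type) [Zero K] [One K] (n : ℕ) (l : ℕ → ℕ) (d i s : ℕ) : Matrix (Fin n) (Fin n) K :=
  Matrix.of fun e e' => if cons (exc l i) (l i) s e ∧
    (e' : ℕ) = (if i + 1 = d then 0 else nxt (exc l i) (l i) s e) then 1 else 0

/-- the string of block `i` for the number `u` -/
def dig (l : ℕ → ℕ) (i u : ℕ) : ℕ :=
  if plus l i then (u / 2 ^ (ac l i).1) % 2 ^ l i else (u / 2 ^ (ac l i).2) % 2 ^ l i

theorem dig_lt (l : ℕ → ℕ) (i u : ℕ) : dig l i u < 2 ^ l i := by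
  unfold dig
  split_ifs
  · exact Nat.mod_lt _ (by positivity)
  · exact Nat.mod_lt _ (by positivity)

/-- the excess before block `i` if the rows read `u` and the columns read `v` -/
def st (l : ℕ → ℕ) (i u v : ℕ) : ℕ :=
  if (ac l i).2 ≤ (ac l i).1 then (u / 2 ^ (ac l i).2) % 2 ^ ((ac l i).1 - (ac l i).2)
  else (v / 2 ^ (ac l i).1) % 2 ^ ((ac l i).2 - (ac l i).1)

theorem st_lt (l : ℕ → ℕ) (i u v : ℕ) : st l i u v < 2 ^ exc l i := by
  unfold st exc
  split_ifs with h
  · rw [Nat.sub_eq_zero_of_le h, add_zero]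
    exact Nat.mod_lt _ (by positivity)
  · rw [Nat.sub_eq_zero_of_le (by omega : (ac l i).1 ≤ (ac l i).2), zero_add]
    exact Nat.mod_lt _ (by positivity)

theorem modeq_step (u v A m : ℕ) :
    (u % 2 ^ A = v % 2 ^ A ∧ (u / 2 ^ A) % 2 ^ m = (v / 2 ^ A) % 2 ^ m) ↔
      u % 2 ^ (A + m) = v % 2 ^ (A + m) := by
  rw [pow_add, Nat.mod_mul, Nat.mod_mul]
  constructor
  · rintro ⟨h1, h2⟩
    rw [h1, h2]
  · intro h
    have h1 : (u % 2 ^ A + 2 ^ A * (u / 2 ^ A % 2 ^ m)) % 2 ^ A =
        (v % 2 ^ A + 2 ^ A * (v / 2 ^ A % 2 ^ m)) % 2 ^ A := by rw [h]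
    rw [Nat.add_mul_mod_self_left, Nat.add_mul_mod_self_left, Nat.mod_mod, Nat.mod_mod] at h1
    refine ⟨h1, ?_⟩
    rw [h1] at h
    have h2 := Nat.add_left_cancel h
    exact Nat.eq_of_mul_eq_mul_left (by positivity) h2

/-- one step: from the common part before the block to the common part after it -/
theorem step_core (u v A m l : ℕ) (s e : ℕ) (hs : s = (u / 2 ^ A) % 2 ^ l)
    (he : e = (v / 2 ^ A) % 2 ^ m) :
    ((u % 2 ^ A = v % 2 ^ A ∧ cons m l s e) ↔
      u % 2 ^ (A + min m l) = v % 2 ^ (A + min m l)) ∧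
    (m ≤ l → nxt m l s e = (u / 2 ^ (A + m)) % 2 ^ (l - m)) ∧
    (l < m → nxt m l s e = (v / 2 ^ (A + l)) % 2 ^ (m - l)) := by
  subst hs he
  refine ⟨?_, ?_, ?_⟩
  · rw [← modeq_step]
    unfold cons
    rcases le_or_gt m l with h | h
    · rw [if_pos h, min_eq_left h, Nat.mod_mod_of_dvd _ (pow_dvd_pow 2 h)]
    · rw [if_neg (by omega), min_eq_right h.le, Nat.mod_mod_of_dvd _ (pow_dvd_pow 2 h.le)]
      exact and_congr_right fun _ => eq_comm
  · intro h
    unfold nxt
    rw [if_pos h, pow_add, ← Nat.div_div_eq_div_mul]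
    conv_lhs => rw [show l = m + (l - m) by omega, pow_add]
    rw [Nat.mod_mul_right_div_self]
  · intro h
    unfold nxt
    rw [if_neg (by omega), pow_add, ← Nat.div_div_eq_div_mul]
    conv_lhs => rw [show m = l + (m - l) by omega, pow_add]
    rw [Nat.mod_mul_right_div_self]

/-- the common part before block `i` -/
def com (l : ℕ → ℕ) (i : ℕ) : ℕ := min (ac l i).1 (ac l i).2

/-- the string of block `i`: `u` in the `+` blocks, `v` in the `-` blocks -/
def str (l : ℕ → ℕ) (i u v : ℕ) : ℕ := if plus l i then dig l i u else dig l i v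

theorem step (l : ℕ → ℕ) (i u v : ℕ) :
    ((u % 2 ^ com l i = v % 2 ^ com l i ∧
      cons (exc l i) (l i) (str l i u v) (st l i u v)) ↔
        u % 2 ^ com l (i + 1) = v % 2 ^ com l (i + 1)) ∧
    nxt (exc l i) (l i) (str l i u v) (st l i u v) = st l (i + 1) u v := by
  by_cases h : (ac l i).1 ≤ (ac l i).2
  · have hp : plus l i := h
    have hcom : com l i = (ac l i).1 := min_eq_left h
    have hexc : exc l i = (ac l i).2 - (ac l i).1 := by unfold exc; omega
    have hac : ac l (i + 1) = ((ac l i).1 + l i, (ac l i).2) := by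
      simp only [ac, if_pos h]
    have hstr : str l i u v = (u / 2 ^ (ac l i).1) % 2 ^ l i := by simp [str, dig, hp]
    have hst : st l i u v = (v / 2 ^ (ac l i).1) % 2 ^ ((ac l i).2 - (ac l i).1) := by
      unfold st
      split_ifs with h2
      · have : (ac l i).1 = (ac l i).2 := le_antisymm h h2
        rw [this]
        simp [Nat.mod_one]
      · rfl
    obtain ⟨c1, c2, c3⟩ := step_core u v (ac l i).1 ((ac l i).2 - (ac l i).1) (l i) _ _
      hstr hst
    rw [hcom, hexc]
    have hcom' : com l (i + 1) = (ac l i).1 + min ((ac l i).2 - (ac l i).1) (l i) := by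
      unfold com
      rw [hac]
      change min ((ac l i).1 + l i) (ac l i).2 = _
      omega
    rw [hcom']
    refine ⟨c1, ?_⟩
    rcases le_or_gt ((ac l i).2 - (ac l i).1) (l i) with h3 | h3
    · rw [c2 h3]
      unfold st
      rw [hac]
      change _ = if (ac l i).2 ≤ (ac l i).1 + l i then
        u / 2 ^ (ac l i).2 % 2 ^ ((ac l i).1 + l i - (ac l i).2) else _
      rw [if_pos (by omega), show (ac l i).1 + ((ac l i).2 - (ac l i).1) = (ac l i).2 by omega,
        show l i - ((ac l i).2 - (ac l i).1) = (ac l i).1 + l i - (ac l i).2 by omega]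
    · rw [c3 h3]
      unfold st
      rw [hac]
      change _ = if (ac l i).2 ≤ (ac l i).1 + l i then
        u / 2 ^ (ac l i).2 % 2 ^ ((ac l i).1 + l i - (ac l i).2) else
        v / 2 ^ ((ac l i).1 + l i) % 2 ^ ((ac l i).2 - ((ac l i).1 + l i))
      rw [if_neg (by omega),
        show (ac l i).2 - (ac l i).1 - l i = (ac l i).2 - ((ac l i).1 + l i) by omega]
  · have hp : ¬ plus l i := h
    have hcom : com l i = (ac l i).2 := min_eq_right (by omega)
    have hexc : exc l i = (ac l i).1 - (ac l i).2 := by unfold exc; omega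
    have hac : ac l (i + 1) = ((ac l i).1, (ac l i).2 + l i) := by
      simp only [ac, if_neg h]
    have hstr : str l i u v = (v / 2 ^ (ac l i).2) % 2 ^ l i := by simp [str, dig, hp]
    have hst : st l i u v = (u / 2 ^ (ac l i).2) % 2 ^ ((ac l i).1 - (ac l i).2) := by
      unfold st
      rw [if_pos (by omega)]
    obtain ⟨c1, c2, c3⟩ := step_core v u (ac l i).2 ((ac l i).1 - (ac l i).2) (l i) _ _
      hstr hst
    rw [hcom, hexc]
    have hcom' : com l (i + 1) = (ac l i).2 + min ((ac l i).1 - (ac l i).2) (l i) := by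
      unfold com
      rw [hac]
      change min (ac l i).1 ((ac l i).2 + l i) = _
      omega
    rw [hcom']
    refine ⟨?_, ?_⟩
    · constructor
      · rintro ⟨h1, h2⟩
        exact (c1.1 ⟨h1.symm, h2⟩).symm
      · intro h1
        have h2 := c1.2 h1.symm
        exact ⟨h2.1.symm, h2.2⟩
    · rcases le_or_gt ((ac l i).1 - (ac l i).2) (l i) with h3 | h3
      · rw [c2 h3]
        unfold st
        rw [hac]
        change _ = if (ac l i).2 + l i ≤ (ac l i).1 then
          u / 2 ^ ((ac l i).2 + l i) % 2 ^ ((ac l i).1 - ((ac l i).2 + l i)) else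
          v / 2 ^ (ac l i).1 % 2 ^ ((ac l i).2 + l i - (ac l i).1)
        split_ifs with h4
        · have h5 : (ac l i).2 + l i = (ac l i).1 := by omega
          rw [show l i - ((ac l i).1 - (ac l i).2) = 0 by omega, h5]
          simp [Nat.mod_one]
        · rw [show (ac l i).2 + ((ac l i).1 - (ac l i).2) = (ac l i).1 by omega,
            show l i - ((ac l i).1 - (ac l i).2) = (ac l i).2 + l i - (ac l i).1 by omega]
      · rw [c3 h3]
        unfold st
        rw [hac]
        change _ = if (ac l i).2 + l i ≤ (ac l i).1 then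
          u / 2 ^ ((ac l i).2 + l i) % 2 ^ ((ac l i).1 - ((ac l i).2 + l i)) else _
        rw [if_pos (by omega),
          show (ac l i).1 - (ac l i).2 - l i = (ac l i).1 - ((ac l i).2 + l i) by omega]

variable (K : Type) [Field K]

/-- the product of the first `t` directions, none of which is the last one -/
theorem row_prod {n d : ℕ} (l : ℕ → ℕ) (hn : 0 < n) (hl : ∀ i < d, 2 ^ exc l i ≤ n) (u v : ℕ)
    (f : ℕ → Matrix (Fin n) (Fin n) K)
    (hf : ∀ i, i < d → f i = dir K n l d i (str l i u v)) (t : ℕ) (ht : t < d) :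
    ∀ e' : Fin n, (List.ofFn fun i : Fin t => f i).prod ⟨0, hn⟩ e' =
      if u % 2 ^ com l t = v % 2 ^ com l t ∧ (e' : ℕ) = st l t u v then 1 else 0 := by
  have hst : ∀ i < d, st l i u v < n := fun i hi => (st_lt l i u v).trans_le (hl i hi)
  induction t with
  | zero =>
    intro e'
    simp only [List.ofFn_zero, List.prod_nil, Matrix.one_apply, com, ac, st]
    simp [Nat.mod_one, Fin.ext_iff, eq_comm]
  | succ t ih =>
    intro e'
    have hcat : (List.ofFn fun i : Fin (t + 1) => f i) =
        (List.ofFn fun i : Fin t => f i) ++ [f t] := by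
      rw [List.ofFn_succ']
      simp [List.concat_eq_append]
    rw [hcat, List.prod_append, List.prod_singleton, Matrix.mul_apply]
    rw [Finset.sum_congr rfl fun j _ => by rw [ih (by omega) j]]
    rw [Finset.sum_eq_single (⟨st l t u v, hst t (by omega)⟩ : Fin n)]
    · rw [hf t (by omega)]
      simp only [dir, Matrix.of_apply]
      rw [if_neg (by omega : ¬ t + 1 = d), (step l t u v).2]
      have h1 := (step l t u v).1
      by_cases c1 : u % 2 ^ com l t = v % 2 ^ com l t
      · by_cases c2 : cons (exc l t) (l t) (str l t u v) (st l t u v)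
        · have c3 := h1.1 ⟨c1, c2⟩
          simp [c1, c2, c3]
        · have c3 : ¬ u % 2 ^ com l (t + 1) = v % 2 ^ com l (t + 1) :=
            fun h => c2 (h1.2 h).2
          simp [c1, c2, c3]
      · have c3 : ¬ u % 2 ^ com l (t + 1) = v % 2 ^ com l (t + 1) :=
          fun h => c1 (h1.2 h).1
        simp [c1, c3]
    · intro j _ hj
      have : ¬ (j : ℕ) = st l t u v := fun h => hj (Fin.ext h)
      simp [this]
    · intro h
      exact absurd (Finset.mem_univ _) h

/-- the trace of the product of the directions -/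
theorem trace_prod {n d : ℕ} (l : ℕ → ℕ) (hd : 0 < d) (hn0 : 0 < n)
    (hl : ∀ i < d, 2 ^ exc l i ≤ n) (u v : ℕ) :
    Matrix.trace (List.ofFn fun i : Fin d => dir K n l d i (str l i u v)).prod =
      if u % 2 ^ com l d = v % 2 ^ com l d then 1 else 0 := by
  obtain ⟨t, rfl⟩ : ∃ t, d = t + 1 := ⟨d - 1, by omega⟩
  set f : ℕ → Matrix (Fin n) (Fin n) K := fun i => dir K n l (t + 1) i (str l i u v) with hfdef
  have hcat : (List.ofFn fun i : Fin (t + 1) => f i) =
      (List.ofFn fun i : Fin t => f i) ++ [f t] := by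
    rw [List.ofFn_succ']
    simp [List.concat_eq_append]
  have hst : st l t u v < n := (st_lt l t u v).trans_le (hl t (by omega))
  have hrow0 : ∀ e e' : Fin n, (e : ℕ) ≠ 0 →
      (List.ofFn fun i : Fin (t + 1) => f i).prod e e' = 0 := by
    intro e e' he
    rw [List.ofFn_succ, List.prod_cons, Matrix.mul_apply]
    refine Finset.sum_eq_zero fun j _ => ?_
    have : f ((0 : Fin (t + 1)) : ℕ) e j = 0 := by
      simp only [hfdef, dir, Matrix.of_apply, Fin.val_zero]
      rw [if_neg]
      rintro ⟨h, -⟩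
      simp [cons, exc, ac, Nat.mod_one] at h
      exact he h.symm
    rw [this, zero_mul]
  change Matrix.trace (List.ofFn fun i : Fin (t + 1) => f i).prod = _
  rw [Matrix.trace, Finset.sum_eq_single (⟨0, hn0⟩ : Fin n)]
  · rw [Matrix.diag_apply, hcat, List.prod_append, List.prod_singleton, Matrix.mul_apply]
    rw [Finset.sum_congr rfl fun j _ => by
      rw [row_prod K (d := t + 1) l hn0 hl u v f (fun i _ => rfl) t (by omega) j]]
    rw [Finset.sum_eq_single (⟨st l t u v, hst⟩ : Fin n)]
    · simp only [hfdef, dir, Matrix.of_apply, if_true]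
      have h1 := (step l t u v).1
      by_cases c1 : u % 2 ^ com l t = v % 2 ^ com l t
      · by_cases c2 : cons (exc l t) (l t) (str l t u v) (st l t u v)
        · have c3 := h1.1 ⟨c1, c2⟩
          simp [c1, c2, c3]
        · have c3 : ¬ u % 2 ^ com l (t + 1) = v % 2 ^ com l (t + 1) :=
            fun h => c2 (h1.2 h).2
          simp [c1, c2, c3]
      · have c3 : ¬ u % 2 ^ com l (t + 1) = v % 2 ^ com l (t + 1) :=
          fun h => c1 (h1.2 h).1
        simp [c1, c3]
    · intro j _ hj
      have : ¬ (j : ℕ) = st l t u v := fun h => hj (Fin.ext h)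
      simp [this]
    · intro h
      exact absurd (Finset.mem_univ _) h
  · intro e _ he
    rw [Matrix.diag_apply]
    exact hrow0 e e fun h => he (Fin.ext h)
  · intro h
    exact absurd (Finset.mem_univ _) h

/-- the lengths of the blocks of a word -/
def lw {d : ℕ} (w : Fin d → ℤ) (i : ℕ) : ℕ := if h : i < d then (w ⟨i, h⟩).natAbs else 0

theorem lw_val {d : ℕ} (w : Fin d → ℤ) (i : Fin d) : lw w i = (w i).natAbs := by
  simp [lw, i.2]

theorem pre_succ {d : ℕ} (w : Fin d → ℤ) (t : ℕ) (ht : t < d) :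
    pre w (t + 1) = pre w t + w ⟨t, ht⟩ := by
  unfold pre
  rw [← Finset.add_sum_erase _ _ (Finset.mem_univ (⟨t, ht⟩ : Fin d)),
    ← Finset.add_sum_erase (Finset.univ : Finset (Fin d)) (fun i : Fin d => if (i : ℕ) < t then w i else 0)
      (Finset.mem_univ (⟨t, ht⟩ : Fin d))]
  have h1 : ∑ i ∈ Finset.univ.erase (⟨t, ht⟩ : Fin d), (if (i : ℕ) < t + 1 then w i else 0) =
      ∑ i ∈ Finset.univ.erase (⟨t, ht⟩ : Fin d), (if (i : ℕ) < t then w i else 0) := by
    refine Finset.sum_congr rfl fun i hi => ?_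
    have hne : (i : ℕ) ≠ t := fun h => (Finset.mem_erase.1 hi).1 (Fin.ext h)
    by_cases h : (i : ℕ) < t
    · rw [if_pos h, if_pos (by omega)]
    · rw [if_neg h, if_neg (by omega)]
  rw [h1]
  simp
  ring

theorem pre_eq {d k s : ℕ} {w : Fin d → ℤ} (hw : IsWord w k s) (t : ℕ) (ht : t ≤ d) :
    pre w t = ((ac (lw w) t).1 : ℤ) - (ac (lw w) t).2 := by
  induction t with
  | zero => simp [pre, ac]
  | succ t ih =>
    have htd : t < d := by omega
    have ih' := ih (by omega)
    rw [pre_succ w t htd, ih']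
    have hs := hw.sgn ⟨t, htd⟩
    change 0 < w ⟨t, htd⟩ ↔ pre w t ≤ 0 at hs
    rw [ih'] at hs
    have hl : lw w t = (w ⟨t, htd⟩).natAbs := by simp [lw, htd]
    by_cases h : (ac (lw w) t).1 ≤ (ac (lw w) t).2
    · have h0 : 0 < w ⟨t, htd⟩ := hs.2 (by omega)
      simp only [ac, if_pos h, hl]
      push_cast
      rw [abs_of_pos h0]
      ring
    · have h0 : ¬ 0 < w ⟨t, htd⟩ := fun h' => h (by have := hs.1 h'; omega)
      simp only [ac, if_neg h, hl]
      push_cast
      rw [abs_of_nonpos (not_lt.1 h0)]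
      ring

end Imm

/-- Row IMM. -/
theorem immStatement : ImmStatement := by
  intro d k s m w K _ hd hw hm
  have hm0 : 0 < m := lt_of_lt_of_le (by positivity) hm
  have hb : ∀ t ≤ d, (Imm.ac (Imm.lw w) t).1 ≤ (Imm.ac (Imm.lw w) t).2 + k ∧
      (Imm.ac (Imm.lw w) t).2 ≤ (Imm.ac (Imm.lw w) t).1 + k := by
    intro t ht
    have h1 := hw.bd t
    rw [Imm.pre_eq hw t ht, abs_le] at h1
    omega
  have hplus : ∀ i : Fin d, 0 < w i ↔ Imm.plus (Imm.lw w) i := by
    intro i
    rw [hw.sgn i, Imm.pre_eq hw i i.2.le]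
    unfold Imm.plus
    omega
  refine ⟨fun i x => Imm.dir K m (Imm.lw w) d i x, Imm.com (Imm.lw w) d,
    fun a i => ⟨Imm.dig (Imm.lw w) i a, by rw [← Imm.lw_val]; exact Imm.dig_lt _ _ _⟩,
    fun a i => ⟨Imm.dig (Imm.lw w) i a, by rw [← Imm.lw_val]; exact Imm.dig_lt _ _ _⟩, ?_, ?_⟩
  · have h1 : ∑ i : Fin d, (w i).natAbs = ∑ i ∈ Finset.range d, Imm.lw w i := by
      rw [← Fin.sum_univ_eq_sum_range]
      exact Finset.sum_congr rfl fun i _ => (Imm.lw_val w i).symm
    rw [h1, ← Imm.ac_add]
    have := hb d le_rfl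
    unfold Imm.com
    omega
  · intro a b
    have h1 : (fun i : Fin d => Imm.dir K m (Imm.lw w) d i
        ((mix w (fun i => (⟨Imm.dig (Imm.lw w) i a, by
            rw [← Imm.lw_val]; exact Imm.dig_lt _ _ _⟩ : X w i))
          (fun i => (⟨Imm.dig (Imm.lw w) i b, by
            rw [← Imm.lw_val]; exact Imm.dig_lt _ _ _⟩ : X w i)) i : X w i) : ℕ)) =
        fun i : Fin d => Imm.dir K m (Imm.lw w) d i (Imm.str (Imm.lw w) i a b) := by
      funext i
      congr 1
      unfold mix Imm.str
      by_cases h : 0 < w i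
      · rw [if_pos h, if_pos ((hplus i).1 h)]
      · rw [if_neg h, if_neg fun h' => h ((hplus i).2 h')]
    unfold tr
    have h2 := Imm.trace_prod K (Imm.lw w) hd hm0 (fun i hi => by
      refine le_trans (Nat.pow_le_pow_right (by norm_num) ?_) hm
      have := hb i hi.le
      unfold Imm.exc
      omega) a b
    rw [Nat.mod_eq_of_lt a.2, Nat.mod_eq_of_lt b.2] at h2
    rw [h1, h2]
    simp [Fin.ext_iff]

end Pool.Agent.Lib.MP_641cb6_lc.CD
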