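import Pool.Agent.Lib.MP_641cb6_lc.CD.Defs

/-!
# Constant nesting: row LEVELS
-/

set_option autoImplicit false

namespace Pool.Agent.Lib.MP_641cb6_lc.CD

namespace Lev

/-! ### numbers -/

theorem two_le_TT {lam : ℕ} (hl : 1 ≤ lam) : ∀ j, 2 ≤ TT lam j
  | 0 => le_rfl
  | j + 1 => by
      have h := two_le_TT hl j
      calc 2 ≤ 1 ^ 3 * 2 ^ 4 := by norm_num
        _ ≤ lam ^ 3 * TT lam j ^ 4 :=
            Nat.mul_le_mul (Nat.pow_le_pow_left hl 3) (Nat.pow_le_pow_left h 4)

theorem TT_succ (lam j : ℕ) : TT lam (j + 1) = lam * (lam * TT lam j ^ 2) ^ 2 := by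
  change lam ^ 3 * TT lam j ^ 4 = _
  ring

theorem mid_le_TT {lam : ℕ} (hl : 1 ≤ lam) (j : ℕ) : lam * TT lam j ^ 2 ≤ TT lam (j + 1) := by
  rw [TT_succ]
  have h1 : 1 ≤ lam * TT lam j ^ 2 :=
    Nat.mul_pos hl (pow_pos (lt_of_lt_of_le two_pos (two_le_TT hl j)) 2)
  calc lam * TT lam j ^ 2 = 1 * (lam * TT lam j ^ 2) ^ 1 := by ring
    _ ≤ lam * (lam * TT lam j ^ 2) ^ 2 :=
        Nat.mul_le_mul hl (Nat.pow_le_pow_right h1 (by norm_num))

theorem TT_le_mid {lam : ℕ} (hl : 1 ≤ lam) (j : ℕ) : TT lam j ≤ lam * TT lam j ^ 2 := by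
  have h1 : 1 ≤ TT lam j := le_trans (by norm_num) (two_le_TT hl j)
  calc TT lam j = 1 * TT lam j ^ 1 := by ring
    _ ≤ lam * TT lam j ^ 2 := Nat.mul_le_mul hl (Nat.pow_le_pow_right h1 (by norm_num))

theorem rh_nonneg {M b η : ℝ} (hM : 0 ≤ M) (hb : 0 ≤ b) (hη : 0 ≤ η) : ∀ j, 0 ≤ rh M b η j
  | 0 => le_rfl
  | j + 1 => by
      have h := rh_nonneg hM hb hη j
      change 0 ≤ M * (b * (η + M * (b * (η + rh M b η j))))
      positivity

/-- the trivial bound for small sets of blocks -/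
noncomputable def th (k T : ℕ) : ℝ := (2 : ℝ) ^ (-((k : ℝ) / (16 * (T : ℝ) ^ 2)))

theorem th_pos (k T : ℕ) : 0 < th k T := Real.rpow_pos_of_pos two_pos _

theorem th_le_one (k T : ℕ) : th k T ≤ 1 := by
  unfold th
  apply Real.rpow_le_one_of_one_le_of_nonpos one_le_two
  have : 0 ≤ (k : ℝ) / (16 * (T : ℝ) ^ 2) := by positivity
  linarith

theorem th_pow (k T n : ℕ) : th k T ^ n = (2 : ℝ) ^ (-((k : ℝ) / (16 * (T : ℝ) ^ 2)) * n) := by
  unfold th
  rw [Real.rpow_mul two_pos.le, Real.rpow_natCast]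

theorem hh_le {d : ℕ} {w : Fin d → ℤ} {k t : ℕ} (hw : IsWord w k t) {T : ℕ} (hT : T ≤ t)
    (B : Finset (Fin d)) (hB : B.Nonempty) (hBT : B.card < T) : hh w B ≤ th k T ^ B.card := by
  rw [th_pow]
  unfold hh
  apply Real.rpow_le_rpow_of_exponent_le one_le_two
  have hb := hw.big B hB (le_trans hBT.le hT)
  have hc : (0 : ℝ) < B.card := by exact_mod_cast hB.card_pos
  have hTc : (B.card : ℝ) ≤ T := by exact_mod_cast hBT.le
  have hTp : (0 : ℝ) < T := lt_of_lt_of_le hc hTc
  have hb' : (k : ℝ) ≤ 8 * B.card * |∑ i ∈ B, (w i : ℝ)| := by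
    have : ((k : ℤ) : ℝ) ≤ ((8 * B.card * |∑ i ∈ B, w i| : ℤ) : ℝ) := by exact_mod_cast hb
    push_cast at this
    exact this
  have h1 : (k : ℝ) / (16 * (T : ℝ) ^ 2) * B.card ≤ |∑ i ∈ B, (w i : ℝ)| / 2 := by
    rw [div_mul_eq_mul_div, div_le_iff₀ (by positivity)]
    have hS : 0 ≤ |∑ i ∈ B, (w i : ℝ)| := abs_nonneg _
    calc (k : ℝ) * B.card ≤ 8 * B.card * |∑ i ∈ B, (w i : ℝ)| * B.card :=
          mul_le_mul_of_nonneg_right hb' hc.le
      _ = 8 * |∑ i ∈ B, (w i : ℝ)| * (B.card * B.card) := by ring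
      _ ≤ 8 * |∑ i ∈ B, (w i : ℝ)| * (T * T) := by
          apply mul_le_mul_of_nonneg_left _ (by positivity)
          exact mul_le_mul hTc hTc hc.le hTp.le
      _ = |∑ i ∈ B, (w i : ℝ)| / 2 * (16 * (T : ℝ) ^ 2) := by ring
  linarith

theorem th_pow_le {k T lam n : ℕ} (hT : 0 < T) (hn : lam * T ^ 2 ≤ n) :
    th k T ^ n ≤ (2 : ℝ) ^ (-((k : ℝ) * lam) / 16) := by
  rw [th_pow]
  apply Real.rpow_le_rpow_of_exponent_le one_le_two
  have hTp : (0 : ℝ) < T := by exact_mod_cast hT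
  have hn' : (lam : ℝ) * (T : ℝ) ^ 2 ≤ n := by exact_mod_cast hn
  have h1 : (k : ℝ) * lam / 16 ≤ (k : ℝ) / (16 * (T : ℝ) ^ 2) * n := by
    rw [div_mul_eq_mul_div, le_div_iff₀ (by positivity)]
    calc (k : ℝ) * lam / 16 * (16 * (T : ℝ) ^ 2) = (k : ℝ) * (lam * (T : ℝ) ^ 2) := by ring
      _ ≤ (k : ℝ) * n := mul_le_mul_of_nonneg_left hn' (Nat.cast_nonneg k)
  have h2 : -((k : ℝ) * lam) / 16 = -((k : ℝ) * lam / 16) := by ring
  rw [h2]
  linarith

theorem b_le {d n : ℕ} (h : n ≤ d) : (2 : ℝ) ^ (n ^ 2) ≤ 2 ^ (d ^ 2) :=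
  pow_le_pow_right₀ one_le_two (Nat.pow_le_pow_left h 2)

end Lev

open Lev

/-! ### products -/

section

variable {d : ℕ} {w : Fin d → ℤ} {F : Type} [Field F]

theorem ell_prod (hD : DerStatement) (𝔇 : Der w F) (i : Fin d) (B : Finset (Fin d)) (σ : As w)
    {m : ℕ} (f0 : F) (h0 : f0 ≠ 0) (S : Fin m → F) (hS : ∀ t, S t ≠ 0) (e : Fin m → ℤ)
    (s : Finset (Fin m)) :
    ell 𝔇 i B σ (f0 * ∏ t ∈ s, S t ^ e t) =
      ell 𝔇 i B σ f0 + ∑ t ∈ s, (e t : F) * ell 𝔇 i B σ (S t) := by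
  classical
  induction s using Finset.induction_on with
  | empty => simp
  | insert a s ha ih =>
      rw [Finset.prod_insert ha, Finset.sum_insert ha, mul_left_comm,
        hD.ell_mul d w F 𝔇 i B σ _ _ (zpow_ne_zero _ (hS a))
          (mul_ne_zero h0 (Finset.prod_ne_zero_iff.mpr fun t _ => zpow_ne_zero _ (hS t))),
        hD.ell_zpow d w F 𝔇 i B σ _ _ (hS a), ih]
      ring

theorem DB_zero_lev (hD : DerStatement) (𝔇 : Der w F) (B : Finset (Fin d)) (σ : As w) :
    DB 𝔇 B σ (0 : F) = 0 := by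
  have h := hD.sums d w F 𝔇 B σ (Fin 0) ∅ (fun _ => 0)
  simpa using h

end

/-- Row LEVELS. -/
theorem levelStatement (hR : RankStatement) (hD : DerStatement) (hC : ClaimStatement) :
    LevelStatement := by
  classical
  intro d k t lam M w F _ 𝔇 hw hl hM j
  set b : ℝ := 2 ^ (d ^ 2) with hb
  set η : ℝ := (2 : ℝ) ^ (-((k : ℝ) * lam) / 16) with hη
  have hb0 : 0 ≤ b := by positivity
  have hη0 : 0 ≤ η := (Real.rpow_pos_of_pos two_pos _).le
  have hM0 : (0 : ℝ) ≤ M := Nat.cast_nonneg M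
  induction j with
  | zero =>
      intro f _ hf hV i B hi hB
      have hZ : Zf 𝔇 f := by
        rcases hV with h | h
        · exact absurd h hf
        · exact h
      have hBn : B.Nonempty := by
        rw [← Finset.card_pos]
        change 2 ≤ B.card + 1 at hB
        omega
      have h0 : (fun σ => ell 𝔇 i B σ f) = fun _ => (0 : F) := by
        funext σ
        exact hZ.2 i B σ hi hBn
      rw [h0]
      exact hR.zero d w F (insert i B)
  | succ j ih =>
      intro f ht hf hV i B hi hB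
      obtain ⟨f0, m, S, e, hm, hZ, hS, rfl⟩ : ∃ (f0 : F) (m : ℕ) (S : Fin m → F)
          (e : Fin m → ℤ), m ≤ M ∧ Zf 𝔇 f0 ∧ (∀ t, S t ≠ 0 ∧ SumOf M (Vz 𝔇 M j) (S t)) ∧
          f = f0 * ∏ t, S t ^ e t := by
        rcases hV with h | h
        · exact absurd h hf
        · exact h
      have hT2 := two_le_TT hl j
      have hT0 : 0 < TT lam j := by omega
      have hmid0 : 0 < lam * TT lam j ^ 2 := lt_of_lt_of_le hT0 (TT_le_mid hl j)
      have hmt : lam * TT lam j ^ 2 ≤ t := le_trans (mid_le_TT hl j) ht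
      have hTt : TT lam j ≤ t := le_trans (TT_le_mid hl j) hmt
      have hr0 : 0 ≤ rh M b η j := rh_nonneg hM0 hb0 hη0 j
      have hBn : B.Nonempty := by
        rw [← Finset.card_pos]
        have := two_le_TT hl (j + 1)
        omega
      -- terms
      have hterm : ∀ g : F, Vz 𝔇 M j g → ∀ (c : F) (B : Finset (Fin d)),
          lam * TT lam j ^ 2 ≤ B.card →
          Rk w B (fun σ => DB 𝔇 B σ g / c) (b * (η + rh M b η j)) := by
        intro g hg c B hB
        by_cases hg0 : g = 0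
        · subst hg0
          have h0 : (fun σ => DB 𝔇 B σ (0 : F) / c) = fun _ => (0 : F) := by
            funext σ
            rw [DB_zero_lev hD, zero_div]
          rw [h0]
          exact hR.mono d w F B _ 0 _ (hR.zero d w F B) (by positivity)
        · have hE := (hC d w F 𝔇 g (TT lam j) (th k (TT lam j)) (rh M b η j) hg0 (th_pos _ _)
            (th_le_one _ _) hr0 (fun B hB1 hB2 => hh_le hw hTt B hB1 hB2)).1
            (fun i B hi hB => ih g hTt hg0 hg i B hi hB) B
          have h1 := hR.smul d w F B _ _ (g / c) hE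
          have h2 : (fun σ => DB 𝔇 B σ g / c) = fun σ => g / c * (DB 𝔇 B σ g / g) := by
            funext σ
            field_simp
          rw [h2]
          refine hR.mono d w F B _ _ _ h1 ?_
          have h3 : (2 : ℝ) ^ (B.card ^ 2) ≤ b := b_le (by simpa using Finset.card_le_univ B)
          have h4 : th k (TT lam j) ^ B.card ≤ η := th_pow_le hT0 hB
          have h5 : 0 ≤ th k (TT lam j) ^ B.card := pow_nonneg (th_pos _ _).le _
          exact mul_le_mul h3 (by linarith) (by positivity) hb0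
      -- gates
      have hgate : ∀ S : F, S ≠ 0 → SumOf M (Vz 𝔇 M j) S →
          Rk w (insert i B) (fun σ => ell 𝔇 i B σ S)
            (b * (η + M * (b * (η + rh M b η j)))) := by
        intro S hS0 hS
        obtain ⟨q, hq, g, hg, rfl⟩ := hS
        have hsum : ∀ B : Finset (Fin d), lam * TT lam j ^ 2 ≤ B.card →
            Rk w B (fun σ => DB 𝔇 B σ (∑ t, g t) / ∑ t, g t)
              (M * (b * (η + rh M b η j))) := by
          intro B hB
          have h1 := hR.sum d w F B (Fin q) Finset.univ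
            (fun t σ => DB 𝔇 B σ (g t) / ∑ t, g t) (fun _ => b * (η + rh M b η j))
            (fun t _ => hterm (g t) (hg t) _ B hB)
          have h2 : (fun σ => DB 𝔇 B σ (∑ t, g t) / ∑ t, g t) =
              fun σ => ∑ t, DB 𝔇 B σ (g t) / ∑ t, g t := by
            funext σ
            rw [hD.sums d w F 𝔇 B σ (Fin q) Finset.univ g, Finset.sum_div]
          rw [h2]
          refine hR.mono d w F B _ _ _ h1 ?_
          rw [Finset.sum_const, Finset.card_univ, Fintype.card_fin, nsmul_eq_mul]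
          exact mul_le_mul_of_nonneg_right (by exact_mod_cast hq) (by positivity)
        have hL := (hC d w F 𝔇 (∑ t, g t) (lam * TT lam j ^ 2) (th k (lam * TT lam j ^ 2))
          (M * (b * (η + rh M b η j))) hS0 (th_pos _ _) (th_le_one _ _) (by positivity)
          (fun B hB1 hB2 => hh_le hw hmt B hB1 hB2)).2 hsum i B hi
        refine hR.mono d w F _ _ _ _ hL ?_
        have hcard : B.card + 1 ≤ d := by
          have := Finset.card_le_univ (insert i B)
          rw [Finset.card_insert_of_notMem hi, Fintype.card_fin] at this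
          exact this
        have h3 : (2 : ℝ) ^ ((B.card + 1) ^ 2) ≤ b := b_le hcard
        have h4 : th k (lam * TT lam j ^ 2) ^ (B.card + 1) ≤ η :=
          th_pow_le hmid0 (by rw [← TT_succ]; exact hB)
        have h5 : 0 ≤ th k (lam * TT lam j ^ 2) ^ (B.card + 1) := pow_nonneg (th_pos _ _).le _
        exact mul_le_mul h3 (by linarith) (by positivity) hb0
      -- the product
      have hfun : (fun σ => ell 𝔇 i B σ (f0 * ∏ t, S t ^ e t)) =
          fun σ => ∑ t, (e t : F) * ell 𝔇 i B σ (S t) := by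
        funext σ
        rw [ell_prod hD 𝔇 i B σ f0 hZ.1 S (fun t => (hS t).1) e Finset.univ,
          hZ.2 i B σ hi hBn, zero_add]
      rw [hfun]
      have h1 := hR.sum d w F (insert i B) (Fin m) Finset.univ
        (fun t σ => (e t : F) * ell 𝔇 i B σ (S t))
        (fun _ => b * (η + M * (b * (η + rh M b η j))))
        (fun t _ => hR.smul d w F _ _ _ _ (hgate (S t) (hS t).1 (hS t).2))
      refine hR.mono d w F _ _ _ _ h1 ?_
      rw [Finset.sum_const, Finset.card_univ, Fintype.card_fin, nsmul_eq_mul]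
      exact mul_le_mul_of_nonneg_right (by exact_mod_cast hm) (by positivity)

end Pool.Agent.Lib.MP_641cb6_lc.CD
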