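import Pool.Agent.Lib.MP_641cb6_lc.CD.Defs
import Mathlib.RingTheory.Polynomial.Basic
import Mathlib.RingTheory.Polynomial.UniqueFactorization

/-!
# Row LOWA: the logarithmic derivative of a multiple of `z - p`
-/

set_option autoImplicit false

namespace Pool.Agent.Lib.MP_641cb6_lc.CD

open Pool.Agent.Lib.MP_641cb6_lc.KG (Pol cc)

namespace LowA

section Basic

variable {d : ℕ} {w : Fin d → ℤ} {F : Type} [Field F] (𝔇 : Der w F) (i : Fin d) (s : X w i)

theorem zero' : 𝔇.D i s 0 = 0 := by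
  have h := 𝔇.add i s 0 0
  simpa using h

theorem one' : 𝔇.D i s 1 = 0 := by
  have h := 𝔇.mul i s 1 1
  simpa using h

theorem neg' (f : F) : 𝔇.D i s (-f) = - 𝔇.D i s f := by
  have h := 𝔇.add i s f (-f)
  rw [add_neg_cancel, zero'] at h
  exact (neg_eq_of_add_eq_zero_right h.symm).symm

theorem nat' (n : ℕ) : 𝔇.D i s (n : F) = 0 := by
  induction n with
  | zero => rw [Nat.cast_zero]; exact zero' 𝔇 i s
  | succ n ih => rw [Nat.cast_succ, 𝔇.add, ih, one', add_zero]

theorem div' (f g : F) (hg : g ≠ 0) :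
    𝔇.D i s (f / g) = 𝔇.D i s f / g - f * 𝔇.D i s g / g ^ 2 := by
  have h := 𝔇.mul i s (f / g) g
  rw [div_mul_cancel₀ f hg] at h
  rw [h]
  field_simp
  ring

/-- the derivative of `P / Z ^ l` -/
theorem div_pow' (P Z q : F) (hZ : Z ≠ 0) (hq : 𝔇.D i s Z = -q) (l : ℕ) :
    𝔇.D i s (P / Z ^ l) = 𝔇.D i s P / Z ^ l + l * P * q / Z ^ (l + 1) := by
  induction l with
  | zero => simp
  | succ l ih =>
    have h1 : P / Z ^ (l + 1) = P / Z ^ l / Z := by
      rw [pow_succ, div_div]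
    rw [h1, div' 𝔇 i s _ _ hZ, ih, hq, Nat.cast_succ]
    field_simp
    ring

end Basic

section DB

variable {d : ℕ} {w : Fin d → ℤ} {F : Type} [Field F] (hD : DerStatement) (𝔇 : Der w F)

include hD

theorem DB_add (B : Finset (Fin d)) (σ : As w) (f g : F) :
    DB 𝔇 B σ (f + g) = DB 𝔇 B σ f + DB 𝔇 B σ g := by
  classical
  induction B using Finset.induction_on with
  | empty => simp only [hD.emp]
  | insert j B hj ih => rw [hD.ins' d w F 𝔇 j B σ _ hj, hD.ins' d w F 𝔇 j B σ _ hj,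
      hD.ins' d w F 𝔇 j B σ _ hj, ih, 𝔇.add]

theorem DB_cmul (B : Finset (Fin d)) (σ : As w) (c f : F) (hc : ∀ j s, 𝔇.D j s c = 0) :
    DB 𝔇 B σ (c * f) = c * DB 𝔇 B σ f := by
  classical
  induction B using Finset.induction_on with
  | empty => simp only [hD.emp]
  | insert j B hj ih => rw [hD.ins' d w F 𝔇 j B σ _ hj, hD.ins' d w F 𝔇 j B σ _ hj, ih, 𝔇.mul, hc,
      zero_mul, zero_add]

end DB

section Main

variable {K : Type} [Field K] {m d : ℕ} {w : Fin d → ℤ}

/-- the image of a polynomial in `x` -/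
noncomputable def Cm (K : Type) [Field K] (m d : ℕ) :
    MvPolynomial (Fin (d * (m * m))) K →+* FF K (d * (m * m)) :=
  (algebraMap (Pol K (d * (m * m))) (FF K (d * (m * m)))).comp Polynomial.C

/-- the image of `z - p` -/
noncomputable def Zm (K : Type) [Field K] (m d : ℕ) : FF K (d * (m * m)) :=
  algebraMap (Pol K (d * (m * m))) (FF K (d * (m * m))) (zp K m d)

theorem prime_zp (K : Type) [Field K] (m d : ℕ) : Prime (zp K m d) :=
  Polynomial.prime_X_sub_C _

theorem Zm_ne (K : Type) [Field K] (m d : ℕ) : Zm K m d ≠ 0 := by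
  intro h
  exact (prime_zp K m d).ne_zero
    ((FaithfulSMul.algebraMap_injective (Pol K (d * (m * m))) (FF K (d * (m * m))))
      (h.trans (map_zero _).symm))

/-- sums of terms `C a / z ^ l` with `2 ≤ l ≤ n` -/
noncomputable def Wn (K : Type) [Field K] (m d n : ℕ) : AddSubmonoid (FF K (d * (m * m))) :=
  AddSubmonoid.closure {f | ∃ (a : MvPolynomial (Fin (d * (m * m))) K) (l : ℕ), 2 ≤ l ∧ l ≤ n ∧
    f = Cm K m d a / Zm K m d ^ l}

theorem Wn_mem {n : ℕ} (a : MvPolynomial (Fin (d * (m * m))) K) (l : ℕ) (h2 : 2 ≤ l) (hn : l ≤ n) :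
    Cm K m d a / Zm K m d ^ l ∈ Wn K m d n :=
  AddSubmonoid.subset_closure ⟨a, l, h2, hn, rfl⟩

theorem Wn_sum {n : ℕ} {f : FF K (d * (m * m))} (hf : f ∈ Wn K m d n) :
    ∃ c : ℕ → MvPolynomial (Fin (d * (m * m))) K,
      f = ∑ l ∈ Finset.Icc 2 n, Cm K m d (c l) / Zm K m d ^ l := by
  classical
  induction hf using AddSubmonoid.closure_induction with
  | mem x hx =>
    obtain ⟨a, l, h2, hn, rfl⟩ := hx
    refine ⟨Pi.single l a, ?_⟩
    rw [Finset.sum_eq_single l]
    · rw [Pi.single_eq_same]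
    · intro b _ hb
      rw [Pi.single_eq_of_ne hb, map_zero, zero_div]
    · intro h
      exact absurd (Finset.mem_Icc.2 ⟨h2, hn⟩) h
  | zero => exact ⟨0, by simp⟩
  | add x y _ _ hx hy =>
    obtain ⟨c, rfl⟩ := hx
    obtain ⟨c', rfl⟩ := hy
    refine ⟨c + c', ?_⟩
    rw [← Finset.sum_add_distrib]
    refine Finset.sum_congr rfl fun l _ => ?_
    rw [Pi.add_apply, map_add, add_div]

variable {Λ : ∀ i, X w i → Matrix (Fin m) (Fin m) K} {𝔇 : Der w (FF K (d * (m * m)))}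

theorem D_Z (hP : PolyStatement) (hΛ : IsDir Λ 𝔇) (j : Fin d) (s : X w j) :
    ∃ q : MvPolynomial (Fin (d * (m * m))) K, 𝔇.D j s (Cm K m d (pp K m d)) = Cm K m d q ∧
      𝔇.D j s (Zm K m d) = - Cm K m d q := by
  obtain ⟨q, hq⟩ := hP.mv K m d w Λ 𝔇 hΛ j s (pp K m d)
  refine ⟨q, hq, ?_⟩
  have h1 : Zm K m d = zF K (d * (m * m)) + - Cm K m d (pp K m d) := by
    rw [Zm, zp, map_sub, sub_eq_add_neg]
    rfl
  rw [h1, 𝔇.add, hΛ.z, neg', zero_add]
  exact congrArg Neg.neg hq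

theorem Wn_D (hP : PolyStatement) (hΛ : IsDir Λ 𝔇) (j : Fin d) (s : X w j) {n : ℕ}
    {f : FF K (d * (m * m))} (hf : f ∈ Wn K m d n) : 𝔇.D j s f ∈ Wn K m d (n + 1) := by
  obtain ⟨q, -, hq⟩ := D_Z hP hΛ j s
  induction hf using AddSubmonoid.closure_induction with
  | mem x hx =>
    obtain ⟨a, l, h2, hn, rfl⟩ := hx
    obtain ⟨a', ha'⟩ := hP.mv K m d w Λ 𝔇 hΛ j s a
    have ha : 𝔇.D j s (Cm K m d a) = Cm K m d a' := ha'
    rw [div_pow' 𝔇 j s _ _ _ (Zm_ne K m d) hq l, ha]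
    refine (Wn K m d (n + 1)).add_mem (Wn_mem a' l h2 (by omega)) ?_
    have h1 : (l : FF K (d * (m * m))) * Cm K m d a * Cm K m d q = Cm K m d ((l : MvPolynomial
        (Fin (d * (m * m))) K) * a * q) := by
      rw [map_mul, map_mul, map_natCast]
    rw [h1]
    exact Wn_mem _ (l + 1) (by omega) (by omega)
  | zero => rw [zero']; exact (Wn K m d (n + 1)).zero_mem
  | add x y _ _ hx hy => rw [𝔇.add]; exact (Wn K m d (n + 1)).add_mem hx hy

theorem DB_Z (hD : DerStatement) (hP : PolyStatement) (hΛ : IsDir Λ 𝔇) (σ : As w)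
    (a : MvPolynomial (Fin (d * (m * m))) K) (B : Finset (Fin d)) :
    ∃ a' : MvPolynomial (Fin (d * (m * m))) K, ∃ f ∈ Wn K m d (B.card + 1),
      DB 𝔇 B σ (Cm K m d a) = Cm K m d a' ∧
      DB 𝔇 B σ (Cm K m d a / Zm K m d) = Cm K m d a' / Zm K m d + f := by
  classical
  induction B using Finset.induction_on with
  | empty =>
    refine ⟨a, 0, (Wn K m d _).zero_mem, ?_, ?_⟩
    · rw [hD.emp]
    · rw [hD.emp, add_zero]
  | insert j B hj ih =>
    obtain ⟨a', f, hf, h1, h2⟩ := ih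
    obtain ⟨q, -, hq⟩ := D_Z hP hΛ j (σ j)
    obtain ⟨a'', ha''⟩ := hP.mv K m d w Λ 𝔇 hΛ j (σ j) a'
    have ha : 𝔇.D j (σ j) (Cm K m d a') = Cm K m d a'' := ha''
    have h3 := div_pow' 𝔇 j (σ j) (Cm K m d a') _ _ (Zm_ne K m d) hq 1
    rw [pow_one, ha, Nat.cast_one, one_mul, ← map_mul] at h3
    refine ⟨a'', Cm K m d (a' * q) / Zm K m d ^ (1 + 1) + 𝔇.D j (σ j) f, ?_, ?_, ?_⟩
    · rw [Finset.card_insert_of_notMem hj]
      exact (Wn K m d _).add_mem (Wn_mem _ _ (by omega) (by omega)) (Wn_D hP hΛ j (σ j) hf)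
    · rw [hD.ins' _ _ _ 𝔇 j B σ _ hj, h1, ha]
    · rw [hD.ins' _ _ _ 𝔇 j B σ _ hj, h2, 𝔇.add, h3, add_assoc]

theorem DB_U (hD : DerStatement) (hP : PolyStatement) (hΛ : IsDir Λ 𝔇) (σ : As w)
    (Q U : Pol K (d * (m * m))) (hU : U ≠ 0) (B : Finset (Fin d)) :
    ∃ R : Pol K (d * (m * m)),
      DB 𝔇 B σ (algebraMap (Pol K (d * (m * m))) (FF K (d * (m * m))) Q /
        algebraMap (Pol K (d * (m * m))) (FF K (d * (m * m))) U) =
      algebraMap (Pol K (d * (m * m))) (FF K (d * (m * m))) R /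
        algebraMap (Pol K (d * (m * m))) (FF K (d * (m * m))) (U ^ (B.card + 1)) := by
  classical
  have hU' : algebraMap (Pol K (d * (m * m))) (FF K (d * (m * m))) U ≠ 0 := by
    intro h
    exact hU ((FaithfulSMul.algebraMap_injective (Pol K (d * (m * m))) (FF K (d * (m * m))))
      (h.trans (map_zero _).symm))
  induction B using Finset.induction_on with
  | empty =>
    refine ⟨Q, ?_⟩
    rw [hD.emp, Finset.card_empty, zero_add, pow_one]
  | insert j B hj ih =>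
    obtain ⟨R, hR⟩ := ih
    obtain ⟨R', hR'⟩ := hP.pol K m d w Λ 𝔇 hΛ j (σ j) R
    obtain ⟨U', hU1⟩ := hP.pol K m d w Λ 𝔇 hΛ j (σ j) U
    refine ⟨R' * U - ((B.card + 1 : ℕ) : Pol K (d * (m * m))) * R * U', ?_⟩
    rw [hD.ins' _ _ _ 𝔇 j B σ _ hj, hR, map_pow, Finset.card_insert_of_notMem hj,
      div_pow' 𝔇 j (σ j) _ _ (-algebraMap (Pol K (d * (m * m))) (FF K (d * (m * m))) U') hU'
        (by rw [hU1, neg_neg]) (B.card + 1), hR', map_pow, map_sub, map_mul, map_mul, map_mul,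
      map_natCast]
    field_simp
    ring

end Main

end LowA

open LowA in
theorem lowAStatement (hD : DerStatement) (hP : PolyStatement) : LowAStatement := by
  intro K _ m d w Λ 𝔇 hΛ G hG hdvd i
  classical
  obtain ⟨e, U, hU, hGU⟩ := WfDvdMonoid.max_power_factor hG (prime_zp K m d).irreducible
  have hU0 : U ≠ 0 := fun h => hU (h ▸ dvd_zero _)
  have he : 1 ≤ e := by
    rcases Nat.eq_zero_or_pos e with h | h
    · subst h
      rw [pow_zero, one_mul] at hGU
      exact absurd (hGU ▸ hdvd) hU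
    · exact h
  set A := algebraMap (Pol K (d * (m * m))) (FF K (d * (m * m))) with hA
  have hinj : Function.Injective A :=
    FaithfulSMul.algebraMap_injective (Pol K (d * (m * m))) (FF K (d * (m * m)))
  have hAU : A U ≠ 0 := fun h => hU0 (hinj (h.trans (map_zero _).symm))
  have hZ := Zm_ne K m d
  have hcard : (Finset.univ.erase i).card + 1 = d := by
    rw [Finset.card_erase_of_mem (Finset.mem_univ i), Finset.card_univ, Fintype.card_fin]
    have := i.pos
    omega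
  -- the logarithmic derivative
  have hlog : ∀ σ : As w, ∃ (c : ℕ → MvPolynomial (Fin (d * (m * m))) K)
      (R : Pol K (d * (m * m))),
      ell 𝔇 i (Finset.univ.erase i) σ (A G) =
        - (e : FF K (d * (m * m))) * cF K _ (tr fun i => Λ i (σ i)) / A (zp K m d) +
          (∑ l ∈ Finset.Icc 2 d, A (Polynomial.C (c l)) / A (zp K m d) ^ l) +
          A R / A (U ^ d) := by
    intro σ
    obtain ⟨q, hq1, hq2⟩ := D_Z hP hΛ i (σ i)
    obtain ⟨Q, hQ⟩ := hP.pol K m d w Λ 𝔇 hΛ i (σ i) U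
    obtain ⟨a', f, hf, h1, h2⟩ := DB_Z hD hP hΛ σ q (Finset.univ.erase i)
    obtain ⟨R, hR⟩ := DB_U hD hP hΛ σ Q U hU0 (Finset.univ.erase i)
    rw [hcard] at hR hf
    obtain ⟨c, hc⟩ := Wn_sum hf
    -- derivative of `Z ^ e`
    have hpow : ∀ n : ℕ, 𝔇.D i (σ i) (Zm K m d ^ n) / Zm K m d ^ n =
        -(n : FF K (d * (m * m))) * (Cm K m d q / Zm K m d) := by
      intro n
      induction n with
      | zero => simp [one']
      | succ n ih =>
        rw [pow_succ, 𝔇.mul, add_div, mul_div_mul_right _ _ hZ, ih,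
          mul_div_mul_left _ _ (pow_ne_zero n hZ), hq2, Nat.cast_succ]
        ring
    have hG1 : A G = Zm K m d ^ e * A U := by
      rw [hGU, map_mul, map_pow]
      rfl
    have hlg : 𝔇.D i (σ i) (A G) / A G =
        -(e : FF K (d * (m * m))) * (Cm K m d q / Zm K m d) + A Q / A U := by
      rw [hG1, 𝔇.mul, add_div, mul_div_mul_right _ _ hAU, hpow e,
        mul_div_mul_left _ _ (pow_ne_zero e hZ)]
      congr 2
    have hfull : Cm K m d a' = cF K _ (tr fun i => Λ i (σ i)) := by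
      rw [← h1, ← hq1, ← hD.ins _ _ _ 𝔇 i (Finset.univ.erase i) σ _ (Finset.notMem_erase i _),
        Finset.insert_erase (Finset.mem_univ i)]
      exact hP.full K m d w Λ 𝔇 hΛ σ
    refine ⟨fun l => -(e : MvPolynomial (Fin (d * (m * m))) K) * c l, R, ?_⟩
    have hc0 : ∀ j s, 𝔇.D j s (-(e : FF K (d * (m * m)))) = 0 := by
      intro j s
      rw [neg', nat', neg_zero]
    rw [ell, hlg, DB_add hD, DB_cmul hD 𝔇 _ σ _ _ hc0, h2, hR, hfull, hc, mul_add,
      Finset.mul_sum, mul_div_assoc]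
    refine congrArg₂ (· + ·) (congrArg₂ (· + ·) rfl (Finset.sum_congr rfl fun l _ => ?_)) rfl
    have h5 : A (Polynomial.C (-(e : MvPolynomial (Fin (d * (m * m))) K) * c l)) =
        -(e : FF K (d * (m * m))) * Cm K m d (c l) := by
      have h6 : A (Polynomial.C (-(e : MvPolynomial (Fin (d * (m * m))) K) * c l)) =
        Cm K m d (-(e : MvPolynomial (Fin (d * (m * m))) K) * c l) := rfl
      rw [h6, map_mul, map_neg, map_natCast]
    rw [h5, mul_div_assoc]
    rfl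
  choose c R hcR using hlog
  refine ⟨e, U ^ d, R, c, he, ?_, hcR⟩
  intro h
  exact hU ((prime_zp K m d).dvd_of_dvd_pow h)

end Pool.Agent.Lib.MP_641cb6_lc.CD
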