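import Pool.Agent.Lib.MP_641cb6_lc.CD.Defs
import Mathlib.LinearAlgebra.Vandermonde
import Mathlib.LinearAlgebra.Matrix.Rank
import Mathlib.LinearAlgebra.Matrix.NonsingularInverse
import Mathlib.RingTheory.Polynomial.Basic

/-!
# Row LOWB: from the representation in LOWA to the bound of the size of an identity matrix

The substitution `z ↦ p + c * (z - p)` is an automorphism of the field of rational functions, so it
does not change ranks. A suitable combination of `d` of its images leaves only the pole of order one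
of the representation; multiplied by `z - p` and by the denominators it is a matrix of polynomials
which is a nonzero multiple of the identity matrix modulo `z - p`.
-/

set_option autoImplicit false

namespace Pool.Agent.Lib.MP_641cb6_lc.CD

open Pool.Agent.Lib.MP_641cb6_lc.KG (Pol cc)

section Sub

variable {K : Type} [Field K] {N : ℕ}

/-- the polynomial `p + c * (z - p)` -/
noncomputable def qs (p : MvPolynomial (Fin N) K) (c : K) : Pol K N :=
  Polynomial.C p + cc K N c * (Polynomial.X - Polynomial.C p)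

theorem qs_comp (p : MvPolynomial (Fin N) K) (c c' : K) (h : c * c' = 1) :
    (qs p c).comp (qs p c') = Polynomial.X := by
  have h1 : (Polynomial.C (MvPolynomial.C c) * Polynomial.C (MvPolynomial.C c') : Pol K N) = 1 := by
    rw [← Polynomial.C_mul, ← MvPolynomial.C_mul, h, MvPolynomial.C_1, Polynomial.C_1]
  simp only [qs, cc, RingHom.comp_apply, Polynomial.add_comp, Polynomial.mul_comp,
    Polynomial.sub_comp, Polynomial.X_comp, Polynomial.C_comp]
  linear_combination (Polynomial.X - Polynomial.C p) * h1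

/-- the substitution of `p + c * (z - p)` for `z` -/
noncomputable def fs (p : MvPolynomial (Fin N) K) (c : K) : Pol K N →+* Pol K N :=
  Polynomial.compRingHom (qs p c)

theorem fs_apply (p : MvPolynomial (Fin N) K) (c : K) (G : Pol K N) :
    fs p c G = G.comp (qs p c) := rfl

theorem fs_inj (p : MvPolynomial (Fin N) K) (c : K) (hc : c ≠ 0) :
    Function.Injective (fs p c) := by
  have h : ∀ G, fs p c⁻¹ (fs p c G) = G := by
    intro G
    rw [fs_apply, fs_apply, Polynomial.comp_assoc, qs_comp p c c⁻¹ (mul_inv_cancel₀ hc),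
      Polynomial.comp_X]
  exact Function.LeftInverse.injective h

theorem eval_fs (p : MvPolynomial (Fin N) K) (c : K) (G : Pol K N) :
    (fs p c G).eval p = G.eval p := by
  rw [fs_apply, Polynomial.eval_comp]
  congr 1
  simp [qs]

theorem fs_C (p : MvPolynomial (Fin N) K) (c : K) (G : MvPolynomial (Fin N) K) :
    fs p c (Polynomial.C G) = Polynomial.C G := by
  rw [fs_apply, Polynomial.C_comp]

theorem fs_sub (p : MvPolynomial (Fin N) K) (c : K) :
    fs p c (Polynomial.X - Polynomial.C p) = cc K N c * (Polynomial.X - Polynomial.C p) := by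
  rw [fs_apply, Polynomial.sub_comp, Polynomial.X_comp, Polynomial.C_comp, qs]
  ring

theorem exists_F (p : MvPolynomial (Fin N) K) (c : K) (hc : c ≠ 0) :
    ∃ Φ : FF K N →+* FF K N, ∀ G : Pol K N, Φ (algebraMap _ _ G) = algebraMap _ _ (fs p c G) := by
  have hinj : Function.Injective ((algebraMap (Pol K N) (FF K N)).comp (fs p c)) := by
    rw [RingHom.coe_comp]
    exact (IsFractionRing.injective (Pol K N) (FF K N)).comp (fs_inj p c hc)
  refine ⟨IsFractionRing.lift hinj, fun G => ?_⟩
  rw [IsFractionRing.lift_algebraMap]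
  rfl

end Sub

theorem exists_weights (K : Type) [Field K] [CharZero K] (d : ℕ) :
    ∃ u a : Fin d → K, (∀ j, u j ≠ 0) ∧
      ∀ l ∈ Finset.Icc 1 d, ∑ j, a j * u j ^ l = if l = 1 then 1 else 0 := by
  rcases Nat.eq_zero_or_pos d with rfl | hd
  · exact ⟨fun _ => 1, fun _ => 0, fun _ => one_ne_zero, by simp⟩
  let u : Fin d → K := fun j => ((j : ℕ) : K) + 1
  have hu : ∀ j, u j ≠ 0 := fun j => Nat.cast_add_one_ne_zero _
  have hinj : Function.Injective u := by
    intro x y h
    have h1 : ((x : ℕ) : K) = ((y : ℕ) : K) := by simpa [u] using h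
    exact Fin.ext (Nat.cast_injective h1)
  have hdet : (Matrix.vandermonde u).det ≠ 0 := Matrix.det_vandermonde_ne_zero_iff.2 hinj
  have hunit : IsUnit (Matrix.vandermonde u).det := isUnit_iff_ne_zero.2 hdet
  let b : Fin d → K := Matrix.vecMul (Pi.single ⟨0, hd⟩ 1) (Matrix.vandermonde u)⁻¹
  have hb : Matrix.vecMul b (Matrix.vandermonde u) = Pi.single ⟨0, hd⟩ 1 := by
    rw [Matrix.vecMul_vecMul, Matrix.nonsing_inv_mul _ hunit, Matrix.vecMul_one]
  refine ⟨u, fun j => b j / u j, hu, fun l hl => ?_⟩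
  rw [Finset.mem_Icc] at hl
  obtain ⟨hl1, hl2⟩ := hl
  obtain ⟨l, rfl⟩ : ∃ l', l = l' + 1 := ⟨l - 1, by omega⟩
  have h1 := congrFun hb ⟨l, by omega⟩
  rw [Matrix.vecMul, dotProduct] at h1
  have h2 : ∑ j, b j / u j * u j ^ (l + 1) = ∑ j, b j * Matrix.vandermonde u j ⟨l, by omega⟩ := by
    refine Finset.sum_congr rfl fun j _ => ?_
    rw [Matrix.vandermonde_apply, pow_succ]
    have := hu j
    field_simp
  rw [h2, h1, Pi.single_apply]
  simp [Fin.ext_iff]

/-- Row LOWB over any field of characteristic zero. -/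
theorem lowB_of_charZero (K : Type) [Field K] [CharZero K] (m d : ℕ) (w : Fin d → ℤ)
    (Λ : ∀ i, X w i → Matrix (Fin m) (Fin m) K) (g : As w → FF K (d * (m * m))) (e : ℕ)
    (V : Pol K (d * (m * m))) (R : As w → Pol K (d * (m * m)))
    (c : As w → ℕ → MvPolynomial (Fin (d * (m * m))) K) (hd : 1 ≤ d) (he : 1 ≤ e)
    (hV : ¬ zp K m d ∣ V)
    (hg : ∀ σ : As w, g σ =
        - (e : FF K (d * (m * m))) * cF K _ (tr fun i => Λ i (σ i)) /
            algebraMap (Pol K (d * (m * m))) _ (zp K m d) +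
          (∑ l ∈ Finset.Icc 2 d, algebraMap (Pol K (d * (m * m))) _ (Polynomial.C (c σ l)) /
            algebraMap (Pol K (d * (m * m))) _ (zp K m d) ^ l) +
          algebraMap (Pol K (d * (m * m))) _ (R σ) / algebraMap (Pol K (d * (m * m))) _ V)
    (r : ℕ) (hr : HasRk w g r) (s : ℕ) (ρ γ : Fin s → As w)
    (hI : ∀ a b, tr (fun i => Λ i (mix w (ρ a) (γ b) i)) = if a = b then 1 else 0) :
    s ≤ d * r := by
  obtain ⟨u, a, hu, ha⟩ := exists_weights K d
  obtain ⟨P, Q, hPQ⟩ := hr
  set p := pp K m d with hp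
  let al : Pol K (d * (m * m)) →+* FF K (d * (m * m)) := algebraMap _ _
  have hal : Function.Injective al := IsFractionRing.injective _ _
  have hzp : zp K m d = Polynomial.X - Polynomial.C p := rfl
  have hz0 : zp K m d ≠ 0 := Polynomial.X_sub_C_ne_zero p
  have hZ0 : al (zp K m d) ≠ 0 := fun h => hz0 (hal (by rw [h, map_zero]))
  have hVp : V.eval p ≠ 0 := fun h => hV (Polynomial.dvd_iff_isRoot.2 h)
  choose Φ hΦ using fun j => exists_F p (u j)⁻¹ (inv_ne_zero (hu j))
  have hΦ' : ∀ j G, Φ j (al G) = al (fs p (u j)⁻¹ G) := hΦ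
  have hcc : ∀ j, al (cc K _ (u j)⁻¹) = (cF K _ (u j))⁻¹ := by
    intro j
    have h1 : al (cc K _ (u j)⁻¹) * cF K _ (u j) = 1 := by
      show al (cc K _ (u j)⁻¹) * al (cc K _ (u j)) = 1
      rw [← map_mul, ← map_mul, inv_mul_cancel₀ (hu j), map_one, map_one]
    exact eq_inv_of_mul_eq_one_left h1
  have hcu : ∀ j, cF K (d * (m * m)) (u j) ≠ 0 := by
    intro j h
    have h1 : al (cc K _ (u j)) = 0 := h
    have h2 : cc K (d * (m * m)) (u j) = 0 := hal (by rw [h1, map_zero])
    exact hu j ((cc K (d * (m * m))).injective (by rw [h2, map_zero]))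
  have hΦz : ∀ j, Φ j (al (zp K m d)) = al (zp K m d) / cF K _ (u j) := by
    intro j
    rw [hΦ', hzp, fs_sub, map_mul, hcc, div_eq_mul_inv]
    exact mul_comm _ _
  have hΦC : ∀ j G, Φ j (al (Polynomial.C G)) = al (Polynomial.C G) := by
    intro j G
    rw [hΦ', fs_C]
  have hΦc : ∀ j x, Φ j (cF K _ x) = cF K _ x := by
    intro j x
    exact hΦC j (MvPolynomial.C x)
  -- the weights in the field
  have haF : ∀ l ∈ Finset.Icc 1 d, ∑ j, cF K (d * (m * m)) (a j) * cF K _ (u j) ^ l =
      if l = 1 then 1 else 0 := by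
    intro l hl
    have h1 := congrArg (fun x => cF K (d * (m * m)) x) (ha l hl)
    have h2 : ∀ x : K, cF K (d * (m * m)) x = (al.comp (cc K _)) x := fun _ => rfl
    simp only [h2, map_sum, map_mul, map_pow] at h1 ⊢
    rw [h1]
    split_ifs <;> simp
  -- the images of `g σ`
  have hgj : ∀ σ j, Φ j (g σ) =
      - (e : FF K (d * (m * m))) * cF K _ (tr fun i => Λ i (σ i)) / al (zp K m d) * cF K _ (u j) +
        (∑ l ∈ Finset.Icc 2 d, al (Polynomial.C (c σ l)) / al (zp K m d) ^ l * cF K _ (u j) ^ l) +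
        al (fs p (u j)⁻¹ (R σ)) / al (fs p (u j)⁻¹ V) := by
    intro σ j
    have h1 : g σ = - (e : FF K (d * (m * m))) * cF K _ (tr fun i => Λ i (σ i)) / al (zp K m d) +
          (∑ l ∈ Finset.Icc 2 d, al (Polynomial.C (c σ l)) / al (zp K m d) ^ l) +
          al (R σ) / al V := hg σ
    rw [h1]
    simp only [map_add, map_sum, map_div₀, map_mul, map_neg, map_natCast, map_pow, hΦz, hΦC, hΦc,
      hΦ']
    congr 1
    congr 1
    · have := hcu j
      field_simp
    · refine Finset.sum_congr rfl fun l _ => ?_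
      have := hcu j
      rw [div_pow]
      field_simp
  -- the combination
  have key : ∀ σ, al (zp K m d) * ∑ j, cF K _ (a j) * Φ j (g σ) =
      - (e : FF K (d * (m * m))) * cF K _ (tr fun i => Λ i (σ i)) +
        al (zp K m d) * ∑ j, cF K _ (a j) * (al (fs p (u j)⁻¹ (R σ)) / al (fs p (u j)⁻¹ V)) := by
    intro σ
    have h1 : ∑ j, cF K _ (a j) * Φ j (g σ) =
        - (e : FF K (d * (m * m))) * cF K _ (tr fun i => Λ i (σ i)) / al (zp K m d) *
            (∑ j, cF K _ (a j) * cF K _ (u j) ^ 1) +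
          (∑ l ∈ Finset.Icc 2 d, al (Polynomial.C (c σ l)) / al (zp K m d) ^ l *
            ∑ j, cF K _ (a j) * cF K _ (u j) ^ l) +
          ∑ j, cF K _ (a j) * (al (fs p (u j)⁻¹ (R σ)) / al (fs p (u j)⁻¹ V)) := by
      simp only [hgj, Finset.mul_sum, mul_add, Finset.sum_add_distrib]
      rw [Finset.sum_comm]
      congr 1
      congr 1
      · refine Finset.sum_congr rfl fun j _ => ?_
        ring
      · refine Finset.sum_congr rfl fun l _ => Finset.sum_congr rfl fun j _ => ?_
        ring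
    rw [h1, haF 1 (Finset.mem_Icc.2 ⟨le_rfl, hd⟩), if_pos rfl]
    have h2 : (∑ l ∈ Finset.Icc 2 d, al (Polynomial.C (c σ l)) / al (zp K m d) ^ l *
        ∑ j, cF K _ (a j) * cF K _ (u j) ^ l) = 0 := by
      refine Finset.sum_eq_zero fun l hl => ?_
      rw [Finset.mem_Icc] at hl
      rw [haF l (Finset.mem_Icc.2 ⟨by omega, hl.2⟩), if_neg (by omega), mul_zero]
    rw [h2, mul_one, add_zero, mul_add]
    congr 1
    field_simp
  -- the matrix of polynomials
  let W : Pol K (d * (m * m)) := ∏ j, fs p (u j)⁻¹ V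
  let T : As w → Pol K (d * (m * m)) := fun σ =>
    ∑ j, cc K _ (a j) * (fs p (u j)⁻¹ (R σ) * ∏ j' ∈ Finset.univ.erase j, fs p (u j')⁻¹ V)
  have hfV : ∀ j, al (fs p (u j)⁻¹ V) ≠ 0 := by
    intro j h
    have h1 : fs p (u j)⁻¹ V = 0 := hal (by rw [h, map_zero])
    have h2 := eval_fs p (u j)⁻¹ V
    rw [h1, Polynomial.eval_zero] at h2
    exact hVp h2.symm
  have hT : ∀ σ, al (T σ) = al W * ∑ j, cF K _ (a j) *
      (al (fs p (u j)⁻¹ (R σ)) / al (fs p (u j)⁻¹ V)) := by
    intro σ
    simp only [T, map_sum, Finset.mul_sum, map_mul]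
    refine Finset.sum_congr rfl fun j _ => ?_
    have h1 : al W = al (fs p (u j)⁻¹ V) * al (∏ j' ∈ Finset.univ.erase j, fs p (u j')⁻¹ V) := by
      rw [← map_mul]
      exact congrArg al (Finset.mul_prod_erase Finset.univ (fun j => fs p (u j)⁻¹ V)
        (Finset.mem_univ j)).symm
    rw [h1]
    have h2 := hfV j
    have h3 : cF K (d * (m * m)) (a j) = al (cc K _ (a j)) := rfl
    rw [h3]
    have h4 : al (fs p (u j)⁻¹ (R σ)) / al (fs p (u j)⁻¹ V) * al (fs p (u j)⁻¹ V) =
      al (fs p (u j)⁻¹ (R σ)) := div_mul_cancel₀ _ h2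
    linear_combination -(al (cc K _ (a j)) *
      al (∏ j' ∈ Finset.univ.erase j, fs p (u j')⁻¹ V)) * h4
  let M : Matrix (Fin s) (Fin s) (Pol K (d * (m * m))) := fun x y =>
    - (e : Pol K (d * (m * m))) * cc K _ (tr fun i => Λ i (mix w (ρ x) (γ y) i)) * W +
      zp K m d * T (mix w (ρ x) (γ y))
  have hM : ∀ x y, al (M x y) =
      al W * (al (zp K m d) * ∑ j, cF K _ (a j) * Φ j (g (mix w (ρ x) (γ y)))) := by
    intro x y
    rw [key]
    simp only [M, map_add, map_mul, map_neg, map_natCast, hT]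
    have h3 : cF K (d * (m * m)) (tr fun i => Λ i (mix w (ρ x) (γ y) i)) =
      al (cc K _ (tr fun i => Λ i (mix w (ρ x) (γ y) i))) := rfl
    rw [h3]
    ring
  -- the determinant is not zero
  have hWp : W.eval p ≠ 0 := by
    simp only [W, Polynomial.eval_prod, eval_fs]
    exact Finset.prod_ne_zero_iff.2 fun _ _ => hVp
  have hMe : (Polynomial.evalRingHom p).mapMatrix M =
      (- (e : MvPolynomial (Fin (d * (m * m))) K) * W.eval p) •
        (1 : Matrix (Fin s) (Fin s) (MvPolynomial (Fin (d * (m * m))) K)) := by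
    ext1 x y
    rw [RingHom.mapMatrix_apply, Matrix.map_apply, Matrix.smul_apply, Matrix.one_apply]
    simp only [M, hI, Polynomial.coe_evalRingHom, Polynomial.eval_add, Polynomial.eval_mul, hzp,
      Polynomial.eval_sub, Polynomial.eval_X, Polynomial.eval_C, sub_self, zero_mul, add_zero,
      Polynomial.eval_neg, Polynomial.eval_natCast, smul_eq_mul]
    split_ifs with h
    · simp
    · simp
  have hdetM : M.det ≠ 0 := by
    intro h
    have h1 := RingHom.map_det (Polynomial.evalRingHom p) M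
    rw [h, map_zero, hMe, Matrix.det_smul, Matrix.det_one, mul_one] at h1
    have h2 : - (e : MvPolynomial (Fin (d * (m * m))) K) * W.eval p ≠ 0 := by
      refine mul_ne_zero (neg_ne_zero.2 ?_) hWp
      exact Nat.cast_ne_zero.2 (by omega)
    exact pow_ne_zero _ h2 h1.symm
  have hdetF : (al.mapMatrix M).det ≠ 0 := by
    rw [← RingHom.map_det]
    exact fun h => hdetM (hal (by rw [h, map_zero]))
  -- the rank is at most `d * r`
  let A : Matrix (Fin s) (Fin d × Fin r) (FF K (d * (m * m))) := fun x jt =>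
    al W * al (zp K m d) * cF K _ (a jt.1) * Φ jt.1 (P (ρ x) jt.2)
  let B : Matrix (Fin d × Fin r) (Fin s) (FF K (d * (m * m))) := fun jt y => Φ jt.1 (Q (γ y) jt.2)
  have hAB : al.mapMatrix M = A * B := by
    ext1 x y
    rw [RingHom.mapMatrix_apply, Matrix.map_apply, hM, Matrix.mul_apply, Fintype.sum_prod_type,
      Finset.mul_sum, Finset.mul_sum]
    refine Finset.sum_congr rfl fun j _ => ?_
    rw [hPQ, map_sum, Finset.mul_sum, Finset.mul_sum, Finset.mul_sum]
    refine Finset.sum_congr rfl fun t _ => ?_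
    simp only [A, B, map_mul]
    ring
  have h1 : (al.mapMatrix M).rank = s := by
    rw [Matrix.rank_of_isUnit _ ((Matrix.isUnit_iff_isUnit_det _).2 (isUnit_iff_ne_zero.2 hdetF)),
      Fintype.card_fin]
  have h2 : (A * B).rank ≤ d * r := by
    refine (Matrix.rank_mul_le_left A B).trans ((Matrix.rank_le_card_width A).trans ?_)
    rw [Fintype.card_prod, Fintype.card_fin, Fintype.card_fin]
  rw [← hAB, h1] at h2
  exact h2

theorem lowBStatement : LowBStatement := by
  intro K _ m d w Λ g e V R c hd he hV hg r hr s ρ γ hI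
  exact lowB_of_charZero K m d w Λ g e V R c hd he hV hg r hr s ρ γ hI

end Pool.Agent.Lib.MP_641cb6_lc.CD
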