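import Pool.Agent.Lib.MP_641cb6_lc.CD.Defs
import Mathlib.Tactic

/-!
# Row NUM
-/

set_option autoImplicit false

namespace Pool.Agent.Lib.MP_641cb6_lc.CD

theorem rh_nonneg {M b η : ℝ} (hM : 1 ≤ M) (hb : 1 ≤ b) (hη : 0 ≤ η) (j : ℕ) :
    0 ≤ rh M b η j := by
  induction j with
  | zero => simp [rh]
  | succ j ih =>
    simp only [rh]
    positivity

theorem rh_le {M b η : ℝ} (hM : 1 ≤ M) (hb : 1 ≤ b) (hη : 0 ≤ η) (j : ℕ) :
    rh M b η j ≤ (3 * M ^ 2 * b ^ 2) ^ j * η := by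
  induction j with
  | zero => simpa [rh] using hη
  | succ j ih =>
    simp only [rh]
    have hM0 : 0 ≤ M := by linarith
    have hb0 : 0 ≤ b := by linarith
    have h1 : 1 ≤ M * b := by nlinarith
    have h2 : M * b ≤ M ^ 2 * b ^ 2 := by nlinarith
    have h3 : 1 ≤ M ^ 2 * b ^ 2 := by nlinarith
    have h4 : (1 : ℝ) ≤ (3 * M ^ 2 * b ^ 2) ^ j := one_le_pow₀ (by nlinarith)
    have h5 : η ≤ (3 * M ^ 2 * b ^ 2) ^ j * η := le_mul_of_one_le_left hη h4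
    have h6 : M * (b * (η + M * (b * (η + rh M b η j)))) =
        M * b * η + M ^ 2 * b ^ 2 * η + M ^ 2 * b ^ 2 * rh M b η j := by ring
    rw [h6]
    have h7 : M * b * η ≤ M ^ 2 * b ^ 2 * ((3 * M ^ 2 * b ^ 2) ^ j * η) :=
      mul_le_mul h2 h5 hη (by positivity)
    have h8 : M ^ 2 * b ^ 2 * η ≤ M ^ 2 * b ^ 2 * ((3 * M ^ 2 * b ^ 2) ^ j * η) :=
      mul_le_mul_of_nonneg_left h5 (by positivity)
    have h9 : M ^ 2 * b ^ 2 * rh M b η j ≤ M ^ 2 * b ^ 2 * ((3 * M ^ 2 * b ^ 2) ^ j * η) :=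
      mul_le_mul_of_nonneg_left ih (by positivity)
    calc _ ≤ 3 * (M ^ 2 * b ^ 2 * ((3 * M ^ 2 * b ^ 2) ^ j * η)) := by linarith
      _ = _ := by ring

/-- Row NUM. -/
theorem numStatement : NumStatement := by
  intro D c
  refine ⟨16 * (2 + 4 * D + 4 * D * c),
    24 * TT (16 * (2 + 4 * D + 4 * D * c)) D ^ 2 + 5 + TT (16 * (2 + 4 * D + 4 * D * c)) D,
    by omega, by omega, ?_⟩
  intro d hd m k hdk hm1 hm2
  have hd1 : 1 ≤ d := by omega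
  have hdd : d ≤ d ^ 2 := by nlinarith
  have hdk' : d ≤ k := hdd.trans hdk
  refine ⟨by omega, by omega, ?_⟩
  have hk1 : 1 ≤ k := hd1.trans hdk'
  set e : ℕ := 2 + 4 * D + 4 * D * c with he
  have hη : (2 : ℝ) ^ (-((k : ℝ) * ((16 * e : ℕ) : ℝ)) / 16) = ((2 : ℝ) ^ (k * e))⁻¹ := by
    rw [show -((k : ℝ) * ((16 * e : ℕ) : ℝ)) / 16 = -((k * e : ℕ) : ℝ) by push_cast; ring,
      Real.rpow_neg (by norm_num), Real.rpow_natCast]
  rw [hη]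
  have hm : (1 : ℝ) ≤ m := by
    have : 1 ≤ m := le_trans Nat.one_le_two_pow hm1
    exact_mod_cast this
  have hM1 : (1 : ℝ) ≤ (m : ℝ) ^ c := one_le_pow₀ hm
  have hb1 : (1 : ℝ) ≤ (2 : ℝ) ^ (d ^ 2) := one_le_pow₀ (by norm_num)
  have hM : (m : ℝ) ^ c ≤ (2 : ℝ) ^ (2 * k * c) := by
    have h1 : m ≤ 2 ^ (2 * k) := hm2.le.trans (Nat.pow_le_pow_right (by norm_num) (by omega))
    have h2 : (m : ℝ) ≤ (2 : ℝ) ^ (2 * k) := by exact_mod_cast h1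
    rw [pow_mul (2 : ℝ) (2 * k) c]
    exact pow_le_pow_left₀ (by positivity) h2 c
  have hb : (2 : ℝ) ^ (d ^ 2) ≤ (2 : ℝ) ^ k := pow_le_pow_right₀ (by norm_num) hdk
  have h3 : 3 * ((m : ℝ) ^ c) ^ 2 * ((2 : ℝ) ^ (d ^ 2)) ^ 2 ≤ (2 : ℝ) ^ (k * (4 + 4 * c)) := by
    have h4 : (3 : ℝ) ≤ (2 : ℝ) ^ (2 * k) := by
      have : (2 : ℝ) ^ 2 ≤ (2 : ℝ) ^ (2 * k) := pow_le_pow_right₀ (by norm_num) (by omega)
      linarith
    calc 3 * ((m : ℝ) ^ c) ^ 2 * ((2 : ℝ) ^ (d ^ 2)) ^ 2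
        ≤ (2 : ℝ) ^ (2 * k) * ((2 : ℝ) ^ (2 * k * c)) ^ 2 * ((2 : ℝ) ^ k) ^ 2 := by
          gcongr
      _ = (2 : ℝ) ^ (k * (4 + 4 * c)) := by
          rw [← pow_mul, ← pow_mul, ← pow_add, ← pow_add]
          congr 1
          ring
  have h5 := rh_le hM1 hb1 (η := ((2 : ℝ) ^ (k * e))⁻¹) (by positivity) D
  have h6 : (d : ℝ) ≤ (2 : ℝ) ^ k := by
    have : d < 2 ^ k := hdk'.trans_lt Nat.lt_two_pow_self
    exact_mod_cast this.le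
  have h7 : (d : ℝ) * rh ((m : ℝ) ^ c) (2 ^ (d ^ 2)) (((2 : ℝ) ^ (k * e))⁻¹) D ≤
      ((2 : ℝ) ^ k)⁻¹ := by
    calc (d : ℝ) * rh ((m : ℝ) ^ c) (2 ^ (d ^ 2)) (((2 : ℝ) ^ (k * e))⁻¹) D
        ≤ (2 : ℝ) ^ k * (((2 : ℝ) ^ (k * (4 + 4 * c))) ^ D * ((2 : ℝ) ^ (k * e))⁻¹) := by
          refine mul_le_mul h6 (h5.trans ?_) (rh_nonneg hM1 hb1 (by positivity) D) (by positivity)
          refine mul_le_mul_of_nonneg_right ?_ (by positivity)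
          exact pow_le_pow_left₀ (by positivity) h3 D
      _ = ((2 : ℝ) ^ k)⁻¹ := by
          rw [← pow_mul, ← mul_assoc, ← pow_add]
          rw [show k * e = k + k * (4 + 4 * c) * D + k by rw [he]; ring]
          rw [pow_add (2 : ℝ) (k + k * (4 + 4 * c) * D) k]
          field_simp
  refine h7.trans_lt ?_
  rw [← Real.rpow_natCast, ← Real.rpow_neg (by norm_num)]
  refine Real.rpow_lt_rpow_of_exponent_lt (by norm_num) ?_
  have : (1 : ℝ) ≤ k := by exact_mod_cast hk1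
  linarith

end Pool.Agent.Lib.MP_641cb6_lc.CD
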