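import Pool.Agent.Lib.MP_641cb6_lc.CD.Defs

/-!
# Constant nesting, row POLY: polynomials and inputs under the derivations
-/

set_option autoImplicit false

namespace Pool.Agent.Lib.MP_641cb6_lc.CD

open Pool.Agent.Lib.MP_641cb6_lc.KG (Pol cc)

namespace PolyRow

section Gen

variable {d : ℕ} {w : Fin d → ℤ} {F : Type} [Field F] (𝔇 : Der w F)

theorem D_zero (i : Fin d) (s : X w i) : 𝔇.D i s 0 = 0 := by
  have h := 𝔇.add i s 0 0
  simpa using h

theorem D_sum (i : Fin d) (s : X w i) {ι : Type*} (t : Finset ι) (f : ι → F) :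
    𝔇.D i s (∑ a ∈ t, f a) = ∑ a ∈ t, 𝔇.D i s (f a) := by
  classical
  induction t using Finset.induction_on with
  | empty => simp [D_zero]
  | insert a t ha ih => rw [Finset.sum_insert ha, Finset.sum_insert ha, 𝔇.add, ih]

theorem D_div {i : Fin d} {s : X w i} {f g : F} (hf : 𝔇.D i s f = 0) (hg : 𝔇.D i s g = 0) :
    𝔇.D i s (f / g) = 0 := by
  by_cases h0 : g = 0
  · rw [h0, div_zero, D_zero]
  · have h := 𝔇.mul i s (f / g) g
    rw [div_mul_cancel₀ f h0, hf, hg, mul_zero, add_zero] at h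
    rcases mul_eq_zero.1 h.symm with h1 | h1
    · exact h1
    · exact absurd h1 h0

theorem foldr_zero (σ : As w) (l : List (Fin d)) :
    l.foldr (fun i g => 𝔇.D i (σ i) g) 0 = 0 := by
  induction l with
  | nil => rfl
  | cons j l ih => rw [List.foldr_cons, ih, D_zero]

theorem foldr_const (σ : As w) {g : F} (l : List (Fin d)) (hl : l ≠ [])
    (h : ∀ j ∈ l, 𝔇.D j (σ j) g = 0) : l.foldr (fun i g => 𝔇.D i (σ i) g) g = 0 := by
  induction l with
  | nil => exact absurd rfl hl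
  | cons j l ih =>
    rw [List.foldr_cons]
    by_cases h1 : l = []
    · rw [h1, List.foldr_nil]
      exact h j (by simp)
    · rw [ih h1 fun k hk => h k (List.mem_cons_of_mem _ hk), D_zero]

theorem DB_const (σ : As w) {g : F} {B : Finset (Fin d)} (hB : B.Nonempty)
    (h : ∀ j ∈ B, 𝔇.D j (σ j) g = 0) : DB 𝔇 B σ g = 0 := by
  refine foldr_const 𝔇 σ _ ?_ ?_
  · obtain ⟨j, hj⟩ := hB
    intro h0
    have h1 : j ∈ (List.finRange d).filter (· ∈ B) :=
      List.mem_filter.2 ⟨List.mem_finRange j, by simpa using hj⟩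
    rw [h0] at h1
    simp at h1
  · intro j hj
    have h1 := (List.mem_filter.1 hj).2
    exact h j (by simpa using h1)

theorem zf_of {f : F} (hf : f ≠ 0)
    (h : ∀ i j s t, j ≠ i → 𝔇.D j t (𝔇.D i s f / f) = 0) : Zf 𝔇 f := by
  refine ⟨hf, fun i B σ hi hB => ?_⟩
  refine DB_const 𝔇 σ hB fun j hj => ?_
  exact h i j (σ i) (σ j) fun hji => hi (hji ▸ hj)

/-- the derivative of a matrix -/
def DM {m : ℕ} (i : Fin d) (s : X w i) (A : Matrix (Fin m) (Fin m) F) : Matrix (Fin m) (Fin m) F :=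
  fun a b => 𝔇.D i s (A a b)

theorem DM_mul {m : ℕ} (i : Fin d) (s : X w i) (A B : Matrix (Fin m) (Fin m) F) :
    DM 𝔇 i s (A * B) = DM 𝔇 i s A * B + A * DM 𝔇 i s B := by
  ext a b
  simp only [DM, Matrix.add_apply, Matrix.mul_apply]
  rw [D_sum, ← Finset.sum_add_distrib]
  exact Finset.sum_congr rfl fun c _ => 𝔇.mul i s _ _

theorem D_one (i : Fin d) (s : X w i) : 𝔇.D i s 1 = 0 := by
  have h := 𝔇.mul i s 1 1
  simpa using h

theorem DM_one {m : ℕ} (i : Fin d) (s : X w i) :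
    DM 𝔇 i s (1 : Matrix (Fin m) (Fin m) F) = 0 := by
  ext a b
  by_cases h : a = b
  · subst h
    simp [DM, D_one]
  · simp [DM, Matrix.one_apply_ne h, D_zero]

theorem DM_prod_not {m : ℕ} (i : Fin d) (s : X w i) (A : Fin d → Matrix (Fin m) (Fin m) F)
    (l : List (Fin d)) (h : ∀ t ∈ l, DM 𝔇 i s (A t) = 0) :
    DM 𝔇 i s (l.map A).prod = 0 := by
  induction l with
  | nil => exact DM_one 𝔇 i s
  | cons t l ih =>
    rw [List.map_cons, List.prod_cons, DM_mul, h t (by simp), ih fun t ht =>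
      h t (List.mem_cons_of_mem _ ht), zero_mul, mul_zero, add_zero]

theorem DM_prod {m : ℕ} (i : Fin d) (s : X w i) (A : Fin d → Matrix (Fin m) (Fin m) F)
    (h : ∀ t, t ≠ i → DM 𝔇 i s (A t) = 0) (l : List (Fin d)) (hl : l.Nodup) (hi : i ∈ l) :
    DM 𝔇 i s (l.map A).prod =
      (l.map (Function.update A i (DM 𝔇 i s (A i)))).prod := by
  induction l with
  | nil => simp at hi
  | cons t l ih =>
    rw [List.map_cons, List.prod_cons, DM_mul, List.map_cons, List.prod_cons]
    obtain ⟨h1, h2⟩ := List.nodup_cons.1 hl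
    by_cases hti : t = i
    · subst hti
      have h3 : DM 𝔇 t s (l.map A).prod = 0 :=
        DM_prod_not 𝔇 t s A l fun u hu => h u fun hut => h1 (hut ▸ hu)
      have h4 : l.map (Function.update A t (DM 𝔇 t s (A t))) = l.map A :=
        List.map_congr_left fun u hu =>
          Function.update_of_ne (fun hut : u = t => h1 (hut ▸ hu)) _ _
      rw [h3, mul_zero, add_zero, h4, Function.update_self]
    · have h3 : i ∈ l := by
        rcases List.mem_cons.1 hi with h3 | h3
        · exact absurd h3.symm hti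
        · exact h3
      rw [h t hti, zero_mul, zero_add, ih h2 h3, Function.update_of_ne hti]

theorem D_trace {m : ℕ} (i : Fin d) (s : X w i) (A : Matrix (Fin m) (Fin m) F) :
    𝔇.D i s A.trace = (DM 𝔇 i s A).trace := by
  simp only [Matrix.trace, Matrix.diag]
  exact D_sum 𝔇 i s _ _

theorem D_tr {m : ℕ} (i : Fin d) (s : X w i) (A : Fin d → Matrix (Fin m) (Fin m) F)
    (h : ∀ t, t ≠ i → DM 𝔇 i s (A t) = 0) :
    𝔇.D i s (tr A) = tr (Function.update A i (DM 𝔇 i s (A i))) := by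
  rw [tr, tr, D_trace, List.ofFn_eq_map, List.ofFn_eq_map,
    DM_prod 𝔇 i s A h _ (List.nodup_finRange d) (List.mem_finRange i)]

theorem foldr_tr {m : ℕ} (σ : As w) (A B : Fin d → Matrix (Fin m) (Fin m) F)
    (hA : ∀ i t, t ≠ i → DM 𝔇 i (σ i) (A t) = 0) (hAB : ∀ i, DM 𝔇 i (σ i) (A i) = B i)
    (hB : ∀ i t, DM 𝔇 i (σ i) (B t) = 0) (l : List (Fin d)) (hl : l.Nodup) :
    l.foldr (fun i g => 𝔇.D i (σ i) g) (tr A) = tr fun t => if t ∈ l then B t else A t := by
  induction l with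
  | nil => simp
  | cons i l ih =>
    obtain ⟨h1, h2⟩ := List.nodup_cons.1 hl
    rw [List.foldr_cons, ih h2, D_tr]
    · congr 1
      funext t
      by_cases hti : t = i
      · subst hti
        rw [Function.update_self]
        simp only [h1, if_false, List.mem_cons, true_or, if_true]
        exact hAB t
      · rw [Function.update_of_ne hti]
        simp only [List.mem_cons, hti, false_or]
    · intro t ht
      by_cases h3 : t ∈ l
      · simp only [h3, if_true]
        exact hB i t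
      · simp only [h3, if_false]
        exact hA i t ht

theorem DB_tr {m : ℕ} (σ : As w) (A B : Fin d → Matrix (Fin m) (Fin m) F)
    (hA : ∀ i t, t ≠ i → DM 𝔇 i (σ i) (A t) = 0) (hAB : ∀ i, DM 𝔇 i (σ i) (A i) = B i)
    (hB : ∀ i t, DM 𝔇 i (σ i) (B t) = 0) : DB 𝔇 Finset.univ σ (tr A) = tr B := by
  have h := foldr_tr 𝔇 σ A B hA hAB hB ((List.finRange d).filter (· ∈ (Finset.univ : Finset (Fin d))))
    ((List.nodup_finRange d).filter _)
  rw [DB, h]
  congr 1
  funext t
  rw [if_pos]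
  exact List.mem_filter.2 ⟨List.mem_finRange t, by simp⟩

end Gen

theorem map_tr {R S : Type} [CommRing R] [CommRing S] (f : R →+* S) {m d : ℕ}
    (A : Fin d → Matrix (Fin m) (Fin m) R) : f (tr A) = tr fun t => (A t).map f := by
  rw [tr, tr, ← RingHom.coe_coe f, AddMonoidHom.map_trace]
  rw [List.ofFn_eq_map, List.ofFn_eq_map]
  have h : ∀ l : List (Fin d), ((l.map A).prod).map f = (l.map fun t => (A t).map f).prod := by
    intro l
    induction l with
    | nil => simp
    | cons t l ih => rw [List.map_cons, List.prod_cons, List.map_cons, List.prod_cons,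
        Matrix.map_mul, ih]
  exact congrArg Matrix.trace (h _)

section Spec

variable {K : Type} [Field K] {m d : ℕ} {w : Fin d → ℤ}
  {Λ : ∀ i, X w i → Matrix (Fin m) (Fin m) K} {𝔇 : Der w (FF K (d * (m * m)))}

theorem exists_ix (l : Fin (d * (m * m))) : ∃ (t : Fin d) (a b : Fin m), l = ix t a b := by
  refine ⟨(finProdFinEquiv.symm l).1, (finProdFinEquiv.symm (finProdFinEquiv.symm l).2).1,
    (finProdFinEquiv.symm (finProdFinEquiv.symm l).2).2, ?_⟩
  rw [ix, Prod.mk.eta, Equiv.apply_symm_apply, Prod.mk.eta, Equiv.apply_symm_apply]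

theorem mv (h : IsDir Λ 𝔇) (i : Fin d) (s : X w i) (P : MvPolynomial (Fin (d * (m * m))) K) :
    ∃ Q : MvPolynomial (Fin (d * (m * m))) K,
      𝔇.D i s (algebraMap (Pol K (d * (m * m))) _ (Polynomial.C P)) =
        algebraMap (Pol K (d * (m * m))) _ (Polynomial.C Q) := by
  induction P using MvPolynomial.induction_on with
  | C c =>
    refine ⟨0, ?_⟩
    rw [map_zero, map_zero]
    exact h.const i s c
  | add P₁ P₂ h₁ h₂ =>
    obtain ⟨Q₁, h₁⟩ := h₁
    obtain ⟨Q₂, h₂⟩ := h₂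
    refine ⟨Q₁ + Q₂, ?_⟩
    rw [map_add, map_add, 𝔇.add, h₁, h₂, map_add, map_add]
  | mul_X P l h₁ =>
    obtain ⟨Q, h₁⟩ := h₁
    obtain ⟨t, a, b, rfl⟩ := exists_ix l
    have hx : 𝔇.D i s (algebraMap (Pol K (d * (m * m))) _
        (Polynomial.C (MvPolynomial.X (ix t a b)))) = if t = i then cF K _ (Λ i s a b) else 0 :=
      h.x i s t a b
    rw [map_mul, map_mul, 𝔇.mul, h₁, hx]
    by_cases ht : t = i
    · refine ⟨Q * MvPolynomial.X (ix t a b) + P * MvPolynomial.C (Λ i s a b), ?_⟩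
      rw [if_pos ht, map_add, map_add, map_mul, map_mul, map_mul, map_mul]
      rfl
    · refine ⟨Q * MvPolynomial.X (ix t a b), ?_⟩
      rw [if_neg ht, mul_zero, add_zero, map_mul, map_mul]

theorem pol (h : IsDir Λ 𝔇) (i : Fin d) (s : X w i) (P : Pol K (d * (m * m))) :
    ∃ Q : Pol K (d * (m * m)), 𝔇.D i s (algebraMap _ _ P) = algebraMap _ _ Q := by
  induction P using Polynomial.induction_on with
  | C a =>
    obtain ⟨Q, hQ⟩ := mv h i s a
    exact ⟨Polynomial.C Q, hQ⟩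
  | add P₁ P₂ h₁ h₂ =>
    obtain ⟨Q₁, h₁⟩ := h₁
    obtain ⟨Q₂, h₂⟩ := h₂
    refine ⟨Q₁ + Q₂, ?_⟩
    rw [map_add, 𝔇.add, h₁, h₂, map_add]
  | monomial n a h₁ =>
    obtain ⟨Q, h₁⟩ := h₁
    have hz : 𝔇.D i s (algebraMap (Pol K (d * (m * m))) _ Polynomial.X) = 0 := h.z i s
    refine ⟨Q * Polynomial.X, ?_⟩
    have he : Polynomial.C a * Polynomial.X ^ (n + 1) =
        (Polynomial.C a * Polynomial.X ^ n) * Polynomial.X := by
      rw [pow_succ, mul_assoc]
    rw [he, map_mul, 𝔇.mul, h₁, hz, mul_zero, add_zero, map_mul]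

theorem inj : Function.Injective (algebraMap (Pol K (d * (m * m))) (FF K (d * (m * m)))) :=
  IsFractionRing.injective _ _

theorem xF_ne (l : Fin (d * (m * m))) : xF K l ≠ 0 := by
  intro h0
  have h1 : (Polynomial.C (MvPolynomial.X l) : Pol K (d * (m * m))) = 0 :=
    inj (by rw [map_zero]; exact h0)
  exact MvPolynomial.X_ne_zero l (Polynomial.C_eq_zero.1 h1)

theorem zx (h : IsDir Λ 𝔇) (l : Fin (d * (m * m))) : Zf 𝔇 (xF K l) := by
  refine zf_of 𝔇 (xF_ne l) fun i j s t hji => ?_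
  obtain ⟨u, a, b, rfl⟩ := exists_ix l
  rw [h.x]
  by_cases hu : u = i
  · rw [if_pos hu]
    refine D_div 𝔇 (h.const j t _) ?_
    rw [h.x, if_neg fun hj => hji (hj.symm.trans hu)]
  · rw [if_neg hu, zero_div, D_zero]

theorem zz (h : IsDir Λ 𝔇) : Zf 𝔇 (zF K _) := by
  refine zf_of 𝔇 ?_ fun i j s t _ => ?_
  · intro h0
    exact Polynomial.X_ne_zero (inj (by rw [map_zero]; exact h0))
  · rw [h.z, zero_div, D_zero]

theorem zc (h : IsDir Λ 𝔇) (c : K) (hc : c ≠ 0) : Zf 𝔇 (cF K _ c) := by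
  refine zf_of 𝔇 ?_ fun i j s t _ => ?_
  · intro h0
    have h1 : cc K (d * (m * m)) c = 0 := inj (by rw [map_zero]; exact h0)
    exact hc ((map_eq_zero (cc K (d * (m * m)))).1 h1)
  · rw [h.const, zero_div, D_zero]

theorem full (h : IsDir Λ 𝔇) (σ : As w) :
    DB 𝔇 Finset.univ σ (algebraMap (Pol K (d * (m * m))) _ (Polynomial.C (pp K m d))) =
      cF K _ (tr fun i => Λ i (σ i)) := by
  have h1 : algebraMap (Pol K (d * (m * m))) (FF K (d * (m * m))) (Polynomial.C (pp K m d)) =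
      tr fun t => ((mat (MvPolynomial.X (R := K)) t).map
        ((algebraMap (Pol K (d * (m * m))) (FF K (d * (m * m)))).comp Polynomial.C)) :=
    map_tr ((algebraMap (Pol K (d * (m * m))) (FF K (d * (m * m)))).comp Polynomial.C) _
  have h2 : cF K (d * (m * m)) (tr fun i => Λ i (σ i)) = tr fun t => (Λ t (σ t)).map
        ((algebraMap (Pol K (d * (m * m))) (FF K (d * (m * m)))).comp (cc K (d * (m * m)))) :=
    map_tr ((algebraMap (Pol K (d * (m * m))) (FF K (d * (m * m)))).comp (cc K (d * (m * m)))) _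
  rw [h1, h2]
  refine DB_tr 𝔇 σ _ _ ?_ ?_ ?_
  · intro i t hti
    ext a b
    have h3 := h.x i (σ i) t a b
    rw [if_neg hti] at h3
    exact h3
  · intro i
    ext a b
    have h3 := h.x i (σ i) i a b
    rw [if_pos rfl] at h3
    exact h3
  · intro i t
    ext a b
    exact h.const i (σ i) (Λ t (σ t) a b)

end Spec

end PolyRow

/-- Row POLY. -/
theorem polyStatement : PolyStatement where
  pol := fun _ _ _ _ _ _ _ h i s P => PolyRow.pol h i s P
  mv := fun _ _ _ _ _ _ _ h i s P => PolyRow.mv h i s P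
  zx := fun _ _ _ _ _ _ _ h l => PolyRow.zx h l
  zz := fun _ _ _ _ _ _ _ h => PolyRow.zz h
  zc := fun _ _ _ _ _ _ _ h c hc => PolyRow.zc h c hc
  full := fun _ _ _ _ _ _ _ h σ => PolyRow.full h σ

end Pool.Agent.Lib.MP_641cb6_lc.CD
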