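import Pool.Agent.Lib.MP_641cb6_lc.CD.Defs

/-!
# Constant nesting: rules for the relative rank
-/

set_option autoImplicit false

namespace Pool.Agent.Lib.MP_641cb6_lc.CD

section

variable {d : ℕ} {w : Fin d → ℤ} {F : Type} [Field F]

/-- a factorization with any finite index type -/
theorem hasRk_of {ι : Type} [Fintype ι] {g : As w → F} (P Q : As w → ι → F)
    (h : ∀ ρ γ, g (mix w ρ γ) = ∑ t, P ρ t * Q γ t) : HasRk w g (Fintype.card ι) := by
  refine ⟨fun ρ t => P ρ ((Fintype.equivFin ι).symm t), fun γ t => Q γ ((Fintype.equivFin ι).symm t),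
    fun ρ γ => ?_⟩
  rw [h]
  exact (Equiv.sum_comp (Fintype.equivFin ι).symm (fun t => P ρ t * Q γ t)).symm

theorem sq_nonneg' (w : Fin d → ℤ) (B : Finset (Fin d)) : 0 ≤ sq w B :=
  Finset.prod_nonneg fun _ _ => Real.rpow_nonneg (by norm_num) _

theorem sq_eq (w : Fin d → ℤ) (B : Finset (Fin d)) :
    sq w B = (2 : ℝ) ^ ((∑ i ∈ B, ((w i).natAbs : ℝ)) / 2) := by
  unfold sq
  rw [Finset.sum_div, Real.rpow_sum_of_pos (by norm_num)]

theorem sq_union (w : Fin d → ℤ) {B C : Finset (Fin d)} (h : Disjoint B C) :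
    sq w (B ∪ C) = sq w B * sq w C := Finset.prod_union h

/-- the number of assignments on `I` -/
theorem card_pi (w : Fin d → ℤ) (I : Finset (Fin d)) :
    Fintype.card (∀ i : I, X w i.1) = 2 ^ ∑ i ∈ I, (w i).natAbs := by
  rw [Fintype.card_pi, ← Finset.prod_pow_eq_pow_sum, ← Finset.prod_coe_sort I]
  refine Finset.prod_congr rfl fun i _ => ?_
  exact Fintype.card_fin _

/-- the extension of an assignment on `I` -/
def ext0 (w : Fin d → ℤ) (I : Finset (Fin d)) (a : ∀ i : I, X w i.1) : As w := fun i =>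
  if h : i ∈ I then a ⟨i, h⟩ else ⟨0, Nat.two_pow_pos _⟩

theorem hasRk_pos (B : Finset (Fin d)) (f : As w → F) (h : Dep w B f) :
    HasRk w f (2 ^ ∑ i ∈ B.filter (fun i => 0 < w i), (w i).natAbs) := by
  classical
  rw [← card_pi]
  refine hasRk_of (fun ρ a => if (fun i : (B.filter fun i => 0 < w i) => ρ i.1) = a then 1 else 0)
    (fun γ a => f (mix w (ext0 w _ a) γ)) fun ρ γ => ?_
  simp only [ite_mul, one_mul, zero_mul, Finset.sum_ite_eq, Finset.mem_univ, if_true]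
  refine h _ _ fun i hi => ?_
  unfold mix
  by_cases hw : 0 < w i
  · rw [if_pos hw, if_pos hw, ext0, dif_pos (Finset.mem_filter.2 ⟨hi, hw⟩)]
  · rw [if_neg hw, if_neg hw]

theorem hasRk_neg (B : Finset (Fin d)) (f : As w → F) (h : Dep w B f) :
    HasRk w f (2 ^ ∑ i ∈ B.filter (fun i => ¬ 0 < w i), (w i).natAbs) := by
  classical
  rw [← card_pi]
  refine hasRk_of (fun ρ a => f (mix w ρ (ext0 w _ a)))
    (fun γ a => if (fun i : (B.filter fun i => ¬ 0 < w i) => γ i.1) = a then 1 else 0)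
    fun ρ γ => ?_
  simp only [mul_ite, mul_one, mul_zero, Finset.sum_ite_eq, Finset.mem_univ, if_true]
  refine h _ _ fun i hi => ?_
  unfold mix
  by_cases hw : 0 < w i
  · rw [if_pos hw, if_pos hw]
  · rw [if_neg hw, if_neg hw, ext0, dif_pos (Finset.mem_filter.2 ⟨hi, hw⟩)]

theorem rk_triv (B : Finset (Fin d)) (f : As w → F) (h : Dep w B f) : Rk w B f (hh w B) := by
  set p : ℕ := ∑ i ∈ B.filter (fun i => 0 < w i), (w i).natAbs with hp
  set q : ℕ := ∑ i ∈ B.filter (fun i => ¬ 0 < w i), (w i).natAbs with hq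
  have e1 : (∑ i ∈ B, (w i : ℝ)) = (p : ℝ) - q := by
    rw [← Finset.sum_filter_add_sum_filter_not B (fun i => 0 < w i), hp, hq, sub_eq_add_neg]
    push_cast
    rw [← Finset.sum_neg_distrib]
    congr 1
    · refine Finset.sum_congr rfl fun i hi => ?_
      have h1 := (Finset.mem_filter.1 hi).2
      have h2 : ((w i).natAbs : ℤ) = w i := Int.natAbs_of_nonneg h1.le
      have h3 : ((w i).natAbs : ℝ) = (w i : ℝ) := by rw [← Int.cast_natCast, h2]
      exact h3.symm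
    · refine Finset.sum_congr rfl fun i hi => ?_
      have h1 := (Finset.mem_filter.1 hi).2
      have h2 : ((w i).natAbs : ℤ) = -w i := Int.ofNat_natAbs_of_nonpos (not_lt.1 h1)
      have h3 : ((w i).natAbs : ℝ) = -(w i : ℝ) := by rw [← Int.cast_natCast, h2, Int.cast_neg]
      rw [h3, neg_neg]
  have e2 : (∑ i ∈ B, ((w i).natAbs : ℝ)) = (p : ℝ) + q := by
    rw [← Finset.sum_filter_add_sum_filter_not B (fun i => 0 < w i), hp, hq]
    push_cast
    rfl
  have e3 : hh w B * sq w B = (2 : ℝ) ^ (((p : ℝ) + q - |(p : ℝ) - q|) / 2) := by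
    rw [hh, sq_eq, e1, e2, ← Real.rpow_add (by norm_num)]
    congr 1
    ring
  rcases le_total p q with hpq | hpq
  · refine ⟨2 ^ p, hasRk_pos B f h, ?_⟩
    have h1 : (p : ℝ) ≤ q := by exact_mod_cast hpq
    rw [e3, abs_of_nonpos (by linarith)]
    have h2 : ((p : ℝ) + q - -((p : ℝ) - q)) / 2 = (p : ℝ) := by ring
    rw [h2, Real.rpow_natCast]
    push_cast
    exact le_rfl
  · refine ⟨2 ^ q, hasRk_neg B f h, ?_⟩
    have h1 : (q : ℝ) ≤ p := by exact_mod_cast hpq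
    rw [e3, abs_of_nonneg (by linarith)]
    have h2 : ((p : ℝ) + q - ((p : ℝ) - q)) / 2 = (q : ℝ) := by ring
    rw [h2, Real.rpow_natCast]
    push_cast
    exact le_rfl

theorem rk_mono {B : Finset (Fin d)} {f : As w → F} {x y : ℝ} (h : Rk w B f x) (hxy : x ≤ y) :
    Rk w B f y := by
  obtain ⟨r, h1, h2⟩ := h
  exact ⟨r, h1, h2.trans (mul_le_mul_of_nonneg_right hxy (sq_nonneg' w B))⟩

theorem rk_zero (B : Finset (Fin d)) : Rk w B (fun _ => (0 : F)) 0 :=
  ⟨0, ⟨fun _ _ => 0, fun _ _ => 0, fun _ _ => by simp⟩, by simp⟩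

theorem rk_one (c : F) : Rk w ∅ (fun _ => c) 1 :=
  ⟨1, ⟨fun _ _ => c, fun _ _ => 1, fun _ _ => by simp⟩, by simp [sq]⟩

theorem rk_smul {B : Finset (Fin d)} {f : As w → F} {x : ℝ} (c : F) (h : Rk w B f x) :
    Rk w B (fun σ => c * f σ) x := by
  obtain ⟨r, ⟨P, Q, h1⟩, h2⟩ := h
  refine ⟨r, ⟨fun ρ t => c * P ρ t, Q, fun ρ γ => ?_⟩, h2⟩
  show c * f (mix w ρ γ) = ∑ t, c * P ρ t * Q γ t
  rw [h1, Finset.mul_sum]
  exact Finset.sum_congr rfl fun t _ => (mul_assoc _ _ _).symm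

theorem rk_add {B : Finset (Fin d)} {f g : As w → F} {x y : ℝ} (hf : Rk w B f x)
    (hg : Rk w B g y) : Rk w B (fun σ => f σ + g σ) (x + y) := by
  obtain ⟨r, ⟨P, Q, h1⟩, h2⟩ := hf
  obtain ⟨s, ⟨P', Q', h1'⟩, h2'⟩ := hg
  refine ⟨r + s, ?_, ?_⟩
  · have h3 := hasRk_of (w := w) (g := fun σ => f σ + g σ) (ι := Fin r ⊕ Fin s)
      (fun ρ t => Sum.elim (P ρ) (P' ρ) t) (fun γ t => Sum.elim (Q γ) (Q' γ) t) fun ρ γ => by
        rw [Fintype.sum_sum_type]
        simp only [Sum.elim_inl, Sum.elim_inr]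
        rw [h1, h1']
    simpa using h3
  · push_cast
    rw [add_mul]
    exact add_le_add h2 h2'

theorem rk_mul {B C : Finset (Fin d)} {f g : As w → F} {x y : ℝ} (hBC : Disjoint B C)
    (hx : 0 ≤ x) (hf : Rk w B f x) (hg : Rk w C g y) :
    Rk w (B ∪ C) (fun σ => f σ * g σ) (x * y) := by
  obtain ⟨r, ⟨P, Q, h1⟩, h2⟩ := hf
  obtain ⟨s, ⟨P', Q', h1'⟩, h2'⟩ := hg
  refine ⟨r * s, ?_, ?_⟩
  · have h3 := hasRk_of (w := w) (g := fun σ => f σ * g σ) (ι := Fin r × Fin s)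
      (fun ρ t => P ρ t.1 * P' ρ t.2) (fun γ t => Q γ t.1 * Q' γ t.2) fun ρ γ => by
        rw [Fintype.sum_prod_type, h1, h1', Finset.sum_mul_sum]
        refine Finset.sum_congr rfl fun a _ => Finset.sum_congr rfl fun b _ => ?_
        ring
    simpa using h3
  · push_cast
    rw [sq_union w hBC]
    calc (r : ℝ) * s ≤ (x * sq w B) * (y * sq w C) :=
          mul_le_mul h2 h2' (Nat.cast_nonneg _) (mul_nonneg hx (sq_nonneg' w B))
      _ = x * y * (sq w B * sq w C) := by ring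

theorem rk_sum {B : Finset (Fin d)} {ι : Type} (s : Finset ι) (f : ι → As w → F) (x : ι → ℝ)
    (h : ∀ a ∈ s, Rk w B (f a) (x a)) : Rk w B (fun σ => ∑ a ∈ s, f a σ) (∑ a ∈ s, x a) := by
  classical
  induction s using Finset.induction_on with
  | empty => simpa using rk_zero B
  | insert a s ha ih =>
    have h1 := rk_add (h a (Finset.mem_insert_self _ _))
      (ih fun b hb => h b (Finset.mem_insert_of_mem hb))
    simpa only [Finset.sum_insert ha] using h1

end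

/-- **Row RANK.** -/
theorem rankStatement : RankStatement where
  mono _ _ _ _ _ _ _ _ h hxy := rk_mono h hxy
  zero _ _ _ _ B := rk_zero B
  one _ _ _ _ c := rk_one c
  smul _ _ _ _ _ _ _ c h := rk_smul c h
  add _ _ _ _ _ _ _ _ _ hf hg := rk_add hf hg
  sum _ _ _ _ _ _ s f x h := rk_sum s f x h
  mul _ _ _ _ _ _ _ _ _ _ hBC hx _ hf hg := rk_mul hBC hx hf hg
  triv _ _ _ _ B f h := rk_triv B f h

end Pool.Agent.Lib.MP_641cb6_lc.CD
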