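import Pool.Agent.Lib.MP_641cb6_lc.CD.Model
import Mathlib.Analysis.RCLike.Basic
import Mathlib.Analysis.SpecialFunctions.Pow.Real
import Mathlib.RingTheory.Localization.FractionRing

/-!
# Constant nesting: definitions and the statements of the rows
-/

set_option autoImplicit false

namespace Pool.Agent.Lib.MP_641cb6_lc.CD

open Pool.Agent.Lib.MP_641cb6_lc.KG (Ins GTree Pol St SSt pf cc sym deps Branches Decides)
open Filter Topology

/-! ### words -/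

/-- the sum of the first `t` letters -/
def pre {d : ℕ} (w : Fin d → ℤ) (t : ℕ) : ℤ := ∑ i : Fin d, if (i : ℕ) < t then w i else 0

/-- all prefix sums are small, and the sum over a nonempty set of at most `t` letters is large -/
structure IsWord {d : ℕ} (w : Fin d → ℤ) (k t : ℕ) : Prop where
  bd : ∀ t, |pre w t| ≤ k
  sgn : ∀ i, 0 < w i ↔ pre w i ≤ 0
  big : ∀ B : Finset (Fin d), B.Nonempty → B.card ≤ t →
    (k : ℤ) ≤ 8 * B.card * |∑ i ∈ B, w i|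

/-- Row WORD. `w i = Nat.sqrt (k ^ 2 / 2)` if `pre w i ≤ 0`, else `-k`. -/
def WordStatement : Prop := ∀ d k t : ℕ, 24 * t ^ 2 + 5 ≤ k → ∃ w : Fin d → ℤ, IsWord w k t

/-! ### assignments and ranks -/

section Rank

variable {d : ℕ}

/-- the directions in the block `i` -/
abbrev X (w : Fin d → ℤ) (i : Fin d) : Type := Fin (2 ^ (w i).natAbs)

/-- an assignment: one direction in each block -/
abbrev As (w : Fin d → ℤ) : Type := ∀ i, X w i

/-- the assignment that is `ρ` on the positive blocks and `γ` on the others -/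
def mix (w : Fin d → ℤ) (ρ γ : As w) : As w := fun i => if 0 < w i then ρ i else γ i

/-- the matrix `g (mix ρ γ)` has rank at most `r` -/
def HasRk {F : Type} [Field F] (w : Fin d → ℤ) (g : As w → F) (r : ℕ) : Prop :=
  ∃ P Q : As w → Fin r → F, ∀ ρ γ, g (mix w ρ γ) = ∑ t, P ρ t * Q γ t

/-- the square root of the number of assignments on `B` -/
noncomputable def sq (w : Fin d → ℤ) (B : Finset (Fin d)) : ℝ :=
  ∏ i ∈ B, (2 : ℝ) ^ (((w i).natAbs : ℝ) / 2)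

/-- the relative rank is at most `x` -/
def Rk {F : Type} [Field F] (w : Fin d → ℤ) (B : Finset (Fin d)) (g : As w → F) (x : ℝ) : Prop :=
  ∃ r : ℕ, HasRk w g r ∧ (r : ℝ) ≤ x * sq w B

/-- `g` depends only on the blocks in `B` -/
def Dep {F : Type} (w : Fin d → ℤ) (B : Finset (Fin d)) (g : As w → F) : Prop :=
  ∀ σ τ : As w, (∀ i ∈ B, σ i = τ i) → g σ = g τ

/-- the trivial bound -/
noncomputable def hh (w : Fin d → ℤ) (B : Finset (Fin d)) : ℝ :=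
  (2 : ℝ) ^ (-(|∑ i ∈ B, (w i : ℝ)|) / 2)

/-- Row RANK: rules for the relative rank. -/
structure RankStatement : Prop where
  mono : ∀ (d : ℕ) (w : Fin d → ℤ) (F : Type) [Field F] (B : Finset (Fin d)) (f : As w → F)
    (x y : ℝ), Rk w B f x → x ≤ y → Rk w B f y
  zero : ∀ (d : ℕ) (w : Fin d → ℤ) (F : Type) [Field F] (B : Finset (Fin d)),
    Rk w B (fun _ => (0 : F)) 0
  one : ∀ (d : ℕ) (w : Fin d → ℤ) (F : Type) [Field F] (c : F), Rk w ∅ (fun _ => c) 1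
  smul : ∀ (d : ℕ) (w : Fin d → ℤ) (F : Type) [Field F] (B : Finset (Fin d)) (f : As w → F)
    (x : ℝ) (c : F), Rk w B f x → Rk w B (fun σ => c * f σ) x
  add : ∀ (d : ℕ) (w : Fin d → ℤ) (F : Type) [Field F] (B : Finset (Fin d)) (f g : As w → F)
    (x y : ℝ), Rk w B f x → Rk w B g y → Rk w B (fun σ => f σ + g σ) (x + y)
  sum : ∀ (d : ℕ) (w : Fin d → ℤ) (F : Type) [Field F] (B : Finset (Fin d)) (ι : Type)
    (s : Finset ι) (f : ι → As w → F) (x : ι → ℝ), (∀ a ∈ s, Rk w B (f a) (x a)) →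
    Rk w B (fun σ => ∑ a ∈ s, f a σ) (∑ a ∈ s, x a)
  mul : ∀ (d : ℕ) (w : Fin d → ℤ) (F : Type) [Field F] (B C : Finset (Fin d)) (f g : As w → F)
    (x y : ℝ), Disjoint B C → 0 ≤ x → 0 ≤ y → Rk w B f x → Rk w C g y →
    Rk w (B ∪ C) (fun σ => f σ * g σ) (x * y)
  triv : ∀ (d : ℕ) (w : Fin d → ℤ) (F : Type) [Field F] (B : Finset (Fin d)) (f : As w → F),
    Dep w B f → Rk w B f (hh w B)

end Rank

/-! ### derivations -/

/-- commuting derivations of a field, `D i s` in the direction `s` of the block `i` -/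
structure Der {d : ℕ} (w : Fin d → ℤ) (F : Type) [Field F] where
  D : (i : Fin d) → X w i → F → F
  add : ∀ i s f g, D i s (f + g) = D i s f + D i s g
  mul : ∀ i s f g, D i s (f * g) = D i s f * g + f * D i s g
  comm : ∀ i j s t f, i ≠ j → D i s (D j t f) = D j t (D i s f)

section Deriv

variable {d : ℕ} {w : Fin d → ℤ} {F : Type} [Field F]

/-- the derivative of `f` in the directions of `σ` in all the blocks of `B` -/
def DB (𝔇 : Der w F) (B : Finset (Fin d)) (σ : As w) (f : F) : F :=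
  ((List.finRange d).filter (· ∈ B)).foldr (fun i g => 𝔇.D i (σ i) g) f

/-- the derivative in the blocks of `B` of the logarithmic derivative in the block `i` -/
def ell (𝔇 : Der w F) (i : Fin d) (B : Finset (Fin d)) (σ : As w) (f : F) : F :=
  DB 𝔇 B σ (𝔇.D i (σ i) f / f)

/-- a field element all of whose logarithmic derivatives are constant in the other blocks -/
def Zf (𝔇 : Der w F) (f : F) : Prop :=
  f ≠ 0 ∧ ∀ i B σ, i ∉ B → B.Nonempty → ell 𝔇 i B σ f = 0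

end Deriv

/-- Row DER. -/
structure DerStatement : Prop where
  emp : ∀ (d : ℕ) (w : Fin d → ℤ) (F : Type) [Field F] (𝔇 : Der w F) (σ : As w) (f : F),
    DB 𝔇 ∅ σ f = f
  ins : ∀ (d : ℕ) (w : Fin d → ℤ) (F : Type) [Field F] (𝔇 : Der w F) (i : Fin d)
    (B : Finset (Fin d)) (σ : As w) (f : F), i ∉ B →
    DB 𝔇 (insert i B) σ f = DB 𝔇 B σ (𝔇.D i (σ i) f)
  ins' : ∀ (d : ℕ) (w : Fin d → ℤ) (F : Type) [Field F] (𝔇 : Der w F) (i : Fin d)
    (B : Finset (Fin d)) (σ : As w) (f : F), i ∉ B →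
    DB 𝔇 (insert i B) σ f = 𝔇.D i (σ i) (DB 𝔇 B σ f)
  dep : ∀ (d : ℕ) (w : Fin d → ℤ) (F : Type) [Field F] (𝔇 : Der w F) (B : Finset (Fin d))
    (f : F), Dep w B (fun σ => DB 𝔇 B σ f)
  dep_ell : ∀ (d : ℕ) (w : Fin d → ℤ) (F : Type) [Field F] (𝔇 : Der w F) (i : Fin d)
    (B : Finset (Fin d)) (f : F), Dep w (insert i B) (fun σ => ell 𝔇 i B σ f)
  sums : ∀ (d : ℕ) (w : Fin d → ℤ) (F : Type) [Field F] (𝔇 : Der w F) (B : Finset (Fin d))
    (σ : As w) (ι : Type) (s : Finset ι) (g : ι → F),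
    DB 𝔇 B σ (∑ t ∈ s, g t) = ∑ t ∈ s, DB 𝔇 B σ (g t)
  mul : ∀ (d : ℕ) (w : Fin d → ℤ) (F : Type) [Field F] (𝔇 : Der w F) (B : Finset (Fin d))
    (σ : As w) (f g : F),
    DB 𝔇 B σ (f * g) = ∑ C ∈ B.powerset, DB 𝔇 C σ f * DB 𝔇 (B \ C) σ g
  /-- Leibniz in the form of the paper -/
  leib : ∀ (d : ℕ) (w : Fin d → ℤ) (F : Type) [Field F] (𝔇 : Der w F) (i : Fin d)
    (B : Finset (Fin d)) (σ : As w) (f : F), i ∉ B → f ≠ 0 →
    DB 𝔇 (insert i B) σ f / f = ∑ C ∈ B.powerset, DB 𝔇 C σ f / f * ell 𝔇 i (B \ C) σ f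
  ell_mul : ∀ (d : ℕ) (w : Fin d → ℤ) (F : Type) [Field F] (𝔇 : Der w F) (i : Fin d)
    (B : Finset (Fin d)) (σ : As w) (f g : F), f ≠ 0 → g ≠ 0 →
    ell 𝔇 i B σ (f * g) = ell 𝔇 i B σ f + ell 𝔇 i B σ g
  ell_zpow : ∀ (d : ℕ) (w : Fin d → ℤ) (F : Type) [Field F] (𝔇 : Der w F) (i : Fin d)
    (B : Finset (Fin d)) (σ : As w) (f : F) (e : ℤ), f ≠ 0 →
    ell 𝔇 i B σ (f ^ e) = e * ell 𝔇 i B σ f
  zf_mul : ∀ (d : ℕ) (w : Fin d → ℤ) (F : Type) [Field F] (𝔇 : Der w F) (f g : F),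
    Zf 𝔇 f → Zf 𝔇 g → Zf 𝔇 (f * g)
  zf_zpow : ∀ (d : ℕ) (w : Fin d → ℤ) (F : Type) [Field F] (𝔇 : Der w F) (f : F) (e : ℤ),
    Zf 𝔇 f → Zf 𝔇 (f ^ e)

/-! ### levels -/

section Levels

variable {d : ℕ} {w : Fin d → ℤ} {F : Type} [Field F]

/-- sums of at most `M` elements with the property `V` -/
def SumOf (M : ℕ) (V : F → Prop) (S : F) : Prop :=
  ∃ q ≤ M, ∃ g : Fin q → F, (∀ t, V (g t)) ∧ S = ∑ t, g t

/-- values of nesting at most `j` with at most `M` gates with at most `M` terms each -/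
def Vz (𝔇 : Der w F) (M : ℕ) : ℕ → F → Prop
  | 0 => fun f => f = 0 ∨ Zf 𝔇 f
  | j + 1 => fun f => f = 0 ∨ ∃ (f0 : F) (m : ℕ) (S : Fin m → F) (e : Fin m → ℤ), m ≤ M ∧
      Zf 𝔇 f0 ∧ (∀ t, S t ≠ 0 ∧ SumOf M (Vz 𝔇 M j) (S t)) ∧ f = f0 * ∏ t, S t ^ e t

end Levels

/-- the thresholds -/
def TT (lam : ℕ) : ℕ → ℕ
  | 0 => 2
  | j + 1 => lam ^ 3 * TT lam j ^ 4

/-- the bounds of the relative rank, `b = 2 ^ (d ^ 2)` and `η = 2 ^ (- k lam / 16)` -/
noncomputable def rh (M b η : ℝ) : ℕ → ℝ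
  | 0 => 0
  | j + 1 => M * (b * (η + M * (b * (η + rh M b η j))))

/-- Row CLAIMS (E and L). `θ` bounds the trivial ranks of small sets of blocks. -/
def ClaimStatement : Prop :=
  ∀ (d : ℕ) (w : Fin d → ℤ) (F : Type) [Field F] (𝔇 : Der w F) (f : F) (T : ℕ) (θ ρ : ℝ),
    f ≠ 0 → 0 < θ → θ ≤ 1 → 0 ≤ ρ →
    (∀ B : Finset (Fin d), B.Nonempty → B.card < T → hh w B ≤ θ ^ B.card) →
    ((∀ i B, i ∉ B → T ≤ B.card + 1 → Rk w (insert i B) (fun σ => ell 𝔇 i B σ f) ρ) →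
      ∀ B, Rk w B (fun σ => DB 𝔇 B σ f / f) (2 ^ (B.card ^ 2) * (θ ^ B.card + ρ))) ∧
    ((∀ B : Finset (Fin d), T ≤ B.card → Rk w B (fun σ => DB 𝔇 B σ f / f) ρ) →
      ∀ i B, i ∉ B → Rk w (insert i B) (fun σ => ell 𝔇 i B σ f)
        (2 ^ ((B.card + 1) ^ 2) * (θ ^ (B.card + 1) + ρ)))

/-- Row LEVELS. -/
def LevelStatement : Prop :=
  ∀ (d k t lam M : ℕ) (w : Fin d → ℤ) (F : Type) [Field F] (𝔇 : Der w F),
    IsWord w k t → 1 ≤ lam → 1 ≤ M → ∀ (j : ℕ) (f : F), TT lam j ≤ t → f ≠ 0 → Vz 𝔇 M j f →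
    ∀ i B, i ∉ B → TT lam j ≤ B.card + 1 →
      Rk w (insert i B) (fun σ => ell 𝔇 i B σ f)
        (rh M (2 ^ (d ^ 2)) ((2 : ℝ) ^ (-((k : ℝ) * lam) / 16)) j)

/-! ### matrices -/

/-- Row IMM: the automaton. -/
def ImmStatement : Prop :=
  ∀ (d k t m : ℕ) (w : Fin d → ℤ) (K : Type) [Field K], 0 < d → IsWord w k t → 2 ^ k ≤ m →
    ∃ (Λ : ∀ i, X w i → Matrix (Fin m) (Fin m) K) (L : ℕ) (ρ γ : Fin (2 ^ L) → As w),
      ∑ i, (w i).natAbs ≤ 2 * L + k ∧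
      ∀ a b, tr (fun i => Λ i (mix w (ρ a) (γ b) i)) = if a = b then 1 else 0

/-! ### the field of rational functions -/

section Field

variable (K : Type) [Field K] (N : ℕ)

/-- the field of rational functions in the inputs -/
abbrev FF : Type := FractionRing (Pol K N)

/-- the last input -/
noncomputable def zF : FF K N := algebraMap (Pol K N) (FF K N) Polynomial.X

variable {N} in
/-- the other inputs -/
noncomputable def xF (l : Fin N) : FF K N :=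
  algebraMap (Pol K N) (FF K N) (Polynomial.C (MvPolynomial.X l))

/-- constants -/
noncomputable def cF (c : K) : FF K N := algebraMap (Pol K N) (FF K N) (cc K N c)

/-- the trace polynomial -/
noncomputable def pp (m d : ℕ) : MvPolynomial (Fin (d * (m * m))) K :=
  tr (mat (MvPolynomial.X (R := K)))

end Field

/-- `𝔇` consists of the derivatives in the directions of the matrices `Λ i s` -/
structure IsDir {K : Type} [Field K] {m d : ℕ} {w : Fin d → ℤ}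
    (Λ : ∀ i, X w i → Matrix (Fin m) (Fin m) K) (𝔇 : Der w (FF K (d * (m * m)))) : Prop where
  const : ∀ i s c, 𝔇.D i s (cF K _ c) = 0
  z : ∀ i s, 𝔇.D i s (zF K _) = 0
  x : ∀ i s t a b, 𝔇.D i s (xF K (ix t a b)) = if t = i then cF K _ (Λ i s a b) else 0

/-- Row FRAC: the derivations exist. -/
def FracStatement : Prop :=
  ∀ (K : Type) [Field K] (m d : ℕ) (w : Fin d → ℤ)
    (Λ : ∀ i, X w i → Matrix (Fin m) (Fin m) K), ∃ 𝔇 : Der w (FF K (d * (m * m))), IsDir Λ 𝔇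

/-- Row POLY: polynomials and inputs under the derivations. -/
structure PolyStatement : Prop where
  pol : ∀ (K : Type) [Field K] (m d : ℕ) (w : Fin d → ℤ)
    (Λ : ∀ i, X w i → Matrix (Fin m) (Fin m) K) (𝔇 : Der w (FF K (d * (m * m)))), IsDir Λ 𝔇 →
    ∀ i s (P : Pol K (d * (m * m))), ∃ Q : Pol K (d * (m * m)),
      𝔇.D i s (algebraMap _ _ P) = algebraMap _ _ Q
  mv : ∀ (K : Type) [Field K] (m d : ℕ) (w : Fin d → ℤ)
    (Λ : ∀ i, X w i → Matrix (Fin m) (Fin m) K) (𝔇 : Der w (FF K (d * (m * m)))), IsDir Λ 𝔇 →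
    ∀ i s (P : MvPolynomial (Fin (d * (m * m))) K), ∃ Q : MvPolynomial (Fin (d * (m * m))) K,
      𝔇.D i s (algebraMap (Pol K (d * (m * m))) _ (Polynomial.C P)) =
        algebraMap (Pol K (d * (m * m))) _ (Polynomial.C Q)
  zx : ∀ (K : Type) [Field K] (m d : ℕ) (w : Fin d → ℤ)
    (Λ : ∀ i, X w i → Matrix (Fin m) (Fin m) K) (𝔇 : Der w (FF K (d * (m * m)))), IsDir Λ 𝔇 →
    ∀ l, Zf 𝔇 (xF K l)
  zz : ∀ (K : Type) [Field K] (m d : ℕ) (w : Fin d → ℤ)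
    (Λ : ∀ i, X w i → Matrix (Fin m) (Fin m) K) (𝔇 : Der w (FF K (d * (m * m)))), IsDir Λ 𝔇 →
    Zf 𝔇 (zF K _)
  zc : ∀ (K : Type) [Field K] (m d : ℕ) (w : Fin d → ℤ)
    (Λ : ∀ i, X w i → Matrix (Fin m) (Fin m) K) (𝔇 : Der w (FF K (d * (m * m)))), IsDir Λ 𝔇 →
    ∀ c : K, c ≠ 0 → Zf 𝔇 (cF K _ c)
  full : ∀ (K : Type) [Field K] (m d : ℕ) (w : Fin d → ℤ)
    (Λ : ∀ i, X w i → Matrix (Fin m) (Fin m) K) (𝔇 : Der w (FF K (d * (m * m)))), IsDir Λ 𝔇 →
    ∀ σ : As w, DB 𝔇 Finset.univ σ (algebraMap (Pol K (d * (m * m))) _ (Polynomial.C (pp K m d))) =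
      cF K _ (tr fun i => Λ i (σ i))

/-- `z - p` -/
noncomputable def zp (K : Type) [Field K] (m d : ℕ) : Pol K (d * (m * m)) :=
  Polynomial.X - Polynomial.C (pp K m d)

/-- Row LOWA: the logarithmic derivative of a multiple of `z - p`. -/
def LowAStatement : Prop :=
  ∀ (K : Type) [Field K] (m d : ℕ) (w : Fin d → ℤ)
    (Λ : ∀ i, X w i → Matrix (Fin m) (Fin m) K) (𝔇 : Der w (FF K (d * (m * m)))), IsDir Λ 𝔇 →
    ∀ (G : Pol K (d * (m * m))), G ≠ 0 → zp K m d ∣ G → ∀ i : Fin d,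
    ∃ (e : ℕ) (V : Pol K (d * (m * m))) (R : As w → Pol K (d * (m * m)))
      (c : As w → ℕ → MvPolynomial (Fin (d * (m * m))) K), 1 ≤ e ∧ ¬ zp K m d ∣ V ∧
      ∀ σ : As w, ell 𝔇 i (Finset.univ.erase i) σ (algebraMap _ _ G) =
        - (e : FF K (d * (m * m))) * cF K _ (tr fun i => Λ i (σ i)) /
            algebraMap (Pol K (d * (m * m))) _ (zp K m d) +
          (∑ l ∈ Finset.Icc 2 d, algebraMap (Pol K (d * (m * m))) _ (Polynomial.C (c σ l)) /
            algebraMap (Pol K (d * (m * m))) _ (zp K m d) ^ l) +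
          algebraMap (Pol K (d * (m * m))) _ (R σ) / algebraMap (Pol K (d * (m * m))) _ V

/-- Row LOWB: from the representation in LOWA to the bound of the size of an identity matrix. -/
def LowBStatement : Prop :=
  ∀ (K : Type) [RCLike K] (m d : ℕ) (w : Fin d → ℤ)
    (Λ : ∀ i, X w i → Matrix (Fin m) (Fin m) K) (g : As w → FF K (d * (m * m))) (e : ℕ)
    (V : Pol K (d * (m * m))) (R : As w → Pol K (d * (m * m)))
    (c : As w → ℕ → MvPolynomial (Fin (d * (m * m))) K), 1 ≤ d → 1 ≤ e → ¬ zp K m d ∣ V →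
    (∀ σ : As w, g σ =
        - (e : FF K (d * (m * m))) * cF K _ (tr fun i => Λ i (σ i)) /
            algebraMap (Pol K (d * (m * m))) _ (zp K m d) +
          (∑ l ∈ Finset.Icc 2 d, algebraMap (Pol K (d * (m * m))) _ (Polynomial.C (c σ l)) /
            algebraMap (Pol K (d * (m * m))) _ (zp K m d) ^ l) +
          algebraMap (Pol K (d * (m * m))) _ (R σ) / algebraMap (Pol K (d * (m * m))) _ V) →
    ∀ r : ℕ, HasRk w g r → ∀ (s : ℕ) (ρ γ : Fin s → As w),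
      (∀ a b, tr (fun i => Λ i (mix w (ρ a) (γ b) i)) = if a = b then 1 else 0) → s ≤ d * r

/-! ### trees -/

/-- Row PATH: an atom in a tested value is a nonzero multiple of `z - p`. -/
def PathStatement : Prop :=
  ∀ (K : Type) [RCLike K] (P : K → Prop),
    (∀ (n : ℕ) (T : GTree K) (x : (Fin n → K) × K) (k i : ℕ), P ((T.run P x k).val i) ↔
      P (pf ((sym n T (T.run P x k).hist).tpol i) x)) →
    (∀ v, v ≠ 0 → ∀ᶠ u in 𝓝 v, (P u ↔ P v)) →
    ∀ (n N : ℕ) (T : Fin N → GTree K) (Φ : (Fin N → Bool) → Prop) (p : MvPolynomial (Fin n) K),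
      p ≠ 0 → Decides P T Φ {q : (Fin n → K) × K | q.2 = MvPolynomial.eval q.1 p} →
      ∃ (u : Fin N) (x : (Fin n → K) × K) (k i l : ℕ),
        Branches (T u ((T u).run P x k).hist) i ∧
        l < (sym n (T u) ((T u).run P x k).hist).atoms.length ∧
        ((sym n (T u) ((T u).run P x k).hist).val i).2 (n + 1 + l) ≠ 0 ∧
        (sym n (T u) ((T u).run P x k).hist).atom (n + 1 + l) ≠ 0 ∧
        (Polynomial.X - Polynomial.C p) ∣ (sym n (T u) ((T u).run P x k).hist).atom (n + 1 + l)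

/-- Row STRUC: the structure of the atoms. -/
structure StrucStatement : Prop where
  supp : ∀ (K : Type) [Field K] (n M : ℕ) (T : GTree K), Terms T M → ∀ (h : List Bool) (i l : ℕ),
    ((sym n T h).val i).2 (n + 1 + l) ≠ 0 → l ∈ (deps n T h).val i
  level : ∀ (K : Type) [Field K] (d n M D : ℕ) (w : Fin d → ℤ) (𝔇 : Der w (FF K n)),
    (∀ l, Zf 𝔇 (xF K l)) → Zf 𝔇 (zF K n) → (∀ c : K, c ≠ 0 → Zf 𝔇 (cF K n c)) → 1 ≤ M →
    ∀ (T : GTree K), Terms T M → ∀ (h : List Bool) (l : ℕ), l < (sym n T h).atoms.length →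
    (nests n T h).gate l ≤ D → ((deps n T h).sum l).card ≤ M →
    Vz 𝔇 M D (algebraMap (Pol K n) (FF K n) ((sym n T h).atom (n + 1 + l)))

/-! ### numbers -/

/-- Row NUM. -/
def NumStatement : Prop :=
  ∀ D c : ℕ, ∃ lam d0 : ℕ, 1 ≤ lam ∧ 1 ≤ d0 ∧ ∀ d ≥ d0, ∀ m k : ℕ, d ^ 2 ≤ k → 2 ^ k ≤ m →
    m < 2 ^ (k + 1) → TT lam D ≤ d ∧ 24 * TT lam D ^ 2 + 5 ≤ k ∧
    d * rh ((m : ℝ) ^ c) (2 ^ (d ^ 2)) ((2 : ℝ) ^ (-((k : ℝ) * lam) / 16)) D <
      (2 : ℝ) ^ (-(k : ℝ) / 2)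

end Pool.Agent.Lib.MP_641cb6_lc.CD
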