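import Pool.Agent.Lib.MP_641cb6_lc.CD.Defs
import Mathlib.NumberTheory.Real.Irrational
import Mathlib.Tactic

/-!
# The word of the block lengths
-/

set_option autoImplicit false

namespace Pool.Agent.Lib.MP_641cb6_lc.CD

/-- the numbers of bits read by the blocks before `i`: `+` blocks (with `a` bits) and `-` blocks
(with `k` bits); block `i` is a `+` block if the first number is at most the second one -/
def ac (a k : ℕ) : ℕ → ℕ × ℕ
  | 0 => (0, 0)
  | i + 1 => if (ac a k i).1 ≤ (ac a k i).2 then ((ac a k i).1 + a, (ac a k i).2)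
      else ((ac a k i).1, (ac a k i).2 + k)

/-- block `i` is a `+` block -/
def plus (a k i : ℕ) : Prop := (ac a k i).1 ≤ (ac a k i).2

instance (a k i : ℕ) : Decidable (plus a k i) := inferInstanceAs (Decidable (_ ≤ _))

/-- the number of bits of block `i` -/
def len (a k i : ℕ) : ℕ := if plus a k i then a else k

/-- the letter number `i` of the word -/
def wrd (a k i : ℕ) : ℤ := if plus a k i then a else -k

theorem len_eq (a k i : ℕ) : len a k i = (wrd a k i).natAbs := by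
  unfold len wrd
  split_ifs <;> simp

theorem ac_fst_add_snd (a k d : ℕ) :
    (ac a k d).1 + (ac a k d).2 = ∑ i ∈ Finset.range d, len a k i := by
  induction d with
  | zero => simp [ac]
  | succ d ih =>
    rw [Finset.sum_range_succ, ← ih]
    by_cases h : (ac a k d).1 ≤ (ac a k d).2
    · have hp : plus a k d := h
      simp only [ac, len, if_pos h, if_pos hp]
      omega
    · have hp : ¬ plus a k d := h
      simp only [ac, len, if_neg h, if_neg hp]
      omega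

theorem ac_bound {a k : ℕ} (hak : a ≤ k) (d : ℕ) :
    (ac a k d).1 ≤ (ac a k d).2 + k ∧ (ac a k d).2 ≤ (ac a k d).1 + k := by
  induction d with
  | zero => simp [ac]
  | succ d ih =>
    simp only [ac]
    split_ifs with h <;> simp <;> omega

theorem sq_ne {p q : ℕ} (h : 0 < p + q) : p ^ 2 ≠ 2 * q ^ 2 := by
  intro e
  rcases Nat.eq_zero_or_pos q with hq | hq
  · subst hq
    have : p = 0 := by simpa using e
    omega
  · have h2 : (((p : ℚ) / q : ℚ) : ℝ) = Real.sqrt 2 := by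
      have hq' : (0 : ℝ) < q := by exact_mod_cast hq
      rw [eq_comm, Real.sqrt_eq_iff_mul_self_eq_of_pos]
      · push_cast
        have e' : (p : ℝ) ^ 2 = 2 * (q : ℝ) ^ 2 := by exact_mod_cast e
        field_simp
        linarith
      · have hp : 0 < p := by
          rcases Nat.eq_zero_or_pos p with hp | hp
          · subst hp
            have : q = 0 := by simpa using e.symm
            omega
          · exact hp
        have hp' : (0 : ℝ) < p := by exact_mod_cast hp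
        push_cast
        positivity
    exact irrational_sqrt_two ⟨_, h2⟩

theorem word_num {a k p q t : ℕ} (ha1 : 2 * a ^ 2 ≤ k ^ 2) (ha2 : k ^ 2 < 2 * (a + 1) ^ 2)
    (h0 : 0 < p + q) (ht : p + q ≤ t) (hk : 24 * t ^ 2 + 5 ≤ k) :
    (k : ℤ) ≤ 8 * (p + q) * |(a : ℤ) * p - k * q| := by
  have hak : a ≤ k := by
    by_contra h
    have h' : k + 1 ≤ a := by omega
    nlinarith [mul_self_nonneg a]
  have hqt : q ^ 2 ≤ t ^ 2 := Nat.pow_le_pow_left (by omega) 2
  have h3 : 2 * k < 3 * (a + 1) := by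
    by_contra h
    have h' : 3 * (a + 1) ≤ 2 * k := by omega
    have := Nat.mul_le_mul h' h'
    nlinarith
  have ha : 16 * q ^ 2 + 3 ≤ a := by omega
  have key : (k : ℤ) ^ 2 ≤ 8 * ((a : ℤ) ^ 2 - (4 * a + 1) * (q : ℤ) ^ 2) := by
    have ha2' : (k : ℤ) ^ 2 < 2 * ((a : ℤ) + 1) ^ 2 := by exact_mod_cast ha2
    have ha' : 16 * (q : ℤ) ^ 2 + 3 ≤ a := by exact_mod_cast ha
    nlinarith [mul_le_mul_of_nonneg_left ha' (by positivity : (0 : ℤ) ≤ (a : ℤ)),
      mul_nonneg (sq_nonneg (q : ℤ)) (by positivity : (0 : ℤ) ≤ (a : ℤ)), sq_nonneg (q : ℤ)]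
  have hE1 : (0 : ℤ) ≤ (k : ℤ) ^ 2 - 2 * (a : ℤ) ^ 2 := by
    have : 2 * (a : ℤ) ^ 2 ≤ (k : ℤ) ^ 2 := by exact_mod_cast ha1
    linarith
  have hE2 : (k : ℤ) ^ 2 - 2 * (a : ℤ) ^ 2 ≤ 4 * a + 1 := by
    have ha2' : (k : ℤ) ^ 2 < 2 * ((a : ℤ) + 1) ^ 2 := by exact_mod_cast ha2
    have : (k : ℤ) ^ 2 + 1 ≤ 2 * ((a : ℤ) + 1) ^ 2 := ha2'
    nlinarith
  have hne := sq_ne h0
  have hbig : (k : ℤ) ^ 2 ≤ 8 * |(a : ℤ) ^ 2 * (p : ℤ) ^ 2 - (k : ℤ) ^ 2 * (q : ℤ) ^ 2| := by
    have hid : (a : ℤ) ^ 2 * (p : ℤ) ^ 2 - (k : ℤ) ^ 2 * (q : ℤ) ^ 2 =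
        (a : ℤ) ^ 2 * ((p : ℤ) ^ 2 - 2 * (q : ℤ) ^ 2) -
          ((k : ℤ) ^ 2 - 2 * (a : ℤ) ^ 2) * (q : ℤ) ^ 2 := by ring
    have hEq : ((k : ℤ) ^ 2 - 2 * (a : ℤ) ^ 2) * (q : ℤ) ^ 2 ≤ (4 * a + 1) * (q : ℤ) ^ 2 :=
      mul_le_mul_of_nonneg_right hE2 (sq_nonneg _)
    have hEq0 : 0 ≤ ((k : ℤ) ^ 2 - 2 * (a : ℤ) ^ 2) * (q : ℤ) ^ 2 :=
      mul_nonneg hE1 (sq_nonneg _)
    have h4 : 0 ≤ (4 * (a : ℤ) + 1) * (q : ℤ) ^ 2 := by positivity
    rcases lt_or_gt_of_ne hne with h | h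
    · have h' : (p : ℤ) ^ 2 - 2 * (q : ℤ) ^ 2 ≤ -1 := by
        have : (p : ℤ) ^ 2 < 2 * (q : ℤ) ^ 2 := by exact_mod_cast h
        linarith
      have := mul_le_mul_of_nonneg_left h' (sq_nonneg (a : ℤ))
      have h5 := neg_le_abs ((a : ℤ) ^ 2 * (p : ℤ) ^ 2 - (k : ℤ) ^ 2 * (q : ℤ) ^ 2)
      rw [hid] at h5 ⊢
      linarith
    · have h' : 1 ≤ (p : ℤ) ^ 2 - 2 * (q : ℤ) ^ 2 := by
        have : 2 * (q : ℤ) ^ 2 < (p : ℤ) ^ 2 := by exact_mod_cast h
        linarith
      have := mul_le_mul_of_nonneg_left h' (sq_nonneg (a : ℤ))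
      have h5 := le_abs_self ((a : ℤ) ^ 2 * (p : ℤ) ^ 2 - (k : ℤ) ^ 2 * (q : ℤ) ^ 2)
      rw [hid] at h5 ⊢
      linarith
  have hfac : |(a : ℤ) ^ 2 * (p : ℤ) ^ 2 - (k : ℤ) ^ 2 * (q : ℤ) ^ 2| =
      |(a : ℤ) * p - k * q| * ((a : ℤ) * p + k * q) := by
    rw [show (a : ℤ) ^ 2 * (p : ℤ) ^ 2 - (k : ℤ) ^ 2 * (q : ℤ) ^ 2 =
      ((a : ℤ) * p - k * q) * ((a : ℤ) * p + k * q) by ring, abs_mul,
      abs_of_nonneg (by positivity : (0 : ℤ) ≤ (a : ℤ) * p + k * q)]
  have hle : (a : ℤ) * p + k * q ≤ k * (p + q) := by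
    have : (a : ℤ) * p ≤ k * p := mul_le_mul_of_nonneg_right (by exact_mod_cast hak) (by positivity)
    linarith
  have hkpos : (0 : ℤ) < k := by
    have : 0 < k := by omega
    exact_mod_cast this
  have h6 : (k : ℤ) ^ 2 ≤ 8 * (|(a : ℤ) * p - k * q| * (k * (p + q))) := by
    refine hbig.trans ?_
    rw [hfac]
    have := mul_le_mul_of_nonneg_left hle (abs_nonneg ((a : ℤ) * p - k * q))
    linarith
  have h7 : (k : ℤ) * k ≤ k * (8 * (p + q) * |(a : ℤ) * p - k * q|) := by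
    nlinarith [h6]
  exact le_of_mul_le_mul_left h7 hkpos

/-- WORD -/
theorem word_bound {a k t : ℕ} (ha1 : 2 * a ^ 2 ≤ k ^ 2) (ha2 : k ^ 2 < 2 * (a + 1) ^ 2)
    (hk : 24 * t ^ 2 + 5 ≤ k) (B : Finset ℕ) (hB : B.Nonempty) (ht : B.card ≤ t) :
    (k : ℤ) ≤ 8 * B.card * |∑ i ∈ B, wrd a k i| := by
  classical
  have h1 : (B.filter fun i => plus a k i).card + (B.filter fun i => ¬ plus a k i).card =
      B.card := Finset.card_filter_add_card_filter_not _
  have h2 : ∑ i ∈ B, wrd a k i = (a : ℤ) * (B.filter fun i => plus a k i).card -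
      k * (B.filter fun i => ¬ plus a k i).card := by
    rw [← Finset.sum_filter_add_sum_filter_not B (fun i => plus a k i)]
    rw [Finset.sum_congr rfl (g := fun _ => (a : ℤ))
      (fun i hi => by simp [wrd, (Finset.mem_filter.1 hi).2])]
    rw [Finset.sum_congr (s₁ := B.filter fun i => ¬ plus a k i) rfl (g := fun _ => -(k : ℤ))
      (fun i hi => by simp [wrd, (Finset.mem_filter.1 hi).2])]
    simp
    ring
  have h3 := word_num (p := (B.filter fun i => plus a k i).card)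
    (q := (B.filter fun i => ¬ plus a k i).card) ha1 ha2 (by rw [h1]; exact hB.card_pos)
    (by rw [h1]; exact ht) hk
  rw [h2, ← h1]
  push_cast
  exact h3

theorem sum_wrd (a k t : ℕ) :
    ∑ i ∈ Finset.range t, wrd a k i = ((ac a k t).1 : ℤ) - (ac a k t).2 := by
  induction t with
  | zero => simp [ac]
  | succ t ih =>
    rw [Finset.sum_range_succ, ih]
    by_cases h : (ac a k t).1 ≤ (ac a k t).2
    · have hp : plus a k t := h
      simp only [ac, wrd, if_pos h, if_pos hp]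
      push_cast
      ring
    · have hp : ¬ plus a k t := h
      simp only [ac, wrd, if_neg h, if_neg hp]
      push_cast
      ring

theorem pre_wrd (a k d t : ℕ) :
    pre (fun i : Fin d => wrd a k i) t =
      ((ac a k (min t d)).1 : ℤ) - (ac a k (min t d)).2 := by
  rw [← sum_wrd]
  unfold pre
  rw [Fin.sum_univ_eq_sum_range (fun i => if i < t then wrd a k i else 0) d,
    ← Finset.sum_filter]
  congr 1
  ext i
  simp only [Finset.mem_filter, Finset.mem_range, lt_min_iff]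
  exact and_comm

/-- Row WORD. -/
theorem wordStatement : WordStatement := by
  intro d k t hk
  set a : ℕ := Nat.sqrt (k ^ 2 / 2) with ha
  have ha1 : 2 * a ^ 2 ≤ k ^ 2 := by
    have h := Nat.sqrt_le (k ^ 2 / 2)
    rw [← ha] at h
    nlinarith [Nat.div_mul_le_self (k ^ 2) 2]
  have ha2 : k ^ 2 < 2 * (a + 1) ^ 2 := by
    have h := Nat.lt_succ_sqrt (k ^ 2 / 2)
    rw [← ha] at h
    have h2 : k ^ 2 < 2 * (k ^ 2 / 2) + 2 := by omega
    have h3 : k ^ 2 / 2 + 1 ≤ (a + 1) * (a + 1) := h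
    nlinarith
  have hak : a ≤ k := by
    by_contra h
    have h' : k + 1 ≤ a := by omega
    nlinarith [mul_self_nonneg a]
  have ha0 : 0 < a := by
    rcases Nat.eq_zero_or_pos a with h | h
    · rw [h] at ha2
      have : 5 ≤ k := by omega
      nlinarith
    · exact h
  have hk0 : 0 < k := by omega
  refine ⟨fun i => wrd a k i, ⟨?_, ?_, ?_⟩⟩
  · intro s
    rw [pre_wrd]
    have h := ac_bound hak (min s d)
    rw [abs_le]
    constructor <;> omega
  · intro i
    rw [pre_wrd, min_eq_left i.2.le]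
    by_cases h : (ac a k i).1 ≤ (ac a k i).2
    · have hp : plus a k i := h
      simp only [wrd, if_pos hp]
      omega
    · have hp : ¬ plus a k i := h
      simp only [wrd, if_neg hp]
      omega
  · intro B hB ht
    have h := word_bound ha1 ha2 hk (B.map Fin.valEmbedding) (by simpa using hB)
      (by rw [Finset.card_map]; exact ht)
    rw [Finset.card_map, Finset.sum_map] at h
    exact h

end Pool.Agent.Lib.MP_641cb6_lc.CD
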