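import Pool.Agent.Lib.MP_641cb6_lc.CD.Final
import Pool.Agent.Lib.MP_641cb6_lc.CD.Word
import Pool.Agent.Lib.MP_641cb6_lc.CD.Num
import Pool.Agent.Lib.MP_641cb6_lc.CD.Imm
import Pool.Agent.Lib.MP_641cb6_lc.CD.Rank
import Pool.Agent.Lib.MP_641cb6_lc.CD.Claims
import Pool.Agent.Lib.MP_641cb6_lc.CD.Levels
import Pool.Agent.Lib.MP_641cb6_lc.CD.Frac
import Pool.Agent.Lib.MP_641cb6_lc.CD.Poly
import Pool.Agent.Lib.MP_641cb6_lc.CD.LowA
import Pool.Agent.Lib.MP_641cb6_lc.CD.LowB
import Pool.Agent.Lib.MP_641cb6_lc.CD.Path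
import Pool.Agent.Lib.MP_641cb6_lc.CD.Struc

/-!
# The lower bound, without hypotheses
-/

set_option autoImplicit false

namespace Pool.Agent.Lib.MP_641cb6_lc.CD

open Pool.Agent.Lib.MP_641cb6_lc.KG (Ins GTree Pol St SSt pf cc sym deps Branches Decides)
open Filter Topology

theorem lower (K : Type) [RCLike K] (P : K → Prop)
    (hP1 : ∀ (n : ℕ) (T : GTree K) (x : (Fin n → K) × K) (k i : ℕ), P ((T.run P x k).val i) ↔
      P (pf ((sym n T (T.run P x k).hist).tpol i) x))
    (hP2 : ∀ v, v ≠ 0 → ∀ᶠ u in 𝓝 v, (P u ↔ P v)) (D c : ℕ) :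
    ∃ d0 : ℕ, ∀ d ≥ d0, ∀ m : ℕ, 2 ^ (d ^ 2) ≤ m → ∀ (N : ℕ) (T : Fin N → GTree K)
      (Φ : (Fin N → Bool) → Prop), (∀ u, Terms (T u) (m ^ c)) → Decides P T Φ (TrSet K m d) →
      ∃ (u : Fin N) (x : (Fin (d * (m * m)) → K) × K) (k i a : ℕ),
        Branches (T u ((T u).run P x k).hist) i ∧
        a ∈ (deps (d * (m * m)) (T u) ((T u).run P x k).hist).val i ∧
        (D < (nests (d * (m * m)) (T u) ((T u).run P x k).hist).gate a ∨
          m ^ c < ((deps (d * (m * m)) (T u) ((T u).run P x k).hist).sum a).card) :=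
  core wordStatement immStatement
    (levelStatement rankStatement derStatement (claimStatement rankStatement))
    fracStatement polyStatement (lowAStatement derStatement polyStatement) lowBStatement
    pathStatement (struc derStatement) numStatement K P hP1 hP2 D c

end Pool.Agent.Lib.MP_641cb6_lc.CD
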