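import Pool.Agent.Lib.MP_641cb6_lc.CD.Defs3

/-!
# Levels are at most nestings
-/

set_option autoImplicit false

namespace Pool.Agent.Lib.MP_641cb6_lc.CD

open Pool.Agent.Lib.MP_641cb6_lc.KG (Ins GTree St deps Branches Decides Verifies)

namespace Altn3

/-- entry by entry the levels are at most the nestings -/
def Le (A : List (ℕ × ℕ)) (B : List ℕ) : Prop :=
  A.length = B.length ∧ ∀ i, (A.getD i (0, 1)).1 ≤ B.getD i 0 ∧ (A.getD i (0, 1)).2 ≤ B.getD i 0 + 1

theorem Le.append {A : List (ℕ × ℕ)} {B : List ℕ} (h : Le A B) (x : ℕ × ℕ) (y : ℕ)
    (h1 : x.1 ≤ y) (h2 : x.2 ≤ y + 1) : Le (A ++ [x]) (B ++ [y]) := by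
  refine ⟨by simp [h.1], fun i => ?_⟩
  by_cases hi : i < A.length
  · rw [List.getD_append _ _ _ _ hi, List.getD_append _ _ _ _ (by rw [← h.1]; exact hi)]
    exact h.2 i
  · by_cases hi2 : i = A.length
    · subst hi2
      have h3 : (A ++ [x]).getD A.length (0, 1) = x := by simp [List.getD]
      have h4 : (B ++ [y]).getD A.length 0 = y := by rw [h.1]; simp [List.getD]
      rw [h3, h4]
      exact ⟨h1, h2⟩
    · rw [List.getD_eq_default _ _ (by simp; omega),
        List.getD_eq_default _ _ (by rw [List.length_append, ← h.1]; simp; omega)]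
      exact ⟨le_refl _, by norm_num⟩

theorem le_all (K : Type) [Field K] (n : ℕ) (T : GTree K) (h : List Bool) :
    Le (alts n T h).vals (nests n T h).vals := by
  classical
  induction h with
  | nil =>
      unfold alts nests
      refine ⟨by simp, fun i => ?_⟩
      by_cases hi : i < n + 1
      · simp [List.getD, hi]
      · rw [List.getD_eq_default _ _ (by simp; omega), List.getD_eq_default _ _ (by simp; omega)]
        exact ⟨le_refl _, by norm_num⟩
  | cons o h ih =>
      have h1 : ∀ i, ((alts n T h).val i).1 ≤ (nests n T h).val i := fun i => (ih.2 i).1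
      have h2 : ∀ i, ((alts n T h).val i).2 ≤ (nests n T h).val i + 1 := fun i => (ih.2 i).2
      unfold alts nests
      unfold nextA nextN
      cases hT : T h with
      | const c => exact ih.append _ _ (le_refl _) (by norm_num)
      | mul i j =>
          refine ih.append _ _ (max_le_max (h1 i) (h1 j)) ?_
          exact Nat.add_le_add_right (max_le_max (h1 i) (h1 j)) 1
      | div i j =>
          refine ih.append _ _ (max_le_max (h1 i) (h1 j)) ?_
          exact Nat.add_le_add_right (max_le_max (h1 i) (h1 j)) 1
      | gate r F i =>
          have h3 : (Finset.univ.sup fun k => ((alts n T h).val (i k)).1) + 1 ≤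
              (Finset.univ.sup fun k => (nests n T h).val (i k)) + 1 :=
            Nat.add_le_add_right (Finset.sup_mono_fun fun k _ => h1 (i k)) 1
          have h4 : max 1 (Finset.univ.sup fun k => ((alts n T h).val (i k)).2) ≤
              (Finset.univ.sup fun k => (nests n T h).val (i k)) + 1 := by
            refine max_le (Nat.le_add_left _ _) (Finset.sup_le fun k _ => (h2 (i k)).trans ?_)
            exact Nat.add_le_add_right
              (Finset.le_sup (f := fun k => (nests n T h).val (i k)) (Finset.mem_univ k)) 1
          by_cases hF : F.totalDegree ≤ 1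
          · simp only [hF, if_true]
            exact ih.append _ _ h4 (h4.trans (Nat.le_succ _))
          · simp only [hF, if_false]
            exact ih.append _ _ h3 (Nat.add_le_add_right h3 1)
      | test i => exact ih
      | answer b => exact ih

end Altn3

theorem altn : AltnStatement := fun K _ n T h i => ((Altn3.le_all K n T h).2 i).1

end Pool.Agent.Lib.MP_641cb6_lc.CD
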