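import Pool.Agent.Lib.MP_641cb6_lc.CD.Defs
import Mathlib.RingTheory.Derivation.Basic
import Mathlib.Algebra.BigOperators.Group.Finset.Powerset
import Mathlib.Tactic.FieldSimp
import Mathlib.Tactic.Ring

/-!
# Iterated derivations and logarithmic derivatives
-/

set_option autoImplicit false

namespace Pool.Agent.Lib.MP_641cb6_lc.CD

open Finset

namespace DerRow

section

variable {d : ℕ} {w : Fin d → ℤ} {F : Type} [Field F] (𝔇 : Der w F)

theorem foldr_comm (σ : As w) (i : Fin d) (s : X w i) :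
    ∀ (l : List (Fin d)), i ∉ l → ∀ f : F,
      𝔇.D i s (l.foldr (fun j g => 𝔇.D j (σ j) g) f) =
        l.foldr (fun j g => 𝔇.D j (σ j) g) (𝔇.D i s f)
  | [], _, _ => rfl
  | a :: l, hi, f => by
    have hia : i ≠ a := fun h => hi (h ▸ List.mem_cons_self)
    have hil : i ∉ l := fun h => hi (List.mem_cons_of_mem a h)
    rw [List.foldr_cons, List.foldr_cons, 𝔇.comm i a s (σ a) _ hia,
      foldr_comm σ i s l hil f]

theorem foldr_ins (σ : As w) (i : Fin d) (B : Finset (Fin d)) (hi : i ∉ B) :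
    ∀ (l : List (Fin d)), l.Nodup → i ∈ l → ∀ f : F,
      (l.filter (· ∈ insert i B)).foldr (fun j g => 𝔇.D j (σ j) g) f =
        (l.filter (· ∈ B)).foldr (fun j g => 𝔇.D j (σ j) g) (𝔇.D i (σ i) f)
  | [], _, h, _ => absurd h List.not_mem_nil
  | a :: l, hnd, hmem, f => by
    have hnd' := List.nodup_cons.mp hnd
    by_cases hia : i = a
    · subst hia
      have e : l.filter (· ∈ insert i B) = l.filter (· ∈ B) := by
        apply List.filter_congr
        intro b hb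
        have : b ≠ i := fun h => hnd'.1 (h ▸ hb)
        simp [this]
      rw [List.filter_cons_of_pos (by simp), List.filter_cons_of_neg (by simpa using hi), e,
        List.foldr_cons]
      exact foldr_comm 𝔇 σ i (σ i) _ (fun h => hnd'.1 (List.mem_filter.mp h).1) f
    · have hil : i ∈ l := by
        rcases List.mem_cons.mp hmem with h | h
        · exact absurd h hia
        · exact h
      have ih := foldr_ins σ i B hi l hnd'.2 hil f
      by_cases haB : a ∈ B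
      · rw [List.filter_cons_of_pos (by simp [haB]), List.filter_cons_of_pos (by simpa using haB),
          List.foldr_cons, List.foldr_cons, ih]
      · have : a ≠ i := fun h => hia h.symm
        rw [List.filter_cons_of_neg (by simp [haB, this]),
          List.filter_cons_of_neg (by simpa using haB), ih]

theorem DB_empty (σ : As w) (f : F) : DB 𝔇 ∅ σ f = f := by
  unfold DB
  have : (List.finRange d).filter (· ∈ (∅ : Finset (Fin d))) = [] := by
    rw [List.filter_eq_nil_iff]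
    simp
  rw [this]
  rfl

theorem DB_insert {i : Fin d} {B : Finset (Fin d)} (hi : i ∉ B) (σ : As w) (f : F) :
    DB 𝔇 (insert i B) σ f = DB 𝔇 B σ (𝔇.D i (σ i) f) :=
  foldr_ins 𝔇 σ i B hi _ (List.nodup_finRange d) (List.mem_finRange i) f

theorem DB_insert' {i : Fin d} {B : Finset (Fin d)} (hi : i ∉ B) (σ : As w) (f : F) :
    DB 𝔇 (insert i B) σ f = 𝔇.D i (σ i) (DB 𝔇 B σ f) := by
  rw [DB_insert 𝔇 hi]
  unfold DB
  rw [foldr_comm 𝔇 σ i (σ i)]
  intro h
  have := (List.mem_filter.mp h).2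
  exact hi (by simpa using this)

theorem foldr_congr' {σ τ : As w} :
    ∀ (l : List (Fin d)), (∀ i ∈ l, σ i = τ i) → ∀ f : F,
      l.foldr (fun j g => 𝔇.D j (σ j) g) f = l.foldr (fun j g => 𝔇.D j (τ j) g) f
  | [], _, _ => rfl
  | a :: l, h, f => by
    rw [List.foldr_cons, List.foldr_cons, h a List.mem_cons_self,
      foldr_congr' l (fun i hi => h i (List.mem_cons_of_mem a hi)) f]

theorem DB_congr {B : Finset (Fin d)} {σ τ : As w} (h : ∀ i ∈ B, σ i = τ i) (f : F) :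
    DB 𝔇 B σ f = DB 𝔇 B τ f := by
  apply foldr_congr'
  intro i hi
  have := (List.mem_filter.mp hi).2
  exact h i (by simpa using this)

theorem D_zero (i : Fin d) (s : X w i) : 𝔇.D i s 0 = 0 := by
  have h := 𝔇.add i s 0 0
  rw [add_zero] at h
  exact left_eq_add.mp h

theorem foldr_add (σ : As w) :
    ∀ (l : List (Fin d)) (f g : F), l.foldr (fun j g => 𝔇.D j (σ j) g) (f + g) =
      l.foldr (fun j g => 𝔇.D j (σ j) g) f + l.foldr (fun j g => 𝔇.D j (σ j) g) g
  | [], _, _ => rfl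
  | a :: l, f, g => by
    rw [List.foldr_cons, List.foldr_cons, List.foldr_cons, foldr_add σ l f g, 𝔇.add]

theorem DB_add (B : Finset (Fin d)) (σ : As w) (f g : F) :
    DB 𝔇 B σ (f + g) = DB 𝔇 B σ f + DB 𝔇 B σ g := foldr_add 𝔇 σ _ f g

theorem DB_zero (B : Finset (Fin d)) (σ : As w) : DB 𝔇 B σ 0 = 0 := by
  have h := DB_add 𝔇 B σ 0 0
  rw [add_zero] at h
  exact left_eq_add.mp h

theorem DB_sum (B : Finset (Fin d)) (σ : As w) {ι : Type} (s : Finset ι) (g : ι → F) :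
    DB 𝔇 B σ (∑ t ∈ s, g t) = ∑ t ∈ s, DB 𝔇 B σ (g t) := by
  classical
  induction s using Finset.induction_on with
  | empty => simp [DB_zero]
  | insert a s ha ih => rw [Finset.sum_insert ha, Finset.sum_insert ha, DB_add, ih]

theorem DB_mul (B : Finset (Fin d)) (σ : As w) (f g : F) :
    DB 𝔇 B σ (f * g) = ∑ C ∈ B.powerset, DB 𝔇 C σ f * DB 𝔇 (B \ C) σ g := by
  induction B using Finset.induction_on generalizing f g with
  | empty => simp [DB_empty]
  | insert i B hi ih =>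
    rw [DB_insert 𝔇 hi, 𝔇.mul, DB_add, ih, ih, Finset.sum_powerset_insert hi, add_comm]
    congr 1
    · refine Finset.sum_congr rfl fun C hC => ?_
      have hiC : i ∉ C := fun h => hi (Finset.mem_powerset.mp hC h)
      rw [Finset.insert_sdiff_of_notMem _ hiC,
        DB_insert 𝔇 (fun h => hi (Finset.mem_sdiff.mp h).1)]
    · refine Finset.sum_congr rfl fun C hC => ?_
      have hiC : i ∉ C := fun h => hi (Finset.mem_powerset.mp hC h)
      have e : insert i B \ insert i C = B \ C := by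
        rw [Finset.insert_sdiff_insert]
        exact Finset.sdiff_insert_of_notMem hi C
      rw [e, DB_insert 𝔇 hiC]

/-- the derivation as a derivation of Mathlib -/
def toDer (i : Fin d) (s : X w i) : Derivation ℤ F F :=
  Derivation.mk' (AddMonoidHom.mk' (𝔇.D i s) (𝔇.add i s)).toIntLinearMap (fun a b => by
    show 𝔇.D i s (a * b) = a • 𝔇.D i s b + b • 𝔇.D i s a
    rw [𝔇.mul, smul_eq_mul, smul_eq_mul]
    ring)

theorem toDer_apply (i : Fin d) (s : X w i) (f : F) : toDer 𝔇 i s f = 𝔇.D i s f := rfl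

theorem log_mul (i : Fin d) (s : X w i) {f g : F} (hf : f ≠ 0) (hg : g ≠ 0) :
    𝔇.D i s (f * g) / (f * g) = 𝔇.D i s f / f + 𝔇.D i s g / g := by
  rw [𝔇.mul]
  field_simp

theorem log_zpow (i : Fin d) (s : X w i) {f : F} (hf : f ≠ 0) (n : ℤ) :
    𝔇.D i s (f ^ n) / f ^ n = n * (𝔇.D i s f / f) := by
  have h := Derivation.leibniz_zpow (toDer 𝔇 i s) f n
  rw [toDer_apply, toDer_apply] at h
  rw [h, zpow_sub_one₀ hf]
  simp only [smul_eq_mul, zsmul_eq_mul]
  have := zpow_ne_zero n hf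
  field_simp

theorem DB_nsmul (B : Finset (Fin d)) (σ : As w) (n : ℕ) (f : F) :
    DB 𝔇 B σ (n * f) = n * DB 𝔇 B σ f := by
  induction n with
  | zero => simp [DB_zero]
  | succ n ih =>
    push_cast
    rw [add_mul, add_mul, one_mul, one_mul, DB_add, ih]

theorem DB_neg (B : Finset (Fin d)) (σ : As w) (f : F) : DB 𝔇 B σ (-f) = - DB 𝔇 B σ f := by
  have h := DB_add 𝔇 B σ f (-f)
  rw [add_neg_cancel, DB_zero] at h
  exact (neg_eq_of_add_eq_zero_right h.symm).symm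

theorem DB_zsmul (B : Finset (Fin d)) (σ : As w) (n : ℤ) (f : F) :
    DB 𝔇 B σ (n * f) = n * DB 𝔇 B σ f := by
  obtain ⟨m, rfl | rfl⟩ := n.eq_nat_or_neg
  · push_cast
    exact DB_nsmul 𝔇 B σ m f
  · push_cast
    rw [neg_mul, DB_neg, DB_nsmul, neg_mul]

theorem ell_mul' (i : Fin d) (B : Finset (Fin d)) (σ : As w) {f g : F} (hf : f ≠ 0)
    (hg : g ≠ 0) : ell 𝔇 i B σ (f * g) = ell 𝔇 i B σ f + ell 𝔇 i B σ g := by
  unfold ell
  rw [log_mul 𝔇 i (σ i) hf hg, DB_add]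

theorem ell_zpow' (i : Fin d) (B : Finset (Fin d)) (σ : As w) {f : F} (e : ℤ) (hf : f ≠ 0) :
    ell 𝔇 i B σ (f ^ e) = e * ell 𝔇 i B σ f := by
  unfold ell
  rw [log_zpow 𝔇 i (σ i) hf, DB_zsmul]

theorem leib' {i : Fin d} {B : Finset (Fin d)} (hi : i ∉ B) (σ : As w) {f : F} (hf : f ≠ 0) :
    DB 𝔇 (insert i B) σ f / f = ∑ C ∈ B.powerset, DB 𝔇 C σ f / f * ell 𝔇 i (B \ C) σ f := by
  have h : 𝔇.D i (σ i) f = f * (𝔇.D i (σ i) f / f) := by
    rw [mul_div_cancel₀ _ hf]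
  rw [DB_insert 𝔇 hi, h, DB_mul, Finset.sum_div]
  refine Finset.sum_congr rfl fun C _ => ?_
  unfold ell
  ring

end

end DerRow

open DerRow in
theorem derStatement : DerStatement where
  emp := fun _ _ _ _ 𝔇 σ f => DB_empty 𝔇 σ f
  ins := fun _ _ _ _ 𝔇 _ _ σ f hi => DB_insert 𝔇 hi σ f
  ins' := fun _ _ _ _ 𝔇 _ _ σ f hi => DB_insert' 𝔇 hi σ f
  dep := fun _ _ _ _ 𝔇 _ f _ _ h => DB_congr 𝔇 h f
  dep_ell := fun _ _ _ _ 𝔇 i B f σ τ h => by
    show ell 𝔇 i B σ f = ell 𝔇 i B τ f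
    unfold ell
    rw [h i (Finset.mem_insert_self _ _),
      DB_congr 𝔇 fun j hj => h j (Finset.mem_insert_of_mem hj)]
  sums := fun _ _ _ _ 𝔇 B σ _ s g => DB_sum 𝔇 B σ s g
  mul := fun _ _ _ _ 𝔇 B σ f g => DB_mul 𝔇 B σ f g
  leib := fun _ _ _ _ 𝔇 _ _ σ _ hi hf => leib' 𝔇 hi σ hf
  ell_mul := fun _ _ _ _ 𝔇 i B σ _ _ hf hg => ell_mul' 𝔇 i B σ hf hg
  ell_zpow := fun _ _ _ _ 𝔇 i B σ _ e hf => ell_zpow' 𝔇 i B σ e hf
  zf_mul := fun _ _ _ _ 𝔇 f g hf hg => ⟨mul_ne_zero hf.1 hg.1, fun i B σ hi hB => by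
    rw [ell_mul' 𝔇 i B σ hf.1 hg.1, hf.2 i B σ hi hB, hg.2 i B σ hi hB, add_zero]⟩
  zf_zpow := fun _ _ _ _ 𝔇 f e hf => ⟨zpow_ne_zero e hf.1, fun i B σ hi hB => by
    rw [ell_zpow' 𝔇 i B σ e hf.1, hf.2 i B σ hi hB, mul_zero]⟩

end Pool.Agent.Lib.MP_641cb6_lc.CD
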