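import Pool.Agent.Lib.MP_641cb6_lc.CD.Defs2
import Pool.Agent.Lib.MP_641cb6_lc.CD.Der
import Mathlib.Algebra.MvPolynomial.PDeriv

/-!
# Derivatives of a polynomial in few values
-/

set_option autoImplicit false

namespace Pool.Agent.Lib.MP_641cb6_lc.CD

open Finset

namespace ChainRow

open DerRow

section

variable {d : ℕ} {w : Fin d → ℤ} {F K : Type} [Field F] [Field K] (𝔇 : Der w F) (κ : K →+* F)

theorem chain_one (hκ : ∀ i s c, 𝔇.D i s (κ c) = 0) {s : ℕ} (g : Fin s → F) (i : Fin d)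
    (x : X w i) (G : MvPolynomial (Fin s) K) :
    𝔇.D i x (MvPolynomial.eval₂ κ g G) =
      ∑ t, MvPolynomial.eval₂ κ g (MvPolynomial.pderiv t G) * 𝔇.D i x (g t) := by
  induction G using MvPolynomial.induction_on with
  | C a => simp [hκ]
  | add p q hp hq =>
    rw [MvPolynomial.eval₂_add, 𝔇.add, hp, hq, ← Finset.sum_add_distrib]
    refine Finset.sum_congr rfl fun t _ => ?_
    rw [map_add, MvPolynomial.eval₂_add, add_mul]
  | mul_X p j hp =>
    rw [MvPolynomial.eval₂_mul, MvPolynomial.eval₂_X, 𝔇.mul, hp, Finset.sum_mul]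
    have e : ∀ t : Fin s, MvPolynomial.eval₂ κ g (MvPolynomial.pderiv t (p * MvPolynomial.X j)) *
        𝔇.D i x (g t) = MvPolynomial.eval₂ κ g (MvPolynomial.pderiv t p) * 𝔇.D i x (g t) * g j +
          if t = j then MvPolynomial.eval₂ κ g p * 𝔇.D i x (g j) else 0 := by
      intro t
      rw [MvPolynomial.pderiv_mul, MvPolynomial.eval₂_add, MvPolynomial.eval₂_mul,
        MvPolynomial.eval₂_mul, MvPolynomial.eval₂_X]
      by_cases h : t = j
      · subst h
        rw [if_pos rfl, MvPolynomial.pderiv_X_self, MvPolynomial.eval₂_one]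
        ring
      · rw [if_neg h, MvPolynomial.pderiv_X_of_ne (Ne.symm h), MvPolynomial.eval₂_zero]
        ring
    rw [Finset.sum_congr rfl fun t _ => e t, Finset.sum_add_distrib]
    simp

theorem DB_chain (hκ : ∀ i s c, 𝔇.D i s (κ c) = 0) {s : ℕ} (g : Fin s → F) {i : Fin d}
    {B : Finset (Fin d)} (hi : i ∉ B) (σ : As w) (G : MvPolynomial (Fin s) K) :
    DB 𝔇 (insert i B) σ (MvPolynomial.eval₂ κ g G) =
      ∑ t, ∑ C ∈ B.powerset, DB 𝔇 C σ (MvPolynomial.eval₂ κ g (MvPolynomial.pderiv t G)) *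
        DB 𝔇 (insert i (B \ C)) σ (g t) := by
  rw [DB_insert 𝔇 hi, chain_one 𝔇 κ hκ, DB_sum]
  refine Finset.sum_congr rfl fun t _ => ?_
  rw [DB_mul]
  refine Finset.sum_congr rfl fun C _ => ?_
  rw [DB_insert 𝔇 (fun h => hi (Finset.mem_sdiff.mp h).1)]

theorem num_prod {θ ρ : ℝ} (h0 : 0 < θ) (h1 : θ ≤ 1) (hρ : 0 ≤ ρ) (hρ1 : ρ ≤ 1) {m n : ℕ}
    (hmn : m ≤ n) :
    2 ^ n * ((2 ^ (2 * m ^ 2) * (θ ^ m + ρ)) *
      (2 ^ ((n - m + 1) ^ 2) * (θ ^ (n - m + 1) + ρ))) ≤
      2 ^ (2 * (n + 1) ^ 2) * (θ ^ (n + 1) + ρ) := by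
  obtain ⟨q, rfl⟩ := Nat.exists_eq_add_of_le hmn
  have e0 : m + q - m = q := by omega
  rw [e0]
  have hpos : 0 ≤ θ ^ (m + q + 1) + ρ := add_nonneg (pow_pos h0 _).le hρ
  have hq1 : θ ^ (q + 1) ≤ 1 := pow_le_one₀ h0.le h1
  have hm1 : θ ^ m ≤ 1 := pow_le_one₀ h0.le h1
  have hq0 : 0 ≤ θ ^ (q + 1) := (pow_pos h0 _).le
  have hm0 : 0 ≤ θ ^ m := (pow_pos h0 _).le
  have e1 : θ ^ m * θ ^ (q + 1) = θ ^ (m + q + 1) := by
    rw [← pow_add]; congr 1
  rcases Nat.eq_zero_or_pos m with rfl | hm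
  · have h2 : (θ ^ 0 + ρ) * (θ ^ (q + 1) + ρ) ≤ 2 * (θ ^ (0 + q + 1) + ρ) := by
      rw [pow_zero, Nat.zero_add]
      apply mul_le_mul_of_nonneg_right (by linarith) (by linarith)
    calc (2 : ℝ) ^ (0 + q) * ((2 ^ (2 * 0 ^ 2) * (θ ^ 0 + ρ)) *
          (2 ^ ((q + 1) ^ 2) * (θ ^ (q + 1) + ρ)))
        = 2 ^ q * 2 ^ ((q + 1) ^ 2) * ((θ ^ 0 + ρ) * (θ ^ (q + 1) + ρ)) := by
          norm_num; ring
      _ ≤ 2 ^ q * 2 ^ ((q + 1) ^ 2) * (2 * (θ ^ (0 + q + 1) + ρ)) :=
          mul_le_mul_of_nonneg_left h2 (by positivity)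
      _ = 2 ^ (q + (q + 1) ^ 2 + 1) * (θ ^ (0 + q + 1) + ρ) := by
          rw [pow_add, pow_add]; ring
      _ ≤ _ := by
          apply mul_le_mul_of_nonneg_right _ hpos
          apply pow_le_pow_right₀ (by norm_num)
          nlinarith
  · have h2 : (θ ^ m + ρ) * (θ ^ (q + 1) + ρ) ≤ 4 * (θ ^ (m + q + 1) + ρ) := by
      have a1 : ρ * θ ^ m ≤ ρ := mul_le_of_le_one_right hρ hm1
      have a2 : ρ * θ ^ (q + 1) ≤ ρ := mul_le_of_le_one_right hρ hq1
      have a3 : ρ * ρ ≤ ρ := mul_le_of_le_one_right hρ hρ1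
      have a4 : 0 ≤ θ ^ (m + q + 1) := (pow_pos h0 _).le
      calc (θ ^ m + ρ) * (θ ^ (q + 1) + ρ) =
            θ ^ m * θ ^ (q + 1) + (ρ * θ ^ m + ρ * θ ^ (q + 1) + ρ * ρ) := by ring
        _ ≤ θ ^ (m + q + 1) + (ρ + ρ + ρ) := by rw [e1]; linarith
        _ ≤ _ := by linarith
    calc (2 : ℝ) ^ (m + q) * ((2 ^ (2 * m ^ 2) * (θ ^ m + ρ)) *
          (2 ^ ((q + 1) ^ 2) * (θ ^ (q + 1) + ρ)))
        = 2 ^ (m + q) * 2 ^ (2 * m ^ 2) * 2 ^ ((q + 1) ^ 2) *
          ((θ ^ m + ρ) * (θ ^ (q + 1) + ρ)) := by ring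
      _ ≤ 2 ^ (m + q) * 2 ^ (2 * m ^ 2) * 2 ^ ((q + 1) ^ 2) * (4 * (θ ^ (m + q + 1) + ρ)) :=
          mul_le_mul_of_nonneg_left h2 (by positivity)
      _ = 2 ^ (m + q + 2 * m ^ 2 + (q + 1) ^ 2 + 2) * (θ ^ (m + q + 1) + ρ) := by
          rw [pow_add, pow_add, pow_add, pow_add]; ring
      _ ≤ _ := by
          apply mul_le_mul_of_nonneg_right _ hpos
          apply pow_le_pow_right₀ (by norm_num)
          nlinarith

variable (hR : RankStatement)
include hR

theorem main (hκ : ∀ i s c, 𝔇.D i s (κ c) = 0) {s : ℕ} (g : Fin s → F) {θ ρ : ℝ} (h0 : 0 < θ)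
    (h1 : θ ≤ 1) (hρ : 0 ≤ ρ) (hρ1 : ρ ≤ 1)
    (hg : ∀ t, g t ≠ 0 → ∀ B, Rk w B (fun σ => DB 𝔇 B σ (g t) / g t)
      (2 ^ (B.card ^ 2) * (θ ^ B.card + ρ))) :
    ∀ (n : ℕ) (B : Finset (Fin d)), B.card = n → ∀ (G : MvPolynomial (Fin s) K) (c : F),
      Rk w B (fun σ => c * DB 𝔇 B σ (MvPolynomial.eval₂ κ g G))
        ((s : ℝ) ^ n * (2 ^ (2 * n ^ 2) * (θ ^ n + ρ))) := by
  intro n
  induction n using Nat.strong_induction_on with
  | _ n ih =>
    intro B hB G c
    rcases n with _ | n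
    · rw [Finset.card_eq_zero] at hB
      subst hB
      have h := hR.one d w F (c * MvPolynomial.eval₂ κ g G)
      have e : (fun σ => c * DB 𝔇 ∅ σ (MvPolynomial.eval₂ κ g G)) =
          fun _ : As w => c * MvPolynomial.eval₂ κ g G := by
        funext σ; rw [DB_empty]
      rw [e]
      refine hR.mono d w F _ _ _ _ h ?_
      norm_num
      exact hρ
    · obtain ⟨i, B', hi, rfl, hB'⟩ := Finset.card_eq_succ.mp hB
      have hpos : 0 ≤ θ ^ (n + 1) + ρ := add_nonneg (pow_pos h0 _).le hρ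
      have hterm : ∀ t : Fin s, ∀ C ∈ B'.powerset,
          Rk w (insert i B') (fun σ => c * (DB 𝔇 C σ (MvPolynomial.eval₂ κ g
            (MvPolynomial.pderiv t G)) * DB 𝔇 (insert i (B' \ C)) σ (g t)))
            ((s : ℝ) ^ n * (2 ^ (2 * (n + 1) ^ 2) * (θ ^ (n + 1) + ρ) / 2 ^ n)) := by
        intro t C hC
        have hC' := Finset.mem_powerset.mp hC
        have hcard : (B' \ C).card = n - C.card := by
          rw [Finset.card_sdiff_of_subset hC', hB']
        have hCn : C.card ≤ n := hB' ▸ Finset.card_le_card hC'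
        have hi' : i ∉ B' \ C := fun h => hi (Finset.mem_sdiff.mp h).1
        by_cases hgt : g t = 0
        · have e : (fun σ => c * (DB 𝔇 C σ (MvPolynomial.eval₂ κ g
            (MvPolynomial.pderiv t G)) * DB 𝔇 (insert i (B' \ C)) σ (g t))) =
              fun _ : As w => (0 : F) := by
            funext σ
            rw [hgt, DB_zero, mul_zero, mul_zero]
          rw [e]
          exact hR.mono d w F _ _ _ _ (hR.zero d w F _) (by positivity)
        · have e : (fun σ => c * (DB 𝔇 C σ (MvPolynomial.eval₂ κ g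
            (MvPolynomial.pderiv t G)) * DB 𝔇 (insert i (B' \ C)) σ (g t))) =
              fun σ => (c * g t * DB 𝔇 C σ (MvPolynomial.eval₂ κ g
                (MvPolynomial.pderiv t G))) * (DB 𝔇 (insert i (B' \ C)) σ (g t) / g t) := by
            funext σ
            field_simp
          have hd : Disjoint C (insert i (B' \ C)) := by
            rw [Finset.disjoint_insert_right]
            exact ⟨fun h => hi (hC' h), Finset.disjoint_sdiff⟩
          have eU : C ∪ insert i (B' \ C) = insert i B' := by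
            rw [Finset.union_insert, Finset.union_sdiff_of_subset hC']
          have hc : (insert i (B' \ C)).card = n - C.card + 1 := by
            rw [Finset.card_insert_of_notMem hi', hcard]
          have hx := ih C.card (by omega) C rfl (MvPolynomial.pderiv t G) (c * g t)
          have hy := hg t hgt (insert i (B' \ C))
          rw [hc] at hy
          have hx0 : 0 ≤ (s : ℝ) ^ C.card * (2 ^ (2 * C.card ^ 2) * (θ ^ C.card + ρ)) := by
            have : 0 ≤ θ ^ C.card + ρ := add_nonneg (pow_pos h0 _).le hρ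
            positivity
          have hy0 : 0 ≤ (2 : ℝ) ^ ((n - C.card + 1) ^ 2) * (θ ^ (n - C.card + 1) + ρ) := by
            have : 0 ≤ θ ^ (n - C.card + 1) + ρ := add_nonneg (pow_pos h0 _).le hρ
            positivity
          have hm := hR.mul d w F _ _ _ _ _ _ hd hx0 hy0 hx hy
          rw [eU] at hm
          rw [e]
          refine hR.mono d w F _ _ _ _ hm ?_
          have hs1 : (1 : ℝ) ≤ s := by
            have : 0 < s := Fin.pos t
            exact_mod_cast this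
          have hsn : (s : ℝ) ^ C.card ≤ (s : ℝ) ^ n := pow_le_pow_right₀ hs1 hCn
          have hnum := num_prod h0 h1 hρ hρ1 hCn
          have hnum' : (2 ^ (2 * C.card ^ 2) * (θ ^ C.card + ρ)) *
              (2 ^ ((n - C.card + 1) ^ 2) * (θ ^ (n - C.card + 1) + ρ)) ≤
              2 ^ (2 * (n + 1) ^ 2) * (θ ^ (n + 1) + ρ) / 2 ^ n := by
            rw [le_div_iff₀ (by positivity)]
            linarith
          have hz : 0 ≤ (2 ^ (2 * C.card ^ 2) * (θ ^ C.card + ρ)) *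
              (2 ^ ((n - C.card + 1) ^ 2) * (θ ^ (n - C.card + 1) + ρ)) := by
            have a1 : 0 ≤ θ ^ C.card + ρ := add_nonneg (pow_pos h0 _).le hρ
            have a2 : 0 ≤ θ ^ (n - C.card + 1) + ρ := add_nonneg (pow_pos h0 _).le hρ
            positivity
          calc (s : ℝ) ^ C.card * (2 ^ (2 * C.card ^ 2) * (θ ^ C.card + ρ)) *
                (2 ^ ((n - C.card + 1) ^ 2) * (θ ^ (n - C.card + 1) + ρ))
              = (s : ℝ) ^ C.card * ((2 ^ (2 * C.card ^ 2) * (θ ^ C.card + ρ)) *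
                (2 ^ ((n - C.card + 1) ^ 2) * (θ ^ (n - C.card + 1) + ρ))) := by ring
            _ ≤ (s : ℝ) ^ n * (2 ^ (2 * (n + 1) ^ 2) * (θ ^ (n + 1) + ρ) / 2 ^ n) :=
                mul_le_mul hsn hnum' hz (by positivity)
      have hsum := hR.sum d w F (insert i B') (Fin s) Finset.univ _ _ (fun t _ =>
        hR.sum d w F (insert i B') (Finset (Fin d)) B'.powerset _ _ (hterm t))
      have hfun : (fun σ => c * DB 𝔇 (insert i B') σ (MvPolynomial.eval₂ κ g G)) =
          fun σ => ∑ t, ∑ C ∈ B'.powerset, c * (DB 𝔇 C σ (MvPolynomial.eval₂ κ g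
            (MvPolynomial.pderiv t G)) * DB 𝔇 (insert i (B' \ C)) σ (g t)) := by
        funext σ
        rw [DB_chain 𝔇 κ hκ g hi, Finset.mul_sum]
        refine Finset.sum_congr rfl fun t _ => ?_
        rw [Finset.mul_sum]
      rw [hfun]
      refine hR.mono d w F _ _ _ _ hsum ?_
      rw [Finset.sum_const, Finset.sum_const, Finset.card_powerset, hB', Finset.card_univ,
        Fintype.card_fin, nsmul_eq_mul, nsmul_eq_mul]
      apply le_of_eq
      push_cast
      have h2n : (2 : ℝ) ^ n ≠ 0 := by positivity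
      field_simp
      ring

end

end ChainRow

theorem chainStatement (hR : RankStatement) : ChainStatement := by
  intro d w F K _ _ 𝔇 κ hκ s g θ ρ h0 h1 hρ hρ1 hg B G c
  exact ChainRow.main 𝔇 κ hR hκ g h0 h1 hρ hρ1 hg _ B rfl G c

end Pool.Agent.Lib.MP_641cb6_lc.CD
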