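import Pool.Agent.Lib.MP_641cb6_lc.CD.Num
import Mathlib.Data.Nat.Log
import Mathlib.Data.Nat.Sqrt

/-!
# Numbers for growing nesting
-/

set_option autoImplicit false

namespace Pool.Agent.Lib.MP_641cb6_lc.CD

theorem TT_mul (lam j : ℕ) : TT lam j * lam = (2 * lam) ^ 4 ^ j := by
  induction j with
  | zero => simp [TT]
  | succ j ih =>
    have h1 : TT lam (j + 1) * lam = (TT lam j * lam) ^ 4 := by
      simp only [TT]
      ring
    rw [h1, ih, ← pow_mul, pow_succ]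

theorem TT_le {lam : ℕ} (hlam : 1 ≤ lam) (j : ℕ) : TT lam j ≤ (2 * lam) ^ 4 ^ j := by
  rw [← TT_mul]
  exact Nat.le_mul_of_pos_right _ hlam

/-- the parameter -/
def lamG (c D : ℕ) : ℕ := 16 * (2 + 4 * D + 4 * D * c)

theorem lamG_pos (c D : ℕ) : 1 ≤ lamG c D := by
  unfold lamG
  omega

/-- for large `D` -/
theorem TT_large (c D : ℕ) (hD : 1920 * (c + 1) ≤ D) :
    5 * TT (lamG c D) D + 5 ≤ 2 ^ 2 ^ (3 * D) := by
  have h1 := TT_le (lamG_pos c D) D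
  have h2 : 20 * lamG c D ≤ 2 ^ 2 ^ D := by
    have h3 : 2 * D ≤ 2 ^ D := by
      have h4 : ∀ n : ℕ, 1 ≤ n → 2 * n ≤ 2 ^ n := by
        intro n hn
        induction n, hn using Nat.le_induction with
        | base => norm_num
        | succ n hn ih =>
          rw [pow_succ]
          have : 2 ≤ 2 ^ n := by
            calc 2 = 2 ^ 1 := rfl
              _ ≤ 2 ^ n := Nat.pow_le_pow_right (by norm_num) hn
          omega
      exact h4 D (by omega)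
    have h5 : 2 ^ (2 * D) ≤ 2 ^ 2 ^ D := Nat.pow_le_pow_right (by norm_num) h3
    have h6 : D * D ≤ 2 ^ (2 * D) := by
      have h7 : D < 2 ^ D := Nat.lt_two_pow_self
      calc D * D ≤ 2 ^ D * 2 ^ D := Nat.mul_le_mul h7.le h7.le
        _ = 2 ^ (2 * D) := by rw [← pow_add]; congr 1; omega
    refine le_trans ?_ (h6.trans h5)
    have h8 : 20 * lamG c D ≤ 1920 * (c + 1) * D := by
      unfold lamG
      have h9 : 1 ≤ D := by omega
      nlinarith [Nat.zero_le (D * c)]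
    exact h8.trans (Nat.mul_le_mul_right D hD)
  have h10 : 5 * (2 * lamG c D) ^ 4 ^ D + 5 ≤ 10 ^ 4 ^ D * (2 * lamG c D) ^ 4 ^ D := by
    have h11 : 1 ≤ (2 * lamG c D) ^ 4 ^ D := Nat.one_le_pow _ _ (by have := lamG_pos c D; omega)
    have h12 : 10 ≤ 10 ^ 4 ^ D := by
      calc 10 = 10 ^ 1 := rfl
        _ ≤ 10 ^ 4 ^ D := Nat.pow_le_pow_right (by norm_num) (Nat.one_le_pow _ _ (by norm_num))
    calc 5 * (2 * lamG c D) ^ 4 ^ D + 5 ≤ 10 * (2 * lamG c D) ^ 4 ^ D := by omega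
      _ ≤ _ := Nat.mul_le_mul_right _ h12
  calc 5 * TT (lamG c D) D + 5 ≤ 5 * (2 * lamG c D) ^ 4 ^ D + 5 := by omega
    _ ≤ 10 ^ 4 ^ D * (2 * lamG c D) ^ 4 ^ D := h10
    _ = (20 * lamG c D) ^ 4 ^ D := by rw [← mul_pow]; congr 1; ring
    _ ≤ (2 ^ 2 ^ D) ^ 4 ^ D := Nat.pow_le_pow_left h2 _
    _ = 2 ^ 2 ^ (3 * D) := by
      rw [← pow_mul]
      congr 1
      rw [show 3 * D = D + 2 * D by ring, pow_add, pow_mul 2 2 D]
      norm_num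

/-- the numbers for growing nesting -/
theorem numG (c : ℕ) : ∃ d0 : ℕ, 1 ≤ d0 ∧ ∀ d ≥ d0, ∀ D : ℕ, 2 ^ 2 ^ (3 * D) ≤ d →
    ∃ lam : ℕ, 1 ≤ lam ∧ ∀ m k : ℕ, d ^ 2 ≤ k → 2 ^ k ≤ m → m < 2 ^ (k + 1) →
      TT lam D ≤ d ∧ 24 * TT lam D ^ 2 + 5 ≤ k ∧
      d * rh ((m : ℝ) ^ c) (2 ^ (d ^ 2)) ((2 : ℝ) ^ (-((k : ℝ) * lam) / 16)) D <
        (2 : ℝ) ^ (-(k : ℝ) / 2) := by
  refine ⟨(Finset.range (1920 * (c + 1))).sup (fun D => 5 * TT (lamG c D) D + 5) + 1, by omega,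
    ?_⟩
  intro d hd D hD
  refine ⟨lamG c D, lamG_pos c D, fun m k hdk hm1 hm2 => ?_⟩
  have hT : 5 * TT (lamG c D) D + 5 ≤ d := by
    rcases Nat.lt_or_ge D (1920 * (c + 1)) with h | h
    · have h1 : 5 * TT (lamG c D) D + 5 ≤
          (Finset.range (1920 * (c + 1))).sup (fun D => 5 * TT (lamG c D) D + 5) :=
        Finset.le_sup (f := fun D => 5 * TT (lamG c D) D + 5) (Finset.mem_range.2 h)
      omega
    · exact (TT_large c D h).trans hD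
  have hT2 : 24 * TT (lamG c D) D ^ 2 + 5 ≤ k := by
    refine le_trans ?_ hdk
    have h1 : (5 * TT (lamG c D) D + 5) ^ 2 ≤ d ^ 2 := Nat.pow_le_pow_left hT 2
    nlinarith [Nat.zero_le (TT (lamG c D) D)]
  refine ⟨by omega, hT2, ?_⟩
  have hd1 : 1 ≤ d := by omega
  have hdd : d ≤ d ^ 2 := by nlinarith
  have hdk' : d ≤ k := hdd.trans hdk
  have hk1 : 1 ≤ k := hd1.trans hdk'
  unfold lamG
  set e : ℕ := 2 + 4 * D + 4 * D * c with he
  have hη : (2 : ℝ) ^ (-((k : ℝ) * ((16 * e : ℕ) : ℝ)) / 16) = ((2 : ℝ) ^ (k * e))⁻¹ := by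
    rw [show -((k : ℝ) * ((16 * e : ℕ) : ℝ)) / 16 = -((k * e : ℕ) : ℝ) by push_cast; ring,
      Real.rpow_neg (by norm_num), Real.rpow_natCast]
  rw [hη]
  have hm : (1 : ℝ) ≤ m := by
    have : 1 ≤ m := le_trans Nat.one_le_two_pow hm1
    exact_mod_cast this
  have hM1 : (1 : ℝ) ≤ (m : ℝ) ^ c := one_le_pow₀ hm
  have hb1 : (1 : ℝ) ≤ (2 : ℝ) ^ (d ^ 2) := one_le_pow₀ (by norm_num)
  have hM : (m : ℝ) ^ c ≤ (2 : ℝ) ^ (2 * k * c) := by
    have h1 : m ≤ 2 ^ (2 * k) := hm2.le.trans (Nat.pow_le_pow_right (by norm_num) (by omega))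
    have h2 : (m : ℝ) ≤ (2 : ℝ) ^ (2 * k) := by exact_mod_cast h1
    rw [pow_mul (2 : ℝ) (2 * k) c]
    exact pow_le_pow_left₀ (by positivity) h2 c
  have hb : (2 : ℝ) ^ (d ^ 2) ≤ (2 : ℝ) ^ k := pow_le_pow_right₀ (by norm_num) hdk
  have h3 : 3 * ((m : ℝ) ^ c) ^ 2 * ((2 : ℝ) ^ (d ^ 2)) ^ 2 ≤ (2 : ℝ) ^ (k * (4 + 4 * c)) := by
    have h4 : (3 : ℝ) ≤ (2 : ℝ) ^ (2 * k) := by
      have : (2 : ℝ) ^ 2 ≤ (2 : ℝ) ^ (2 * k) := pow_le_pow_right₀ (by norm_num) (by omega)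
      linarith
    calc 3 * ((m : ℝ) ^ c) ^ 2 * ((2 : ℝ) ^ (d ^ 2)) ^ 2
        ≤ (2 : ℝ) ^ (2 * k) * ((2 : ℝ) ^ (2 * k * c)) ^ 2 * ((2 : ℝ) ^ k) ^ 2 := by
          gcongr
      _ = (2 : ℝ) ^ (k * (4 + 4 * c)) := by
          rw [← pow_mul, ← pow_mul, ← pow_add, ← pow_add]
          congr 1
          ring
  have h5 := rh_le hM1 hb1 (η := ((2 : ℝ) ^ (k * e))⁻¹) (by positivity) D
  have h6 : (d : ℝ) ≤ (2 : ℝ) ^ k := by
    have : d < 2 ^ k := hdk'.trans_lt Nat.lt_two_pow_self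
    exact_mod_cast this.le
  have h7 : (d : ℝ) * rh ((m : ℝ) ^ c) (2 ^ (d ^ 2)) (((2 : ℝ) ^ (k * e))⁻¹) D ≤
      ((2 : ℝ) ^ k)⁻¹ := by
    calc (d : ℝ) * rh ((m : ℝ) ^ c) (2 ^ (d ^ 2)) (((2 : ℝ) ^ (k * e))⁻¹) D
        ≤ (2 : ℝ) ^ k * (((2 : ℝ) ^ (k * (4 + 4 * c))) ^ D * ((2 : ℝ) ^ (k * e))⁻¹) := by
          refine mul_le_mul h6 (h5.trans ?_) (rh_nonneg hM1 hb1 (by positivity) D) (by positivity)
          refine mul_le_mul_of_nonneg_right ?_ (by positivity)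
          exact pow_le_pow_left₀ (by positivity) h3 D
      _ = ((2 : ℝ) ^ k)⁻¹ := by
          rw [← pow_mul, ← mul_assoc, ← pow_add]
          rw [show k * e = k + k * (4 + 4 * c) * D + k by rw [he]; ring]
          rw [pow_add (2 : ℝ) (k + k * (4 + 4 * c) * D) k]
          field_simp
  refine h7.trans_lt ?_
  rw [← Real.rpow_natCast, ← Real.rpow_neg (by norm_num)]
  refine Real.rpow_lt_rpow_of_exponent_lt (by norm_num) ?_
  have : (1 : ℝ) ≤ k := by exact_mod_cast hk1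
  linarith

/-- the size of the matrices for `v` unknowns, growing nesting -/
theorem hNumG (d1 : ℕ) : ∃ v0 : ℕ, ∀ v ≥ v0, ∃ d m : ℕ, d1 ≤ d ∧ 1 ≤ d ∧ 2 ^ (d ^ 2) ≤ m ∧
    d * (m * m) ≤ v ∧ v ≤ m ^ 3 ∧ ∀ D : ℕ, 2 ^ 2 ^ 2 ^ (4 * D) ≤ v → 2 ^ 2 ^ (3 * D) ≤ d := by
  refine ⟨2 ^ (4 * (d1 + 256) ^ 2), fun v hv => ?_⟩
  set L := Nat.log 2 v with hL
  have hv0 : v ≠ 0 := by
    have : 0 < 2 ^ (4 * (d1 + 256) ^ 2) := by positivity
    omega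
  have hL1 : 2 ^ L ≤ v := Nat.pow_log_le_self 2 hv0
  have hL2 : 4 * (d1 + 256) ^ 2 ≤ L := Nat.le_log_of_pow_le (by norm_num) hv
  set d := Nat.sqrt (L / 4) with hd
  have hd1 : d1 + 256 ≤ d := by
    rw [hd, Nat.le_sqrt']
    omega
  have hd2 : d ^ 2 ≤ L / 4 := by
    rw [pow_two]
    exact Nat.sqrt_le _
  have hd3 : 4 * d ^ 2 ≤ L := by omega
  -- the size of the matrices
  set M := 2 ^ (d ^ 2) + 4 * d with hM
  have hMM : M * M * d ≤ v := by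
    have h1 : 4 * d ≤ 2 ^ (d ^ 2) := by
      have h2 : d < 2 ^ d := Nat.lt_two_pow_self
      have h3 : 2 ^ (d + 2) ≤ 2 ^ (d ^ 2) := Nat.pow_le_pow_right (by norm_num) (by nlinarith)
      have h4 : 2 ^ (d + 2) = 4 * 2 ^ d := by rw [pow_add]; ring
      omega
    have h5 : M ≤ 2 ^ (d ^ 2 + 1) := by
      rw [pow_succ]
      omega
    have h6 : d ≤ 2 ^ d := Nat.lt_two_pow_self.le
    calc M * M * d ≤ 2 ^ (d ^ 2 + 1) * 2 ^ (d ^ 2 + 1) * 2 ^ d :=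
          Nat.mul_le_mul (Nat.mul_le_mul h5 h5) h6
      _ = 2 ^ (2 * d ^ 2 + 2 + d) := by rw [← pow_add, ← pow_add]; congr 1; ring
      _ ≤ 2 ^ L := Nat.pow_le_pow_right (by norm_num) (by nlinarith)
      _ ≤ v := hL1
  have hdpos : 0 < d := by omega
  set m := Nat.sqrt (v / d) with hm
  have h1 : M * M ≤ v / d := by
    rw [Nat.le_div_iff_mul_le hdpos]
    exact hMM
  have h2 : M ≤ m := Nat.le_sqrt.2 h1
  have h3 : m * m ≤ v / d := Nat.sqrt_le _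
  have h4 : v / d < (m + 1) * (m + 1) := Nat.sqrt_lt.1 (Nat.lt_succ_self _)
  have h0 : 2 ^ (d ^ 2) ≤ M := Nat.le_add_right _ _
  have h0' : 4 * d ≤ M := Nat.le_add_left _ _
  refine ⟨d, m, by omega, by omega, h0.trans h2, ?_, ?_, ?_⟩
  · calc d * (m * m) = m * m * d := Nat.mul_comm _ _
      _ ≤ v / d * d := Nat.mul_le_mul_right _ h3
      _ ≤ v := Nat.div_mul_le_self v d
  · have h5 : v < (m + 1) * (m + 1) * d := (Nat.div_lt_iff_lt_mul hdpos).1 h4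
    have h6 : 4 * d ≤ m := h0'.trans h2
    have h7 : 1 ≤ m := by omega
    have h8 : (m + 1) * (m + 1) * d ≤ m ^ 3 := by
      calc (m + 1) * (m + 1) * d ≤ (2 * m) * (2 * m) * d :=
            Nat.mul_le_mul_right _ (Nat.mul_le_mul (by omega) (by omega))
        _ = m * m * (4 * d) := by ring
        _ ≤ m * m * m := Nat.mul_le_mul_left _ h6
        _ = m ^ 3 := by ring
    omega
  · intro D hD
    have h5 : 2 ^ 2 ^ (4 * D) ≤ L := Nat.le_log_of_pow_le (by norm_num) hD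
    rcases Nat.lt_or_ge D 2 with h6 | h6
    · have h7 : 2 ^ 2 ^ (3 * D) ≤ 256 := by
        interval_cases D <;> norm_num
      omega
    · rw [hd, Nat.le_sqrt, ← pow_add]
      have h7 : 2 ^ (3 * D) + 2 ^ (3 * D) + 2 ≤ 2 ^ (4 * D) := by
        have h8 : 2 ^ (4 * D) = 2 ^ D * 2 ^ (3 * D) := by
          rw [← pow_add]
          congr 1
          ring
        have h9 : 4 ≤ 2 ^ D := by
          calc 4 = 2 ^ 2 := by norm_num
            _ ≤ 2 ^ D := Nat.pow_le_pow_right (by norm_num) h6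
        have h10 : 1 ≤ 2 ^ (3 * D) := Nat.one_le_two_pow
        rw [h8]
        nlinarith
      rw [Nat.le_div_iff_mul_le (by norm_num)]
      calc 2 ^ (2 ^ (3 * D) + 2 ^ (3 * D)) * 4 = 2 ^ (2 ^ (3 * D) + 2 ^ (3 * D) + 2) := by
            rw [pow_add _ _ 2]; norm_num
        _ ≤ 2 ^ 2 ^ (4 * D) := Nat.pow_le_pow_right (by norm_num) h7
        _ ≤ L := h5

end Pool.Agent.Lib.MP_641cb6_lc.CD
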