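import Pool.Agent.Lib.MP_641cb6_lc.CD.HFinal
import Pool.Agent.Lib.MP_641cb6_lc.CD.NumG

/-!
# Gates of two kinds: few terms or few arguments
-/

set_option autoImplicit false

namespace Pool.Agent.Lib.MP_641cb6_lc.CD

open Pool.Agent.Lib.MP_641cb6_lc.KG (Ins GTree Pol St SSt pf cc sym deps Branches Decides Verifies)
open Filter Topology

/-- every gate of the tree is a polynomial with at most `M` terms (of any degree, in any number of
values) or a polynomial in at most `r` values (of any degree, with any number of terms) -/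
def Gates {K : Type} [Field K] (T : GTree K) (M r : ℕ) : Prop :=
  ∀ (h : List Bool) (s : ℕ) (F : MvPolynomial (Fin s) K) (i : Fin s → ℕ), T h = .gate s F i →
    F.support.card ≤ M ∨ s ≤ r

/-- Every finite family of trees whose gates have at most `M` terms or at most `r` arguments that
decides `S` jointly branches, on some input, on a value that depends on a gate whose nesting is
larger than `D` or which depends on more than `M` gates. -/
def Hard2 {K : Type} [Field K] (P : K → Prop) {n : ℕ} (S : Set ((Fin n → K) × K)) (D M r : ℕ) :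
    Prop :=
  ∀ (N : ℕ) (T : Fin N → GTree K) (Φ : (Fin N → Bool) → Prop), (∀ u, Gates (T u) M r) →
    Decides P T Φ S → ∃ (u : Fin N) (x : (Fin n → K) × K) (k i a : ℕ),
      Branches (T u ((T u).run P x k).hist) i ∧
      a ∈ (deps n (T u) ((T u).run P x k).hist).val i ∧
      (D < (nests n (T u) ((T u).run P x k).hist).gate a ∨
        M < ((deps n (T u) ((T u).run P x k).hist).sum a).card)

section Levels

variable {d : ℕ} {w : Fin d → ℤ} {F : Type} [Field F]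

/-- the value of a polynomial in at most `r` elements with the property `V` -/
def PolyOf {K : Type} [Field K] (κ : K →+* F) (r : ℕ) (V : F → Prop) (S : F) : Prop :=
  ∃ s ≤ r, ∃ (G : MvPolynomial (Fin s) K) (g : Fin s → F), (∀ t, V (g t)) ∧
    S = MvPolynomial.eval₂ κ g G

/-- values of nesting at most `j` with at most `M` gates with at most `M` terms or at most `r`
arguments each -/
def Vy {K : Type} [Field K] (κ : K →+* F) (𝔇 : Der w F) (M r : ℕ) : ℕ → F → Prop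
  | 0 => fun f => f = 0 ∨ Zf 𝔇 f
  | j + 1 => fun f => f = 0 ∨ ∃ (f0 : F) (m : ℕ) (S : Fin m → F) (e : Fin m → ℤ), m ≤ M ∧
      Zf 𝔇 f0 ∧ (∀ t, S t ≠ 0 ∧ (SumOf M (Vy κ 𝔇 M r j) (S t) ∨
        PolyOf κ r (Vy κ 𝔇 M r j) (S t))) ∧ f = f0 * ∏ t, S t ^ e t

end Levels

/-- Row CHAIN: derivatives of a polynomial in few values. Induction over `B`, for all `G` and `c`:
`D_(B+i) G(g) = ∑_t ∑_(C ⊆ B) D_C (∂_t G)(g) * D_((B∖C)+i) g_t`. -/
def ChainStatement : Prop :=
  ∀ (d : ℕ) (w : Fin d → ℤ) (F K : Type) [Field F] [Field K] (𝔇 : Der w F) (κ : K →+* F),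
    (∀ i s c, 𝔇.D i s (κ c) = 0) → ∀ (s : ℕ) (g : Fin s → F) (θ ρ : ℝ), 0 < θ → θ ≤ 1 → 0 ≤ ρ →
    ρ ≤ 1 →
    (∀ t, g t ≠ 0 → ∀ B, Rk w B (fun σ => DB 𝔇 B σ (g t) / g t)
      (2 ^ (B.card ^ 2) * (θ ^ B.card + ρ))) →
    ∀ (B : Finset (Fin d)) (G : MvPolynomial (Fin s) K) (c : F),
      Rk w B (fun σ => c * DB 𝔇 B σ (MvPolynomial.eval₂ κ g G))
        ((s : ℝ) ^ B.card * (2 ^ (2 * B.card ^ 2) * (θ ^ B.card + ρ)))

/-- Row LEVELS2. -/
def Level2Statement : Prop :=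
  ∀ (d k t lam M r : ℕ) (w : Fin d → ℤ) (F K : Type) [Field F] [Field K] (𝔇 : Der w F)
    (κ : K →+* F), (∀ i s c, 𝔇.D i s (κ c) = 0) → IsWord w k t → 1 ≤ lam → 1 ≤ M →
    r ^ d ≤ M * 2 ^ (d ^ 2) → ∀ (j : ℕ) (f : F), TT lam j ≤ t → f ≠ 0 → Vy κ 𝔇 M r j f →
    ∀ i B, i ∉ B → TT lam j ≤ B.card + 1 →
      Rk w (insert i B) (fun σ => ell 𝔇 i B σ f)
        (rh M (2 ^ (3 * d ^ 2)) ((2 : ℝ) ^ (-((k : ℝ) * lam) / 16)) j)

/-- Row STRUC2: the atom of a gate with `s` arguments is a polynomial in `s + 1` products of powers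
of the earlier atoms (`gpol`), so it satisfies `PolyOf (r + 1)`. -/
structure Struc2Statement : Prop where
  supp : ∀ (K : Type) [Field K] (n : ℕ) (T : GTree K) (h : List Bool) (i l : ℕ),
    ((sym n T h).val i).2 (n + 1 + l) ≠ 0 → l ∈ (deps n T h).val i
  level : ∀ (K : Type) [Field K] (d n M r D : ℕ) (w : Fin d → ℤ) (𝔇 : Der w (FF K n)),
    (∀ l, Zf 𝔇 (xF K l)) → Zf 𝔇 (zF K n) → (∀ c : K, c ≠ 0 → Zf 𝔇 (cF K n c)) → 1 ≤ M →
    ∀ (T : GTree K), Gates T M r → ∀ (h : List Bool) (l : ℕ), l < (sym n T h).atoms.length →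
    (nests n T h).gate l ≤ D → ((deps n T h).sum l).card ≤ M →
    Vy ((algebraMap (Pol K n) (FF K n)).comp (cc K n)) 𝔇 M (r + 1) D
      (algebraMap (Pol K n) (FF K n) ((sym n T h).atom (n + 1 + l)))

/-- Row SUBST2. -/
def Subst2Statement : Prop :=
  ∀ (K : Type) [Field K] (P : K → Prop) (n n' N M r : ℕ) (φ : Fin n' → Fin n ⊕ K)
    (T : Fin N → GTree K) (Φ : (Fin N → Bool) → Prop) (S : Set ((Fin n' → K) × K)),
    (∀ u, Gates (T u) M r) → Decides P T Φ S →
    ∃ T' : Fin N → GTree K, (∀ u, Gates (T' u) M r) ∧ Decides P T' Φ {x | pull φ x ∈ S} ∧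
      ∀ (u : Fin N) (x : (Fin n → K) × K) (k' i' a : ℕ),
        Branches (T' u ((T' u).run P x k').hist) i' →
        a ∈ (deps n (T' u) ((T' u).run P x k').hist).val i' →
        ∃ k i, Branches (T u ((T u).run P (pull φ x) k).hist) i ∧
          a ∈ (deps n' (T u) ((T u).run P (pull φ x) k).hist).val i ∧
          (deps n' (T u) ((T u).run P (pull φ x) k).hist).sum a =
            (deps n (T' u) ((T' u).run P x k').hist).sum a ∧
          (nests n' (T u) ((T u).run P (pull φ x) k).hist).gate a =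
            (nests n (T' u) ((T' u).run P x k').hist).gate a

/-- the number of matrices -/
def dd (D c : ℕ) : ℕ := (4096 * (c + 1) * (D + 1)) ^ 4 ^ D

/-- Row NUM2. `lam = 256 (c + 1) (D + 1)`, `m = Nat.sqrt (v / dd D c)`. -/
def Num2Statement : Prop :=
  ∀ D c v : ℕ, 1 ≤ c → 2 ^ (16 * dd D c ^ 2) ≤ v → ∃ m lam : ℕ, 1 ≤ lam ∧
    2 ^ (dd D c ^ 2) ≤ m ∧ dd D c * (m * m) ≤ v ∧ TT lam D ≤ dd D c ∧
    24 * TT lam D ^ 2 + 5 ≤ Nat.log 2 m ∧
    dd D c * rh ((v : ℝ) ^ c) (2 ^ (3 * dd D c ^ 2))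
        ((2 : ℝ) ^ (-((Nat.log 2 m : ℝ) * lam) / 16)) D <
      (2 : ℝ) ^ (-(Nat.log 2 m : ℝ) / 2)

end Pool.Agent.Lib.MP_641cb6_lc.CD
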