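import Pool.Agent.Lib.MP_641cb6_lc.CD.Defs2

/-!
# Alternations: consecutive linear gates count once
-/

set_option autoImplicit false

namespace Pool.Agent.Lib.MP_641cb6_lc.CD

open Pool.Agent.Lib.MP_641cb6_lc.KG (Ins GTree St deps Branches Decides Verifies)

/-- the levels of the gates computed so far, and for each value its level and its level as an
argument of a linear gate -/
structure Ast where
  gates : List ℕ
  vals : List (ℕ × ℕ)

/-- the level of the value number `i` and its level as an argument of a linear gate -/
def Ast.val (d : Ast) (i : ℕ) : ℕ × ℕ := d.vals.getD i (0, 1)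

/-- the level of the gate number `a` -/
def Ast.gate (d : Ast) (a : ℕ) : ℕ := d.gates.getD a 0

section

variable {K : Type} [Field K]

open Classical in
/-- The effect of an instruction on the levels: inputs and constants have level `0`, a product or a
quotient has the larger one of the levels of the two values, a gate that is not linear one more than
the largest level of its arguments. For a linear gate (degree at most `1`) this is the same, except
that arguments that are values of linear gates count with their own level, not one more. -/
noncomputable def nextA (ins : Ins K) (d : Ast) : Ast :=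
  match ins with
  | .const _ => ⟨d.gates, d.vals ++ [(0, 1)]⟩
  | .mul i j => ⟨d.gates, d.vals ++ [(max (d.val i).1 (d.val j).1, max (d.val i).1 (d.val j).1 + 1)]⟩
  | .div i j => ⟨d.gates, d.vals ++ [(max (d.val i).1 (d.val j).1, max (d.val i).1 (d.val j).1 + 1)]⟩
  | .gate _ F i =>
      if F.totalDegree ≤ 1 then
        ⟨d.gates ++ [max 1 (Finset.univ.sup fun k => (d.val (i k)).2)],
          d.vals ++ [(max 1 (Finset.univ.sup fun k => (d.val (i k)).2),
            max 1 (Finset.univ.sup fun k => (d.val (i k)).2))]⟩
      else
        ⟨d.gates ++ [(Finset.univ.sup fun k => (d.val (i k)).1) + 1],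
          d.vals ++ [((Finset.univ.sup fun k => (d.val (i k)).1) + 1,
            (Finset.univ.sup fun k => (d.val (i k)).1) + 2)]⟩
  | .test _ => d
  | .answer _ => d

/-- the levels of the tree `T` on inputs from `K ^ n × K` after the outcomes `h` -/
noncomputable def alts (n : ℕ) (T : GTree K) : List Bool → Ast
  | [] => ⟨[], List.replicate (n + 1) (0, 1)⟩
  | _ :: h => nextA (T h) (alts n T h)

/-- Every finite family of trees whose gates have at most `M` terms or at most `r` arguments that
decides `S` jointly branches, on some input, on a value that depends on a gate whose level is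
larger than `D` or which depends on more than `M` gates. -/
def Hard3 (P : K → Prop) {n : ℕ} (S : Set ((Fin n → K) × K)) (D M r : ℕ) :
    Prop :=
  ∀ (N : ℕ) (T : Fin N → GTree K) (Φ : (Fin N → Bool) → Prop), (∀ u, Gates (T u) M r) →
    Decides P T Φ S → ∃ (u : Fin N) (x : (Fin n → K) × K) (k i a : ℕ),
      Branches (T u ((T u).run P x k).hist) i ∧
      a ∈ (deps n (T u) ((T u).run P x k).hist).val i ∧
      (D < (alts n (T u) ((T u).run P x k).hist).gate a ∨
        M < ((deps n (T u) ((T u).run P x k).hist).sum a).card)

/-! ## Merging consecutive linear gates -/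

/-- for each value: `some (c, f)` if it is `c + ∑ j, f j * value j` by merged linear gates -/
abbrev Lst (K : Type) [Field K] : Type := List (Option (K × (ℕ →₀ K)))

/-- the value number `i` as a linear form in values (`0` if there is no such value) -/
noncomputable def lform (L : Lst K) (i : ℕ) : K × (ℕ →₀ K) :=
  match L.getD i none with
  | some p => p
  | none => if i < L.length then (0, Finsupp.single i 1) else (0, 0)

/-- the merged linear form of a linear gate -/
noncomputable def merged (L : Lst K) {s : ℕ} (F : MvPolynomial (Fin s) K) (i : Fin s → ℕ) :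
    K × (ℕ →₀ K) :=
  (F.coeff 0 + ∑ k, F.coeff (Finsupp.single k 1) * (lform L (i k)).1,
    ∑ k, F.coeff (Finsupp.single k 1) • (lform L (i k)).2)

/-- the gate is linear and the merged form has less than `M'` terms -/
def CanMerge (M' : ℕ) (L : Lst K) {s : ℕ} (F : MvPolynomial (Fin s) K) (i : Fin s → ℕ) : Prop :=
  F.totalDegree ≤ 1 ∧ (merged L F i).2.support.card + 1 ≤ M'

open Classical in
noncomputable def nextL (M' : ℕ) (ins : Ins K) (L : Lst K) : Lst K :=
  match ins with
  | .const _ => L ++ [none]
  | .mul _ _ => L ++ [none]
  | .div _ _ => L ++ [none]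
  | .gate _ F i => L ++ [if CanMerge M' L F i then some (merged L F i) else none]
  | .test _ => L
  | .answer _ => L

noncomputable def lins (n M' : ℕ) (T : GTree K) : List Bool → Lst K
  | [] => List.replicate (n + 1) none
  | _ :: h => nextL M' (T h) (lins n M' T h)

/-- the gate that evaluates the linear form `p` -/
noncomputable def lgate (p : K × (ℕ →₀ K)) : Ins K :=
  .gate p.2.support.card
    (MvPolynomial.C p.1 + ∑ t, MvPolynomial.C (p.2 (p.2.support.equivFin.symm t)) *
      MvPolynomial.X t)
    fun t => (p.2.support.equivFin.symm t : ℕ)

open Classical in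
/-- the tree with merged linear gates -/
noncomputable def mtree (n M' : ℕ) (T : GTree K) : GTree K := fun h =>
  match T h with
  | .gate s F i =>
      if CanMerge M' (lins n M' T h) F i then lgate (merged (lins n M' T h) F i) else .gate s F i
  | ins => ins

end

/-- Row SEM: the two trees have the same runs. Induction over `k`; invariant: `some (c, f)` at the
place `i` of `lins` implies `i < length`, `support f ⊆ range length` and
`val i = c + ∑ j ∈ support, f j * val j`. -/
def SemStatement : Prop :=
  ∀ (K : Type) [Field K] (P : K → Prop) (n M' : ℕ) (T : GTree K) (x : (Fin n → K) × K) (k : ℕ),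
    (mtree n M' T).run P x k = T.run P x k

/-- Row STAT. -/
structure StatStatement : Prop where
  gates : ∀ (K : Type) [Field K] (n M M' r : ℕ) (T : GTree K), M ≤ M' → Gates T M r →
    Gates (mtree n M' T) M' r
  branches : ∀ (K : Type) [Field K] (n M' : ℕ) (T : GTree K) (h : List Bool) (i : ℕ),
    Branches (mtree n M' T h) i → Branches (T h) i
  val : ∀ (K : Type) [Field K] (n M' : ℕ) (T : GTree K) (h : List Bool) (i : ℕ),
    (deps n (mtree n M' T) h).val i ⊆ (deps n T h).val i
  sum : ∀ (K : Type) [Field K] (n M' : ℕ) (T : GTree K) (h : List Bool) (a : ℕ),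
    (deps n (mtree n M' T) h).sum a ⊆ (deps n T h).sum a
  level : ∀ (K : Type) [Field K] (n M M' r : ℕ) (T : GTree K), Gates T M r → r ≤ M → 1 ≤ M →
    M * M + 1 ≤ M' → ∀ (h : List Bool) (i : ℕ),
    (∀ b ∈ (deps n T h).val i, ((deps n T h).sum b).card ≤ M) →
    ∀ a ∈ (deps n T h).val i, (nests n (mtree n M' T) h).gate a ≤ (alts n T h).gate a

/-- Row ALTN: levels are at most nestings. -/
def AltnStatement : Prop :=
  ∀ (K : Type) [Field K] (n : ℕ) (T : GTree K) (h : List Bool) (i : ℕ),
    ((alts n T h).val i).1 ≤ (nests n T h).val i

end Pool.Agent.Lib.MP_641cb6_lc.CD
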