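import Pool.Agent.Lib.MP_641cb6_lc.CD.Defs
import Pool.Agent.Lib.MP_641cb6_lc.KG.Sim

/-!
# The lower bound for trees with bounded nesting
-/

set_option autoImplicit false

namespace Pool.Agent.Lib.MP_641cb6_lc.CD

open Pool.Agent.Lib.MP_641cb6_lc.KG (Ins GTree Pol St SSt pf cc sym deps Branches Decides tpol_zero
  tpol_nonneg)
open Filter Topology

theorem map_tr {R S : Type} [CommRing R] [CommRing S] (f : R →+* S) {m d : ℕ}
    (A : Fin d → Matrix (Fin m) (Fin m) R) : f (tr A) = tr fun t => (A t).map f := by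
  unfold tr
  have h1 : (List.ofFn fun t => (A t).map f) = (List.ofFn A).map f.mapMatrix := by
    rw [List.map_ofFn]
    rfl
  rw [h1, ← map_list_prod]
  simp [Matrix.trace, RingHom.mapMatrix_apply, Matrix.map_apply]

theorem eval_pp {K : Type} [Field K] {m d : ℕ} (x : Fin (d * (m * m)) → K) :
    MvPolynomial.eval x (pp K m d) = tr (mat x) := by
  unfold pp
  rw [map_tr]
  congr 1
  funext t
  ext a b
  simp [mat, Matrix.map_apply]

theorem trSet_eq (K : Type) [Field K] (m d : ℕ) :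
    TrSet K m d = {q : (Fin (d * (m * m)) → K) × K | q.2 = MvPolynomial.eval q.1 (pp K m d)} := by
  ext q
  simp only [TrSet, Set.mem_setOf_eq, eval_pp]

theorem mat_ix {R : Type} {m d : ℕ} (A : Fin d → Matrix (Fin m) (Fin m) R) :
    ∃ x : Fin (d * (m * m)) → R, mat x = A := by
  refine ⟨fun l => A (finProdFinEquiv.symm l).1
    (finProdFinEquiv.symm (finProdFinEquiv.symm l).2).1
    (finProdFinEquiv.symm (finProdFinEquiv.symm l).2).2, ?_⟩
  funext t
  ext a b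
  simp [mat, ix]

theorem core (hWord : WordStatement) (hImm : ImmStatement) (hLevel : LevelStatement)
    (hFrac : FracStatement) (hPoly : PolyStatement) (hLowA : LowAStatement)
    (hLowB : LowBStatement) (hPath : PathStatement) (hStruc : StrucStatement)
    (hNum : NumStatement) (K : Type) [RCLike K] (P : K → Prop)
    (hP1 : ∀ (n : ℕ) (T : GTree K) (x : (Fin n → K) × K) (k i : ℕ), P ((T.run P x k).val i) ↔
      P (pf ((sym n T (T.run P x k).hist).tpol i) x))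
    (hP2 : ∀ v, v ≠ 0 → ∀ᶠ u in 𝓝 v, (P u ↔ P v)) (D c : ℕ) :
    ∃ d0 : ℕ, ∀ d ≥ d0, ∀ m : ℕ, 2 ^ (d ^ 2) ≤ m → ∀ (N : ℕ) (T : Fin N → GTree K)
      (Φ : (Fin N → Bool) → Prop), (∀ u, Terms (T u) (m ^ c)) → Decides P T Φ (TrSet K m d) →
      ∃ (u : Fin N) (x : (Fin (d * (m * m)) → K) × K) (k i a : ℕ),
        Branches (T u ((T u).run P x k).hist) i ∧
        a ∈ (deps (d * (m * m)) (T u) ((T u).run P x k).hist).val i ∧
        (D < (nests (d * (m * m)) (T u) ((T u).run P x k).hist).gate a ∨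
          m ^ c < ((deps (d * (m * m)) (T u) ((T u).run P x k).hist).sum a).card) := by
  obtain ⟨lam, d0, hlam, hd0, hnum⟩ := hNum D c
  refine ⟨d0, fun d hd m hm N T Φ hT hdec => ?_⟩
  have hm1 : 1 ≤ m := le_trans Nat.one_le_two_pow hm
  set k := Nat.log 2 m with hk
  have hk1 : 2 ^ k ≤ m := Nat.pow_log_le_self 2 (by omega)
  have hk2 : m < 2 ^ (k + 1) := Nat.lt_pow_succ_log_self (by norm_num) m
  have hk3 : d ^ 2 ≤ k := Nat.le_log_of_pow_le (by norm_num) hm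
  obtain ⟨hTd, hkT, hlt⟩ := hnum d hd m k hk3 hk1 hk2
  obtain ⟨w, hw⟩ := hWord d k (TT lam D) hkT
  have hdpos : 0 < d := by omega
  obtain ⟨Λ, L, ρ, γ, hL, hid⟩ := hImm d k (TT lam D) m w K hdpos hw hk1
  obtain ⟨𝔇, h𝔇⟩ := hFrac K m d w Λ
  have hp0 : pp K m d ≠ 0 := by
    intro h0
    obtain ⟨x, hx⟩ := mat_ix (fun i => Λ i (mix w (ρ ⟨0, by positivity⟩) (γ ⟨0, by positivity⟩) i))
    have h1 := eval_pp x
    rw [h0, map_zero, hx, hid, if_pos rfl] at h1
    exact zero_ne_one h1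
  rw [trSet_eq] at hdec
  obtain ⟨u, x, s, i, l, hbr, hl, hexp, hne, hdvd⟩ :=
    hPath K P hP1 hP2 _ N T Φ (pp K m d) hp0 hdec
  refine ⟨u, x, s, i, l, hbr, hStruc.supp K _ (m ^ c) (T u) (hT u) _ i l hexp, ?_⟩
  by_contra hcon
  push Not at hcon
  obtain ⟨hnest, hcard⟩ := hcon
  have hM : 1 ≤ m ^ c := Nat.one_le_pow _ _ hm1
  have hVz := hStruc.level K d _ (m ^ c) D w 𝔇 (hPoly.zx K m d w Λ 𝔇 h𝔇)
    (hPoly.zz K m d w Λ 𝔇 h𝔇) (hPoly.zc K m d w Λ 𝔇 h𝔇) hM (T u) (hT u) _ l hl hnest hcard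
  set G := (sym (d * (m * m)) (T u) ((T u).run P x s).hist).atom (d * (m * m) + 1 + l) with hG
  have hG0 : algebraMap (Pol K (d * (m * m))) (FF K (d * (m * m))) G ≠ 0 := by
    intro h0
    exact hne ((map_eq_zero_iff _ (IsFractionRing.injective _ _)).1 h0)
  let i0 : Fin d := ⟨0, hdpos⟩
  have hcardB : (Finset.univ.erase i0).card + 1 = d := by
    rw [Finset.card_erase_of_mem (Finset.mem_univ _), Finset.card_univ, Fintype.card_fin]
    omega
  have hlev := hLevel d k (TT lam D) lam (m ^ c) w _ 𝔇 hw hlam hM D _ le_rfl hG0 hVz i0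
    (Finset.univ.erase i0) (Finset.notMem_erase _ _) (by omega)
  rw [Finset.insert_erase (Finset.mem_univ i0)] at hlev
  obtain ⟨r, hr, hrle⟩ := hlev
  obtain ⟨e, V, R, cc', he, hV, hrep⟩ := hLowA K m d w Λ 𝔇 h𝔇 G hne hdvd i0
  have hfin := hLowB K m d w Λ _ e V R cc' (by omega) he hV hrep r hr (2 ^ L) ρ γ hid
  -- the numbers
  have h1 : ((2 ^ L : ℕ) : ℝ) ≤ d * r := by exact_mod_cast hfin
  have hsq : sq w Finset.univ ≤ (2 : ℝ) ^ ((2 * (L : ℝ) + k) / 2) := by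
    unfold sq
    rw [← Real.rpow_sum_of_pos (by norm_num : (0 : ℝ) < 2)]
    refine Real.rpow_le_rpow_of_exponent_le (by norm_num) ?_
    rw [← Finset.sum_div]
    have h2 : ((∑ i, (w i).natAbs : ℕ) : ℝ) ≤ 2 * (L : ℝ) + k := by exact_mod_cast hL
    push_cast at h2
    have h3 : (∑ i, ((w i).natAbs : ℝ)) ≤ 2 * (L : ℝ) + k := by
      simpa using h2
    linarith
  have hsq0 : 0 < sq w Finset.univ := by
    unfold sq
    exact Finset.prod_pos fun i _ => by positivity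
  push_cast at h1 hrle
  have h3 : (2 : ℝ) ^ L ≤ d * (rh ((m : ℝ) ^ c) (2 ^ (d ^ 2))
      ((2 : ℝ) ^ (-((k : ℝ) * lam) / 16)) D * sq w Finset.univ) :=
    h1.trans (mul_le_mul_of_nonneg_left hrle (by positivity))
  rw [← mul_assoc] at h3
  have h4 : (2 : ℝ) ^ L < (2 : ℝ) ^ (-(k : ℝ) / 2) * (2 : ℝ) ^ ((2 * (L : ℝ) + k) / 2) :=
    lt_of_le_of_lt h3 (lt_of_lt_of_le (mul_lt_mul_of_pos_right hlt hsq0)
      (mul_le_mul_of_nonneg_left hsq (by positivity)))
  rw [← Real.rpow_add (by norm_num : (0 : ℝ) < 2), show -(k : ℝ) / 2 + (2 * (L : ℝ) + k) / 2 = L by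
    ring, Real.rpow_natCast] at h4
  exact lt_irrefl _ h4

/-- both kinds of tests -/
theorem both (hWord : WordStatement) (hImm : ImmStatement) (hLevel : LevelStatement)
    (hFrac : FracStatement) (hPoly : PolyStatement) (hLowA : LowAStatement)
    (hLowB : LowBStatement) (hPath : PathStatement) (hStruc : StrucStatement)
    (hNum : NumStatement) (D c : ℕ) :
    (∃ d0 : ℕ, ∀ d ≥ d0, ∀ m : ℕ, 2 ^ (d ^ 2) ≤ m → ∀ (N : ℕ) (T : Fin N → GTree ℝ)
      (Φ : (Fin N → Bool) → Prop), (∀ u, Terms (T u) (m ^ c)) →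
      Decides (fun v : ℝ => 0 ≤ v) T Φ (TrSet ℝ m d) →
      ∃ (u : Fin N) (x : (Fin (d * (m * m)) → ℝ) × ℝ) (k i a : ℕ),
        Branches (T u ((T u).run (fun v : ℝ => 0 ≤ v) x k).hist) i ∧
        a ∈ (deps (d * (m * m)) (T u) ((T u).run (fun v : ℝ => 0 ≤ v) x k).hist).val i ∧
        (D < (nests (d * (m * m)) (T u) ((T u).run (fun v : ℝ => 0 ≤ v) x k).hist).gate a ∨
          m ^ c < ((deps (d * (m * m)) (T u)
            ((T u).run (fun v : ℝ => 0 ≤ v) x k).hist).sum a).card)) ∧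
    (∃ d0 : ℕ, ∀ d ≥ d0, ∀ m : ℕ, 2 ^ (d ^ 2) ≤ m → ∀ (N : ℕ) (T : Fin N → GTree ℂ)
      (Φ : (Fin N → Bool) → Prop), (∀ u, Terms (T u) (m ^ c)) →
      Decides (fun v : ℂ => v = 0) T Φ (TrSet ℂ m d) →
      ∃ (u : Fin N) (x : (Fin (d * (m * m)) → ℂ) × ℂ) (k i a : ℕ),
        Branches (T u ((T u).run (fun v : ℂ => v = 0) x k).hist) i ∧
        a ∈ (deps (d * (m * m)) (T u) ((T u).run (fun v : ℂ => v = 0) x k).hist).val i ∧
        (D < (nests (d * (m * m)) (T u) ((T u).run (fun v : ℂ => v = 0) x k).hist).gate a ∨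
          m ^ c < ((deps (d * (m * m)) (T u)
            ((T u).run (fun v : ℂ => v = 0) x k).hist).sum a).card)) := by
  constructor
  · refine core hWord hImm hLevel hFrac hPoly hLowA hLowB hPath hStruc hNum ℝ _
      (fun n T x k i => tpol_nonneg _ T x k i) (fun v hv => ?_) D c
    rcases lt_or_gt_of_ne hv with h | h
    · filter_upwards [gt_mem_nhds h] with u hu
      exact ⟨fun h1 => absurd h1 (not_le.2 hu), fun h1 => absurd h1 (not_le.2 h)⟩
    · filter_upwards [lt_mem_nhds h] with u hu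
      exact ⟨fun _ => h.le, fun _ => le_of_lt hu⟩
  · refine core hWord hImm hLevel hFrac hPoly hLowA hLowB hPath hStruc hNum ℂ _
      (fun n T x k i => tpol_zero _ T x k i) (fun v hv => ?_) D c
    filter_upwards [isOpen_ne.mem_nhds hv] with u hu
    exact ⟨fun h1 => absurd h1 hu, fun h1 => absurd h1 hv⟩

end Pool.Agent.Lib.MP_641cb6_lc.CD
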