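import Pool.Agent.Lib.MP_641cb6_lc.CD.Defs2

/-!
# The lower bound for gates with few terms or few arguments
-/

set_option autoImplicit false

namespace Pool.Agent.Lib.MP_641cb6_lc.CD

open Pool.Agent.Lib.MP_641cb6_lc.KG (Ins GTree Pol St SSt pf cc sym deps Branches Decides Verifies)
open Filter Topology

theorem core2 (hLevel : Level2Statement) (hStruc : Struc2Statement) {K : Type} [RCLike K]
    {P : K → Prop} (hP : Kind P) (D d lam M m r : ℕ)
    (hlam : 1 ≤ lam) (hdpos : 0 < d) (hM : 1 ≤ M) (hrM : (r + 1) ^ d ≤ M * 2 ^ (d ^ 2))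
    (hm : 2 ^ (d ^ 2) ≤ m) (hTd : TT lam D ≤ d) (hkT : 24 * TT lam D ^ 2 + 5 ≤ Nat.log 2 m)
    (hlt : d * rh (M : ℝ) (2 ^ (3 * d ^ 2)) ((2 : ℝ) ^ (-((Nat.log 2 m : ℝ) * lam) / 16)) D <
        (2 : ℝ) ^ (-(Nat.log 2 m : ℝ) / 2)) : Hard2 P (TrSet K m d) D M r := by
  intro N T Φ hT hdec
  have hm1 : 1 ≤ m := le_trans Nat.one_le_two_pow hm
  set k := Nat.log 2 m with hk
  have hk1 : 2 ^ k ≤ m := Nat.pow_log_le_self 2 (by omega)
  obtain ⟨w, hw⟩ := wordStatement d k (TT lam D) hkT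
  obtain ⟨Λ, L, ρ, γ, hL, hid⟩ := immStatement d k (TT lam D) m w K hdpos hw hk1
  obtain ⟨𝔇, h𝔇⟩ := fracStatement K m d w Λ
  have hPoly : PolyStatement := polyStatement
  have hp0 : pp K m d ≠ 0 := by
    intro h0
    obtain ⟨x, hx⟩ := mat_ix (fun i => Λ i (mix w (ρ ⟨0, by positivity⟩) (γ ⟨0, by positivity⟩) i))
    have h1 := eval_pp x
    rw [h0, map_zero, hx, hid, if_pos rfl] at h1
    exact zero_ne_one h1
  rw [trSet_eq] at hdec
  obtain ⟨u, x, s, i, l, hbr, hl, hexp, hne, hdvd⟩ :=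
    pathStatement K P hP.tpol hP.loc _ N T Φ (pp K m d) hp0 hdec
  refine ⟨u, x, s, i, l, hbr, hStruc.supp K _ (T u) _ i l hexp, ?_⟩
  by_contra hcon
  push Not at hcon
  obtain ⟨hnest, hcard⟩ := hcon
  have hVz := hStruc.level K d _ M r D w 𝔇 (hPoly.zx K m d w Λ 𝔇 h𝔇)
    (hPoly.zz K m d w Λ 𝔇 h𝔇) (hPoly.zc K m d w Λ 𝔇 h𝔇) hM (T u) (hT u) _ l hl hnest hcard
  set G := (sym (d * (m * m)) (T u) ((T u).run P x s).hist).atom (d * (m * m) + 1 + l) with hG
  have hG0 : algebraMap (Pol K (d * (m * m))) (FF K (d * (m * m))) G ≠ 0 := by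
    intro h0
    exact hne ((map_eq_zero_iff _ (IsFractionRing.injective _ _)).1 h0)
  let i0 : Fin d := ⟨0, hdpos⟩
  have hcardB : (Finset.univ.erase i0).card + 1 = d := by
    rw [Finset.card_erase_of_mem (Finset.mem_univ _), Finset.card_univ, Fintype.card_fin]
    omega
  have hlev := hLevel d k (TT lam D) lam M (r + 1) w _ K 𝔇
    ((algebraMap (Pol K (d * (m * m))) (FF K (d * (m * m)))).comp (cc K (d * (m * m))))
    (fun i s c => h𝔇.const i s c) hw hlam hM hrM D _ le_rfl hG0 hVz i0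
    (Finset.univ.erase i0) (Finset.notMem_erase _ _) (by omega)
  rw [Finset.insert_erase (Finset.mem_univ i0)] at hlev
  obtain ⟨r', hr, hrle⟩ := hlev
  obtain ⟨e, V, R, cc', he, hV, hrep⟩ := lowAStatement derStatement polyStatement K m d w Λ 𝔇 h𝔇
    G hne hdvd i0
  have hfin := lowBStatement K m d w Λ _ e V R cc' (by omega) he hV hrep r' hr (2 ^ L) ρ γ hid
  -- the numbers
  have h1 : ((2 ^ L : ℕ) : ℝ) ≤ d * r' := by exact_mod_cast hfin
  have hsq : sq w Finset.univ ≤ (2 : ℝ) ^ ((2 * (L : ℝ) + k) / 2) := by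
    unfold sq
    rw [← Real.rpow_sum_of_pos (by norm_num : (0 : ℝ) < 2)]
    refine Real.rpow_le_rpow_of_exponent_le (by norm_num) ?_
    rw [← Finset.sum_div]
    have h2 : ((∑ i, (w i).natAbs : ℕ) : ℝ) ≤ 2 * (L : ℝ) + k := by exact_mod_cast hL
    push_cast at h2
    have h3 : (∑ i, ((w i).natAbs : ℝ)) ≤ 2 * (L : ℝ) + k := by
      simpa using h2
    linarith
  have hsq0 : 0 < sq w Finset.univ := by
    unfold sq
    exact Finset.prod_pos fun i _ => by positivity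
  push_cast at h1 hrle
  have h3 : (2 : ℝ) ^ L ≤ d * (rh (M : ℝ) (2 ^ (3 * d ^ 2))
      ((2 : ℝ) ^ (-((k : ℝ) * lam) / 16)) D * sq w Finset.univ) :=
    h1.trans (mul_le_mul_of_nonneg_left hrle (by positivity))
  rw [← mul_assoc] at h3
  have h4 : (2 : ℝ) ^ L < (2 : ℝ) ^ (-(k : ℝ) / 2) * (2 : ℝ) ^ ((2 * (L : ℝ) + k) / 2) :=
    lt_of_le_of_lt h3 (lt_of_lt_of_le (mul_lt_mul_of_pos_right hlt hsq0)
      (mul_le_mul_of_nonneg_left hsq (by positivity)))
  rw [← Real.rpow_add (by norm_num : (0 : ℝ) < 2), show -(k : ℝ) / 2 + (2 * (L : ℝ) + k) / 2 = L by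
    ring, Real.rpow_natCast] at h4
  exact lt_irrefl _ h4

/-- restriction to inputs of the form `pull φ x` -/
theorem Hard2.of_pull {K : Type} [Field K] {P : K → Prop} {n n' D M r : ℕ}
    {S' : Set ((Fin n' → K) × K)} (hS : Subst2Statement) (φ : Fin n' → Fin n ⊕ K)
    (h : Hard2 P {x : (Fin n → K) × K | pull φ x ∈ S'} D M r) : Hard2 P S' D M r := by
  intro N T Φ hT hdec
  obtain ⟨T', hT', hdec', hsub⟩ := hS K P _ _ N M r φ T Φ _ hT hdec
  obtain ⟨u, x, k', i', a, h1, h2, h3⟩ := h N T' Φ hT' hdec'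
  obtain ⟨k, i, h4, h5, h6, h7⟩ := hsub u x k' i' a h1 h2
  refine ⟨u, pull φ x, k, i, a, h4, h5, ?_⟩
  rw [h6, h7]
  exact h3

/-- solvable systems of quadratic equations -/
theorem lower2_hn (hLevel : Level2Statement) (hStruc : Struc2Statement) (hS : Subst2Statement)
    (hR : RedStatement) (hN : Num2Statement) {K : Type} [RCLike K] {P : K → Prop} (hP : Kind P)
    (D c v q r : ℕ) (hc : 1 ≤ c) (hv : 2 ^ (16 * dd D c ^ 2) ≤ v) (hq : v + 1 ≤ q)
    (hr : r ^ dd D c ≤ v ^ c) : Hard2 P (HNSet K q v) D (v ^ c) r := by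
  obtain ⟨m, lam, h1, h3, h4, h5, h6, h7⟩ := hN D c v hc hv
  have hv1 : 1 ≤ v := le_trans Nat.one_le_two_pow hv
  have hdd : 1 ≤ dd D c := by
    unfold dd
    exact Nat.one_le_pow _ _ (by positivity)
  have hrM : (r + 1) ^ dd D c ≤ v ^ c * 2 ^ (dd D c ^ 2) := by
    have h9 : (r + 1) ^ dd D c ≤ v ^ c * 2 ^ dd D c := by
      rcases Nat.eq_zero_or_pos r with h10 | h10
      · rw [h10, zero_add, one_pow]
        exact Nat.mul_pos (Nat.pow_pos hv1) (by positivity)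
      · calc (r + 1) ^ dd D c ≤ (r * 2) ^ dd D c := Nat.pow_le_pow_left (by omega) _
          _ = r ^ dd D c * 2 ^ dd D c := by rw [mul_pow]
          _ ≤ v ^ c * 2 ^ dd D c := Nat.mul_le_mul_right _ hr
    refine h9.trans (Nat.mul_le_mul_left _ (Nat.pow_le_pow_right (by norm_num) ?_))
    calc dd D c = dd D c ^ 1 := (pow_one _).symm
      _ ≤ dd D c ^ 2 := Nat.pow_le_pow_right hdd (by norm_num)
  obtain ⟨e, he⟩ : ∃ e, dd D c = e + 1 := ⟨dd D c - 1, by omega⟩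
  obtain ⟨φ, hφ⟩ := hR K m e q v (by rw [← he]; exact h4) (by rw [← he]; omega)
  have hset : {x | pull φ x ∈ HNSet K q v} = TrSet K m (e + 1) := by
    ext x
    exact hφ x
  refine Hard2.of_pull hS φ ?_
  rw [hset, ← he]
  refine core2 hLevel hStruc hP D (dd D c) lam (v ^ c) m r h1 (by omega)
    (Nat.one_le_pow _ _ hv1) hrM h3 h5 h6 ?_
  push_cast
  exact h7

end Pool.Agent.Lib.MP_641cb6_lc.CD
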