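import Pool.Agent.Lib.MP_641cb6_lc.CD.Defs3
import Pool.Agent.Lib.MP_641cb6_lc.CD.Final2

/-!
# The lower bound for alternations
-/

set_option autoImplicit false

namespace Pool.Agent.Lib.MP_641cb6_lc.CD

open Pool.Agent.Lib.MP_641cb6_lc.KG (Ins GTree St deps Branches Decides Verifies)

theorem Hard3.of_hard2 (hSem : SemStatement) (hStat : StatStatement) {K : Type} [Field K]
    {P : K → Prop} {n D M M' r : ℕ} {S : Set ((Fin n → K) × K)} (h : Hard2 P S D M' r)
    (hM1 : 1 ≤ M) (hr : r ≤ M) (hM : M * M + 1 ≤ M') : Hard3 P S D M r := by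
  intro N T Φ hT hdec
  have hMM : M ≤ M' := by nlinarith
  have hrun : ∀ (u : Fin N) (x : (Fin n → K) × K) (k : ℕ),
      (mtree n M' (T u)).run P x k = (T u).run P x k := fun u x k => hSem K P n M' (T u) x k
  have hdec' : Decides P (fun u => mtree n M' (T u)) Φ S := by
    intro x
    obtain ⟨k, b, h1, h2⟩ := hdec x
    refine ⟨k, b, fun w => ?_, h2⟩
    have h3 := h1 w
    show mtree n M' (T w) ((mtree n M' (T w)).run P x (k w)).hist = .answer (b w)
    rw [hrun]
    unfold mtree
    rw [h3]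
  obtain ⟨u, x, k, i, a, h1, h2, h3⟩ := h N (fun u => mtree n M' (T u)) Φ
    (fun u => hStat.gates K n M M' r (T u) hMM (hT u)) hdec'
  simp only [hrun] at h1 h2 h3
  by_contra hcon
  push Not at hcon
  set hh := ((T u).run P x k).hist with hhd
  have hbr := hStat.branches K n M' (T u) hh i h1
  have hgood : ∀ b ∈ (deps n (T u) hh).val i, (alts n (T u) hh).gate b ≤ D ∧
      ((deps n (T u) hh).sum b).card ≤ M := by
    intro b hb
    have h4 := hcon u x k i b hbr hb
    rw [← hhd] at h4
    exact h4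
  have ha := hStat.val K n M' (T u) hh i h2
  have hlev := hStat.level K n M M' r (T u) (hT u) hr hM1 hM hh i (fun b hb => (hgood b hb).2) a ha
  rcases h3 with h3 | h3
  · exact absurd (hlev.trans (hgood a ha).1) (by omega)
  · have h5 := Finset.card_le_card (hStat.sum K n M' (T u) hh a)
    have h6 := (hgood a ha).2
    omega

/-- solvable systems of quadratic equations -/
theorem lower3_hn (hSem : SemStatement) (hStat : StatStatement) (hLevel : Level2Statement)
    (hStruc : Struc2Statement) (hS : Subst2Statement)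
    (hR : RedStatement) (hN : Num2Statement) {K : Type} [RCLike K] {P : K → Prop} (hP : Kind P)
    (D c v q r : ℕ) (hv : 2 ^ (16 * dd D (2 * c + 1) ^ 2) ≤ v) (hq : v + 1 ≤ q)
    (hr : r ^ dd D (2 * c + 1) ≤ v ^ c) : Hard3 P (HNSet K q v) D (v ^ c) r := by
  have hdd : 1 ≤ dd D (2 * c + 1) := by
    unfold dd
    exact Nat.one_le_pow _ _ (by positivity)
  have hv2 : 2 ≤ v := by
    refine le_trans ?_ hv
    calc 2 = 2 ^ 1 := rfl
      _ ≤ _ := Nat.pow_le_pow_right (by norm_num) (Nat.succ_le_of_lt (by positivity))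
  have hvc : 1 ≤ v ^ c := Nat.one_le_pow _ _ (by omega)
  refine Hard3.of_hard2 (M' := v ^ (2 * c + 1)) hSem hStat
    (lower2_hn hLevel hStruc hS hR hN hP D (2 * c + 1) v q r (by omega) hv hq ?_) hvc ?_ ?_
  · exact hr.trans (Nat.pow_le_pow_right (by omega) (by omega))
  · refine le_trans ?_ hr
    exact Nat.le_self_pow (by omega) _
  · have h1 : v ^ (2 * c + 1) = v ^ c * v ^ c * v := by ring
    rw [h1]
    nlinarith

end Pool.Agent.Lib.MP_641cb6_lc.CD
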