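import Pool.Agent.Lib.MP_641cb6_lc.CD.Hn
import Pool.Agent.Lib.MP_641cb6_lc.CD.All

/-!
# The lower bound for systems of quadratic equations
-/

set_option autoImplicit false

namespace Pool.Agent.Lib.MP_641cb6_lc.CD

open Pool.Agent.Lib.MP_641cb6_lc.KG (Ins GTree Pol St SSt pf cc sym deps Branches Decides tpol_zero
  tpol_nonneg)
open Filter Topology

theorem Terms.mono {K : Type} [Field K] {T : GTree K} {M M' : ℕ} (h : Terms T M) (hM : M ≤ M') :
    Terms T M' :=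
  fun l r F i he => (h l r F i he).trans hM

/-- how the branchings of trees depend on tests -/
structure Kind {K : Type} [RCLike K] (P : K → Prop) : Prop where
  tpol : ∀ (n : ℕ) (T : GTree K) (x : (Fin n → K) × K) (k i : ℕ), P ((T.run P x k).val i) ↔
    P (pf ((sym n T (T.run P x k).hist).tpol i) x)
  loc : ∀ v, v ≠ 0 → ∀ᶠ u in 𝓝 v, (P u ↔ P v)

theorem kind_real : Kind (fun v : ℝ => 0 ≤ v) := by
  refine ⟨fun n T x k i => tpol_nonneg _ T x k i, fun v hv => ?_⟩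
  rcases lt_or_gt_of_ne hv with h | h
  · filter_upwards [gt_mem_nhds h] with u hu
    exact ⟨fun h1 => absurd h1 (not_le.2 hu), fun h1 => absurd h1 (not_le.2 h)⟩
  · filter_upwards [lt_mem_nhds h] with u hu
    exact ⟨fun _ => h.le, fun _ => le_of_lt hu⟩

theorem kind_complex : Kind (fun v : ℂ => v = 0) := by
  refine ⟨fun n T x k i => tpol_zero _ T x k i, fun v hv => ?_⟩
  filter_upwards [isOpen_ne.mem_nhds hv] with u hu
  exact ⟨fun h1 => absurd h1 hu, fun h1 => absurd h1 hv⟩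

theorem lower_tr {K : Type} [RCLike K] {P : K → Prop} (hP : Kind P) (D c : ℕ) :
    ∃ d0 : ℕ, ∀ d ≥ d0, ∀ m : ℕ, 2 ^ (d ^ 2) ≤ m → Hard P (TrSet K m d) D (m ^ c) := by
  obtain ⟨d0, h⟩ := lower K P hP.tpol hP.loc D c
  exact ⟨d0, fun d hd m hm N T Φ hT hdec => h d hd m hm N T Φ hT hdec⟩

theorem lower_hn (hS : SubstStatement) (hR : RedStatement) (hN : HNumStatement)
    {K : Type} [RCLike K] {P : K → Prop} (hP : Kind P) (D c : ℕ) :
    ∃ v0 : ℕ, ∀ v ≥ v0, ∀ q ≥ v + 1, Hard P (HNSet K q v) D (v ^ c) := by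
  obtain ⟨d0, h⟩ := lower_tr hP D (3 * c)
  obtain ⟨v0, hv0⟩ := hN (d0 + 1) (by omega)
  refine ⟨v0, fun v hv q hq N T Φ hT hdec => ?_⟩
  obtain ⟨m, hm1, hm2, hm3⟩ := hv0 v hv
  obtain ⟨φ, hφ⟩ := hR K m d0 q v hm2 (by omega)
  obtain ⟨T', hT', hdec', hsub⟩ := hS K P _ _ N (v ^ c) φ T Φ _ hT hdec
  have hset : {x | pull φ x ∈ HNSet K q v} = TrSet K m (d0 + 1) := by
    ext x
    exact hφ x
  rw [hset] at hdec'
  have hle : v ^ c ≤ m ^ (3 * c) := by
    rw [pow_mul]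
    exact Nat.pow_le_pow_left hm3 c
  obtain ⟨u, x, k', i', a, h1, h2, h3⟩ := h (d0 + 1) (by omega) m hm1 N T' Φ
    (fun u => (hT' u).mono hle) hdec'
  obtain ⟨k, i, h4, h5, h6, h7⟩ := hsub u x k' i' a h1 h2
  refine ⟨u, pull φ x, k, i, a, h4, h5, ?_⟩
  rw [h6, h7]
  rcases h3 with h3 | h3
  · exact Or.inl h3
  · exact Or.inr (lt_of_le_of_lt hle h3)

end Pool.Agent.Lib.MP_641cb6_lc.CD
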