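import Pool.Agent.Lib.MP_641cb6_lc.CD.Ver

/-!
# Verification with nesting 1: the trace of a product
-/

set_option autoImplicit false

namespace Pool.Agent.Lib.MP_641cb6_lc.CD

open Pool.Agent.Lib.MP_641cb6_lc.KG (Ins GTree St deps next Branches Verifies)
open Pool.Agent.Lib.MP_641cb6_lc.KD (Deps)

variable {K : Type} [Field K]

/-- an equation in variables of any finite type -/
noncomputable def Eqn.of {ι : Type} [Fintype ι] (F : MvPolynomial ι K) (i : ι → ℕ) : Eqn K :=
  ⟨Fintype.card ι, MvPolynomial.rename (Fintype.equivFin ι) F, i ∘ (Fintype.equivFin ι).symm⟩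

theorem Eqn.of_val {ι : Type} [Fintype ι] (F : MvPolynomial ι K) (i : ι → ℕ) (L : List K) :
    (Eqn.of F i).val L = MvPolynomial.eval (fun t => L.getD (i t) 0) F := by
  unfold Eqn.val Eqn.of
  rw [MvPolynomial.eval_rename]
  congr 2
  funext t
  simp

theorem Eqn.of_card {ι : Type} [Fintype ι] (F : MvPolynomial ι K) (i : ι → ℕ) :
    (Eqn.of F i).F.support.card ≤ F.support.card := by
  classical
  unfold Eqn.of
  simp only
  rw [MvPolynomial.support_rename_of_injective (Fintype.equivFin ι).injective]
  exact Finset.card_image_le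

theorem Eqn.of_i {ι : Type} [Fintype ι] (F : MvPolynomial ι K) (i : ι → ℕ) {b : ℕ}
    (h : ∀ t, i t < b) (k : Fin (Eqn.of F i).r) : (Eqn.of F i).i k < b := by
  unfold Eqn.of
  exact h _

theorem card_sum_support {ι κ : Type} (s : Finset κ) (f : κ → MvPolynomial ι K)
    (h : ∀ a ∈ s, (f a).support.card ≤ 1) : (∑ a ∈ s, f a).support.card ≤ s.card := by
  classical
  induction s using Finset.induction_on with
  | empty => simp
  | insert a s ha ih =>
    rw [Finset.sum_insert ha, Finset.card_insert_of_notMem ha]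
    have h1 := Finset.card_le_card (MvPolynomial.support_add (p := f a) (q := ∑ a ∈ s, f a))
    have h2 := Finset.card_union_le (f a).support (∑ a ∈ s, f a).support
    have h3 := ih fun b hb => h b (Finset.mem_insert_of_mem hb)
    have h4 := h a (Finset.mem_insert_self _ _)
    omega

theorem card_sub_support {ι : Type} (p q : MvPolynomial ι K) :
    (p - q).support.card ≤ p.support.card + q.support.card := by
  classical
  rw [sub_eq_add_neg]
  have h1 := Finset.card_le_card (MvPolynomial.support_add (p := p) (q := -q))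
  have h2 := Finset.card_union_le p.support (-q).support
  rw [MvPolynomial.support_neg] at h1 h2
  omega

theorem card_X_support {ι : Type} (i : ι) :
    (MvPolynomial.X i : MvPolynomial ι K).support.card ≤ 1 := by
  classical
  rw [MvPolynomial.support_X]
  simp

theorem card_XX_support {ι : Type} (i j : ι) :
    (MvPolynomial.X i * MvPolynomial.X j : MvPolynomial ι K).support.card ≤ 1 := by
  classical
  rw [MvPolynomial.support_mul_X, Finset.card_map]
  exact card_X_support i

/-- one entry of a product of two matrices -/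
noncomputable def prodPol (K : Type) [Field K] (m : ℕ) : MvPolynomial ((Fin m ⊕ Fin m) ⊕ Unit) K :=
  (∑ c : Fin m, MvPolynomial.X (Sum.inl (Sum.inl c)) * MvPolynomial.X (Sum.inl (Sum.inr c))) -
    MvPolynomial.X (Sum.inr ())

/-- the trace -/
noncomputable def tracePol (K : Type) [Field K] (m : ℕ) : MvPolynomial (Fin m ⊕ Unit) K :=
  (∑ c : Fin m, MvPolynomial.X (Sum.inl c)) - MvPolynomial.X (Sum.inr ())

theorem prodPol_card (m : ℕ) : (prodPol K m).support.card ≤ m + 1 := by
  unfold prodPol
  refine (card_sub_support _ _).trans (add_le_add ?_ (card_X_support _))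
  refine (card_sum_support _ _ fun a _ => card_XX_support _ _).trans ?_
  simp

theorem tracePol_card (m : ℕ) : (tracePol K m).support.card ≤ m + 1 := by
  unfold tracePol
  refine (card_sub_support _ _).trans (add_le_add ?_ (card_X_support _))
  refine (card_sum_support _ _ fun a _ => card_X_support _).trans ?_
  simp

section Index

variable (e m : ℕ)

/-- the place of the entry `(a, b)` of the product of the first `j + 1` matrices -/
def pidx (j : Fin (e + 1)) (a b : Fin m) : ℕ :=
  Fin.cases (motive := fun _ => ℕ) ((ix (0 : Fin (e + 1)) a b : Fin ((e + 1) * (m * m))) : ℕ)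
    (fun j' : Fin e => (e + 1) * (m * m) + (ix j' a b : ℕ)) j

theorem pidx_lt (j : Fin (e + 1)) (a b : Fin m) :
    pidx e m j a b < (e + 1) * (m * m) + e * (m * m) := by
  unfold pidx
  refine Fin.cases ?_ (fun j' => ?_) j
  · simp only [Fin.cases_zero]
    have := (ix (0 : Fin (e + 1)) a b : Fin ((e + 1) * (m * m))).2
    omega
  · simp only [Fin.cases_succ]
    have := (ix j' a b : Fin (e * (m * m))).2
    omega

/-- the equations -/
noncomputable def eqs (K : Type) [Field K] (q : ℕ) : Eqn K :=
  if h : q < e * (m * m) then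
    let j := (finProdFinEquiv.symm (⟨q, h⟩ : Fin (e * (m * m)))).1
    let a := (finProdFinEquiv.symm (finProdFinEquiv.symm (⟨q, h⟩ : Fin (e * (m * m)))).2).1
    let b := (finProdFinEquiv.symm (finProdFinEquiv.symm (⟨q, h⟩ : Fin (e * (m * m)))).2).2
    Eqn.of (prodPol K m) (Sum.elim (Sum.elim (fun c => pidx e m j.castSucc a c)
      (fun c => (ix j.succ c b : Fin ((e + 1) * (m * m))))) (fun _ => pidx e m j.succ a b))
  else Eqn.of (tracePol K m) (Sum.elim (fun c => pidx e m (Fin.last e) c c)
    (fun _ => (e + 1) * (m * m) + e * (m * m)))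

theorem eqs_neg {q : ℕ} (h : ¬ q < e * (m * m)) : eqs e m K q =
    Eqn.of (tracePol K m) (Sum.elim (fun c => pidx e m (Fin.last e) c c)
    (fun _ => (e + 1) * (m * m) + e * (m * m))) := by
  unfold eqs
  rw [dif_neg h]

theorem eqs_pos (j : Fin e) (a b : Fin m) : eqs e m K (ix j a b : Fin (e * (m * m))) =
    Eqn.of (prodPol K m) (Sum.elim (Sum.elim (fun c => pidx e m j.castSucc a c)
      (fun c => (ix j.succ c b : Fin ((e + 1) * (m * m))))) (fun _ => pidx e m j.succ a b)) := by
  unfold eqs
  rw [dif_pos (ix j a b : Fin (e * (m * m))).2]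
  simp only [Fin.eta, ix, Equiv.symm_apply_apply]

theorem exists_ix' {q : ℕ} (h : q < e * (m * m)) :
    ∃ (j : Fin e) (a b : Fin m), q = (ix j a b : Fin (e * (m * m))) := by
  obtain ⟨⟨j, p⟩, hjp⟩ := finProdFinEquiv.surjective (⟨q, h⟩ : Fin (e * (m * m)))
  obtain ⟨⟨a, b⟩, hab⟩ := finProdFinEquiv.surjective p
  refine ⟨j, a, b, ?_⟩
  unfold ix
  rw [hab, hjp]

theorem eqs_card (q : ℕ) : (eqs e m K q).F.support.card ≤ m + 1 := by
  by_cases h : q < e * (m * m)
  · obtain ⟨j, a, b, rfl⟩ := exists_ix' e m h
    rw [eqs_pos]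
    exact (Eqn.of_card _ _).trans (prodPol_card m)
  · rw [eqs_neg e m h]
    exact (Eqn.of_card _ _).trans (tracePol_card m)

theorem eqs_i (q : ℕ) (k : Fin (eqs e m K q).r) :
    (eqs e m K q).i k < (e + 1) * (m * m) + e * (m * m) + 1 := by
  revert k
  by_cases h : q < e * (m * m)
  · obtain ⟨j, a, b, rfl⟩ := exists_ix' e m h
    rw [eqs_pos]
    intro k
    refine Eqn.of_i _ _ ?_ k
    rintro ((c | c) | c)
    · exact Nat.lt_succ_of_lt (pidx_lt e m j.castSucc a c)
    · simp only [Sum.elim_inl, Sum.elim_inr]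
      have := (ix j.succ c b : Fin ((e + 1) * (m * m))).2
      omega
    · exact Nat.lt_succ_of_lt (pidx_lt e m j.succ a b)
  · rw [eqs_neg e m h]
    intro k
    refine Eqn.of_i _ _ ?_ k
    rintro (c | c)
    · exact Nat.lt_succ_of_lt (pidx_lt e m (Fin.last e) c c)
    · simp only [Sum.elim_inr]
      omega

/-- the partial products that are stored in the values -/
def pmat (L : List K) (j : Fin (e + 1)) : Matrix (Fin m) (Fin m) K :=
  fun a b => L.getD (pidx e m j a b) 0

theorem eqs_prod (L : List K) (j : Fin e) (a b : Fin m) :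
    (eqs e m K (ix j a b : Fin (e * (m * m)))).val L =
      (∑ c, pmat e m L j.castSucc a c * L.getD (ix j.succ c b : Fin ((e + 1) * (m * m))) 0) -
        pmat e m L j.succ a b := by
  rw [eqs_pos, Eqn.of_val]
  unfold prodPol
  simp only [map_sub, map_sum, map_mul, MvPolynomial.eval_X, Sum.elim_inl, Sum.elim_inr, pmat]

theorem eqs_trace (L : List K) :
    (eqs e m K (e * (m * m))).val L =
      (∑ c, pmat e m L (Fin.last e) c c) - L.getD ((e + 1) * (m * m) + e * (m * m)) 0 := by
  rw [eqs_neg e m (lt_irrefl _), Eqn.of_val]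
  unfold tracePol
  simp only [map_sub, map_sum, MvPolynomial.eval_X, Sum.elim_inl, Sum.elim_inr, pmat]

end Index

section Main

variable {e m : ℕ}

/-- the initial values -/
def initL (x : (Fin ((e + 1) * (m * m)) → K) × K) (y : Fin (e * (m * m)) → K) : List K :=
  List.ofFn (Fin.append x.1 y) ++ [x.2]

theorem initL_input (x : (Fin ((e + 1) * (m * m)) → K) × K) (y : Fin (e * (m * m)) → K)
    (l : Fin ((e + 1) * (m * m))) : (initL x y).getD l 0 = x.1 l := by
  unfold initL
  have hl := l.2
  rw [List.getD_append _ _ _ _ (by simp; omega),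
    List.getD_eq_getElem _ _ (by simp; omega), List.getElem_ofFn]
  exact Fin.append_left x.1 y l

theorem initL_guess (x : (Fin ((e + 1) * (m * m)) → K) × K) (y : Fin (e * (m * m)) → K)
    (l : Fin (e * (m * m))) : (initL x y).getD ((e + 1) * (m * m) + l) 0 = y l := by
  unfold initL
  have hl := l.2
  rw [List.getD_append _ _ _ _ (by simp),
    List.getD_eq_getElem _ _ (by simp), List.getElem_ofFn]
  exact Fin.append_right x.1 y l

theorem initL_last (x : (Fin ((e + 1) * (m * m)) → K) × K) (y : Fin (e * (m * m)) → K) :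
    (initL x y).getD ((e + 1) * (m * m) + e * (m * m)) 0 = x.2 := by
  unfold initL
  rw [List.getD_append_right _ _ _ _ (by simp)]
  simp

theorem pmat_zero (x : (Fin ((e + 1) * (m * m)) → K) × K) (y : Fin (e * (m * m)) → K) :
    pmat e m (initL x y) 0 = mat x.1 0 := by
  ext a b
  simp only [pmat, pidx, Fin.cases_zero, initL_input, mat]

theorem pmat_succ (x : (Fin ((e + 1) * (m * m)) → K) × K) (y : Fin (e * (m * m)) → K)
    (j : Fin e) : pmat e m (initL x y) j.succ = mat y j := by
  ext a b
  simp only [pmat, pidx, Fin.cases_succ, initL_guess, mat]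

/-- the equations say that the guesses are the partial products and the trace is right -/
theorem eqs_iff (x : (Fin ((e + 1) * (m * m)) → K) × K) (y : Fin (e * (m * m)) → K) :
    (∀ q < e * (m * m) + 1, (eqs e m K q).val (initL x y) = 0) ↔
      (∀ j : Fin e, pmat e m (initL x y) j.succ =
        pmat e m (initL x y) j.castSucc * mat x.1 j.succ) ∧
      x.2 = (pmat e m (initL x y) (Fin.last e)).trace := by
  constructor
  · intro h
    constructor
    · intro j
      ext a b
      have h1 := h (ix j a b : Fin (e * (m * m))) (Nat.lt_succ_of_lt (ix j a b).2)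
      rw [eqs_prod, sub_eq_zero] at h1
      rw [← h1, Matrix.mul_apply]
      refine Finset.sum_congr rfl fun c _ => ?_
      rw [initL_input]
      rfl
    · have h1 := h (e * (m * m)) (Nat.lt_succ_self _)
      rw [eqs_trace, sub_eq_zero, initL_last] at h1
      rw [← h1]
      rfl
  · rintro ⟨h1, h2⟩ q hq
    rcases Nat.lt_succ_iff_lt_or_eq.1 hq with h3 | rfl
    · obtain ⟨j, a, b, rfl⟩ := exists_ix' e m h3
      rw [eqs_prod, sub_eq_zero, h1 j, Matrix.mul_apply]
      refine Finset.sum_congr rfl fun c _ => ?_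
      rw [initL_input]
      rfl
    · rw [eqs_trace, sub_eq_zero, initL_last, h2]
      rfl

theorem prod_of_chain (A B : Fin (e + 1) → Matrix (Fin m) (Fin m) K) (h0 : B 0 = A 0)
    (hs : ∀ j : Fin e, B j.succ = B j.castSucc * A j.succ) :
    B (Fin.last e) = (List.ofFn A).prod := by
  have h : ∀ (k : ℕ) (hk : k < e + 1), B ⟨k, hk⟩ = ((List.ofFn A).take (k + 1)).prod := by
    intro k
    induction k with
    | zero =>
      intro hk
      rw [List.prod_take_succ _ _ (by simp)]
      simp only [List.take_zero, List.prod_nil, one_mul, List.getElem_ofFn]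
      exact h0
    | succ k ih =>
      intro hk
      rw [List.prod_take_succ _ _ (by simpa using hk), ← ih (by omega), List.getElem_ofFn]
      exact hs ⟨k, by omega⟩
  have h1 := h e (Nat.lt_succ_self e)
  rw [List.take_of_length_le (by simp)] at h1
  exact h1

/-- **Verification.** -/
theorem tr_verifies (K : Type) [Field K] (P : K → Prop) (m e : ℕ) :
    ∃ V : GTree K, Terms V (m + 1) ∧
      Verifies P V (e * (m * m)) (2 * (e * (m * m) + 1)) (TrSet K m (e + 1)) ∧
      ∀ (h : List Bool) (i : ℕ), Branches (V h) i →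
        (nests ((e + 1) * (m * m) + e * (m * m)) V h).val i ≤ 1 ∧
        ∃ a, (deps ((e + 1) * (m * m) + e * (m * m)) V h).val i = {a} ∧
          (deps ((e + 1) * (m * m) + e * (m * m)) V h).sum a = {a} := by
  refine ⟨eqTree ((e + 1) * (m * m) + e * (m * m) + 1) (e * (m * m) + 1) (eqs e m K),
    eqTree_terms _ _ _ _ (eqs_card e m), ⟨fun x => ?_, fun x => ?_⟩, fun h i hb => ?_⟩
  · obtain ⟨b, hb, -⟩ := eqTree_answer P x (Q := e * (m * m) + 1) (eqs_i e m (K := K))
    exact ⟨b, hb⟩
  · constructor
    · intro hx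
      have hx' : x.2 = (List.ofFn (mat x.1)).prod.trace := hx
      -- the partial products
      let B : Fin (e + 1) → Matrix (Fin m) (Fin m) K := fun j =>
        ((List.ofFn (mat x.1)).take (j + 1)).prod
      obtain ⟨y, hy⟩ : ∃ y : Fin (e * (m * m)) → K, mat y = fun j : Fin e => B j.succ := by
        refine ⟨fun l => B (finProdFinEquiv.symm l).1.succ
          (finProdFinEquiv.symm (finProdFinEquiv.symm l).2).1
          (finProdFinEquiv.symm (finProdFinEquiv.symm l).2).2, ?_⟩
        funext t
        ext a b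
        simp [mat, ix]
      refine ⟨y, ?_⟩
      have hB0 : B 0 = mat x.1 0 := by
        show ((List.ofFn (mat x.1)).take 1).prod = _
        rw [List.prod_take_succ _ _ (by simp)]
        simp
      have hBs : ∀ j : Fin e, B j.succ = B j.castSucc * mat x.1 j.succ := by
        intro j
        show ((List.ofFn (mat x.1)).take (j.1 + 1 + 1)).prod = _
        rw [List.prod_take_succ _ _ (by simp)]
        simp only [List.getElem_ofFn]
        rfl
      have hpm : ∀ j, pmat e m (initL x y) j = B j := by
        intro j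
        refine Fin.cases ?_ (fun j' => ?_) j
        · rw [pmat_zero, hB0]
        · rw [pmat_succ, hy]
      obtain ⟨b, hb, hb'⟩ := eqTree_answer P (Fin.append x.1 y, x.2) (Q := e * (m * m) + 1)
        (eqs_i e m (K := K))
      have hb1 : b = true := by
        rw [hb']
        refine (eqs_iff x y).2 ⟨fun j => ?_, ?_⟩
        · rw [hpm, hpm, hBs]
        · rw [hpm, prod_of_chain (mat x.1) B hB0 hBs, hx']
      rw [← hb1]
      exact hb
    · rintro ⟨y, hy⟩
      obtain ⟨b, hb, hb'⟩ := eqTree_answer P (Fin.append x.1 y, x.2) (Q := e * (m * m) + 1)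
        (eqs_i e m (K := K))
      rw [hb] at hy
      have hb1 : b = true := by
        simpa using hy
      rw [hb'] at hb1
      obtain ⟨h1, h2⟩ := (eqs_iff x y).1 hb1
      show x.2 = (List.ofFn (mat x.1)).prod.trace
      rw [h2, prod_of_chain (mat x.1) (pmat e m (initL x y)) (pmat_zero x y) h1]
  · have hlen : h.length < 2 * (e * (m * m) + 1) ∧ ¬ h.length % 2 = 0 ∧
        i = (e + 1) * (m * m) + e * (m * m) + 1 + (h.length - 1) := by
      unfold eqTree at hb
      split_ifs at hb with h1 h2
      · exact absurd hb (by simp [Branches])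
      · exact ⟨h1, h2, hb⟩
      · exact absurd hb (by simp [Branches])
    obtain ⟨h1, h2, rfl⟩ := hlen
    obtain ⟨⟨-, -, -, h4, h5⟩, ⟨-, -, h8, -⟩⟩ := eqTree_deps (Q := e * (m * m) + 1)
      (eqs_i e m (K := K)) h (by omega)
    exact ⟨h8 _, (h.length - 1) / 2, h5 _ (by omega), h4 _ (by omega)⟩

end Main

end Pool.Agent.Lib.MP_641cb6_lc.CD
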