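import Pool.Agent.Lib.MP_641cb6_lc.CD.Hn
import Pool.Agent.Lib.MP_641cb6_lc.CD.Ver2

/-!
# Solvable systems of quadratic equations are verified with one gate for each equation
-/

set_option autoImplicit false

namespace Pool.Agent.Lib.MP_641cb6_lc.CD

open Pool.Agent.Lib.MP_641cb6_lc.KG (Ins GTree St deps next Branches Verifies)
open Pool.Agent.Lib.MP_641cb6_lc.KD (Deps)

namespace HVer

variable {K : Type} [Field K]

/-- the variables of one equation: coefficients, unknowns, right side -/
abbrev Vr (v : ℕ) : Type := ((Fin (v + 1) × Fin (v + 1)) ⊕ Fin v) ⊕ Unit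

/-- the unknown number `i`, where the unknown number `0` is `1` -/
noncomputable def yp (K : Type) [Field K] (v : ℕ) (i : Fin (v + 1)) : MvPolynomial (Vr v) K :=
  Fin.cases (motive := fun _ => MvPolynomial (Vr v) K) 1
    (fun i' => MvPolynomial.X (Sum.inl (Sum.inr i'))) i

/-- the polynomial of an equation -/
noncomputable def hPol (K : Type) [Field K] (v : ℕ) (b : Bool) : MvPolynomial (Vr v) K :=
  (∑ p : Fin (v + 1) × Fin (v + 1), MvPolynomial.X (Sum.inl (Sum.inl p)) * yp K v p.1 *
    yp K v p.2) - if b then MvPolynomial.X (Sum.inr ()) else 0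

theorem card_mul_yp (v : ℕ) (p : MvPolynomial (Vr v) K) (i : Fin (v + 1)) :
    (p * yp K v i).support.card ≤ p.support.card := by
  classical
  refine Fin.cases ?_ (fun i' => ?_) i
  · simp [yp]
  · simp only [yp, Fin.cases_succ]
    rw [MvPolynomial.support_mul_X, Finset.card_map]

theorem hPol_card (v : ℕ) (b : Bool) :
    (hPol K v b).support.card ≤ (v + 1) * (v + 1) + 1 := by
  classical
  unfold hPol
  refine (card_sub_support _ _).trans (add_le_add ?_ ?_)
  · refine (card_sum_support _ _ fun p _ => ?_).trans ?_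
    · exact (card_mul_yp v _ _).trans ((card_mul_yp v _ _).trans (card_X_support _))
    · simp
  · cases b
    · simp
    · simpa using card_X_support (K := K) (Sum.inr () : Vr v)

/-- the places of the variables of the equation number `l` -/
def hIdx (q v : ℕ) (l : Fin q) : Vr v → ℕ :=
  Sum.elim (Sum.elim (fun p => ((ix l p.1 p.2 : Fin (q * ((v + 1) * (v + 1)))) : ℕ))
    (fun i => q * ((v + 1) * (v + 1)) + i)) (fun _ => q * ((v + 1) * (v + 1)) + v)

/-- the equations -/
noncomputable def hEqs (K : Type) [Field K] (q v l : ℕ) : Eqn K :=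
  if h : l < q then Eqn.of (hPol K v (decide (l = 0))) (hIdx q v ⟨l, h⟩)
  else Eqn.of (ι := Fin 0) 0 Fin.elim0

theorem hEqs_pos (q v : ℕ) (l : Fin q) : hEqs K q v l =
    Eqn.of (hPol K v (decide ((l : ℕ) = 0))) (hIdx q v l) := by
  unfold hEqs
  rw [dif_pos l.2]

theorem hEqs_neg {q v l : ℕ} (h : ¬ l < q) : hEqs K q v l = Eqn.of (ι := Fin 0) 0 Fin.elim0 := by
  unfold hEqs
  rw [dif_neg h]

theorem hEqs_card (q v l : ℕ) : (hEqs K q v l).F.support.card ≤ (v + 1) * (v + 1) + 1 := by
  by_cases h : l < q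
  · have h1 := hEqs_pos (K := K) q v ⟨l, h⟩
    simp only at h1
    rw [h1]
    exact (Eqn.of_card _ _).trans (hPol_card v _)
  · rw [hEqs_neg h]
    exact (Eqn.of_card _ _).trans (by simp)

theorem hEqs_i (q v l : ℕ) (k : Fin (hEqs K q v l).r) :
    (hEqs K q v l).i k < q * ((v + 1) * (v + 1)) + v + 1 := by
  revert k
  by_cases h : l < q
  · have h1 := hEqs_pos (K := K) q v ⟨l, h⟩
    simp only at h1
    rw [h1]
    intro k
    refine Eqn.of_i _ _ ?_ k
    rintro ((p | i) | u)
    · have := (ix (⟨l, h⟩ : Fin q) p.1 p.2 : Fin (q * ((v + 1) * (v + 1)))).2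
      simp only [hIdx, Sum.elim_inl]
      omega
    · have := i.2
      simp only [hIdx, Sum.elim_inl, Sum.elim_inr]
      omega
    · simp only [hIdx, Sum.elim_inr]
      omega
  · rw [hEqs_neg h]
    intro k
    exact Eqn.of_i _ _ (fun t => t.elim0) k

/-- the initial values -/
def initH {q v : ℕ} (x : (Fin (q * ((v + 1) * (v + 1))) → K) × K) (y : Fin v → K) : List K :=
  List.ofFn (Fin.append x.1 y) ++ [x.2]

theorem initH_input {q v : ℕ} (x : (Fin (q * ((v + 1) * (v + 1))) → K) × K) (y : Fin v → K)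
    (l : Fin (q * ((v + 1) * (v + 1)))) : (initH x y).getD l 0 = x.1 l := by
  unfold initH
  have hl := l.2
  rw [List.getD_append _ _ _ _ (by simp; omega),
    List.getD_eq_getElem _ _ (by simp; omega), List.getElem_ofFn]
  exact Fin.append_left x.1 y l

theorem initH_guess {q v : ℕ} (x : (Fin (q * ((v + 1) * (v + 1))) → K) × K) (y : Fin v → K)
    (l : Fin v) : (initH x y).getD (q * ((v + 1) * (v + 1)) + l) 0 = y l := by
  unfold initH
  have hl := l.2
  rw [List.getD_append _ _ _ _ (by simp),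
    List.getD_eq_getElem _ _ (by simp), List.getElem_ofFn]
  exact Fin.append_right x.1 y l

theorem initH_last {q v : ℕ} (x : (Fin (q * ((v + 1) * (v + 1))) → K) × K) (y : Fin v → K) :
    (initH x y).getD (q * ((v + 1) * (v + 1)) + v) 0 = x.2 := by
  unfold initH
  rw [List.getD_append_right _ _ _ _ (by simp)]
  simp

theorem eval_yp {v : ℕ} (f : Vr v → K) (i : Fin (v + 1)) :
    MvPolynomial.eval f (yp K v i) =
      (Fin.cons 1 (fun i' => f (Sum.inl (Sum.inr i'))) : Fin (v + 1) → K) i := by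
  refine Fin.cases ?_ (fun i' => ?_) i
  · simp [yp]
  · simp only [yp, Fin.cases_succ, MvPolynomial.eval_X, Fin.cons_succ]

theorem hEqs_val {q v : ℕ} (x : (Fin (q * ((v + 1) * (v + 1))) → K) × K) (y : Fin v → K)
    (l : Fin q) : (hEqs K q v l).val (initH x y) =
      (∑ i, ∑ j, mat x.1 l i j * (Fin.cons 1 y : Fin (v + 1) → K) i *
        (Fin.cons 1 y : Fin (v + 1) → K) j) - if (l : ℕ) = 0 then x.2 else 0 := by
  rw [hEqs_pos, Eqn.of_val]
  have hy : (fun i' : Fin v => (initH x y).getD (hIdx q v l (Sum.inl (Sum.inr i'))) 0) = y := by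
    funext i'
    exact initH_guess x y i'
  unfold hPol
  rw [map_sub, map_sum, Fintype.sum_prod_type]
  congr 1
  · refine Finset.sum_congr rfl fun i _ => Finset.sum_congr rfl fun j _ => ?_
    rw [map_mul, map_mul, eval_yp, eval_yp, MvPolynomial.eval_X, hy]
    congr 2
    exact initH_input x y (ix l i j)
  · by_cases h : (l : ℕ) = 0
    · rw [if_pos h, if_pos (by simp [h]), MvPolynomial.eval_X]
      exact initH_last x y
    · rw [if_neg h, if_neg (by simp [h]), map_zero]

theorem hEqs_iff {q v : ℕ} (x : (Fin (q * ((v + 1) * (v + 1))) → K) × K) (y : Fin v → K) :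
    (∀ l < q, (hEqs K q v l).val (initH x y) = 0) ↔
      ∀ l : Fin q, ∑ i, ∑ j, mat x.1 l i j * (Fin.cons 1 y : Fin (v + 1) → K) i *
        (Fin.cons 1 y : Fin (v + 1) → K) j = if (l : ℕ) = 0 then x.2 else 0 := by
  constructor
  · intro h l
    have h1 := h l l.2
    rw [hEqs_val, sub_eq_zero] at h1
    exact h1
  · intro h l hl
    have h1 := hEqs_val x y ⟨l, hl⟩
    simp only at h1
    rw [h1, sub_eq_zero]
    exact h ⟨l, hl⟩

end HVer

open HVer in
/-- Row HVER. -/
theorem hVerStatement : HVerStatement := by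
  intro K _ P q v
  refine ⟨eqTree (q * ((v + 1) * (v + 1)) + v + 1) q (hEqs K q v),
    eqTree_terms _ _ _ _ (hEqs_card q v), ⟨fun x => ?_, fun x => ?_⟩, fun h i hb => ?_⟩
  · obtain ⟨b, hb, -⟩ := eqTree_answer P x (Q := q) (hEqs_i q v (K := K))
    exact ⟨b, hb⟩
  · constructor
    · rintro ⟨y, hy0, hy⟩
      refine ⟨fun i => y i.succ, ?_⟩
      obtain ⟨b, hb, hb'⟩ := eqTree_answer P (Fin.append x.1 fun i => y i.succ, x.2) (Q := q)
        (hEqs_i q v (K := K))
      have hcons : (Fin.cons 1 (fun i : Fin v => y i.succ) : Fin (v + 1) → K) = y := by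
        funext i
        refine Fin.cases ?_ (fun i' => ?_) i
        · rw [Fin.cons_zero, hy0]
        · rw [Fin.cons_succ]
      have hb1 : b = true := by
        rw [hb']
        refine (hEqs_iff x fun i => y i.succ).2 fun l => ?_
        rw [hcons]
        exact hy l
      rw [← hb1]
      exact hb
    · rintro ⟨y, hy⟩
      obtain ⟨b, hb, hb'⟩ := eqTree_answer P (Fin.append x.1 y, x.2) (Q := q)
        (hEqs_i q v (K := K))
      rw [hb] at hy
      have hb1 : b = true := by
        simpa using hy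
      rw [hb'] at hb1
      exact ⟨Fin.cons 1 y, rfl, (hEqs_iff x y).1 hb1⟩
  · have hlen : h.length < 2 * q ∧ ¬ h.length % 2 = 0 ∧
        i = q * ((v + 1) * (v + 1)) + v + 1 + (h.length - 1) := by
      unfold eqTree at hb
      split_ifs at hb with h1 h2
      · exact absurd hb (by simp [Branches])
      · exact ⟨h1, h2, hb⟩
      · exact absurd hb (by simp [Branches])
    obtain ⟨h1, h2, rfl⟩ := hlen
    obtain ⟨⟨-, -, -, h4, h5⟩, ⟨-, -, h8, -⟩⟩ := eqTree_deps (Q := q)
      (hEqs_i q v (K := K)) h (by omega)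
    exact ⟨h8 _, (h.length - 1) / 2, h5 _ (by omega), h4 _ (by omega)⟩

end Pool.Agent.Lib.MP_641cb6_lc.CD
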