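import Pool.Agent.Lib.MP_641cb6_lc.CD.Model

/-!
# Systems of quadratic equations: definitions and statements of the rows
-/

set_option autoImplicit false

namespace Pool.Agent.Lib.MP_641cb6_lc.CD

open Pool.Agent.Lib.MP_641cb6_lc.KG (Ins GTree St deps next Branches Decides Verifies)

/-- Every finite family of trees with gates of at most `M` terms that decides `S` jointly branches,
on some input, on a value that depends on a gate whose nesting is larger than `D` or which depends
on more than `M` gates. -/
def Hard {K : Type} [Field K] (P : K → Prop) {n : ℕ} (S : Set ((Fin n → K) × K)) (D M : ℕ) :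
    Prop :=
  ∀ (N : ℕ) (T : Fin N → GTree K) (Φ : (Fin N → Bool) → Prop), (∀ u, Terms (T u) M) →
    Decides P T Φ S → ∃ (u : Fin N) (x : (Fin n → K) × K) (k i a : ℕ),
      Branches (T u ((T u).run P x k).hist) i ∧
      a ∈ (deps n (T u) ((T u).run P x k).hist).val i ∧
      (D < (nests n (T u) ((T u).run P x k).hist).gate a ∨
        M < ((deps n (T u) ((T u).run P x k).hist).sum a).card)

/-- The solvable systems of `q` quadratic equations in `v` unknowns: the coefficient of `y i * y j`
in the equation number `l` is the entry `(i, j)` of the matrix number `l` of the input, where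
`y 0 = 1`, and the right side of the first equation is the last input. -/
def HNSet (K : Type) [Field K] (q v : ℕ) : Set ((Fin (q * ((v + 1) * (v + 1))) → K) × K) :=
  {x | ∃ y : Fin (v + 1) → K, y 0 = 1 ∧ ∀ l : Fin q,
    ∑ i, ∑ j, mat x.1 l i j * y i * y j = if (l : ℕ) = 0 then x.2 else 0}

/-- the input of length `n'` whose entries are entries of `x` or constants -/
def pull {K : Type} {n n' : ℕ} (φ : Fin n' → Fin n ⊕ K) (x : (Fin n → K) × K) :
    (Fin n' → K) × K :=
  (fun l => Sum.elim x.1 id (φ l), x.2)

/-- Row SUBST: trees for a set give trees for its restriction to inputs of the form `pull φ x`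
with the same gates and nestings. -/
def SubstStatement : Prop :=
  ∀ (K : Type) [Field K] (P : K → Prop) (n n' N M : ℕ) (φ : Fin n' → Fin n ⊕ K)
    (T : Fin N → GTree K) (Φ : (Fin N → Bool) → Prop) (S : Set ((Fin n' → K) × K)),
    (∀ u, Terms (T u) M) → Decides P T Φ S →
    ∃ T' : Fin N → GTree K, (∀ u, Terms (T' u) M) ∧ Decides P T' Φ {x | pull φ x ∈ S} ∧
      ∀ (u : Fin N) (x : (Fin n → K) × K) (k' i' a : ℕ),
        Branches (T' u ((T' u).run P x k').hist) i' →
        a ∈ (deps n (T' u) ((T' u).run P x k').hist).val i' →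
        ∃ k i, Branches (T u ((T u).run P (pull φ x) k).hist) i ∧
          a ∈ (deps n' (T u) ((T u).run P (pull φ x) k).hist).val i ∧
          (deps n' (T u) ((T u).run P (pull φ x) k).hist).sum a =
            (deps n (T' u) ((T' u).run P x k').hist).sum a ∧
          (nests n' (T u) ((T u).run P (pull φ x) k).hist).gate a =
            (nests n (T' u) ((T' u).run P x k').hist).gate a

/-- Row RED: the trace of a product of matrices as a (linear) system: unknowns
`C_0 = A_0`, `C_(j+1) = C_j A_(j+1)`, first equation `trace C_e = b`. -/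
def RedStatement : Prop :=
  ∀ (K : Type) [Field K] (m e q v : ℕ), (e + 1) * (m * m) ≤ v → (e + 1) * (m * m) + 1 ≤ q →
    ∃ φ : Fin (q * ((v + 1) * (v + 1))) → Fin ((e + 1) * (m * m)) ⊕ K,
      ∀ x, pull φ x ∈ HNSet K q v ↔ x ∈ TrSet K m (e + 1)

/-- Row HVER: solvable systems are verified with `v` guesses and one gate for each equation. -/
def HVerStatement : Prop :=
  ∀ (K : Type) [Field K] (P : K → Prop) (q v : ℕ),
    ∃ V : GTree K, Terms V ((v + 1) * (v + 1) + 1) ∧
      Verifies P V v (2 * q) (HNSet K q v) ∧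
      ∀ (h : List Bool) (i : ℕ), Branches (V h) i →
        (nests (q * ((v + 1) * (v + 1)) + v) V h).val i ≤ 1 ∧
        ∃ a, (deps (q * ((v + 1) * (v + 1)) + v) V h).val i = {a} ∧
          (deps (q * ((v + 1) * (v + 1)) + v) V h).sum a = {a}

/-- Row HNUM. -/
def HNumStatement : Prop :=
  ∀ d : ℕ, 1 ≤ d → ∃ v0 : ℕ, ∀ v ≥ v0, ∃ m : ℕ, 2 ^ (d ^ 2) ≤ m ∧ d * (m * m) ≤ v ∧ v ≤ m ^ 3

end Pool.Agent.Lib.MP_641cb6_lc.CD
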