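import Pool.Agent.Lib.MP_641cb6_lc.CD.Defs2
import Pool.Agent.Lib.MP_641cb6_lc.CD.Levels

/-!
# Gates of two kinds: row LEVELS2
-/

set_option autoImplicit false

namespace Pool.Agent.Lib.MP_641cb6_lc.CD

namespace Lev

theorem hh_le_one {d : ℕ} (w : Fin d → ℤ) (B : Finset (Fin d)) : hh w B ≤ 1 := by
  unfold hh
  apply Real.rpow_le_one_of_one_le_of_nonpos one_le_two
  have : 0 ≤ |∑ i ∈ B, (w i : ℝ)| := abs_nonneg _
  linarith

theorem triv_ell (hR : RankStatement) (hD : DerStatement) {d : ℕ} (w : Fin d → ℤ) {F : Type}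
    [Field F] (𝔇 : Der w F) (i : Fin d) (B : Finset (Fin d)) (f : F) (x : ℝ) (hx : 1 ≤ x) :
    Rk w (insert i B) (fun σ => ell 𝔇 i B σ f) x :=
  hR.mono d w F _ _ _ _ (hR.triv d w F (insert i B) _ (hD.dep_ell d w F 𝔇 i B f))
    ((hh_le_one w _).trans hx)

theorem one_le_rh {M b η : ℝ} (hM : 1 ≤ M) (hb : 1 ≤ b) (hη : 0 ≤ η) {j : ℕ}
    (h : 1 ≤ rh M b η j) : 1 ≤ rh M b η (j + 1) := by
  have e : rh M b η (j + 1) = M * (b * (η + M * (b * (η + rh M b η j)))) := rfl
  rw [e]
  have h1 : 1 ≤ b * (η + rh M b η j) := one_le_mul_of_one_le_of_one_le hb (by linarith)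
  have h2 : 1 ≤ M * (b * (η + rh M b η j)) := one_le_mul_of_one_le_of_one_le hM h1
  have h3 : 1 ≤ b * (η + M * (b * (η + rh M b η j))) :=
    one_le_mul_of_one_le_of_one_le hb (by linarith)
  exact one_le_mul_of_one_le_of_one_le hM h3

theorem pow_args {s r n d M : ℕ} (hs : s ≤ r) (hn : n ≤ d) (h0 : 0 < n)
    (hr : r ^ d ≤ M * 2 ^ (d ^ 2)) : (s : ℝ) ^ n ≤ M * 2 ^ (d ^ 2) := by
  have h : s ^ n ≤ M * 2 ^ (d ^ 2) := by
    rcases Nat.eq_zero_or_pos r with h | h
    · subst h
      have : s = 0 := by omega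
      subst this
      rw [zero_pow h0.ne']
      exact Nat.zero_le _
    · exact (Nat.pow_le_pow_left hs n).trans ((Nat.pow_le_pow_right h hn).trans hr)
  exact_mod_cast h

end Lev

open Lev

/-- Row LEVELS2. -/
theorem level2Statement (hR : RankStatement) (hD : DerStatement) (hC : ClaimStatement)
    (hCh : ChainStatement) : Level2Statement := by
  classical
  intro d k t lam M r w F K _ _ 𝔇 κ hκ hw hl hM hr j
  set b : ℝ := 2 ^ (3 * d ^ 2) with hb
  set η : ℝ := (2 : ℝ) ^ (-((k : ℝ) * lam) / 16) with hη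
  have hb0 : 0 ≤ b := by positivity
  have hb1 : 1 ≤ b := one_le_pow₀ one_le_two
  have hη0 : 0 ≤ η := (Real.rpow_pos_of_pos two_pos _).le
  have hM0 : (0 : ℝ) ≤ M := Nat.cast_nonneg M
  have hM1 : (1 : ℝ) ≤ M := by exact_mod_cast hM
  have hbn : ∀ n : ℕ, n ≤ d → (2 : ℝ) ^ (n ^ 2) ≤ b := fun n hn =>
    pow_le_pow_right₀ one_le_two (by nlinarith [Nat.pow_le_pow_left hn 2])
  induction j with
  | zero =>
      intro f _ hf hV i B hi hB
      have hZ : Zf 𝔇 f := by
        rcases hV with h | h
        · exact absurd h hf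
        · exact h
      have hBn : B.Nonempty := by
        rw [← Finset.card_pos]
        change 2 ≤ B.card + 1 at hB
        omega
      have h0 : (fun σ => ell 𝔇 i B σ f) = fun _ => (0 : F) := by
        funext σ
        exact hZ.2 i B σ hi hBn
      rw [h0]
      exact hR.zero d w F (insert i B)
  | succ j ih =>
      intro f ht hf hV i B hi hB
      rcases le_or_gt 1 (rh M b η j) with hbig | hsmall
      · exact triv_ell hR hD w 𝔇 i B f _ (one_le_rh hM1 hb1 hη0 hbig)
      obtain ⟨f0, m, S, e, hm, hZ, hS, rfl⟩ : ∃ (f0 : F) (m : ℕ) (S : Fin m → F)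
          (e : Fin m → ℤ), m ≤ M ∧ Zf 𝔇 f0 ∧ (∀ t, S t ≠ 0 ∧ (SumOf M (Vy κ 𝔇 M r j) (S t) ∨
            PolyOf κ r (Vy κ 𝔇 M r j) (S t))) ∧ f = f0 * ∏ t, S t ^ e t := by
        rcases hV with h | h
        · exact absurd h hf
        · exact h
      have hT2 := two_le_TT hl j
      have hT0 : 0 < TT lam j := by omega
      have hmid0 : 0 < lam * TT lam j ^ 2 := lt_of_lt_of_le hT0 (TT_le_mid hl j)
      have hmt : lam * TT lam j ^ 2 ≤ t := le_trans (mid_le_TT hl j) ht
      have hTt : TT lam j ≤ t := le_trans (TT_le_mid hl j) hmt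
      have hr0 : 0 ≤ rh M b η j := Lev.rh_nonneg hM0 hb0 hη0 j
      have hBn : B.Nonempty := by
        rw [← Finset.card_pos]
        have := two_le_TT hl (j + 1)
        omega
      have hcd : ∀ B : Finset (Fin d), B.card ≤ d := fun B => by
        simpa using Finset.card_le_univ B
      -- values
      have hval : ∀ g : F, Vy κ 𝔇 M r j g → g ≠ 0 → ∀ B : Finset (Fin d),
          Rk w B (fun σ => DB 𝔇 B σ g / g)
            (2 ^ (B.card ^ 2) * (th k (TT lam j) ^ B.card + rh M b η j)) := by
        intro g hg hg0 B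
        exact (hC d w F 𝔇 g (TT lam j) (th k (TT lam j)) (rh M b η j) hg0 (th_pos _ _)
          (th_le_one _ _) hr0 (fun B hB1 hB2 => hh_le hw hTt B hB1 hB2)).1
          (fun i B hi hB => ih g hTt hg0 hg i B hi hB) B
      -- terms
      have hterm : ∀ g : F, Vy κ 𝔇 M r j g → ∀ (c : F) (B : Finset (Fin d)),
          lam * TT lam j ^ 2 ≤ B.card →
          Rk w B (fun σ => DB 𝔇 B σ g / c) (b * (η + rh M b η j)) := by
        intro g hg c B hB
        by_cases hg0 : g = 0
        · subst hg0
          have h0 : (fun σ => DB 𝔇 B σ (0 : F) / c) = fun _ => (0 : F) := by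
            funext σ
            rw [DB_zero_lev hD, zero_div]
          rw [h0]
          exact hR.mono d w F B _ 0 _ (hR.zero d w F B) (by positivity)
        · have h1 := hR.smul d w F B _ _ (g / c) (hval g hg hg0 B)
          have h2 : (fun σ => DB 𝔇 B σ g / c) = fun σ => g / c * (DB 𝔇 B σ g / g) := by
            funext σ
            field_simp
          rw [h2]
          refine hR.mono d w F B _ _ _ h1 ?_
          have h3 : (2 : ℝ) ^ (B.card ^ 2) ≤ b := hbn _ (hcd B)
          have h4 : th k (TT lam j) ^ B.card ≤ η := th_pow_le hT0 hB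
          have h5 : 0 ≤ th k (TT lam j) ^ B.card := pow_nonneg (th_pos _ _).le _
          exact mul_le_mul h3 (by linarith) (by positivity) hb0
      -- gates
      have hgate : ∀ S : F, S ≠ 0 →
          (SumOf M (Vy κ 𝔇 M r j) S ∨ PolyOf κ r (Vy κ 𝔇 M r j) S) →
          Rk w (insert i B) (fun σ => ell 𝔇 i B σ S)
            (b * (η + M * (b * (η + rh M b η j)))) := by
        intro S hS0 hS
        have hsum : ∀ B : Finset (Fin d), lam * TT lam j ^ 2 ≤ B.card →
            Rk w B (fun σ => DB 𝔇 B σ S / S) (M * (b * (η + rh M b η j))) := by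
          intro B hB
          rcases hS with ⟨q, hq, g, hg, rfl⟩ | ⟨s, hs, G, g, hg, hSe⟩
          · have h1 := hR.sum d w F B (Fin q) Finset.univ
              (fun t σ => DB 𝔇 B σ (g t) / ∑ t, g t) (fun _ => b * (η + rh M b η j))
              (fun t _ => hterm (g t) (hg t) _ B hB)
            have h2 : (fun σ => DB 𝔇 B σ (∑ t, g t) / ∑ t, g t) =
                fun σ => ∑ t, DB 𝔇 B σ (g t) / ∑ t, g t := by
              funext σ
              rw [hD.sums d w F 𝔇 B σ (Fin q) Finset.univ g, Finset.sum_div]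
            rw [h2]
            refine hR.mono d w F B _ _ _ h1 ?_
            rw [Finset.sum_const, Finset.card_univ, Fintype.card_fin, nsmul_eq_mul]
            exact mul_le_mul_of_nonneg_right (by exact_mod_cast hq) (by positivity)
          · have h1 := hCh d w F K 𝔇 κ hκ s g (th k (TT lam j)) (rh M b η j) (th_pos _ _)
              (th_le_one _ _) hr0 hsmall.le (fun t hg0 B => hval (g t) (hg t) hg0 B) B G S⁻¹
            rw [← hSe] at h1
            have h2 : (fun σ => DB 𝔇 B σ S / S) = fun σ => S⁻¹ * DB 𝔇 B σ S := by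
              funext σ
              rw [div_eq_inv_mul]
            rw [h2]
            refine hR.mono d w F B _ _ _ h1 ?_
            have h3 : (s : ℝ) ^ B.card ≤ M * 2 ^ (d ^ 2) :=
              pow_args hs (hcd B) (lt_of_lt_of_le hmid0 hB) hr
            have h4 : (2 : ℝ) ^ (2 * B.card ^ 2) ≤ 2 ^ (2 * d ^ 2) :=
              pow_le_pow_right₀ one_le_two
                (Nat.mul_le_mul_left 2 (Nat.pow_le_pow_left (hcd B) 2))
            have h5 : th k (TT lam j) ^ B.card ≤ η := th_pow_le hT0 hB
            have h6 : 0 ≤ th k (TT lam j) ^ B.card := pow_nonneg (th_pos _ _).le _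
            have h7 : (2 : ℝ) ^ (2 * B.card ^ 2) * (th k (TT lam j) ^ B.card + rh M b η j) ≤
                2 ^ (2 * d ^ 2) * (η + rh M b η j) :=
              mul_le_mul h4 (by linarith) (by positivity) (by positivity)
            calc (s : ℝ) ^ B.card *
                  (2 ^ (2 * B.card ^ 2) * (th k (TT lam j) ^ B.card + rh M b η j)) ≤
                  (M * 2 ^ (d ^ 2)) * (2 ^ (2 * d ^ 2) * (η + rh M b η j)) :=
                  mul_le_mul h3 h7 (by positivity) (by positivity)
              _ = M * (b * (η + rh M b η j)) := by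
                  rw [hb, show 3 * d ^ 2 = d ^ 2 + 2 * d ^ 2 by ring, pow_add]
                  ring
        have hL := (hC d w F 𝔇 S (lam * TT lam j ^ 2) (th k (lam * TT lam j ^ 2))
          (M * (b * (η + rh M b η j))) hS0 (th_pos _ _) (th_le_one _ _) (by positivity)
          (fun B hB1 hB2 => hh_le hw hmt B hB1 hB2)).2 hsum i B hi
        refine hR.mono d w F _ _ _ _ hL ?_
        have hcard : B.card + 1 ≤ d := by
          have := Finset.card_le_univ (insert i B)
          rw [Finset.card_insert_of_notMem hi, Fintype.card_fin] at this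
          exact this
        have h3 : (2 : ℝ) ^ ((B.card + 1) ^ 2) ≤ b := hbn _ hcard
        have h4 : th k (lam * TT lam j ^ 2) ^ (B.card + 1) ≤ η :=
          th_pow_le hmid0 (by rw [← TT_succ]; exact hB)
        have h5 : 0 ≤ th k (lam * TT lam j ^ 2) ^ (B.card + 1) := pow_nonneg (th_pos _ _).le _
        exact mul_le_mul h3 (by linarith) (by positivity) hb0
      -- the product
      have hfun : (fun σ => ell 𝔇 i B σ (f0 * ∏ t, S t ^ e t)) =
          fun σ => ∑ t, (e t : F) * ell 𝔇 i B σ (S t) := by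
        funext σ
        rw [ell_prod hD 𝔇 i B σ f0 hZ.1 S (fun t => (hS t).1) e Finset.univ,
          hZ.2 i B σ hi hBn, zero_add]
      rw [hfun]
      have h1 := hR.sum d w F (insert i B) (Fin m) Finset.univ
        (fun t σ => (e t : F) * ell 𝔇 i B σ (S t))
        (fun _ => b * (η + M * (b * (η + rh M b η j))))
        (fun t _ => hR.smul d w F _ _ _ _ (hgate (S t) (hS t).1 (hS t).2))
      refine hR.mono d w F _ _ _ _ h1 ?_
      rw [Finset.sum_const, Finset.card_univ, Fintype.card_fin, nsmul_eq_mul]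
      exact mul_le_mul_of_nonneg_right (by exact_mod_cast hm) (by positivity)

end Pool.Agent.Lib.MP_641cb6_lc.CD
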