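import Pool.Agent.Lib.MP_641cb6_lc.KG.Defs

/-!
# Nesting of gates, number of terms of gates, the trace of a product of matrices
-/

set_option autoImplicit false

namespace Pool.Agent.Lib.MP_641cb6_lc.CD

open Pool.Agent.Lib.MP_641cb6_lc.KG (Ins GTree)

/-- the nesting numbers of the gates and of the values computed so far -/
structure Nst where
  gates : List ℕ
  vals : List ℕ

/-- the nesting of the value number `i` -/
def Nst.val (d : Nst) (i : ℕ) : ℕ := d.vals.getD i 0

/-- the nesting of the gate number `a` -/
def Nst.gate (d : Nst) (a : ℕ) : ℕ := d.gates.getD a 0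

section

variable {K : Type} [Field K]

/-- The effect of an instruction on the nesting numbers: constants have nesting `0`, a product or a
quotient has the larger one of the nestings of the two values, the value of a gate has one more than
the largest nesting of the values that it uses. -/
def nextN (ins : Ins K) (d : Nst) : Nst :=
  match ins with
  | .const _ => ⟨d.gates, d.vals ++ [0]⟩
  | .mul i j => ⟨d.gates, d.vals ++ [max (d.val i) (d.val j)]⟩
  | .div i j => ⟨d.gates, d.vals ++ [max (d.val i) (d.val j)]⟩
  | .gate _ _ i =>
      ⟨d.gates ++ [(Finset.univ.sup fun k => d.val (i k)) + 1],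
        d.vals ++ [(Finset.univ.sup fun k => d.val (i k)) + 1]⟩
  | .test _ => d
  | .answer _ => d

/-- the nesting numbers of the tree `T` on inputs from `K ^ n × K` after the outcomes `h`; inputs
have nesting `0` -/
def nests (n : ℕ) (T : GTree K) : List Bool → Nst
  | [] => ⟨[], List.replicate (n + 1) 0⟩
  | _ :: h => nextN (T h) (nests n T h)

/-- every gate of the tree is a polynomial with at most `M` terms (of any degree, in any number of
values) -/
def Terms (T : GTree K) (M : ℕ) : Prop :=
  ∀ (h : List Bool) (r : ℕ) (F : MvPolynomial (Fin r) K) (i : Fin r → ℕ), T h = .gate r F i →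
    F.support.card ≤ M

end

/-- the place of the entry `(a, b)` of the matrix number `t` -/
def ix {m d : ℕ} (t : Fin d) (a b : Fin m) : Fin (d * (m * m)) :=
  finProdFinEquiv (t, finProdFinEquiv (a, b))

/-- the `d` matrices of size `m` of a vector of length `d * (m * m)` -/
def mat {R : Type} {m d : ℕ} (x : Fin (d * (m * m)) → R) (t : Fin d) : Matrix (Fin m) (Fin m) R :=
  fun a b => x (ix t a b)

/-- the trace of the product of `d` matrices -/
def tr {R : Type} [CommRing R] {m d : ℕ} (A : Fin d → Matrix (Fin m) (Fin m) R) : R :=
  (List.ofFn A).prod.trace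

/-- the graph of the trace of the product of `d` matrices of size `m` -/
def TrSet (K : Type) [Field K] (m d : ℕ) : Set ((Fin (d * (m * m)) → K) × K) :=
  {q | q.2 = tr (mat q.1)}

end Pool.Agent.Lib.MP_641cb6_lc.CD
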