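import Pool.Agent.Lib.MP_641cb6_lc.CD.Defs2

/-!
# Explicit numbers for gates of two kinds
-/

set_option autoImplicit false

namespace Pool.Agent.Lib.MP_641cb6_lc.CD

/-- the number of directions that are used -/
def lam2 (D c : ℕ) : ℕ := 256 * (c + 1) * (D + 1)

theorem lam2_pos (D c : ℕ) : 1 ≤ lam2 D c := by
  unfold lam2
  have h1 : 1 ≤ (c + 1) * (D + 1) := Nat.mul_pos (Nat.succ_pos _) (Nat.succ_pos _)
  nlinarith

theorem dd_ge (D c : ℕ) : 4096 ≤ dd D c := by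
  unfold dd
  have h1 : 4096 ≤ 4096 * (c + 1) * (D + 1) := by nlinarith [Nat.zero_le (D * c)]
  calc 4096 ≤ 4096 * (c + 1) * (D + 1) := h1
    _ = (4096 * (c + 1) * (D + 1)) ^ 1 := (pow_one _).symm
    _ ≤ _ := Nat.pow_le_pow_right (by positivity) (Nat.one_le_pow _ _ (by norm_num))

/-- the thresholds are much smaller than the number of matrices -/
theorem TT_dd (D c : ℕ) : 8 * TT (lam2 D c) D ≤ dd D c := by
  have h1 := TT_le (lam2_pos D c) D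
  have h0 : 1 ≤ 4 ^ D := Nat.one_le_pow _ _ (by norm_num)
  have h2 : 8 ^ 1 ≤ 8 ^ 4 ^ D := Nat.pow_le_pow_right (by norm_num) h0
  have h3 : dd D c = 8 ^ 4 ^ D * (2 * lam2 D c) ^ 4 ^ D := by
    have h4 : 4096 * (c + 1) * (D + 1) = 8 * (2 * lam2 D c) := by
      unfold lam2
      ring
    unfold dd
    rw [h4, mul_pow]
  rw [h3]
  exact Nat.mul_le_mul h2 h1

/-- Row NUM2. -/
theorem num2Statement : Num2Statement := by
  intro D c v hc hv
  set d := dd D c with hd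
  have hd1 : 4096 ≤ d := dd_ge D c
  have hdpos : 0 < d := by omega
  have hT := TT_dd D c
  rw [← hd] at hT
  have hdd : 4096 * d ≤ d ^ 2 := by nlinarith
  -- the size of the matrices
  set m := Nat.sqrt (v / d) with hm
  set k := Nat.log 2 m with hk
  have h3 : m * m ≤ v / d := Nat.sqrt_le _
  have h4 : v / d < (m + 1) * (m + 1) := Nat.sqrt_lt.1 (Nat.lt_succ_self _)
  have h5 : v < (m + 1) * (m + 1) * d := (Nat.div_lt_iff_lt_mul hdpos).1 h4
  have hmk : m < 2 ^ (k + 1) := Nat.lt_pow_succ_log_self (by norm_num) m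
  have h6 : v < 2 ^ (2 * k + 2 + d) := by
    have h7 : d ≤ 2 ^ d := Nat.lt_two_pow_self.le
    calc v < (m + 1) * (m + 1) * d := h5
      _ ≤ 2 ^ (k + 1) * 2 ^ (k + 1) * 2 ^ d := Nat.mul_le_mul (Nat.mul_le_mul hmk hmk) h7
      _ = 2 ^ (2 * k + 2 + d) := by rw [← pow_add, ← pow_add]; congr 1; ring
  have h8 : 16 * d ^ 2 < 2 * k + 2 + d :=
    (Nat.pow_lt_pow_iff_right (by norm_num)).1 (hv.trans_lt h6)
  have hk7 : 7 * d ^ 2 ≤ k := by nlinarith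
  have hk1 : d + 2 ≤ k := by nlinarith
  have hm0 : m ≠ 0 := by
    rintro h0
    rw [hk, h0, Nat.log_zero_right] at hk1
    omega
  have hm1 : 2 ^ k ≤ m := Nat.pow_log_le_self 2 hm0
  have hT2 : 24 * TT (lam2 D c) D ^ 2 + 5 ≤ k := by
    have h9 : (8 * TT (lam2 D c) D) ^ 2 ≤ d ^ 2 := Nat.pow_le_pow_left hT 2
    nlinarith
  refine ⟨m, lam2 D c, lam2_pos D c, ?_, ?_, by omega, hT2, ?_⟩
  · exact (Nat.pow_le_pow_right (by norm_num) (by nlinarith)).trans hm1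
  · calc d * (m * m) = m * m * d := Nat.mul_comm _ _
      _ ≤ v / d * d := Nat.mul_le_mul_right _ h3
      _ ≤ v := Nat.div_mul_le_self v d
  rw [← hk]
  set e : ℕ := 16 * (c + 1) * (D + 1) with he
  have hη : (2 : ℝ) ^ (-((k : ℝ) * ((lam2 D c : ℕ) : ℝ)) / 16) = ((2 : ℝ) ^ (k * e))⁻¹ := by
    rw [show -((k : ℝ) * ((lam2 D c : ℕ) : ℝ)) / 16 = -((k * e : ℕ) : ℝ) by
        rw [he]
        unfold lam2
        push_cast
        ring,
      Real.rpow_neg (by norm_num), Real.rpow_natCast]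
  rw [hη]
  have hv1 : 1 ≤ v := le_trans Nat.one_le_two_pow hv
  have hM1 : (1 : ℝ) ≤ (v : ℝ) ^ c := one_le_pow₀ (by exact_mod_cast hv1)
  have hb1 : (1 : ℝ) ≤ (2 : ℝ) ^ (3 * d ^ 2) := one_le_pow₀ (by norm_num)
  have hM : (v : ℝ) ^ c ≤ (2 : ℝ) ^ (3 * k * c) := by
    have h1 : v ≤ 2 ^ (3 * k) := h6.le.trans (Nat.pow_le_pow_right (by norm_num) (by omega))
    have h2 : (v : ℝ) ≤ (2 : ℝ) ^ (3 * k) := by exact_mod_cast h1
    rw [pow_mul (2 : ℝ) (3 * k) c]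
    exact pow_le_pow_left₀ (by positivity) h2 c
  have hb : ((2 : ℝ) ^ (3 * d ^ 2)) ^ 2 ≤ (2 : ℝ) ^ k := by
    rw [← pow_mul]
    exact pow_le_pow_right₀ (by norm_num) (by nlinarith)
  have h13 : 3 * ((v : ℝ) ^ c) ^ 2 * ((2 : ℝ) ^ (3 * d ^ 2)) ^ 2 ≤
      (2 : ℝ) ^ (k * (6 * (c + 1))) := by
    have h4 : (3 : ℝ) ≤ (2 : ℝ) ^ (2 * k) := by
      have : (2 : ℝ) ^ 2 ≤ (2 : ℝ) ^ (2 * k) := pow_le_pow_right₀ (by norm_num) (by omega)
      linarith
    calc 3 * ((v : ℝ) ^ c) ^ 2 * ((2 : ℝ) ^ (3 * d ^ 2)) ^ 2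
        ≤ (2 : ℝ) ^ (2 * k) * ((2 : ℝ) ^ (3 * k * c)) ^ 2 * (2 : ℝ) ^ k := by
          gcongr
      _ = (2 : ℝ) ^ (2 * k + 3 * k * c * 2 + k) := by
          rw [← pow_mul, ← pow_add, ← pow_add]
      _ ≤ (2 : ℝ) ^ (k * (6 * (c + 1))) := by
          refine pow_le_pow_right₀ (by norm_num) ?_
          nlinarith
  have h15 := rh_le hM1 hb1 (η := ((2 : ℝ) ^ (k * e))⁻¹) (by positivity) D
  have h16 : (d : ℝ) ≤ (2 : ℝ) ^ k := by
    have : d < 2 ^ k := (show d ≤ k by omega).trans_lt Nat.lt_two_pow_self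
    exact_mod_cast this.le
  have hexp : k + k * (6 * (c + 1)) * D + k ≤ k * e := by
    have h17 : 1 + 6 * (c + 1) * D + 1 ≤ e := by
      rw [he]
      nlinarith [Nat.zero_le (c * D)]
    calc k + k * (6 * (c + 1)) * D + k = k * (1 + 6 * (c + 1) * D + 1) := by ring
      _ ≤ k * e := Nat.mul_le_mul_left _ h17
  have h7 : (d : ℝ) * rh ((v : ℝ) ^ c) (2 ^ (3 * d ^ 2)) (((2 : ℝ) ^ (k * e))⁻¹) D ≤
      ((2 : ℝ) ^ k)⁻¹ := by
    calc (d : ℝ) * rh ((v : ℝ) ^ c) (2 ^ (3 * d ^ 2)) (((2 : ℝ) ^ (k * e))⁻¹) D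
        ≤ (2 : ℝ) ^ k * (((2 : ℝ) ^ (k * (6 * (c + 1)))) ^ D * ((2 : ℝ) ^ (k * e))⁻¹) := by
          refine mul_le_mul h16 (h15.trans ?_) (rh_nonneg hM1 hb1 (by positivity) D) (by positivity)
          refine mul_le_mul_of_nonneg_right ?_ (by positivity)
          exact pow_le_pow_left₀ (by positivity) h13 D
      _ = (2 : ℝ) ^ (k + k * (6 * (c + 1)) * D) * ((2 : ℝ) ^ (k * e))⁻¹ := by
          rw [← pow_mul, ← mul_assoc, ← pow_add]
      _ ≤ (2 : ℝ) ^ (k + k * (6 * (c + 1)) * D) *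
            ((2 : ℝ) ^ (k + k * (6 * (c + 1)) * D + k))⁻¹ := by
          refine mul_le_mul_of_nonneg_left ?_ (by positivity)
          exact inv_anti₀ (by positivity) (pow_le_pow_right₀ (by norm_num) hexp)
      _ = ((2 : ℝ) ^ k)⁻¹ := by
          rw [pow_add (2 : ℝ) (k + k * (6 * (c + 1)) * D) k]
          field_simp
  refine h7.trans_lt ?_
  rw [← Real.rpow_natCast, ← Real.rpow_neg (by norm_num)]
  refine Real.rpow_lt_rpow_of_exponent_lt (by norm_num) ?_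
  have : (1 : ℝ) ≤ k := by
    have : 1 ≤ k := by omega
    exact_mod_cast this
  linarith

end Pool.Agent.Lib.MP_641cb6_lc.CD
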