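import Pool.Agent.Lib.MP_641cb6_lc.CD.Defs
import Pool.Agent.Lib.MP_641cb6_lc.KG.Sim
import Mathlib

/-!
# Row PATH: a tested value that vanishes on the graph of a polynomial but not identically
-/

set_option autoImplicit false

namespace Pool.Agent.Lib.MP_641cb6_lc.CD

open Pool.Agent.Lib.MP_641cb6_lc.KG Set Filter Topology

/-! ### answers are stable -/

section Stable

variable {K : Type} [Field K] {n : ℕ}

theorem run_stable {P : K → Prop} {T : GTree K} {x : (Fin n → K) × K} {k : ℕ} {b : Bool}
    (h : T (T.run P x k).hist = .answer b) (j : ℕ) : T.run P x (k + j) = T.run P x k := by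
  induction j with
  | zero => rfl
  | succ j ih =>
    rw [← Nat.add_assoc]
    show T.step P (T.run P x (k + j)) = _
    rw [ih]
    unfold GTree.step
    rw [h]

theorem answer_unique {P : K → Prop} {T : GTree K} {x : (Fin n → K) × K} {k k' : ℕ} {b b' : Bool}
    (h : T (T.run P x k).hist = .answer b) (h' : T (T.run P x k').hist = .answer b') :
    b = b' := by
  rcases le_total k k' with hk | hk
  · obtain ⟨j, rfl⟩ := Nat.exists_eq_add_of_le hk
    rw [run_stable h, h] at h'
    exact Ins.answer.inj h'
  · obtain ⟨j, rfl⟩ := Nat.exists_eq_add_of_le hk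
    rw [run_stable h', h'] at h
    exact (Ins.answer.inj h).symm

end Stable

/-- the properties of the tests that are needed -/
structure Good (K : Type) [RCLike K] (P : K → Prop) : Prop where
  tp : ∀ (n : ℕ) (T : GTree K) (x : (Fin n → K) × K) (k i : ℕ),
    P ((T.run P x k).val i) ↔ P (pf ((sym n T (T.run P x k).hist).tpol i) x)
  loc : ∀ v : K, v ≠ 0 → ∀ᶠ w in 𝓝 v, (P w ↔ P v)

theorem good_real : Good ℝ (fun v : ℝ => 0 ≤ v) where
  tp := fun n T x k i => tpol_nonneg _ T x k i
  loc := by
    intro v hv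
    rcases lt_or_gt_of_ne hv with h | h
    · filter_upwards [gt_mem_nhds h] with w hw
      exact ⟨fun h1 => absurd hw (not_lt.2 h1), fun h1 => absurd h (not_lt.2 h1)⟩
    · filter_upwards [lt_mem_nhds h] with w hw
      exact ⟨fun _ => h.le, fun _ => hw.le⟩

theorem good_complex : Good ℂ (fun v : ℂ => v = 0) where
  tp := fun n T x k i => tpol_zero _ T x k i
  loc := by
    intro v hv
    filter_upwards [isOpen_ne.mem_nhds hv] with w hw
    exact ⟨fun h1 => absurd h1 hw, fun h1 => absurd h1 hv⟩

section Graph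

variable {K : Type} [RCLike K] {n : ℕ}

/-- the restriction to the graph of `p` -/
noncomputable def gr (p : MvPolynomial (Fin n) K) : Pol K n →+* MvPolynomial (Fin n) K :=
  Polynomial.evalRingHom p

theorem pf_graph (p : MvPolynomial (Fin n) K) (f : Pol K n) (t : Fin n → K) :
    pf f (t, MvPolynomial.eval t p) = MvPolynomial.eval t (gr p f) := by
  unfold pf gr
  rw [Polynomial.coe_evalRingHom, Polynomial.eval_map]
  exact (Polynomial.hom_eval₂ f (RingHom.id _) (MvPolynomial.eval t) p).symm

theorem cont_pf (f : Pol K n) (t : Fin n → K) : Continuous fun z : K => pf f (t, z) := by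
  unfold pf
  exact (f.map (MvPolynomial.eval t)).continuous

theorem dense_eval_ne {f : MvPolynomial (Fin n) K} (hf : f ≠ 0) :
    Dense {t : Fin n → K | MvPolynomial.eval t f ≠ 0} := by
  obtain ⟨a, ha⟩ : ∃ a : Fin n → K, MvPolynomial.eval a f ≠ 0 := by
    by_contra hcon
    push Not at hcon
    exact hf (MvPolynomial.funext fun x => by rw [hcon x, map_zero])
  intro t
  set G : Polynomial K := MvPolynomial.eval₂ Polynomial.C
    (fun i => Polynomial.C (t i) + Polynomial.X * Polynomial.C (a i - t i)) f with hG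
  have hGe : ∀ s : K, G.eval s = MvPolynomial.eval (fun i => t i + s * (a i - t i)) f := by
    intro s
    rw [hG, ← Polynomial.coe_evalRingHom, MvPolynomial.hom_eval₂]
    have e1 : (Polynomial.evalRingHom s).comp Polynomial.C = RingHom.id K := by
      ext c
      simp
    rw [e1]
    simp only [Polynomial.coe_evalRingHom, Polynomial.eval_add, Polynomial.eval_C,
      Polynomial.eval_mul, Polynomial.eval_X]
    rfl
  have hG0 : G ≠ 0 := by
    intro h0
    apply ha
    have h1 := hGe 1
    rw [h0, Polynomial.eval_zero] at h1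
    rw [h1]
    congr 2
    funext i
    ring
  have h1 : ∀ᶠ s in 𝓝[≠] (0 : K), G.eval s ≠ 0 := by
    have h2 : ({s : K | G.IsRoot s} \ {0}).Finite := (Polynomial.finite_setOfPred_isRoot hG0).sdiff
    have h3 : ({s : K | G.IsRoot s} \ {0})ᶜ ∈ 𝓝 (0 : K) :=
      h2.isClosed.isOpen_compl.mem_nhds (by simp)
    have h4 : ∀ᶠ s in 𝓝[≠] (0 : K), s ∈ ({s : K | G.IsRoot s} \ {0})ᶜ :=
      mem_nhdsWithin_of_mem_nhds h3
    filter_upwards [h4, eventually_mem_nhdsWithin] with s hs hs0 h5
    exact hs ⟨h5, hs0⟩
  refine mem_closure_of_tendsto (f := fun s : K => fun i => t i + s * (a i - t i))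
    (b := 𝓝[≠] (0 : K)) ?_ ?_
  · have hc : Continuous fun s : K => fun i => t i + s * (a i - t i) := by fun_prop
    have h2 := hc.tendsto 0
    simp only [zero_mul, add_zero] at h2
    exact h2.mono_left nhdsWithin_le_nhds
  · filter_upwards [h1] with s hs
    rw [hGe] at hs
    exact hs

theorem open_eval_ne (f : MvPolynomial (Fin n) K) :
    IsOpen {t : Fin n → K | MvPolynomial.eval t f ≠ 0} :=
  isOpen_ne_fun (MvPolynomial.continuous_eval f) continuous_const

/-- a point where no polynomial of a countable family vanishes -/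
theorem exists_generic {I : Type} [Countable I] (F : I → MvPolynomial (Fin n) K) :
    ∃ t : Fin n → K, ∀ i, F i ≠ 0 → MvPolynomial.eval t (F i) ≠ 0 := by
  classical
  let A : I → Set (Fin n → K) := fun i =>
    if F i ≠ 0 then {t | MvPolynomial.eval t (F i) ≠ 0} else univ
  have hAo : ∀ i, IsOpen (A i) := by
    intro i
    simp only [A]
    split_ifs
    · exact open_eval_ne _
    · exact isOpen_univ
  have hAd : ∀ i, Dense (A i) := by
    intro i
    simp only [A]
    split_ifs with h
    · exact dense_eval_ne h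
    · exact dense_univ
  obtain ⟨t, ht⟩ := (dense_iInter_of_isOpen hAo hAd).nonempty
  rw [mem_iInter] at ht
  refine ⟨t, fun i hi => ?_⟩
  have := ht i
  simp only [A] at this
  rw [if_pos hi] at this
  exact this

end Graph

section Main

variable {K : Type} [RCLike K] {n N : ℕ}

/-- **The tree lemma.** -/
theorem tree_test {P : K → Prop} (hP : Good K P) (p : MvPolynomial (Fin n) K)
    (T : Fin N → GTree K) (Φ : (Fin N → Bool) → Prop)
    (hdec : Decides P T Φ {x : (Fin n → K) × K | x.2 = MvPolynomial.eval x.1 p}) :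
    ∃ (w : Fin N) (x : (Fin n → K) × K) (k i : ℕ),
      Branches ((T w) ((T w).run P x k).hist) i ∧
      (sym n (T w) ((T w).run P x k).hist).tpol i ≠ 0 ∧
      gr p ((sym n (T w) ((T w).run P x k).hist).tpol i) = 0 := by
  classical
  by_contra hcon
  push Not at hcon
  obtain ⟨t, ht⟩ := exists_generic (K := K) (n := n)
    (fun j : Fin N × List Bool × ℕ => gr p ((sym n (T j.1) j.2.1).tpol j.2.2))
  set q : (Fin n → K) × K := (t, MvPolynomial.eval t p) with hq
  have hpt : ∀ (w : Fin N) (h : List Bool) (i : ℕ),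
      gr p ((sym n (T w) h).tpol i) ≠ 0 → pf ((sym n (T w) h).tpol i) q ≠ 0 := by
    intro w h i hne
    rw [hq, pf_graph]
    exact ht (w, h, i) hne
  have hcont : ∀ f : Pol K n, Tendsto (fun δ : K => pf f (t, MvPolynomial.eval t p + δ)) (𝓝 0)
      (𝓝 (pf f q)) := by
    intro f
    have h1 : Continuous fun δ : K => pf f (t, MvPolynomial.eval t p + δ) :=
      (cont_pf f t).comp (continuous_const.add continuous_id)
    have h2 := h1.tendsto 0
    simp only [add_zero] at h2
    exact h2
  have key : ∀ (w : Fin N) (k : ℕ), ∀ᶠ δ in 𝓝 (0 : K),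
      ((T w).run P (t, MvPolynomial.eval t p + δ) k).hist = ((T w).run P q k).hist := by
    intro w k
    induction k with
    | zero => exact Eventually.of_forall fun _ => rfl
    | succ k ih =>
      have e1 : ∀ x : (Fin n → K) × K,
          (T w).run P x (k + 1) = (T w).step P ((T w).run P x k) := fun _ => rfl
      cases hins : (T w) ((T w).run P q k).hist with
      | const c =>
        filter_upwards [ih] with δ hδ
        simp only [e1, GTree.step, hδ, hins]
      | mul i j =>
        filter_upwards [ih] with δ hδ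
        simp only [e1, GTree.step, hδ, hins]
      | gate r F i =>
        filter_upwards [ih] with δ hδ
        simp only [e1, GTree.step, hδ, hins]
      | answer b =>
        filter_upwards [ih] with δ hδ
        simp only [e1, GTree.step, hδ, hins]
      | div i j =>
        have hb : Branches ((T w) ((T w).run P q k).hist) j := by rw [hins]; rfl
        have hev : ∀ᶠ δ in 𝓝 (0 : K),
            (pf ((sym n (T w) ((T w).run P q k).hist).tpol j) (t, MvPolynomial.eval t p + δ) = 0 ↔
              pf ((sym n (T w) ((T w).run P q k).hist).tpol j) q = 0) := by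
          by_cases h0 : (sym n (T w) ((T w).run P q k).hist).tpol j = 0
          · rw [h0]
            exact Eventually.of_forall fun δ => by simp [pf]
          · have h1 := hpt w _ j (hcon w q k j hb h0)
            have h2 := (hcont ((sym n (T w) ((T w).run P q k).hist).tpol j)).eventually
              (isOpen_ne.mem_nhds h1)
            filter_upwards [h2] with δ hδ
            exact ⟨fun h => absurd h hδ, fun h => absurd h h1⟩
        filter_upwards [ih, hev] with δ hδ hδ2
        have h3 := tpol_zero P (T w) (t, MvPolynomial.eval t p + δ) k j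
        have h4 := tpol_zero P (T w) q k j
        rw [hδ] at h3
        have h5 : ((T w).run P (t, MvPolynomial.eval t p + δ) k).val j = 0 ↔
            ((T w).run P q k).val j = 0 := by rw [h3, hδ2, h4]
        simp only [e1, GTree.step, hδ, hins]
        congr 1
        exact decide_eq_decide.2 h5
      | test i =>
        have hb : Branches ((T w) ((T w).run P q k).hist) i := by rw [hins]; rfl
        have hev : ∀ᶠ δ in 𝓝 (0 : K),
            (P (pf ((sym n (T w) ((T w).run P q k).hist).tpol i) (t, MvPolynomial.eval t p + δ)) ↔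
              P (pf ((sym n (T w) ((T w).run P q k).hist).tpol i) q)) := by
          by_cases h0 : (sym n (T w) ((T w).run P q k).hist).tpol i = 0
          · rw [h0]
            exact Eventually.of_forall fun δ => by simp [pf]
          · have h1 := hpt w _ i (hcon w q k i hb h0)
            exact (hcont ((sym n (T w) ((T w).run P q k).hist).tpol i)).eventually
              (hP.loc _ h1)
        filter_upwards [ih, hev] with δ hδ hδ2
        have h3 := hP.tp n (T w) (t, MvPolynomial.eval t p + δ) k i
        have h4 := hP.tp n (T w) q k i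
        rw [hδ] at h3
        have h5 : P (((T w).run P (t, MvPolynomial.eval t p + δ) k).val i) ↔
            P (((T w).run P q k).val i) := by rw [h3, hδ2, h4]
        simp only [e1, GTree.step, hδ, hins]
        congr 1
        exact decide_eq_decide.2 h5
  obtain ⟨k, b, hk, hb⟩ := hdec q
  have hall : ∀ᶠ δ in 𝓝 (0 : K), ∀ w,
      ((T w).run P (t, MvPolynomial.eval t p + δ) (k w)).hist = ((T w).run P q (k w)).hist :=
    eventually_all.2 fun w => key w (k w)
  have hne : ∃ δ : K, δ ≠ 0 ∧ ∀ w,
      ((T w).run P (t, MvPolynomial.eval t p + δ) (k w)).hist = ((T w).run P q (k w)).hist := by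
    have h1 : ∀ᶠ δ in 𝓝[≠] (0 : K), ∀ w,
      ((T w).run P (t, MvPolynomial.eval t p + δ) (k w)).hist = ((T w).run P q (k w)).hist :=
      hall.filter_mono nhdsWithin_le_nhds
    have h2 : ∀ᶠ δ in 𝓝[≠] (0 : K), δ ≠ 0 := eventually_mem_nhdsWithin
    obtain ⟨δ, h3, h4⟩ := (h1.and h2).exists
    exact ⟨δ, h4, h3⟩
  obtain ⟨δ, hδ, hh⟩ := hne
  obtain ⟨k', b', hk', hb'⟩ := hdec (t, MvPolynomial.eval t p + δ)
  have hbb : b' = b := by
    funext w
    have h1 : (T w) ((T w).run P (t, MvPolynomial.eval t p + δ) (k w)).hist = .answer (b w) := by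
      rw [hh w]
      exact hk w
    exact answer_unique (hk' w) h1
  have h1 : Φ b := hb.2 (by simp [hq])
  have h2 : ¬ Φ b' := by
    rw [hb']
    simp only [mem_ofPred_eq]
    intro h
    exact hδ (by simpa using h)
  exact h2 (hbb ▸ h1)

/-- an atom on which the tested value depends vanishes on the graph -/
theorem atom_of_graph {p : MvPolynomial (Fin n) K} (hp : p ≠ 0) {T : GTree K} {h : List Bool}
    {i : ℕ} (h0 : (sym n T h).tpol i ≠ 0) (h1 : gr p ((sym n T h).tpol i) = 0) :
    ∃ σ < (sym n T h).atoms.length, ((sym n T h).val i).2 (n + 1 + σ) ≠ 0 ∧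
      (sym n T h).atom (n + 1 + σ) ≠ 0 ∧ gr p ((sym n T h).atom (n + 1 + σ)) = 0 := by
  unfold SSt.tpol SSt.mono at h0 h1
  obtain ⟨hc, hm⟩ := mul_ne_zero_iff.1 h0
  rw [map_mul, map_prod, mul_eq_zero] at h1
  have h2 : ∏ l ∈ Finset.range (n + 1 + (sym n T h).atoms.length),
      gr p ((sym n T h).atom l ^ (((sym n T h).val i).2 l).natAbs) = 0 := by
    refine h1.resolve_left fun h3 => hc ?_
    unfold gr cc at h3
    simp only [RingHom.comp_apply, Polynomial.coe_evalRingHom, Polynomial.eval_C] at h3
    rw [MvPolynomial.C_eq_zero] at h3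
    rw [h3, map_zero]
  obtain ⟨l, hl, h3⟩ := Finset.prod_eq_zero_iff.1 h2
  have h4 := (Finset.prod_ne_zero_iff.1 hm) l hl
  rw [map_pow] at h3
  have h5 : gr p ((sym n T h).atom l) = 0 := eq_zero_of_pow_eq_zero h3
  have h6 : (((sym n T h).val i).2 l).natAbs ≠ 0 := by
    intro h9
    rw [h9, pow_zero] at h3
    exact one_ne_zero h3
  have h7 : (sym n T h).atom l ≠ 0 := by
    intro h9
    rw [h9, zero_pow h6] at h4
    exact h4 rfl
  have hnl : n + 1 ≤ l := by
    by_contra hcon
    rcases Nat.lt_or_ge l n with h8 | h8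
    · unfold SSt.atom gr at h5
      rw [dif_pos h8, Polynomial.coe_evalRingHom, Polynomial.eval_C] at h5
      exact MvPolynomial.X_ne_zero _ h5
    · have h9 : l = n := by omega
      unfold SSt.atom gr at h5
      rw [dif_neg (by omega), if_pos h9, Polynomial.coe_evalRingHom, Polynomial.eval_X] at h5
      exact hp h5
  obtain ⟨σ, rfl⟩ : ∃ σ, l = n + 1 + σ := ⟨l - (n + 1), by omega⟩
  have h8 := Finset.mem_range.1 hl
  exact ⟨σ, by omega, Int.natAbs_ne_zero.1 h6, h7, h5⟩

end Main

/-- Row PATH. -/
theorem pathStatement : PathStatement := by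
  intro K _ P h1 h2 n N T Φ p hp hdec
  obtain ⟨w, x, k, i, hb, h0, hg⟩ := tree_test (K := K) (P := P) ⟨h1, h2⟩ p T Φ hdec
  obtain ⟨σ, hσ, he, hne, hgr⟩ := atom_of_graph hp h0 hg
  exact ⟨w, x, k, i, σ, hb, hσ, he, hne, Polynomial.dvd_iff_isRoot.2 hgr⟩

/-- the tests on the order -/
theorem path_real : (∀ (n : ℕ) (T : GTree ℝ) (x : (Fin n → ℝ) × ℝ) (k i : ℕ),
    (0 ≤ (T.run (fun v : ℝ => 0 ≤ v) x k).val i ↔
      0 ≤ pf ((sym n T (T.run (fun v : ℝ => 0 ≤ v) x k).hist).tpol i) x)) ∧
    (∀ v : ℝ, v ≠ 0 → ∀ᶠ u in 𝓝 v, (0 ≤ u ↔ 0 ≤ v)) :=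
  ⟨good_real.tp, good_real.loc⟩

/-- the tests on equality -/
theorem path_complex : (∀ (n : ℕ) (T : GTree ℂ) (x : (Fin n → ℂ) × ℂ) (k i : ℕ),
    ((T.run (fun v : ℂ => v = 0) x k).val i = 0 ↔
      pf ((sym n T (T.run (fun v : ℂ => v = 0) x k).hist).tpol i) x = 0)) ∧
    (∀ v : ℂ, v ≠ 0 → ∀ᶠ u in 𝓝 v, (u = 0 ↔ v = 0)) :=
  ⟨good_complex.tp, good_complex.loc⟩

end Pool.Agent.Lib.MP_641cb6_lc.CD
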