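import Pool.Agent.Lib.MP_641cb6_lc.CD.Hn

/-!
# The trace of a product of matrices as a system of equations
-/

set_option autoImplicit false

namespace Pool.Agent.Lib.MP_641cb6_lc.CD

namespace Red

variable {K : Type} [Field K]

section Lin

variable {N q v : ℕ}

/-- the value of a coefficient -/
def ev (x : Fin N → K) (s : Fin N ⊕ K) : K := Sum.elim x id s

/-- the coefficients of the equation `s 0 + sum of s (u + 1) * y (u + 1)` -/
def co (v : ℕ) (s : Option (Fin N) → Fin N ⊕ K) (i j : Fin (v + 1)) : Fin N ⊕ K :=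
  if (j : ℕ) = 0 then
    if (i : ℕ) = 0 then s none
    else if h : (i : ℕ) - 1 < N then s (some ⟨(i : ℕ) - 1, h⟩) else Sum.inr 0
  else Sum.inr 0

theorem sum_co (x : Fin N → K) (hN : N ≤ v) (s : Option (Fin N) → Fin N ⊕ K)
    (y : Fin (v + 1) → K) (hy : y 0 = 1) :
    ∑ i, ∑ j, ev x (co v s i j) * y i * y j =
      ev x (s none) + ∑ u : Fin N, ev x (s (some u)) * y ⟨(u : ℕ) + 1, by omega⟩ := by
  have h1 : ∀ i : Fin (v + 1), ∑ j, ev x (co v s i j) * y i * y j = ev x (co v s i 0) * y i := by
    intro i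
    rw [Finset.sum_eq_single (0 : Fin (v + 1))]
    · rw [hy, mul_one]
    · intro j _ hj
      have h2 : (j : ℕ) ≠ 0 := fun h => hj (Fin.ext h)
      simp [co, h2, ev]
    · intro h
      exact absurd (Finset.mem_univ _) h
  rw [Finset.sum_congr rfl fun i _ => h1 i, Fin.sum_univ_succ]
  congr 1
  · rw [hy, mul_one]
    simp [co]
  · have h3 : ∀ i : Fin v, ev x (co v s i.succ 0) * y i.succ =
        if h : (i : ℕ) < N then ev x (s (some ⟨i, h⟩)) * y ⟨(i : ℕ) + 1, by omega⟩ else 0 := by
      intro i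
      by_cases h : (i : ℕ) < N
      · rw [dif_pos h]
        simp only [co, Fin.val_zero, Fin.val_succ, Nat.add_sub_cancel, h, if_true, dif_pos,
          Nat.succ_ne_zero, if_false]
        rfl
      · rw [dif_neg h]
        simp [co, h, ev]
    rw [Finset.sum_congr rfl fun i _ => h3 i]
    have h4 : ∑ u : Fin N, ev x (s (some u)) * y ⟨(u : ℕ) + 1, by omega⟩ =
        ∑ u ∈ Finset.range N, if h : u < N then ev x (s (some ⟨u, h⟩)) * y ⟨u + 1, by omega⟩
          else 0 := by
      rw [Finset.sum_range]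
      refine Finset.sum_congr rfl fun u _ => ?_
      rw [dif_pos u.2]
    have h5 : ∑ i : Fin v, (if h : (i : ℕ) < N then
          ev x (s (some ⟨i, h⟩)) * y ⟨(i : ℕ) + 1, by omega⟩ else 0) =
        ∑ u ∈ Finset.range v, if h : u < N then ev x (s (some ⟨u, h⟩)) * y ⟨u + 1, by omega⟩
          else 0 := by
      rw [Finset.sum_range]
    rw [h4, h5]
    symm
    refine Finset.sum_subset (Finset.range_mono hN) ?_
    intro u _ hu
    rw [dif_neg (by simpa using hu)]

end Lin

variable {m e : ℕ}

/-- the block of a number -/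
def d1 (u : Fin ((e + 1) * (m * m))) : Fin (e + 1) := (finProdFinEquiv.symm u).1

/-- the row of a number -/
def d2 (u : Fin ((e + 1) * (m * m))) : Fin m := (finProdFinEquiv.symm (finProdFinEquiv.symm u).2).1

/-- the column of a number -/
def d3 (u : Fin ((e + 1) * (m * m))) : Fin m := (finProdFinEquiv.symm (finProdFinEquiv.symm u).2).2

theorem d1_ix (t : Fin (e + 1)) (a b : Fin m) : d1 (ix t a b) = t := by simp [d1, ix]

theorem d2_ix (t : Fin (e + 1)) (a b : Fin m) : d2 (ix t a b) = a := by simp [d2, ix]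

theorem d3_ix (t : Fin (e + 1)) (a b : Fin m) : d3 (ix t a b) = b := by simp [d3, ix]

theorem ix_d (u : Fin ((e + 1) * (m * m))) : ix (d1 u) (d2 u) (d3 u) = u := by
  unfold ix d1 d2 d3
  rw [Prod.mk.eta, Equiv.apply_symm_apply, Prod.mk.eta, Equiv.apply_symm_apply]

theorem sum_ix {M : Type} [AddCommMonoid M] (f : Fin ((e + 1) * (m * m)) → M) :
    ∑ u, f u = ∑ t : Fin (e + 1), ∑ a : Fin m, ∑ b : Fin m, f (ix t a b) := by
  rw [← finProdFinEquiv.sum_comp, Fintype.sum_prod_type]
  refine Finset.sum_congr rfl fun t _ => ?_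
  rw [← finProdFinEquiv.sum_comp (fun w => f (finProdFinEquiv (t, w))), Fintype.sum_prod_type]
  rfl

theorem ix_inj {t t' : Fin (e + 1)} {a a' b b' : Fin m} (h : ix t a b = ix t' a' b') :
    t = t' ∧ a = a' ∧ b = b' := by
  refine ⟨?_, ?_, ?_⟩
  · rw [← d1_ix t a b, h, d1_ix]
  · rw [← d2_ix t a b, h, d2_ix]
  · rw [← d3_ix t a b, h, d3_ix]

/-- the equation `trace C_e = b` -/
def eqT : Option (Fin ((e + 1) * (m * m))) → Fin ((e + 1) * (m * m)) ⊕ K
  | none => Sum.inr 0
  | some u => if d1 u = Fin.last e ∧ d2 u = d3 u then Sum.inr 1 else Sum.inr 0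

/-- the equation for the entry number `w` -/
def eqE (w : Fin ((e + 1) * (m * m))) :
    Option (Fin ((e + 1) * (m * m))) → Fin ((e + 1) * (m * m)) ⊕ K
  | none => if d1 w = 0 then Sum.inl w else Sum.inr 0
  | some u => if u = w then Sum.inr (-1)
      else if (d1 u : ℕ) + 1 = d1 w ∧ d2 u = d2 w then Sum.inl (ix (d1 w) (d3 u) (d3 w))
      else Sum.inr 0

/-- all equations -/
def eqs (m e : ℕ) (l : ℕ) : Option (Fin ((e + 1) * (m * m))) → Fin ((e + 1) * (m * m)) ⊕ K :=
  if l = 0 then eqT else if h : l - 1 < (e + 1) * (m * m) then eqE ⟨l - 1, h⟩ else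
    fun _ => Sum.inr 0

theorem sum_eqT (x Y : Fin ((e + 1) * (m * m)) → K) :
    ev x (eqT (K := K) none) + ∑ u, ev x (eqT (K := K) (some u)) * Y u =
      (mat Y (Fin.last e)).trace := by
  rw [sum_ix]
  have h0 : ev x (eqT (K := K) (m := m) (e := e) none) = 0 := rfl
  rw [h0, zero_add, Finset.sum_eq_single (Fin.last e)]
  · unfold Matrix.trace
    refine Finset.sum_congr rfl fun a _ => ?_
    rw [Finset.sum_eq_single a]
    · simp [eqT, d1_ix, d2_ix, d3_ix, ev, mat]
    · intro b _ hb
      simp [eqT, d1_ix, d2_ix, d3_ix, ev, Ne.symm hb]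
    · intro h
      exact absurd (Finset.mem_univ _) h
  · intro t _ ht
    refine Finset.sum_eq_zero fun a _ => Finset.sum_eq_zero fun b _ => ?_
    simp [eqT, d1_ix, ht, ev]
  · intro h
    exact absurd (Finset.mem_univ _) h

theorem ev_eqE (x : Fin ((e + 1) * (m * m)) → K) (w u : Fin ((e + 1) * (m * m))) :
    ev x (eqE (K := K) w (some u)) = (if u = w then -1 else 0) +
      if (d1 u : ℕ) + 1 = d1 w ∧ d2 u = d2 w then x (ix (d1 w) (d3 u) (d3 w)) else 0 := by
  simp only [eqE]
  by_cases h1 : u = w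
  · subst h1
    simp [ev]
  · rw [if_neg h1, if_neg h1, zero_add]
    split_ifs <;> simp [ev]

theorem sum_eqE (x Y : Fin ((e + 1) * (m * m)) → K) (w : Fin ((e + 1) * (m * m))) :
    ev x (eqE (K := K) w none) + ∑ u, ev x (eqE (K := K) w (some u)) * Y u =
      (if d1 w = 0 then x w else 0) - Y w +
        ∑ t : Fin (e + 1), if (t : ℕ) + 1 = d1 w then
          (mat Y t * mat x (d1 w)) (d2 w) (d3 w) else 0 := by
  have h0 : ev x (eqE (K := K) w none) = if d1 w = 0 then x w else 0 := by
    simp only [eqE]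
    split_ifs <;> simp [ev]
  have h1 : ∑ u, (if u = w then (-1 : K) else 0) * Y u = -Y w := by
    rw [Finset.sum_eq_single w]
    · simp
    · intro u _ hu
      simp [hu]
    · intro h
      exact absurd (Finset.mem_univ _) h
  have h2 : ∑ u, (if (d1 u : ℕ) + 1 = d1 w ∧ d2 u = d2 w then x (ix (d1 w) (d3 u) (d3 w)) else 0) *
      Y u = ∑ t : Fin (e + 1), if (t : ℕ) + 1 = d1 w then
          (mat Y t * mat x (d1 w)) (d2 w) (d3 w) else 0 := by
    rw [sum_ix]
    refine Finset.sum_congr rfl fun t _ => ?_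
    split_ifs with h
    · rw [Finset.sum_eq_single (d2 w)]
      · rw [Matrix.mul_apply]
        refine Finset.sum_congr rfl fun b _ => ?_
        simp only [d1_ix, d2_ix, d3_ix, h, and_self, if_true, mat]
        ring
      · intro a _ ha
        refine Finset.sum_eq_zero fun b _ => ?_
        simp [d2_ix, ha]
      · intro h'
        exact absurd (Finset.mem_univ _) h'
    · refine Finset.sum_eq_zero fun a _ => Finset.sum_eq_zero fun b _ => ?_
      simp [d1_ix, h]
  simp only [ev_eqE, add_mul, Finset.sum_add_distrib]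
  rw [h0, h1, h2]
  ring

/-- the equations say that `mat Y t` are the partial products -/
theorem sys_iff (x Y : Fin ((e + 1) * (m * m)) → K) :
    (∀ w, ev x (eqE (K := K) w none) + ∑ u, ev x (eqE (K := K) w (some u)) * Y u = 0) ↔
      ∀ t : Fin (e + 1), mat Y t = ((List.ofFn (mat x)).take ((t : ℕ) + 1)).prod := by
  have hlen : (List.ofFn (mat (R := K) x)).length = e + 1 := List.length_ofFn
  have h0 : ((List.ofFn (mat x)).take (0 + 1)).prod = mat x 0 := by
    rw [List.prod_take_succ _ _ (by rw [hlen]; omega)]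
    simp
  have hs : ∀ s : ℕ, ∀ hs : s + 1 < e + 1, ((List.ofFn (mat x)).take (s + 1 + 1)).prod =
      ((List.ofFn (mat x)).take (s + 1)).prod * mat x ⟨s + 1, hs⟩ := by
    intro s hs
    rw [List.prod_take_succ _ _ (by rw [hlen]; omega)]
    simp
  constructor
  · intro h
    have key : ∀ t : ℕ, ∀ ht : t < e + 1, mat Y ⟨t, ht⟩ = ((List.ofFn (mat x)).take (t + 1)).prod := by
      intro t
      induction t with
      | zero =>
        intro ht
        rw [h0]
        funext a
        funext b
        have h1 := h (ix 0 a b)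
        rw [sum_eqE, d1_ix, if_pos rfl, Finset.sum_eq_zero] at h1
        · have h2 : Y (ix 0 a b) = x (ix 0 a b) := by linear_combination -h1
          exact h2
        · intro t _
          rw [if_neg (by simp)]
      | succ s ih =>
        intro ht
        rw [hs s ht, ← ih (by omega)]
        funext a
        funext b
        have h1 := h (ix ⟨s + 1, ht⟩ a b)
        rw [sum_eqE, d1_ix, d2_ix, d3_ix, if_neg (by intro h2; simpa using congrArg Fin.val h2),
          Finset.sum_eq_single (⟨s, by omega⟩ : Fin (e + 1)), if_pos rfl] at h1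
        · have h2 : Y (ix ⟨s + 1, ht⟩ a b) = (mat Y ⟨s, by omega⟩ * mat x ⟨s + 1, ht⟩) a b := by
            linear_combination -h1
          exact h2
        · intro t _ ht'
          rw [if_neg]
          intro h2
          exact ht' (Fin.ext (by simpa using h2))
        · intro h'
          exact absurd (Finset.mem_univ _) h'
    exact fun t => key t t.2
  · intro h w
    rw [sum_eqE]
    obtain ⟨t, a, b, rfl⟩ : ∃ t a b, w = ix t a b := ⟨d1 w, d2 w, d3 w, (ix_d w).symm⟩
    rw [d1_ix, d2_ix, d3_ix]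
    obtain ⟨t, ht⟩ := t
    cases t with
    | zero =>
      rw [if_pos (by rfl), Finset.sum_eq_zero]
      · have h1 := congrFun (congrFun (h ⟨0, ht⟩) a) b
        have h2 : mat Y ⟨0, ht⟩ a b = mat x 0 a b := by rw [h1, ← h0]
        have h3 : Y (ix ⟨0, ht⟩ a b) = x (ix ⟨0, ht⟩ a b) := h2
        rw [h3]
        ring
      · intro t _
        rw [if_neg (by simp)]
    | succ s =>
      rw [if_neg (by intro h2; simpa using congrArg Fin.val h2),
        Finset.sum_eq_single (⟨s, by omega⟩ : Fin (e + 1)), if_pos rfl]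
      · have h1 := congrFun (congrFun (h ⟨s + 1, ht⟩) a) b
        have h2 : Y (ix ⟨s + 1, ht⟩ a b) = (mat Y ⟨s, by omega⟩ * mat x ⟨s + 1, ht⟩) a b := by
          rw [h ⟨s, by omega⟩, ← hs s ht]
          exact h1
        rw [h2]
        ring
      · intro t _ ht'
        rw [if_neg]
        intro h2
        exact ht' (Fin.ext (by simpa using h2))
      · intro h'
        exact absurd (Finset.mem_univ _) h'

end Red

/-- Row RED. -/
theorem red : RedStatement := by
  intro K _ m e q v hv hq
  refine ⟨fun L => Red.co v (Red.eqs m e ((finProdFinEquiv.symm L).1 : ℕ))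
    (finProdFinEquiv.symm (finProdFinEquiv.symm L).2).1
    (finProdFinEquiv.symm (finProdFinEquiv.symm L).2).2, fun x => ?_⟩
  have hco : ∀ (l : Fin q) (i j : Fin (v + 1)),
      mat (pull (fun L => Red.co v (Red.eqs m e ((finProdFinEquiv.symm L).1 : ℕ))
        (finProdFinEquiv.symm (finProdFinEquiv.symm L).2).1
        (finProdFinEquiv.symm (finProdFinEquiv.symm L).2).2) x).1 l i j =
      Red.ev x.1 (Red.co v (Red.eqs m e (l : ℕ)) i j) := by
    intro l i j
    have h1 : finProdFinEquiv.symm (ix l i j) = (l, finProdFinEquiv (i, j)) :=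
      Equiv.symm_apply_apply _ _
    show Sum.elim x.1 id (Red.co v (Red.eqs m e ((finProdFinEquiv.symm (ix l i j)).1 : ℕ))
      (finProdFinEquiv.symm (finProdFinEquiv.symm (ix l i j)).2).1
      (finProdFinEquiv.symm (finProdFinEquiv.symm (ix l i j)).2).2) = _
    rw [h1]
    simp only [Equiv.symm_apply_apply]
    rfl
  have hsum : ∀ (l : Fin q) (y : Fin (v + 1) → K), y 0 = 1 →
      ∑ i, ∑ j, mat (pull (fun L => Red.co v (Red.eqs m e ((finProdFinEquiv.symm L).1 : ℕ))
        (finProdFinEquiv.symm (finProdFinEquiv.symm L).2).1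
        (finProdFinEquiv.symm (finProdFinEquiv.symm L).2).2) x).1 l i j * y i * y j =
      Red.ev x.1 (Red.eqs m e (l : ℕ) none) +
        ∑ u : Fin ((e + 1) * (m * m)), Red.ev x.1 (Red.eqs m e (l : ℕ) (some u)) * y ⟨(u : ℕ) + 1, by omega⟩ := by
    intro l y hy
    simp only [hco]
    exact Red.sum_co x.1 hv _ y hy
  have hprod : ((List.ofFn (mat x.1)).take (e + 1)).prod = (List.ofFn (mat x.1)).prod := by
    rw [List.take_of_length_le (by rw [List.length_ofFn])]
  have hq0 : 0 < q := by omega
  constructor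
  · rintro ⟨y, hy, hl⟩
    set Y : Fin ((e + 1) * (m * m)) → K := fun u => y ⟨(u : ℕ) + 1, by omega⟩ with hY
    have h1 : ∀ w : Fin ((e + 1) * (m * m)), Red.ev x.1 (Red.eqE (K := K) w none) +
        ∑ u, Red.ev x.1 (Red.eqE (K := K) w (some u)) * Y u = 0 := by
      intro w
      have h2 := hl ⟨(w : ℕ) + 1, by omega⟩
      rw [hsum _ y hy] at h2
      have h3 : Red.eqs (K := K) m e ((w : ℕ) + 1) = Red.eqE w := by
        unfold Red.eqs
        rw [if_neg (by omega), dif_pos (by simp)]
        rfl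
      simp only [h3] at h2
      rw [if_neg (by omega)] at h2
      exact h2
    have h4 := (Red.sys_iff x.1 Y).1 h1 (Fin.last e)
    have h5 := hl ⟨0, hq0⟩
    rw [hsum _ y hy, if_pos rfl] at h5
    have h6 : Red.eqs (K := K) m e 0 = Red.eqT := by
      unfold Red.eqs
      rw [if_pos rfl]
    simp only [h6] at h5
    have h7 := Red.sum_eqT x.1 Y
    rw [h4, Fin.val_last, hprod] at h7
    have h8 : x.2 = tr (mat x.1) := by
      unfold tr
      rw [← h7]
      exact h5.symm
    exact h8
  · intro hx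
    have hx' : x.2 = tr (mat x.1) := hx
    set P : Fin (e + 1) → Matrix (Fin m) (Fin m) K :=
      fun t => ((List.ofFn (mat x.1)).take ((t : ℕ) + 1)).prod with hP
    set Y : Fin ((e + 1) * (m * m)) → K := fun u => P (Red.d1 u) (Red.d2 u) (Red.d3 u) with hY
    have hmat : ∀ t : Fin (e + 1), mat Y t = ((List.ofFn (mat x.1)).take ((t : ℕ) + 1)).prod := by
      intro t
      funext a
      funext b
      simp only [mat, hY, hP, Red.d1_ix, Red.d2_ix, Red.d3_ix]
    have h1 := (Red.sys_iff x.1 Y).2 hmat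
    set y : Fin (v + 1) → K := fun i => if (i : ℕ) = 0 then 1 else
      if h : (i : ℕ) - 1 < (e + 1) * (m * m) then Y ⟨(i : ℕ) - 1, h⟩ else 0 with hy
    have hy0 : y 0 = 1 := by simp [hy]
    have hyY : ∀ u : Fin ((e + 1) * (m * m)), y ⟨(u : ℕ) + 1, by omega⟩ = Y u := by
      intro u
      simp only [hy]
      rw [if_neg (by omega), dif_pos (by simp)]
      rfl
    refine ⟨y, hy0, fun l => ?_⟩
    rw [hsum l y hy0]
    simp only [hyY]
    obtain ⟨l, hl⟩ := l
    rcases Nat.eq_zero_or_pos l with h2 | h2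
    · subst h2
      have h6 : Red.eqs (K := K) m e 0 = Red.eqT := by
        unfold Red.eqs
        rw [if_pos rfl]
      simp only [h6]
      rw [if_pos trivial, Red.sum_eqT, hmat, Fin.val_last, hprod]
      exact hx'.symm
    · have h3 : ((⟨l, hl⟩ : Fin q) : ℕ) ≠ 0 := by
        show l ≠ 0
        omega
      rw [if_neg h3]
      show Red.ev x.1 (Red.eqs m e l none) +
        ∑ u : Fin ((e + 1) * (m * m)), Red.ev x.1 (Red.eqs m e l (some u)) * Y u = 0
      by_cases h4 : l - 1 < (e + 1) * (m * m)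
      · have h5 : Red.eqs (K := K) m e l = Red.eqE ⟨l - 1, h4⟩ := by
          unfold Red.eqs
          rw [if_neg (by omega), dif_pos h4]
        rw [h5]
        exact h1 _
      · have h5 : Red.eqs (K := K) m e l = fun _ => Sum.inr 0 := by
          unfold Red.eqs
          rw [if_neg (by omega), dif_neg h4]
        rw [h5]
        simp [Red.ev]

end Pool.Agent.Lib.MP_641cb6_lc.CD
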