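import Pool.Agent.Lib.MP_641cb6_lc.CD.Defs3

/-!
# Merging linear gates does not change the values
-/

set_option autoImplicit false

namespace Pool.Agent.Lib.MP_641cb6_lc.CD

open Pool.Agent.Lib.MP_641cb6_lc.KG (Ins GTree St deps Branches Decides Verifies)

namespace Sem3

/-- a polynomial of degree at most one -/
theorem linear_eq {K : Type} [Field K] {s : ℕ} (F : MvPolynomial (Fin s) K)
    (hF : F.totalDegree ≤ 1) :
    F = MvPolynomial.C (F.coeff 0) +
      ∑ k, MvPolynomial.C (F.coeff (Finsupp.single k 1)) * MvPolynomial.X k := by
  classical
  ext m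
  simp only [MvPolynomial.coeff_add, MvPolynomial.coeff_C, MvPolynomial.coeff_sum,
    MvPolynomial.C_mul_X_eq_monomial, MvPolynomial.coeff_monomial]
  by_cases h0 : m = 0
  · subst h0
    simp
  by_cases h1 : ∃ k, m = Finsupp.single k 1
  · obtain ⟨k0, rfl⟩ := h1
    rw [if_neg (fun h => h0 h.symm), zero_add, Finset.sum_eq_single k0]
    · simp
    · intro b _ hb
      rw [if_neg]
      intro h
      exact hb (Finsupp.single_left_injective one_ne_zero h)
    · simp
  · rw [if_neg (fun h => h0 h.symm), zero_add, Finset.sum_eq_zero]
    · apply MvPolynomial.coeff_eq_zero_of_totalDegree_lt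
      refine lt_of_le_of_lt hF ?_
      by_contra hlt
      push Not at hlt
      have h2 : (∑ i ∈ m.support, m i) ≠ 0 := by
        intro h3
        rw [Finset.sum_eq_zero_iff] at h3
        apply h0
        ext i
        by_cases hi : i ∈ m.support
        · exact h3 i hi
        · simpa using hi
      have h3 : (∑ i ∈ m.support, m i) = 1 := by omega
      exact h1 ((Finsupp.sum_eq_one_iff m).1 h3)
    · intro k _
      rw [if_neg]
      intro h
      exact h1 ⟨k, h.symm⟩

variable {K : Type} [Field K]

/-- the value of a linear form -/
noncomputable def fev (vals : List K) (p : K × (ℕ →₀ K)) : K :=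
  p.1 + Finsupp.linearCombination K (fun j => vals.getD j 0) p.2

theorem fev_append (vals : List K) (x : K) (p : K × (ℕ →₀ K))
    (h : ∀ j ∈ p.2.support, j < vals.length) : fev (vals ++ [x]) p = fev vals p := by
  unfold fev
  rw [Finsupp.linearCombination_apply, Finsupp.linearCombination_apply]
  congr 1
  refine Finsupp.sum_congr fun j hj => ?_
  rw [List.getD_append _ _ _ _ (h j hj)]

/-- the entries are right -/
def Inv (L : Lst K) (vals : List K) : Prop :=
  L.length = vals.length ∧ ∀ (i : ℕ) (p : K × (ℕ →₀ K)), L.getD i none = some p →
    (∀ j ∈ p.2.support, j < vals.length) ∧ vals.getD i 0 = fev vals p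

theorem lform_spec {L : Lst K} {vals : List K} (h : Inv L vals) (i : ℕ) :
    (∀ j ∈ (lform L i).2.support, j < vals.length) ∧ vals.getD i 0 = fev vals (lform L i) := by
  classical
  unfold lform
  cases hg : L.getD i none with
  | some p => exact h.2 i p hg
  | none =>
      by_cases hi : i < L.length
      · simp only [hi, if_true]
        refine ⟨fun j hj => ?_, ?_⟩
        · have := Finsupp.support_single_subset hj
          rw [Finset.mem_singleton] at this
          rw [this, ← h.1]
          exact hi
        · simp [fev]
      · simp only [hi, if_false]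
        refine ⟨by simp, ?_⟩
        rw [List.getD_eq_default _ _ (by rw [← h.1]; omega)]
        simp [fev]

theorem merged_spec {L : Lst K} {vals : List K} (h : Inv L vals) {s : ℕ}
    (F : MvPolynomial (Fin s) K) (i : Fin s → ℕ) (hF : F.totalDegree ≤ 1) :
    (∀ j ∈ (merged L F i).2.support, j < vals.length) ∧
      MvPolynomial.eval (fun k => vals.getD (i k) 0) F = fev vals (merged L F i) := by
  classical
  constructor
  · intro j hj
    unfold merged at hj
    simp only at hj
    have h1 := Finsupp.support_finset_sum hj
    rw [Finset.mem_biUnion] at h1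
    obtain ⟨k, -, hk⟩ := h1
    exact (lform_spec h (i k)).1 j (Finsupp.support_smul hk)
  · conv_lhs => rw [linear_eq F hF]
    unfold merged fev
    simp only [map_add, map_sum, map_mul, MvPolynomial.eval_C, MvPolynomial.eval_X, map_smul,
      smul_eq_mul]
    rw [add_assoc, ← Finset.sum_add_distrib]
    congr 1
    refine Finset.sum_congr rfl fun k _ => ?_
    rw [(lform_spec h (i k)).2]
    unfold fev
    ring

theorem lgate_eval (vals : List K) (p : K × (ℕ →₀ K)) :
    MvPolynomial.eval (fun t => vals.getD (p.2.support.equivFin.symm t : ℕ) 0)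
      (MvPolynomial.C p.1 + ∑ t, MvPolynomial.C (p.2 (p.2.support.equivFin.symm t)) *
        MvPolynomial.X t) = fev vals p := by
  classical
  simp only [map_add, map_sum, map_mul, MvPolynomial.eval_C, MvPolynomial.eval_X]
  unfold fev
  rw [Finsupp.linearCombination_apply, Finsupp.sum]
  congr 1
  rw [Equiv.sum_comp p.2.support.equivFin.symm
    (fun j : p.2.support => p.2 (j : ℕ) * vals.getD (j : ℕ) 0)]
  rw [Finset.sum_coe_sort p.2.support (fun j => p.2 j * vals.getD j 0)]
  rfl

theorem Inv.append {L : Lst K} {vals : List K} (h : Inv L vals) (x : K)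
    (o : Option (K × (ℕ →₀ K)))
    (ho : ∀ p, o = some p → (∀ j ∈ p.2.support, j < vals.length) ∧ x = fev vals p) :
    Inv (L ++ [o]) (vals ++ [x]) := by
  refine ⟨by simp [h.1], fun i p hp => ?_⟩
  by_cases hi : i < L.length
  · rw [List.getD_append _ _ _ _ hi] at hp
    obtain ⟨h1, h2⟩ := h.2 i p hp
    refine ⟨fun j hj => ?_, ?_⟩
    · have := h1 j hj
      simp only [List.length_append, List.length_singleton]
      omega
    · rw [fev_append _ _ _ h1, List.getD_append _ _ _ _ (by rw [← h.1]; exact hi), h2]
  · by_cases hi2 : i = L.length
    · subst hi2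
      have h3 : (L ++ [o]).getD L.length none = o := by simp [List.getD]
      rw [h3] at hp
      obtain ⟨h1, h2⟩ := ho p hp
      refine ⟨fun j hj => ?_, ?_⟩
      · have := h1 j hj
        simp only [List.length_append, List.length_singleton]
        omega
      · rw [fev_append _ _ _ h1, h.1, ← h2]
        simp [List.getD]
    · rw [List.getD_eq_default _ _ (by simp; omega)] at hp
      exact absurd hp (by simp)

theorem step_both (P : K → Prop) (n M' : ℕ) (T : GTree K) (s : St K)
    (h : Inv (lins n M' T s.hist) s.vals) :
    GTree.step P (mtree n M' T) s = GTree.step P T s ∧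
      Inv (lins n M' T (GTree.step P T s).hist) (GTree.step P T s).vals := by
  classical
  unfold KG.GTree.step mtree
  cases hT : T s.hist with
  | const c =>
      refine ⟨by simp, ?_⟩
      simp only [lins, nextL, hT]
      exact h.append _ _ (by simp)
  | mul i j =>
      refine ⟨by simp, ?_⟩
      simp only [lins, nextL, hT]
      exact h.append _ _ (by simp)
  | div i j =>
      refine ⟨by simp, ?_⟩
      simp only [lins, nextL, hT]
      exact h.append _ _ (by simp)
  | gate r F i =>
      by_cases hc : CanMerge M' (lins n M' T s.hist) F i
      · refine ⟨?_, ?_⟩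
        · simp only [hc, if_true]
          have h1 := lgate_eval s.vals (merged (lins n M' T s.hist) F i)
          have h2 := (merged_spec h F i hc.1).2
          unfold lgate
          simp only [KG.St.val]
          rw [h1, h2]
        · simp only [lins, nextL, hT, hc, if_true]
          refine h.append _ _ fun p hp => ?_
          rw [Option.some.injEq] at hp
          subst hp
          exact merged_spec h F i hc.1
      · refine ⟨by simp [hc], ?_⟩
        simp only [lins, nextL, hT, hc, if_false]
        exact h.append _ _ (by simp)
  | test i =>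
      refine ⟨by simp, ?_⟩
      simp only [lins, nextL, hT]
      exact h
  | answer b =>
      refine ⟨by simp, ?_⟩
      exact h

theorem inv_init {n : ℕ} (M' : ℕ) (T : GTree K) (x : (Fin n → K) × K) :
    Inv (lins n M' T []) (List.ofFn x.1 ++ [x.2]) := by
  unfold lins
  refine ⟨by simp, fun i p hp => ?_⟩
  exfalso
  by_cases hi : i < n + 1
  · simp [List.getD, hi] at hp
  · rw [List.getD_eq_default _ _ (by simp; omega)] at hp
    exact absurd hp (by simp)

end Sem3

theorem semStatement : SemStatement := by
  intro K _ P n M' T x k
  have h : (mtree n M' T).run P x k = T.run P x k ∧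
      Sem3.Inv (lins n M' T (T.run P x k).hist) (T.run P x k).vals := by
    induction k with
    | zero => exact ⟨rfl, Sem3.inv_init M' T x⟩
    | succ k ih =>
        have h1 := Sem3.step_both P n M' T (T.run P x k) ih.2
        constructor
        · show GTree.step P (mtree n M' T) ((mtree n M' T).run P x k) = GTree.step P T (T.run P x k)
          rw [ih.1]
          exact h1.1
        · exact h1.2
  exact h.1

end Pool.Agent.Lib.MP_641cb6_lc.CD
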