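import Pool.Agent.Lib.MP_641cb6_lc.CD.Defs3

/-!
# Row STAT3: merging consecutive linear gates
-/

set_option autoImplicit false

namespace Pool.Agent.Lib.MP_641cb6_lc.CD

open Pool.Agent.Lib.MP_641cb6_lc.KG (Ins GTree St deps Branches Decides Verifies)
open Pool.Agent.Lib.MP_641cb6_lc.KD (Deps)

namespace Stat3

theorem getD_snoc {α : Type} (l : List α) (x d : α) (i : ℕ) :
    (l ++ [x]).getD i d = if i = l.length then x else l.getD i d := by
  rcases lt_trichotomy i l.length with h | h | h
  · rw [if_neg h.ne, List.getD_append _ _ _ _ h]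
  · subst h
    simp
  · rw [if_neg h.ne', List.getD_eq_default, List.getD_eq_default]
    · omega
    · simp
      omega

variable {K : Type} [Field K]

open Classical in
/-- the new instruction -/
noncomputable def mIns (M' : ℕ) (L : Lst K) (ins : Ins K) : Ins K :=
  match ins with
  | .gate s F i => if CanMerge M' L F i then lgate (merged L F i) else .gate s F i
  | ins => ins

theorem mtree_eq (n M' : ℕ) (T : GTree K) (h : List Bool) :
    mtree n M' T h = mIns M' (lins n M' T h) (T h) := by
  unfold mtree mIns
  cases T h <;> rfl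

open Classical in
/-- the arguments of the gates with a linear term -/
noncomputable def nextR (ins : Ins K) (R : List (Finset ℕ)) : List (Finset ℕ) :=
  match ins with
  | .gate s F i => R ++ [(Finset.univ.filter fun k : Fin s =>
      F.coeff (Finsupp.single k 1) ≠ 0).image i]
  | _ => R

noncomputable def rs (T : GTree K) : List Bool → List (Finset ℕ)
  | [] => []
  | _ :: h => nextR (T h) (rs T h)

theorem merged_supp {L : Lst K} {s : ℕ} {F : MvPolynomial (Fin s) K} {i : Fin s → ℕ} {j : ℕ}
    (hj : j ∈ (merged L F i).2.support) :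
    ∃ k, F.coeff (Finsupp.single k 1) ≠ 0 ∧ j ∈ (lform L (i k)).2.support := by
  rw [Finsupp.mem_support_iff] at hj
  unfold merged at hj
  simp only [Finsupp.coe_finsetSum, Finset.sum_apply, Finsupp.coe_smul, Pi.smul_apply,
    smul_eq_mul] at hj
  obtain ⟨k, -, hk⟩ := Finset.exists_ne_zero_of_sum_ne_zero hj
  exact ⟨k, left_ne_zero_of_mul hk, Finsupp.mem_support_iff.2 (right_ne_zero_of_mul hk)⟩

theorem lform_supp {L : Lst K} {i j : ℕ} (hj : j ∈ (lform L i).2.support) :
    (∃ p, L.getD i none = some p ∧ j ∈ p.2.support) ∨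
      (L.getD i none = none ∧ i < L.length ∧ j = i) := by
  unfold lform at hj
  cases hL : L.getD i none with
  | some p =>
    rw [hL] at hj
    exact Or.inl ⟨p, rfl, hj⟩
  | none =>
    rw [hL] at hj
    simp only at hj
    by_cases h : i < L.length
    · rw [if_pos h] at hj
      simp only at hj
      have := Finsupp.support_single_subset hj
      exact Or.inr ⟨rfl, h, by simpa using this⟩
    · rw [if_neg h] at hj
      simp at hj

/-- the invariants of the tree and the new tree -/
structure Inv (D D' : Deps) (L : Lst K) (A : Ast) (N : Nst) (R : List (Finset ℕ)) : Prop where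
  l1 : L.length = D.vals.length
  l2 : D'.vals.length = D.vals.length
  l3 : D'.sums.length = D.sums.length
  l4 : A.vals.length = D.vals.length
  l5 : A.gates.length = D.sums.length
  l6 : N.vals.length = D.vals.length
  l7 : N.gates.length = D.sums.length
  l8 : R.length = D.sums.length
  t1 : ∀ i, ∀ a ∈ D.val i, a < D.sums.length ∧ D.sum a ⊆ D.val i
  t2 : ∀ b, ∀ a ∈ D.sum b, a < D.sums.length ∧ D.sum a ⊆ D.sum b
  f : ∀ i p, L.getD i none = some p → ∀ j ∈ p.2.support, j < D.vals.length ∧
    D.val j ⊆ D.val i ∧ j ∈ (D.val i).biUnion fun b => R.getD b ∅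
  s1 : ∀ i, D'.val i ⊆ D.val i
  s2 : ∀ a, D'.sum a ⊆ D.sum a

theorem val_snoc (S : List (Finset ℕ)) (V : List (Finset ℕ)) (x : Finset ℕ) (i : ℕ) :
    Deps.val ⟨S, V ++ [x]⟩ i = if i = V.length then x else V.getD i ∅ := getD_snoc _ _ _ _

theorem sum_snoc (S : List (Finset ℕ)) (V : List (Finset ℕ)) (x : Finset ℕ) (i : ℕ) :
    Deps.sum ⟨S ++ [x], V⟩ i = if i = S.length then x else S.getD i ∅ := getD_snoc _ _ _ _

/-- a new value which depends on the gates of old values -/
theorem Inv.val {D D' : Deps} {L : Lst K} {A : Ast} {N : Nst} {R : List (Finset ℕ)}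
    (h : Inv D D' L A N R) {X X' : Finset ℕ} {α : ℕ × ℕ} {ν : ℕ}
    (hX : ∀ a ∈ X, a < D.sums.length ∧ D.sum a ⊆ X) (hX' : X' ⊆ X) :
    Inv ⟨D.sums, D.vals ++ [X]⟩ ⟨D'.sums, D'.vals ++ [X']⟩ (L ++ [none])
      ⟨A.gates, A.vals ++ [α]⟩ ⟨N.gates, N.vals ++ [ν]⟩ R where
  l1 := by simp [h.l1]
  l2 := by simp [h.l2]
  l3 := h.l3
  l4 := by simp [h.l4]
  l5 := h.l5
  l6 := by simp [h.l6]
  l7 := h.l7
  l8 := h.l8
  t1 i a ha := by
    rw [val_snoc] at ha ⊢
    split_ifs at ha ⊢ with hi
    · exact hX a ha
    · exact h.t1 i a ha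
  t2 := h.t2
  f i p hp j hj := by
    rw [getD_snoc] at hp
    split_ifs at hp with hi
    rw [h.l1] at hi
    obtain ⟨h1, h2, h3⟩ := h.f i p hp j hj
    refine ⟨?_, ?_, ?_⟩
    · simp only [List.length_append, List.length_singleton]
      omega
    · rw [val_snoc, val_snoc, if_neg h1.ne, if_neg hi]
      exact h2
    · rw [val_snoc, if_neg hi]
      exact h3
  s1 i := by
    rw [val_snoc, val_snoc, h.l2]
    split_ifs
    · exact hX'
    · exact h.s1 i
  s2 := h.s2

theorem Inv.gate {D D' : Deps} {L : Lst K} {A : Ast} {N : Nst} {R : List (Finset ℕ)}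
    (h : Inv D D' L A N R) {s : ℕ} {i : Fin s → ℕ} {s' : ℕ} {i' : Fin s' → ℕ} {α : ℕ × ℕ}
    {α' ν ν' : ℕ} {o : Option (K × (ℕ →₀ K))} {Y : Finset ℕ}
    (hi' : ∀ k, D.val (i' k) ⊆ Finset.univ.biUnion fun k => D.val (i k))
    (ho : ∀ p, o = some p → ∀ j ∈ p.2.support, j < D.vals.length ∧
      ∃ k, D.val j ⊆ D.val (i k) ∧ (j ∈ Y ∨ j ∈ (D.val (i k)).biUnion fun b => R.getD b ∅)) :
    Inv ⟨D.sums ++ [insert D.sums.length (Finset.univ.biUnion fun k => D.val (i k))],
        D.vals ++ [insert D.sums.length (Finset.univ.biUnion fun k => D.val (i k))]⟩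
      ⟨D'.sums ++ [insert D'.sums.length (Finset.univ.biUnion fun k => D'.val (i' k))],
        D'.vals ++ [insert D'.sums.length (Finset.univ.biUnion fun k => D'.val (i' k))]⟩
      (L ++ [o]) ⟨A.gates ++ [α'], A.vals ++ [α]⟩ ⟨N.gates ++ [ν'], N.vals ++ [ν]⟩ (R ++ [Y]) := by
  set X := insert D.sums.length (Finset.univ.biUnion fun k => D.val (i k)) with hX
  set X' := insert D'.sums.length (Finset.univ.biUnion fun k => D'.val (i' k)) with hX'
  have hXX : X' ⊆ X := by
    rw [hX, hX', h.l3]
    refine Finset.insert_subset_insert _ (Finset.biUnion_subset.2 fun k _ => ?_)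
    exact (h.s1 _).trans (hi' k)
  have hXt : ∀ a ∈ X, a = D.sums.length ∨ (a < D.sums.length ∧ D.sum a ⊆ X) := by
    intro a ha
    rw [hX, Finset.mem_insert, Finset.mem_biUnion] at ha
    rcases ha with ha | ⟨k, -, hk⟩
    · exact Or.inl ha
    · refine Or.inr ⟨(h.t1 _ _ hk).1, ((h.t1 _ _ hk).2).trans ?_⟩
      exact (Finset.subset_biUnion_of_mem (fun k => D.val (i k)) (Finset.mem_univ k)).trans
        (Finset.subset_insert _ _)
  have hold : ∀ j, ∀ a ∈ D.val j, a ≠ D.sums.length := fun j a ha => (h.t1 j a ha).1.ne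
  refine ⟨by simp [h.l1], by simp [h.l2], by simp [h.l3], by simp [h.l4], by simp [h.l5],
    by simp [h.l6], by simp [h.l7], by simp [h.l8], ?_, ?_, ?_, ?_, ?_⟩
  · intro j a ha
    rw [val_snoc] at ha ⊢
    rw [sum_snoc]
    simp only [List.length_append, List.length_singleton]
    by_cases hj : j = D.vals.length
    · rw [if_pos hj] at ha ⊢
      rcases hXt a ha with h1 | ⟨h1, h2⟩
      · rw [if_pos h1]
        exact ⟨by omega, Finset.Subset.refl _⟩
      · rw [if_neg h1.ne]
        exact ⟨by omega, h2⟩
    · rw [if_neg hj] at ha ⊢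
      obtain ⟨h1, h2⟩ := h.t1 j a ha
      rw [if_neg h1.ne]
      exact ⟨by omega, h2⟩
  · intro b a ha
    rw [sum_snoc] at ha
    rw [sum_snoc, sum_snoc]
    simp only [List.length_append, List.length_singleton]
    by_cases hb : b = D.sums.length
    · rw [if_pos hb] at ha
      rw [if_pos hb]
      rcases hXt a ha with h1 | ⟨h1, h2⟩
      · rw [if_pos h1]
        exact ⟨by omega, Finset.Subset.refl _⟩
      · rw [if_neg h1.ne]
        exact ⟨by omega, h2⟩
    · rw [if_neg hb] at ha
      rw [if_neg hb]
      obtain ⟨h1, h2⟩ := h.t2 b a ha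
      rw [if_neg h1.ne]
      exact ⟨by omega, h2⟩
  · intro j p hp q hq
    rw [getD_snoc, h.l1] at hp
    simp only [List.length_append, List.length_singleton]
    by_cases hj : j = D.vals.length
    · rw [if_pos hj] at hp
      obtain ⟨h1, k, h2, h3⟩ := ho p hp q hq
      rw [val_snoc, val_snoc, if_neg h1.ne, if_pos hj]
      refine ⟨by omega, ?_, ?_⟩
      · exact h2.trans ((Finset.subset_biUnion_of_mem (fun k => D.val (i k))
          (Finset.mem_univ k)).trans (Finset.subset_insert _ _))
      · rw [Finset.mem_biUnion]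
        rcases h3 with h3 | h3
        · refine ⟨D.sums.length, Finset.mem_insert_self _ _, ?_⟩
          rw [getD_snoc, if_pos h.l8.symm]
          exact h3
        · rw [Finset.mem_biUnion] at h3
          obtain ⟨b, hb, hb2⟩ := h3
          refine ⟨b, Finset.mem_insert_of_mem (Finset.mem_biUnion.2 ⟨k, Finset.mem_univ _, hb⟩), ?_⟩
          rw [getD_snoc, if_neg (by rw [h.l8]; exact hold _ _ hb)]
          exact hb2
    · rw [if_neg hj] at hp
      obtain ⟨h1, h2, h3⟩ := h.f j p hp q hq
      rw [val_snoc, val_snoc, if_neg h1.ne, if_neg hj]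
      refine ⟨by omega, h2, ?_⟩
      rw [Finset.mem_biUnion] at h3 ⊢
      obtain ⟨b, hb, hb2⟩ := h3
      refine ⟨b, hb, ?_⟩
      rw [getD_snoc, if_neg (by rw [h.l8]; exact hold _ _ hb)]
      exact hb2
  · intro j
    rw [val_snoc, val_snoc, h.l2]
    split_ifs
    · exact hXX
    · exact h.s1 j
  · intro j
    rw [sum_snoc, sum_snoc, h.l3]
    split_ifs
    · exact hXX
    · exact h.s2 j

/-- the arguments of a merged gate -/
theorem arg_lgate {D D' : Deps} {L : Lst K} {A : Ast} {N : Nst} {R : List (Finset ℕ)}
    (h : Inv D D' L A N R) {s : ℕ} {F : MvPolynomial (Fin s) K} {i : Fin s → ℕ} {j : ℕ}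
    (hj : j ∈ (merged L F i).2.support) :
    j < D.vals.length ∧ ∃ k, F.coeff (Finsupp.single k 1) ≠ 0 ∧ D.val j ⊆ D.val (i k) ∧
      (j = i k ∨ j ∈ (D.val (i k)).biUnion fun b => R.getD b ∅) := by
  obtain ⟨k, hk, hj⟩ := merged_supp hj
  rcases lform_supp hj with ⟨p, hp, hj⟩ | ⟨hn, hl, hj⟩
  · obtain ⟨h1, h2, h3⟩ := h.f _ p hp j hj
    exact ⟨h1, k, hk, h2, Or.inr h3⟩
  · subst hj
    rw [h.l1] at hl
    exact ⟨hl, k, hk, Finset.Subset.refl _, Or.inl rfl⟩

theorem Inv.step {D D' : Deps} {L : Lst K} {A : Ast} {N : Nst} {R : List (Finset ℕ)}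
    (h : Inv D D' L A N R) (M' : ℕ) (ins : Ins K) :
    Inv (KG.next ins D) (KG.next (mIns M' L ins) D') (nextL M' ins L) (nextA ins A)
      (nextN (mIns M' L ins) N) (nextR ins R) := by
  classical
  cases ins with
  | const c => exact h.val (by simp) (by simp)
  | mul i j =>
    refine h.val (fun a ha => ?_) (Finset.union_subset_union (h.s1 _) (h.s1 _))
    rcases Finset.mem_union.1 ha with ha | ha
    · exact ⟨(h.t1 _ _ ha).1, (h.t1 _ _ ha).2.trans Finset.subset_union_left⟩
    · exact ⟨(h.t1 _ _ ha).1, (h.t1 _ _ ha).2.trans Finset.subset_union_right⟩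
  | div i j =>
    refine h.val (fun a ha => ?_) (Finset.union_subset_union (h.s1 _) (h.s1 _))
    rcases Finset.mem_union.1 ha with ha | ha
    · exact ⟨(h.t1 _ _ ha).1, (h.t1 _ _ ha).2.trans Finset.subset_union_left⟩
    · exact ⟨(h.t1 _ _ ha).1, (h.t1 _ _ ha).2.trans Finset.subset_union_right⟩
  | test i => exact h
  | answer b => exact h
  | gate s F i =>
    have hA : ∃ α' α, nextA (.gate s F i) A = ⟨A.gates ++ [α'], A.vals ++ [α]⟩ := by
      unfold nextA
      simp only
      split_ifs
      · exact ⟨_, _, rfl⟩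
      · exact ⟨_, _, rfl⟩
    obtain ⟨α', α, hA⟩ := hA
    rw [hA]
    by_cases hc : CanMerge M' L F i
    · have hm : mIns M' L (.gate s F i) = lgate (merged L F i) := by
        unfold mIns
        simp only
        rw [if_pos hc]
      have hL : nextL M' (.gate s F i) L = L ++ [some (merged L F i)] := by
        unfold nextL
        simp only
        rw [if_pos hc]
      rw [hm, hL]
      unfold lgate
      refine h.gate (fun t => ?_) (fun p hp j hj => ?_)
      · obtain ⟨-, k, -, h2, -⟩ := arg_lgate h
          (((merged L F i).2.support.equivFin.symm t).2 :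
            ((merged L F i).2.support.equivFin.symm t : ℕ) ∈ (merged L F i).2.support)
        exact h2.trans (Finset.subset_biUnion_of_mem (fun k => D.val (i k)) (Finset.mem_univ k))
      · obtain rfl : merged L F i = p := by simpa using hp
        obtain ⟨h1, k, hk, h2, h3⟩ := arg_lgate h hj
        refine ⟨h1, k, h2, ?_⟩
        rcases h3 with h3 | h3
        · refine Or.inl (Finset.mem_image.2 ⟨k, ?_, h3.symm⟩)
          rw [Finset.mem_filter]
          exact ⟨Finset.mem_univ _, hk⟩
        · exact Or.inr h3
    · have hm : mIns M' L (.gate s F i) = .gate s F i := by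
        unfold mIns
        simp only
        rw [if_neg hc]
      have hL : nextL M' (.gate s F i) L = L ++ [none] := by
        unfold nextL
        simp only
        rw [if_neg hc]
      rw [hm, hL]
      exact h.gate (fun k => Finset.subset_biUnion_of_mem (fun k => D.val (i k))
        (Finset.mem_univ k)) (fun p hp => by simp at hp)

theorem getD_replicate {α : Type} (n : ℕ) (x : α) (i : ℕ) : (List.replicate n x).getD i x = x := by
  by_cases h : i < n
  · rw [List.getD_eq_getElem _ _ (by simpa using h)]
    simp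
  · rw [List.getD_eq_default]
    simpa using h

theorem inv (n M' : ℕ) (T : GTree K) (h : List Bool) :
    Inv (deps n T h) (deps n (mtree n M' T) h) (lins n M' T h) (alts n T h)
      (nests n (mtree n M' T) h) (rs T h) := by
  induction h with
  | nil =>
    have h1 : ∀ i, (deps n T []).val i = ∅ := fun i => getD_replicate _ _ _
    have h2 : ∀ i, (deps n (mtree n M' T) []).val i = ∅ := fun i => getD_replicate _ _ _
    refine ⟨by simp [lins, deps], by simp [deps], by simp [deps], by simp [alts, deps],
      by simp [alts, deps], by simp [nests, deps], by simp [nests, deps], by simp [rs, deps],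
      ?_, ?_, ?_, ?_, ?_⟩
    · intro i a ha
      rw [h1] at ha
      simp at ha
    · intro b a ha
      simp [deps, Deps.sum] at ha
    · intro i p hp
      have : (lins n M' T []).getD i none = none := getD_replicate _ _ _
      rw [this] at hp
      simp at hp
    · intro i
      rw [h2]
      exact Finset.empty_subset _
    · intro a
      simp [deps, Deps.sum]
  | cons b h ih =>
    have := ih.step M' (T h)
    rw [← mtree_eq n M' T h] at this
    exact this

/-! ## Levels -/

structure Lev (M : ℕ) (D : Deps) (L : Lst K) (A : Ast) (N : Nst) (R : List (Finset ℕ)) :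
    Prop where
  p : ∀ b, (R.getD b ∅).card ≤ M
  g : ∀ i, (∀ b ∈ D.val i, (D.sum b).card ≤ M) → N.val i ≤ (A.val i).1 ∧
    (∀ p, L.getD i none = some p → (A.val i).2 = (A.val i).1 ∧
      ∀ j ∈ p.2.support, N.val j + 1 ≤ (A.val i).1) ∧
    (L.getD i none = none → (A.val i).2 = (A.val i).1 + 1)
  q : ∀ a, (∀ b ∈ D.sum a, (D.sum b).card ≤ M) → N.gate a ≤ A.gate a

theorem nval_snoc (G V : List ℕ) (x i : ℕ) :
    Nst.val ⟨G, V ++ [x]⟩ i = if i = V.length then x else V.getD i 0 := getD_snoc _ _ _ _

theorem ngate_snoc (G V : List ℕ) (x i : ℕ) :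
    Nst.gate ⟨G ++ [x], V⟩ i = if i = G.length then x else G.getD i 0 := getD_snoc _ _ _ _

theorem aval_snoc (G : List ℕ) (V : List (ℕ × ℕ)) (x : ℕ × ℕ) (i : ℕ) :
    Ast.val ⟨G, V ++ [x]⟩ i = if i = V.length then x else V.getD i (0, 1) := getD_snoc _ _ _ _

theorem agate_snoc (G : List ℕ) (V : List (ℕ × ℕ)) (x : ℕ) (i : ℕ) :
    Ast.gate ⟨G ++ [x], V⟩ i = if i = G.length then x else G.getD i 0 := getD_snoc _ _ _ _

theorem Lev.val {M : ℕ} {D D' : Deps} {L : Lst K} {A : Ast} {N : Nst} {R : List (Finset ℕ)}
    (h : Inv D D' L A N R) (H : Lev M D L A N R) {X : Finset ℕ} {α : ℕ × ℕ} {ν : ℕ}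
    (hα : α.2 = α.1 + 1) (hν : (∀ b ∈ X, (D.sum b).card ≤ M) → ν ≤ α.1) :
    Lev M ⟨D.sums, D.vals ++ [X]⟩ (L ++ [none]) ⟨A.gates, A.vals ++ [α]⟩
      ⟨N.gates, N.vals ++ [ν]⟩ R where
  p := H.p
  g i hi := by
    rw [val_snoc] at hi
    rw [nval_snoc, aval_snoc, getD_snoc, h.l1, h.l4, h.l6]
    by_cases e : i = D.vals.length
    · rw [if_pos e] at hi
      rw [if_pos e, if_pos e, if_pos e]
      exact ⟨hν hi, fun p hp => by simp at hp, fun _ => hα⟩
    · rw [if_neg e] at hi
      rw [if_neg e, if_neg e, if_neg e]
      obtain ⟨h1, h2, h3⟩ := H.g i hi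
      refine ⟨h1, fun p hp => ⟨(h2 p hp).1, fun j hj => ?_⟩, h3⟩
      have h4 := (h.f i p hp j hj).1
      rw [nval_snoc, h.l6, if_neg h4.ne]
      exact (h2 p hp).2 j hj
  q := H.q

theorem Lev.gate {M : ℕ} {D D' : Deps} {L : Lst K} {A : Ast} {N : Nst} {R : List (Finset ℕ)}
    (h : Inv D D' L A N R) (H : Lev M D L A N R) {s : ℕ} {i : Fin s → ℕ} {α : ℕ × ℕ} {ν : ℕ}
    {o : Option (K × (ℕ →₀ K))} {Y : Finset ℕ} (hY : Y.card ≤ M)
    (ho : ∀ p, o = some p → ∀ j ∈ p.2.support, j < D.vals.length)
    (hν : (insert D.sums.length (Finset.univ.biUnion fun k => D.val (i k))).card ≤ M →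
      (∀ k, ∀ b ∈ D.val (i k), (D.sum b).card ≤ M) → ν ≤ α.1 ∧
      (∀ p, o = some p → α.2 = α.1 ∧ ∀ j ∈ p.2.support, N.val j + 1 ≤ α.1) ∧
      (o = none → α.2 = α.1 + 1)) :
    Lev M ⟨D.sums ++ [insert D.sums.length (Finset.univ.biUnion fun k => D.val (i k))],
        D.vals ++ [insert D.sums.length (Finset.univ.biUnion fun k => D.val (i k))]⟩
      (L ++ [o]) ⟨A.gates ++ [α.1], A.vals ++ [α]⟩ ⟨N.gates ++ [ν], N.vals ++ [ν]⟩
      (R ++ [Y]) := by
  set X := insert D.sums.length (Finset.univ.biUnion fun k => D.val (i k)) with hX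
  have hgood : ∀ V, (∀ b ∈ X, (Deps.sum ⟨D.sums ++ [X], V⟩ b).card ≤ M) → X.card ≤ M ∧
      ∀ k, ∀ b ∈ D.val (i k), (D.sum b).card ≤ M := by
    intro V hb
    constructor
    · have := hb D.sums.length (Finset.mem_insert_self _ _)
      rw [sum_snoc, if_pos rfl] at this
      exact this
    · intro k b hbk
      have h1 := hb b (Finset.mem_insert_of_mem
        (Finset.mem_biUnion.2 ⟨k, Finset.mem_univ _, hbk⟩))
      rw [sum_snoc, if_neg (h.t1 _ _ hbk).1.ne] at h1
      exact h1
  refine ⟨fun b => ?_, fun j hj => ?_, fun a ha => ?_⟩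
  · rw [getD_snoc]
    split_ifs
    · exact hY
    · exact H.p b
  · rw [val_snoc] at hj
    rw [nval_snoc, aval_snoc, getD_snoc, h.l1, h.l4, h.l6]
    by_cases e : j = D.vals.length
    · rw [if_pos e] at hj
      rw [if_pos e, if_pos e, if_pos e]
      obtain ⟨h1, h2⟩ := hgood _ hj
      obtain ⟨h3, h4, h5⟩ := hν h1 h2
      refine ⟨h3, fun p hp => ⟨(h4 p hp).1, fun j hj => ?_⟩, h5⟩
      rw [nval_snoc, h.l6, if_neg (ho p hp j hj).ne]
      exact (h4 p hp).2 j hj
    · rw [if_neg e] at hj
      rw [if_neg e, if_neg e, if_neg e]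
      obtain ⟨h1, h2, h3⟩ := H.g j (fun b hb => by
        have := hj b hb
        rw [sum_snoc, if_neg (h.t1 _ _ hb).1.ne] at this
        exact this)
      refine ⟨h1, fun p hp => ⟨(h2 p hp).1, fun q hq => ?_⟩, h3⟩
      have h4 := (h.f j p hp q hq).1
      rw [nval_snoc, h.l6, if_neg h4.ne]
      exact (h2 p hp).2 q hq
  · rw [sum_snoc] at ha
    rw [ngate_snoc, agate_snoc, h.l7, h.l5]
    by_cases e : a = D.sums.length
    · rw [if_pos e] at ha
      rw [if_pos e, if_pos e]
      obtain ⟨h1, h2⟩ := hgood _ ha
      exact (hν h1 h2).1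
    · rw [if_neg e] at ha
      rw [if_neg e, if_neg e]
      refine H.q a (fun b hb => ?_)
      have := ha b hb
      rw [sum_snoc, if_neg (h.t2 _ _ hb).1.ne] at this
      exact this

/-- the number of arguments with a linear term -/
theorem card_args {M r s : ℕ} (hr : r ≤ M) (F : MvPolynomial (Fin s) K) (i : Fin s → ℕ)
    (hF : F.support.card ≤ M ∨ s ≤ r) [DecidablePred fun k : Fin s =>
      F.coeff (Finsupp.single k 1) ≠ 0] :
    ((Finset.univ.filter fun k : Fin s => F.coeff (Finsupp.single k 1) ≠ 0).image i).card ≤ M := by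
  classical
  refine Finset.card_image_le.trans ?_
  rcases hF with hF | hF
  · refine le_trans (Finset.card_le_card_of_injOn (fun k => Finsupp.single k 1) (fun k hk => ?_)
      (fun a _ b _ hab => ?_)) hF
    · have := (Finset.mem_filter.1 hk).2
      exact MvPolynomial.mem_support_iff.2 this
    · exact Finsupp.single_left_injective one_ne_zero hab
  · refine (Finset.card_filter_le _ _).trans ?_
    rw [Finset.card_univ, Fintype.card_fin]
    omega

theorem Lev.step {M M' r : ℕ} {D D' : Deps} {L : Lst K} {A : Ast} {N : Nst}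
    {R : List (Finset ℕ)} (h : Inv D D' L A N R) (H : Lev M D L A N R) (hr : r ≤ M)
    (hM' : M * M + 1 ≤ M') (ins : Ins K)
    (hins : ∀ (s : ℕ) (F : MvPolynomial (Fin s) K) (i : Fin s → ℕ), ins = .gate s F i →
      F.support.card ≤ M ∨ s ≤ r) :
    Lev M (KG.next ins D) (nextL M' ins L) (nextA ins A)
      (nextN (mIns M' L ins) N) (nextR ins R) := by
  classical
  have hop : ∀ i j, (∀ b ∈ D.val i ∪ D.val j, (D.sum b).card ≤ M) →
      max (N.val i) (N.val j) ≤ max (A.val i).1 (A.val j).1 := fun i j hb =>
    max_le_max (H.g i fun b hb' => hb b (Finset.mem_union_left _ hb')).1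
      (H.g j fun b hb' => hb b (Finset.mem_union_right _ hb')).1
  cases ins with
  | const c => exact Lev.val h H rfl (fun _ => le_rfl)
  | mul i j => exact Lev.val h H rfl (hop i j)
  | div i j => exact Lev.val h H rfl (hop i j)
  | test i => exact H
  | answer b => exact H
  | gate s F i =>
    have hY := card_args hr F i (hins s F i rfl)
    have hRY : nextR (.gate s F i) R = R ++ [(Finset.univ.filter fun k : Fin s =>
      F.coeff (Finsupp.single k 1) ≠ 0).image i] := rfl
    -- the arguments of the merged form
    have hN : ∀ j ∈ (merged L F i).2.support,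
        (∀ k, ∀ b ∈ D.val (i k), (D.sum b).card ≤ M) →
        N.val j + 1 ≤ Finset.univ.sup fun k => (A.val (i k)).2 := by
      intro j hj hg
      obtain ⟨k, hk, hj⟩ := merged_supp hj
      obtain ⟨g1, g2, g3⟩ := H.g (i k) (hg k)
      have h5 : (A.val (i k)).2 ≤ Finset.univ.sup fun k => (A.val (i k)).2 :=
        Finset.le_sup (f := fun k => (A.val (i k)).2) (Finset.mem_univ k)
      rcases lform_supp hj with ⟨p, hp, hj⟩ | ⟨hn, hl, hj⟩
      · obtain ⟨g4, g5⟩ := g2 p hp
        have := g5 j hj
        omega
      · subst hj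
        have := g3 hn
        omega
    by_cases hd : F.totalDegree ≤ 1
    · have hA : nextA (.gate s F i) A = ⟨A.gates ++ [max 1 (Finset.univ.sup fun k =>
          (A.val (i k)).2)], A.vals ++ [(max 1 (Finset.univ.sup fun k => (A.val (i k)).2),
            max 1 (Finset.univ.sup fun k => (A.val (i k)).2))]⟩ := by
        unfold nextA
        simp only
        rw [if_pos hd]
      rw [hA]
      by_cases hc : CanMerge M' L F i
      · have hm : mIns M' L (.gate s F i) = lgate (merged L F i) := by
          unfold mIns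
          simp only
          rw [if_pos hc]
        have hL : nextL M' (.gate s F i) L = L ++ [some (merged L F i)] := by
          unfold nextL
          simp only
          rw [if_pos hc]
        rw [hm, hL]
        unfold lgate
        refine Lev.gate h H (α := (max 1 (Finset.univ.sup fun k => (A.val (i k)).2),
            max 1 (Finset.univ.sup fun k => (A.val (i k)).2))) hY (fun p hp j hj => ?_)
          (fun _ hg => ⟨?_, fun p hp => ⟨rfl, fun j hj => ?_⟩, fun hp => by simp at hp⟩)
        · obtain rfl : merged L F i = p := by simpa using hp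
          exact (arg_lgate h hj).1
        · simp only
          by_cases he : (merged L F i).2.support.card = 0
          · have : (Finset.univ : Finset (Fin (merged L F i).2.support.card)) = ∅ := by
              rw [Finset.univ_eq_empty_iff, he]
              infer_instance
            rw [this, Finset.sup_empty]
            exact le_max_left _ _
          · have h6 : (Finset.univ.sup fun t : Fin (merged L F i).2.support.card =>
                N.val ((merged L F i).2.support.equivFin.symm t : ℕ)) + 1 ≤
                Finset.univ.sup fun k => (A.val (i k)).2 := by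
              obtain ⟨t, -, ht⟩ := Finset.exists_mem_eq_sup Finset.univ
                ⟨⟨0, Nat.pos_of_ne_zero he⟩, Finset.mem_univ _⟩
                (fun t : Fin (merged L F i).2.support.card =>
                  N.val ((merged L F i).2.support.equivFin.symm t : ℕ))
              rw [ht]
              exact hN _ ((merged L F i).2.support.equivFin.symm t).2 hg
            exact h6.trans (le_max_right _ _)
        · obtain rfl : merged L F i = p := by simpa using hp
          exact (hN j hj hg).trans (le_max_right _ _)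
      · have hm : mIns M' L (.gate s F i) = .gate s F i := by
          unfold mIns
          simp only
          rw [if_neg hc]
        have hL : nextL M' (.gate s F i) L = L ++ [none] := by
          unfold nextL
          simp only
          rw [if_neg hc]
        rw [hm, hL]
        refine Lev.gate h H (α := (max 1 (Finset.univ.sup fun k => (A.val (i k)).2),
            max 1 (Finset.univ.sup fun k => (A.val (i k)).2))) hY (fun p hp => by simp at hp)
          (fun hX hg => ?_)
        exfalso
        refine hc ⟨hd, ?_⟩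
        have hsub : (merged L F i).2.support ⊆
            (insert D.sums.length (Finset.univ.biUnion fun k => D.val (i k))).biUnion
              fun b => (R ++ [(Finset.univ.filter fun k : Fin s =>
                F.coeff (Finsupp.single k 1) ≠ 0).image i]).getD b ∅ := by
          intro j hj
          obtain ⟨-, k, hk, -, h3⟩ := arg_lgate h hj
          rw [Finset.mem_biUnion]
          rcases h3 with h3 | h3
          · refine ⟨D.sums.length, Finset.mem_insert_self _ _, ?_⟩
            rw [getD_snoc, if_pos h.l8.symm, h3]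
            exact Finset.mem_image_of_mem i (Finset.mem_filter.2 ⟨Finset.mem_univ _, hk⟩)
          · rw [Finset.mem_biUnion] at h3
            obtain ⟨b, hb, hb2⟩ := h3
            refine ⟨b, Finset.mem_insert_of_mem
              (Finset.mem_biUnion.2 ⟨k, Finset.mem_univ _, hb⟩), ?_⟩
            rw [getD_snoc, if_neg (by rw [h.l8]; exact (h.t1 _ _ hb).1.ne)]
            exact hb2
        have h7 : (merged L F i).2.support.card ≤ M * M := by
          refine (Finset.card_le_card hsub).trans ?_
          refine (Finset.card_biUnion_le_card_mul _ _ M fun b _ => ?_).trans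
            (Nat.mul_le_mul_right M hX)
          rw [getD_snoc]
          split_ifs
          · exact hY
          · exact H.p b
        omega
    · have hA : nextA (.gate s F i) A = ⟨A.gates ++ [(Finset.univ.sup fun k =>
          (A.val (i k)).1) + 1], A.vals ++ [((Finset.univ.sup fun k => (A.val (i k)).1) + 1,
            (Finset.univ.sup fun k => (A.val (i k)).1) + 2)]⟩ := by
        unfold nextA
        simp only
        rw [if_neg hd]
      have hc : ¬ CanMerge M' L F i := fun hc => hd hc.1
      have hm : mIns M' L (.gate s F i) = .gate s F i := by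
        unfold mIns
        simp only
        rw [if_neg hc]
      have hL : nextL M' (.gate s F i) L = L ++ [none] := by
        unfold nextL
        simp only
        rw [if_neg hc]
      rw [hA, hm, hL]
      refine Lev.gate h H (α := ((Finset.univ.sup fun k => (A.val (i k)).1) + 1,
          (Finset.univ.sup fun k => (A.val (i k)).1) + 2)) hY (fun p hp => by simp at hp)
        (fun _ hg => ⟨?_, fun p hp => by simp at hp, fun _ => rfl⟩)
      refine Nat.succ_le_succ (Finset.sup_mono_fun fun k _ => ?_)
      exact (H.g (i k) (hg k)).1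

theorem lev {n M M' r : ℕ} {T : GTree K} (hT : Gates T M r) (hr : r ≤ M)
    (hM' : M * M + 1 ≤ M') (h : List Bool) :
    Lev M (deps n T h) (lins n M' T h) (alts n T h) (nests n (mtree n M' T) h) (rs T h) := by
  induction h with
  | nil =>
    refine ⟨fun b => by simp [rs], fun i _ => ⟨?_, fun p hp => ?_, fun _ => ?_⟩, fun a _ => ?_⟩
    · have : (nests n (mtree n M' T) []).val i = 0 := getD_replicate _ _ _
      rw [this]
      exact Nat.zero_le _
    · have : (lins n M' T []).getD i none = none := getD_replicate _ _ _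
      rw [this] at hp
      simp at hp
    · have : (alts n T []).val i = (0, 1) := getD_replicate _ _ _
      rw [this]
    · simp [nests, Nst.gate]
  | cons b h ih =>
    have := Lev.step (inv n M' T h) ih hr hM' (T h) (fun s F i e => hT h s F i e)
    rw [← mtree_eq n M' T h] at this
    exact this

theorem lgate_support (p : K × (ℕ →₀ K)) (s : ℕ) (F : MvPolynomial (Fin s) K) (i : Fin s → ℕ)
    (h : lgate p = .gate s F i) : F.support.card ≤ p.2.support.card + 1 := by
  classical
  unfold lgate at h
  injection h with h1 h2 h3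
  subst h1
  rw [← eq_of_heq h2]
  refine (Finset.card_le_card MvPolynomial.support_add).trans ?_
  refine (Finset.card_union_le _ _).trans ?_
  have h4 : (MvPolynomial.C p.1 : MvPolynomial (Fin p.2.support.card) K).support.card ≤ 1 := by
    rw [← MvPolynomial.monomial_zero']
    refine (Finset.card_le_card MvPolynomial.support_monomial_subset).trans ?_
    simp
  have h5 : (∑ t, MvPolynomial.C (p.2 (p.2.support.equivFin.symm t : ℕ)) *
      (MvPolynomial.X t : MvPolynomial (Fin p.2.support.card) K)).support.card ≤
      p.2.support.card := by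
    refine (Finset.card_le_card MvPolynomial.support_sum).trans ?_
    refine (Finset.card_biUnion_le_card_mul _ _ 1 fun t _ => ?_).trans ?_
    · rw [MvPolynomial.C_mul_X_eq_monomial]
      refine (Finset.card_le_card MvPolynomial.support_monomial_subset).trans ?_
      simp
    · simp
  omega

end Stat3

open Stat3 in
/-- **Row STAT3.** -/
theorem statStatement : StatStatement where
  gates K _ n M M' r T hM hT := by
    classical
    intro h s F i e
    rw [mtree_eq] at e
    cases hTh : T h with
    | gate s1 F1 i1 =>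
      rw [hTh] at e
      unfold mIns at e
      simp only at e
      split_ifs at e with hc
      · have h1 := lgate_support _ _ _ _ e
        exact Or.inl (h1.trans hc.2)
      · rcases hT h s F i (by rw [hTh]; exact e) with h1 | h1
        · exact Or.inl (h1.trans hM)
        · exact Or.inr h1
    | const c => rw [hTh] at e; simp [mIns] at e
    | mul a b => rw [hTh] at e; simp [mIns] at e
    | div a b => rw [hTh] at e; simp [mIns] at e
    | test a => rw [hTh] at e; simp [mIns] at e
    | answer b => rw [hTh] at e; simp [mIns] at e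
  branches K _ n M' T h i hb := by
    classical
    rw [mtree_eq] at hb
    cases hTh : T h with
    | gate s1 F1 i1 =>
      rw [hTh] at hb
      unfold mIns at hb
      simp only at hb
      split_ifs at hb with hc
      · exact absurd hb (by simp [lgate, Branches])
      · exact hb
    | const c => rw [hTh] at hb; exact hb
    | mul a b => rw [hTh] at hb; exact hb
    | div a b => rw [hTh] at hb; exact hb
    | test a => rw [hTh] at hb; exact hb
    | answer b => rw [hTh] at hb; exact hb
  val K _ n M' T h i := (inv n M' T h).s1 i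
  sum K _ n M' T h a := (inv n M' T h).s2 a
  level K _ n M M' r T hT hr _ hM' h i hi a ha := by
    refine (lev hT hr hM' h).q a (fun b hb => hi b ?_)
    exact ((inv n M' T h).t1 i a ha).2 hb

end Pool.Agent.Lib.MP_641cb6_lc.CD
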