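import Pool.Agent.Lib.MP_641cb6_lc.CD.Struc
import Pool.Agent.Lib.MP_641cb6_lc.CD.Defs2

/-!
# The structure of the atoms of trees whose gates have few terms or few arguments
-/

set_option autoImplicit false

namespace Pool.Agent.Lib.MP_641cb6_lc.CD

open Pool.Agent.Lib.MP_641cb6_lc.KD (Deps)
open Pool.Agent.Lib.MP_641cb6_lc.KG (Ins GTree Pol St SSt pf cc sym deps getD_app negs negs_ne
  gpol homg atom_of_prefix sstep)

variable {K : Type} [Field K]

/-- how a symbolic state, the dependence sets and the nesting numbers fit together -/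
structure RelY {n : ℕ} (Q : (q : ℕ) → ((Fin q → Pol K n) → Pol K n) → Prop) (S : SSt K n)
    (d : Deps) (e : Nst) : Prop where
  lenv : d.vals.length = S.vals.length
  lens : d.sums.length = S.atoms.length
  lenn : e.vals.length = S.vals.length
  leng : e.gates.length = S.atoms.length
  bdv : ∀ i, ∀ a ∈ d.val i, a < d.sums.length
  bds : ∀ k, ∀ a ∈ d.sum k, a ≤ k
  supp : ∀ i l, (S.val i).2 l ≠ 0 → l < n + 1 + S.atoms.length ∧
    (n + 1 ≤ l → l - (n + 1) ∈ d.val i)
  clv : ∀ i, ∀ a ∈ d.val i, d.sum a ⊆ d.val i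
  cls : ∀ k, ∀ a ∈ d.sum k, d.sum a ⊆ d.sum k
  nst : ∀ i, ∀ a ∈ d.val i, e.gate a ≤ e.val i
  pos : ∀ k < S.atoms.length, 1 ≤ e.gate k
  chn : ∀ k < S.atoms.length, ∃ (q : ℕ) (Φ : (Fin q → Pol K n) → Pol K n)
    (α : Fin q → ℕ → ℕ), Q q Φ ∧
    S.atom (n + 1 + k) = Φ (fun t => ∏ j ∈ Finset.range (n + 1 + k), S.atom j ^ α t j) ∧
    ∀ t j, n + 1 ≤ j → α t j ≠ 0 → j - (n + 1) ∈ d.sum k ∧ e.gate (j - (n + 1)) + 1 ≤ e.gate k

variable {n : ℕ} {Q : (q : ℕ) → ((Fin q → Pol K n) → Pol K n) → Prop} {S : SSt K n} {d : Deps}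
  {e : Nst}

/-- a new value that is not the value of a gate -/
theorem RelY.pushVal (H : RelY Q S d e) {v : K × (ℕ →₀ ℤ)} {A : Finset ℕ} {z : ℕ}
    (hs : ∀ l, v.2 l ≠ 0 → l < n + 1 + S.atoms.length ∧ (n + 1 ≤ l → l - (n + 1) ∈ A))
    (hb : ∀ a ∈ A, a < d.sums.length)
    (hc : ∀ a ∈ A, d.sum a ⊆ A) (hz : ∀ a ∈ A, e.gate a ≤ z) :
    RelY Q (⟨S.atoms, S.vals ++ [v]⟩ : SSt K n) ⟨d.sums, d.vals ++ [A]⟩
      ⟨e.gates, e.vals ++ [z]⟩ where
  lenv := by simp [H.lenv]
  lens := H.lens
  lenn := by simp [H.lenn]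
  leng := H.leng
  bdv := by
    intro i a ha
    simp only [Deps.val, getD_app] at ha
    split_ifs at ha with h1 h2
    · exact H.bdv i a ha
    · exact hb a ha
    · exact absurd ha (Finset.notMem_empty a)
  bds := H.bds
  supp := by
    intro i l hl
    simp only [SSt.val, getD_app] at hl
    simp only [Deps.val, getD_app, H.lenv]
    split_ifs at hl ⊢ with h1 h2
    · exact H.supp i l hl
    · exact hs l hl
    · simp at hl
  clv := by
    intro i a ha
    simp only [Deps.val, getD_app] at ha ⊢
    split_ifs at ha ⊢ with h1 h2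
    · exact H.clv i a ha
    · exact hc a ha
    · exact absurd ha (Finset.notMem_empty a)
  cls := H.cls
  nst := by
    intro i a ha
    simp only [Deps.val, getD_app, H.lenv] at ha
    simp only [Nst.val, Nst.gate, getD_app, H.lenn]
    split_ifs at ha ⊢ with h1 h2
    · exact H.nst i a ha
    · exact hz a ha
    · exact absurd ha (Finset.notMem_empty a)
  pos := H.pos
  chn := H.chn

/-- a new gate -/
theorem RelY.pushSum (H : RelY Q S d e) {v : K × (ℕ →₀ ℤ)} {B : Finset ℕ} {p : Pol K n} {z : ℕ}
    (hs : ∀ l, v.2 l ≠ 0 → l < n + 1 + (S.atoms.length + 1) ∧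
      (n + 1 ≤ l → l - (n + 1) ∈ insert d.sums.length B))
    (hb : ∀ a ∈ B, a < d.sums.length) (hc : ∀ a ∈ B, d.sum a ⊆ B) (hz : ∀ a ∈ B, e.gate a ≤ z)
    (hp : ∃ (q : ℕ) (Φ : (Fin q → Pol K n) → Pol K n) (α : Fin q → ℕ → ℕ), Q q Φ ∧
      p = Φ (fun t => S.mono (α t)) ∧
      ∀ t j, n + 1 ≤ j → α t j ≠ 0 → j - (n + 1) ∈ B) :
    RelY Q (⟨S.atoms ++ [p], S.vals ++ [v]⟩ : SSt K n)
      ⟨d.sums ++ [insert d.sums.length B], d.vals ++ [insert d.sums.length B]⟩
      ⟨e.gates ++ [z + 1], e.vals ++ [z + 1]⟩ := by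
  have hlen : e.gates.length = d.sums.length := H.leng.trans H.lens.symm
  have hsum : ∀ a < d.sums.length,
      (⟨d.sums ++ [insert d.sums.length B], d.vals ++ [insert d.sums.length B]⟩ : Deps).sum a =
        d.sum a := by
    intro a ha
    simp only [Deps.sum, getD_app, if_pos ha]
  have hsumE : (⟨d.sums ++ [insert d.sums.length B],
      d.vals ++ [insert d.sums.length B]⟩ : Deps).sum d.sums.length = insert d.sums.length B := by
    simp only [Deps.sum, getD_app, lt_irrefl, if_false, if_true]
  have hgate : ∀ a < d.sums.length,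
      (⟨e.gates ++ [z + 1], e.vals ++ [z + 1]⟩ : Nst).gate a = e.gate a := by
    intro a ha
    simp only [Nst.gate, getD_app, hlen, if_pos ha]
  have hgateE : (⟨e.gates ++ [z + 1], e.vals ++ [z + 1]⟩ : Nst).gate d.sums.length = z + 1 := by
    simp only [Nst.gate, getD_app, hlen, lt_irrefl, if_false, if_true]
  have hcl' : ∀ a ∈ insert d.sums.length B,
      (⟨d.sums ++ [insert d.sums.length B], d.vals ++ [insert d.sums.length B]⟩ : Deps).sum a ⊆
        insert d.sums.length B := by
    intro a ha
    rcases Finset.mem_insert.1 ha with h | h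
    · rw [h, hsumE]
    · rw [hsum a (hb a h)]
      exact (hc a h).trans (Finset.subset_insert _ _)
  have hpre : S.atoms <+: (⟨S.atoms ++ [p], S.vals ++ [v]⟩ : SSt K n).atoms :=
    List.prefix_append _ _
  constructor
  · simp [H.lenv]
  · simp [H.lens]
  · simp [H.lenn]
  · simp [H.leng]
  · intro i a ha
    simp only [Deps.val, getD_app] at ha
    simp only [List.length_append, List.length_singleton]
    split_ifs at ha with h1 h2
    · have := H.bdv i a ha
      omega
    · rcases Finset.mem_insert.1 ha with h | h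
      · omega
      · have := hb a h
        omega
    · exact absurd ha (Finset.notMem_empty a)
  · intro k a ha
    simp only [Deps.sum, getD_app] at ha
    split_ifs at ha with h1 h2
    · exact H.bds k a ha
    · rcases Finset.mem_insert.1 ha with h | h
      · omega
      · have := hb a h
        omega
    · exact absurd ha (Finset.notMem_empty a)
  · intro i l hl
    simp only [SSt.val, getD_app] at hl
    simp only [Deps.val, getD_app, H.lenv, List.length_append, List.length_singleton]
    split_ifs at hl ⊢ with h1 h2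
    · obtain ⟨h3, h4⟩ := H.supp i l hl
      exact ⟨by omega, h4⟩
    · exact hs l hl
    · simp at hl
  · intro i a ha
    have ha' := ha
    simp only [Deps.val, getD_app] at ha'
    split_ifs at ha' with h1 h2
    · have h3 := H.bdv i a ha'
      rw [hsum a h3]
      simp only [Deps.val, getD_app, if_pos h1]
      exact H.clv i a ha'
    · refine (hcl' a ha').trans ?_
      simp only [Deps.val, getD_app, h2, lt_irrefl, if_false, if_true]
      exact le_rfl
    · exact absurd ha' (Finset.notMem_empty a)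
  · intro k a ha
    rcases lt_trichotomy k d.sums.length with h | h | h
    · rw [hsum k h] at ha ⊢
      have h1 := H.bds k a ha
      rw [hsum a (by omega)]
      exact H.cls k a ha
    · subst h
      rw [hsumE] at ha ⊢
      exact hcl' a ha
    · exfalso
      simp only [Deps.sum, getD_app] at ha
      rw [if_neg (by omega), if_neg (by omega)] at ha
      exact Finset.notMem_empty a ha
  · intro i a ha
    simp only [Deps.val, getD_app, H.lenv] at ha
    split_ifs at ha with h1 h2
    · have h3 := H.bdv i a ha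
      rw [hgate a h3]
      simp only [Nst.val, getD_app, H.lenn, if_pos h1]
      exact H.nst i a ha
    · have h4 : (⟨e.gates ++ [z + 1], e.vals ++ [z + 1]⟩ : Nst).val i = z + 1 := by
        simp only [Nst.val, getD_app, H.lenn, h2, lt_irrefl, if_false, if_true]
      rw [h4]
      rcases Finset.mem_insert.1 ha with h | h
      · rw [h, hgateE]
      · rw [hgate a (hb a h)]
        exact (hz a h).trans (Nat.le_succ z)
    · exact absurd ha (Finset.notMem_empty a)
  · intro k hk
    simp only [List.length_append, List.length_singleton] at hk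
    rcases Nat.lt_or_ge k S.atoms.length with h | h
    · rw [hgate k (by rw [H.lens]; exact h)]
      exact H.pos k h
    · obtain rfl : k = d.sums.length := by rw [H.lens]; omega
      rw [hgateE]
      omega
  · intro k hk
    simp only [List.length_append, List.length_singleton] at hk
    have hpr : ∀ t ≤ n + 1 + S.atoms.length, ∀ β : ℕ → ℕ, ∏ j ∈ Finset.range t,
        (⟨S.atoms ++ [p], S.vals ++ [v]⟩ : SSt K n).atom j ^ β j =
        ∏ j ∈ Finset.range t, S.atom j ^ β j := fun t ht β =>
      Finset.prod_congr rfl fun j hj => by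
        rw [atom_of_prefix hpre j (by have := Finset.mem_range.1 hj; omega)]
    rcases Nat.lt_or_ge k S.atoms.length with h | h
    · obtain ⟨q, Φ, α, hq, he, h1⟩ := H.chn k h
      refine ⟨q, Φ, α, hq, ?_, ?_⟩
      · rw [atom_of_prefix hpre _ (by omega), he]
        congr 1
        funext t
        rw [hpr _ (by omega)]
      · rw [hsum k (by rw [H.lens]; exact h), hgate k (by rw [H.lens]; exact h)]
        intro t j hj hj'
        obtain ⟨h2, h3⟩ := h1 t j hj hj'
        have h4 := H.bds k _ h2
        rw [hgate _ (by rw [H.lens]; omega)]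
        exact ⟨h2, h3⟩
    · obtain ⟨q, Φ, α, hq, he, h1⟩ := hp
      have hk' : k = d.sums.length := by rw [H.lens]; omega
      refine ⟨q, Φ, α, hq, ?_, ?_⟩
      · have hk'' : k = S.atoms.length := by omega
        have h5 : (⟨S.atoms ++ [p], S.vals ++ [v]⟩ : SSt K n).atom (n + 1 + k) = p := by
          rw [hk'']
          unfold SSt.atom
          rw [dif_neg (by omega), if_neg (by omega)]
          have h3 : n + 1 + S.atoms.length - n - 1 = S.atoms.length := by omega
          rw [h3, List.getD_append_right _ _ _ _ le_rfl, Nat.sub_self]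
          rfl
        rw [h5]
        refine he.trans ?_
        congr 1
        funext t
        rw [hk'', hpr _ le_rfl]
        rfl
      · intro t j hj hj'
        have h2 := h1 t j hj hj'
        rw [hk', hsumE, hgateE, hgate _ (hb _ h2)]
        exact ⟨Finset.mem_insert_of_mem h2, Nat.succ_le_succ (hz _ h2)⟩

theorem RelY.union (H : RelY Q S d e) (i j : ℕ) :
    (∀ a ∈ d.val i ∪ d.val j, a < d.sums.length) ∧
      (∀ a ∈ d.val i ∪ d.val j, d.sum a ⊆ d.val i ∪ d.val j) ∧
      ∀ a ∈ d.val i ∪ d.val j, e.gate a ≤ max (e.val i) (e.val j) := by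
  refine ⟨?_, ?_, ?_⟩
  · intro a ha
    rcases Finset.mem_union.1 ha with h | h
    · exact H.bdv i a h
    · exact H.bdv j a h
  · intro a ha
    rcases Finset.mem_union.1 ha with h | h
    · exact (H.clv i a h).trans Finset.subset_union_left
    · exact (H.clv j a h).trans Finset.subset_union_right
  · intro a ha
    rcases Finset.mem_union.1 ha with h | h
    · exact (H.nst i a h).trans (le_max_left _ _)
    · exact (H.nst j a h).trans (le_max_right _ _)

theorem RelY.biUnion (H : RelY Q S d e) {r : ℕ} (i : Fin r → ℕ) :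
    (∀ a ∈ Finset.univ.biUnion fun k => d.val (i k), a < d.sums.length) ∧
      (∀ a ∈ Finset.univ.biUnion fun k => d.val (i k),
        d.sum a ⊆ Finset.univ.biUnion fun k => d.val (i k)) ∧
      ∀ a ∈ Finset.univ.biUnion fun k => d.val (i k),
        e.gate a ≤ Finset.univ.sup fun k => e.val (i k) := by
  refine ⟨?_, ?_, ?_⟩
  · intro a ha
    obtain ⟨k, -, h⟩ := Finset.mem_biUnion.1 ha
    exact H.bdv _ a h
  · intro a ha
    obtain ⟨k, hk, h⟩ := Finset.mem_biUnion.1 ha
    exact (H.clv _ a h).trans (Finset.subset_biUnion_of_mem (fun k => d.val (i k)) hk)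
  · intro a ha
    obtain ⟨k, hk, h⟩ := Finset.mem_biUnion.1 ha
    exact (H.nst _ a h).trans (Finset.le_sup (f := fun k => e.val (i k)) hk)

/-- a gate with any number of arguments -/
theorem gpol_args (s : SSt K n) {r : ℕ} (F : MvPolynomial (Fin r) K) (c : Fin r → K)
    (e : Fin r → (ℕ →₀ ℤ)) :
    ∃ (α : Fin (r + 1) → ℕ → ℕ),
      gpol s F c e = MvPolynomial.eval₂ (cc K n) (fun t => s.mono (α t)) (homg F c) ∧
      ∀ t j, α t j ≠ 0 → ∃ k, e k j ≠ 0 := by
  refine ⟨Fin.cons (fun l => (negs e l).toNat) fun k l => (e k l + negs e l).toNat, ?_, ?_⟩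
  · unfold gpol
    congr 1
    funext t
    refine Fin.cases ?_ (fun k => ?_) t
    · simp only [Fin.cons_zero]
    · simp only [Fin.cons_succ]
  · intro t j hne
    by_contra hcon
    push Not at hcon
    apply hne
    have h0 : negs e j = 0 := by
      by_contra h3
      obtain ⟨k, hk⟩ := negs_ne h3
      have := hcon k
      omega
    refine Fin.cases ?_ (fun k => ?_) t
    · simp only [Fin.cons_zero, h0, Int.toNat_zero]
    · simp only [Fin.cons_succ, h0, hcon, add_zero, Int.toNat_zero]

/-- the two kinds of gates -/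
def GKind (K : Type) [Field K] (n M r : ℕ) (q : ℕ) (Φ : (Fin q → Pol K n) → Pol K n) : Prop :=
  (q ≤ M ∧ ∃ c : Fin q → K, ∀ v, Φ v = ∑ t, cc K n (c t) * v t) ∨
    (q ≤ r + 1 ∧ ∃ G : MvPolynomial (Fin q) K, ∀ v, Φ v = MvPolynomial.eval₂ (cc K n) v G)

theorem kind_of_gates {M r : ℕ} {T : GTree K} (hT : Gates T M r) (h : List Bool) (s : ℕ)
    (F : MvPolynomial (Fin s) K) (i : Fin s → ℕ) (hg : T h = .gate s F i) (c : Fin s → K)
    (e : Fin s → (ℕ →₀ ℤ)) (S : SSt K n) :
    ∃ (q : ℕ) (Φ : (Fin q → Pol K n) → Pol K n) (α : Fin q → ℕ → ℕ), GKind K n M r q Φ ∧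
      gpol S F c e = Φ (fun t => S.mono (α t)) ∧ ∀ t j, α t j ≠ 0 → ∃ k, e k j ≠ 0 := by
  rcases hT h s F i hg with h1 | h1
  · obtain ⟨q, c', α, h2, h3, h4⟩ := gpol_terms (M := M) S F c e h1
    exact ⟨q, fun v => ∑ t, cc K n (c' t) * v t, α, Or.inl ⟨h2, c', fun v => rfl⟩, h3, h4⟩
  · obtain ⟨α, h3, h4⟩ := gpol_args S F c e
    exact ⟨s + 1, fun v => MvPolynomial.eval₂ (cc K n) v (homg F c), α,
      Or.inr ⟨by omega, homg F c, fun v => rfl⟩, h3, h4⟩

theorem RelY.next (H : RelY Q S d e) (ins : Ins K)
    (hins : ∀ (r : ℕ) (F : MvPolynomial (Fin r) K) (i : Fin r → ℕ), ins = .gate r F i →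
      ∀ (c : Fin r → K) (e : Fin r → (ℕ →₀ ℤ)), ∃ (q : ℕ) (Φ : (Fin q → Pol K n) → Pol K n)
        (α : Fin q → ℕ → ℕ), Q q Φ ∧ gpol S F c e = Φ (fun t => S.mono (α t)) ∧
          ∀ t j, α t j ≠ 0 → ∃ k, e k j ≠ 0) (o : Bool) :
    RelY Q (sstep ins o S) (KG.next ins d) (nextN ins e) := by
  have hor : ∀ i j l, (S.val i).2 l ≠ 0 ∨ (S.val j).2 l ≠ 0 → l < n + 1 + S.atoms.length ∧
      (n + 1 ≤ l → l - (n + 1) ∈ d.val i ∪ d.val j) := by
    intro i j l h
    rcases h with h | h
    · obtain ⟨h1, h2⟩ := H.supp i l h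
      exact ⟨h1, fun hl => Finset.mem_union_left _ (h2 hl)⟩
    · obtain ⟨h1, h2⟩ := H.supp j l h
      exact ⟨h1, fun hl => Finset.mem_union_right _ (h2 hl)⟩
  cases ins with
  | const c =>
    refine H.pushVal ?_ ?_ ?_ ?_
    · intro l hl
      simp at hl
    · intro a ha
      exact absurd ha (Finset.notMem_empty a)
    · intro a ha
      exact absurd ha (Finset.notMem_empty a)
    · intro a ha
      exact absurd ha (Finset.notMem_empty a)
  | mul i j =>
    refine H.pushVal ?_ (H.union i j).1 (H.union i j).2.1 (H.union i j).2.2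
    intro l hl
    refine hor i j l ?_
    by_contra hcon
    push Not at hcon
    apply hl
    simp only [Finsupp.add_apply, hcon.1, hcon.2, add_zero]
  | div i j =>
    refine H.pushVal ?_ (H.union i j).1 (H.union i j).2.1 (H.union i j).2.2
    intro l hl
    refine hor i j l ?_
    by_contra hcon
    push Not at hcon
    apply hl
    split_ifs
    · rfl
    · simp only [Finsupp.sub_apply, hcon.1, hcon.2, sub_zero]
  | gate r F i =>
    have hF := hins r F i rfl
    have hk : ∀ l, (∃ k, (S.val (i k)).2 l ≠ 0) → l < n + 1 + S.atoms.length ∧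
        (n + 1 ≤ l → l - (n + 1) ∈ Finset.univ.biUnion fun k => d.val (i k)) := by
      rintro l ⟨k, hk⟩
      obtain ⟨h1, h2⟩ := H.supp (i k) l hk
      exact ⟨h1, fun hl => Finset.mem_biUnion.2 ⟨k, Finset.mem_univ _, h2 hl⟩⟩
    refine H.pushSum (B := Finset.univ.biUnion fun k => d.val (i k)) ?_ (H.biUnion i).1
      (H.biUnion i).2.1 (H.biUnion i).2.2 ?_
    · intro l hl
      by_cases hl0 : l = n + 1 + S.atoms.length
      · refine ⟨by omega, fun _ => ?_⟩
        rw [Finset.mem_insert]
        left
        rw [H.lens]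
        omega
      · have h1 : ∃ k, (S.val (i k)).2 l ≠ 0 := by
          by_contra hcon
          push Not at hcon
          apply hl
          have h2 : negs (fun k => (S.val (i k)).2) l = 0 := by
            by_contra h3
            obtain ⟨k, hk⟩ := negs_ne h3
            have := hcon k
            omega
          simp only [Finsupp.sub_apply, Finsupp.smul_apply, h2, smul_zero, sub_zero]
          rw [Finsupp.single_apply, if_neg (Ne.symm hl0)]
        obtain ⟨h2, h3⟩ := hk l h1
        exact ⟨by omega, fun hl' => Finset.mem_insert_of_mem (h3 hl')⟩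
    · obtain ⟨q, Φ, α, h1, h2, h3⟩ := hF (fun k => (S.val (i k)).1) (fun k => (S.val (i k)).2)
      exact ⟨q, Φ, α, h1, h2, fun t j hj hne => (hk j (h3 t j hne)).2 hj⟩
  | test i => exact H
  | answer b => exact H

theorem relY_start (n : ℕ) (Q : (q : ℕ) → ((Fin q → Pol K n) → Pol K n) → Prop) (T : GTree K) :
    RelY Q (sym n T []) (deps n T []) (nests n T []) := by
  have hv : ∀ i, (deps n T []).val i = ∅ := by
    intro i
    simp only [deps, Deps.val]
    rcases Nat.lt_or_ge i (n + 1) with h | h
    · rw [List.getD_replicate _ h]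
    · exact List.getD_eq_default _ _ (by simpa using h)
  have hs : ∀ a, (deps n T []).sum a = ∅ := by
    intro a
    simp [deps, Deps.sum]
  constructor
  · simp [deps, sym]
  · simp [deps, sym]
  · simp [nests, sym]
  · simp [nests, sym]
  · intro i a ha
    rw [hv] at ha
    exact absurd ha (Finset.notMem_empty a)
  · intro k a ha
    rw [hs] at ha
    exact absurd ha (Finset.notMem_empty a)
  · intro i l hl
    have h1 : l < n + 1 := by
      simp only [SSt.val, sym] at hl
      rcases Nat.lt_or_ge i (n + 1) with h | h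
      · rw [getD_app] at hl
        simp only [List.length_ofFn] at hl
        split_ifs at hl with h1 h2
        · rw [List.getD_eq_getElem _ _ (by simpa using h1), List.getElem_ofFn] at hl
          simp only [Finsupp.single_apply] at hl
          split_ifs at hl with h3
          · omega
          · exact absurd rfl hl
        · simp only [Finsupp.single_apply] at hl
          split_ifs at hl with h3
          · omega
          · exact absurd rfl hl
        · simp at hl
      · rw [List.getD_eq_default _ _ (by simpa using h)] at hl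
        simp at hl
    exact ⟨by omega, fun h2 => by omega⟩
  · intro i a ha
    rw [hv] at ha
    exact absurd ha (Finset.notMem_empty a)
  · intro k a ha
    rw [hs] at ha
    exact absurd ha (Finset.notMem_empty a)
  · intro i a ha
    rw [hv] at ha
    exact absurd ha (Finset.notMem_empty a)
  · intro k hk
    simp [sym] at hk
  · intro k hk
    simp [sym] at hk

theorem relY (n : ℕ) {Q : (q : ℕ) → ((Fin q → Pol K n) → Pol K n) → Prop} {T : GTree K}
    (hT : ∀ (h : List Bool) (r : ℕ) (F : MvPolynomial (Fin r) K) (i : Fin r → ℕ),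
      T h = .gate r F i → ∀ (c : Fin r → K) (e : Fin r → (ℕ →₀ ℤ)) (S : SSt K n),
        ∃ (q : ℕ) (Φ : (Fin q → Pol K n) → Pol K n) (α : Fin q → ℕ → ℕ), Q q Φ ∧
          gpol S F c e = Φ (fun t => S.mono (α t)) ∧ ∀ t j, α t j ≠ 0 → ∃ k, e k j ≠ 0)
    (h : List Bool) : RelY Q (sym n T h) (deps n T h) (nests n T h) := by
  induction h with
  | nil => exact relY_start n Q T
  | cons o h ih => exact ih.next (T h) (fun r F i he c e => hT h r F i he c e _) o

/-! ### levels of the atoms -/

section Level

variable {k M r : ℕ} {w : Fin k → ℤ} {𝔇 : Der w (FF K n)}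

/-- a constant times a product of powers of the atoms below the gate `l` -/
theorem RelY.valY (H : RelY (GKind K n M r) S d e) (hD : DerStatement) (hx : ∀ l, Zf 𝔇 (xF K l))
    (hz : Zf 𝔇 (zF K n)) (hc : ∀ c : K, c ≠ 0 → Zf 𝔇 (cF K n c)) (D : ℕ)
    (ih : ∀ l, l < S.atoms.length → e.gate l ≤ D → (d.sum l).card ≤ M → 1 ≤ D ∧
      (SumOf M (Vy ((algebraMap (Pol K n) (FF K n)).comp (cc K n)) 𝔇 M (r + 1) (D - 1))
        (algebraMap (Pol K n) (FF K n) (S.atom (n + 1 + l))) ∨
      PolyOf ((algebraMap (Pol K n) (FF K n)).comp (cc K n)) (r + 1)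
        (Vy ((algebraMap (Pol K n) (FF K n)).comp (cc K n)) 𝔇 M (r + 1) (D - 1))
        (algebraMap (Pol K n) (FF K n) (S.atom (n + 1 + l))))) (l : ℕ)
    (hl : l < S.atoms.length) (hg : e.gate l ≤ D + 1) (hcard : (d.sum l).card ≤ M) (c : K)
    (α : ℕ → ℕ) (hα : ∀ j, n + 1 ≤ j → α j ≠ 0 →
      j - (n + 1) ∈ d.sum l ∧ e.gate (j - (n + 1)) + 1 ≤ e.gate l) :
    Vy ((algebraMap (Pol K n) (FF K n)).comp (cc K n)) 𝔇 M (r + 1) D
      (algebraMap (Pol K n) (FF K n) (cc K n c *
        ∏ j ∈ Finset.range (n + 1 + l), S.atom j ^ α j)) := by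
  classical
  have h1 : Zf 𝔇 (1 : FF K n) := zf_one hc
  cases D with
  | zero =>
    by_cases hct : c = 0
    · left
      simp [hct]
    · right
      rw [map_mul, map_prod]
      refine hD.zf_mul k w (FF K n) 𝔇 _ _ (hc _ hct) (zf_prod hD h1 _ _ fun j hj => ?_)
      rw [map_pow]
      rcases Nat.lt_or_ge j (n + 1) with h2 | h2
      · exact zf_pow hD (atom_zf hx hz S h2) _
      · have h3 : α j = 0 := by
          by_contra hne
          obtain ⟨h4, h5⟩ := hα j h2 hne
          have h6 := H.bds l _ h4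
          have h7 := H.pos (j - (n + 1)) (by omega)
          omega
        rw [h3, pow_zero]
        exact h1
  | succ D =>
    by_cases hzero : algebraMap (Pol K n) (FF K n) (cc K n c *
        ∏ j ∈ Finset.range (n + 1 + l), S.atom j ^ α j) = 0
    · exact Or.inl hzero
    · right
      rw [map_mul] at hzero ⊢
      rw [map_prod] at hzero ⊢
      have hct : c ≠ 0 := by
        intro h2
        apply hzero
        rw [h2, map_zero, map_zero, zero_mul]
      have hat : ∀ j ∈ Finset.range (n + 1 + l), α j ≠ 0 →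
          algebraMap (Pol K n) (FF K n) (S.atom j) ≠ 0 := by
        intro j hj hne h2
        apply hzero
        rw [Finset.prod_eq_zero hj, mul_zero]
        rw [map_pow, h2, zero_pow hne]
      -- the gates that occur
      set B : Finset ℕ := (d.sum l).filter fun a => a < l ∧ α (n + 1 + a) ≠ 0 with hB
      have hBc : B.card ≤ M := (Finset.card_filter_le _ _).trans hcard
      set g : Fin B.card → ℕ := fun u => (B.equivFin.symm u : ℕ) with hg'
      have hgB : ∀ u, g u ∈ B := fun u => (B.equivFin.symm u).2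
      refine ⟨cF K n c * ∏ j ∈ Finset.range (n + 1),
          algebraMap (Pol K n) (FF K n) (S.atom j) ^ α j, B.card,
        fun u => algebraMap (Pol K n) (FF K n) (S.atom (n + 1 + g u)),
        fun u => (α (n + 1 + g u) : ℤ), hBc, ?_, ?_, ?_⟩
      · exact hD.zf_mul k w (FF K n) 𝔇 _ _ (hc _ hct) (zf_prod hD h1 _ _ fun j hj =>
          zf_pow hD (atom_zf hx hz S (Finset.mem_range.1 hj)) _)
      · intro u
        have h2 := hgB u
        simp only [hB, Finset.mem_filter] at h2
        obtain ⟨h3, h4, h5⟩ := h2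
        obtain ⟨h6, h7⟩ := hα (n + 1 + g u) (by omega) h5
        have h8 : n + 1 + g u - (n + 1) = g u := by omega
        rw [h8] at h6 h7
        refine ⟨hat _ (Finset.mem_range.2 (by omega)) h5, ?_⟩
        have h9 := (ih (g u) (by omega) (by omega)
          ((Finset.card_le_card (H.cls l _ h3)).trans hcard)).2
        exact h9
      · rw [mul_assoc]
        congr 1
        simp only [zpow_natCast]
        have h9 : ∏ u, algebraMap (Pol K n) (FF K n) (S.atom (n + 1 + g u)) ^
            α (n + 1 + g u) = ∏ a ∈ B, algebraMap (Pol K n) (FF K n)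
              (S.atom (n + 1 + a)) ^ α (n + 1 + a) := by
          rw [← Finset.prod_coe_sort B]
          exact B.equivFin.symm.prod_comp (fun a : B => algebraMap (Pol K n) (FF K n)
            (S.atom (n + 1 + (a : ℕ))) ^ α (n + 1 + (a : ℕ)))
        rw [h9]
        simp only [map_pow]
        rw [Finset.prod_range_add]
        congr 1
        symm
        refine Finset.prod_subset_one_on_sdiff ?_ ?_ (fun _ _ => rfl)
        · intro a ha
          simp only [hB, Finset.mem_filter] at ha
          exact Finset.mem_range.2 ha.2.1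
        · intro a ha
          simp only [hB, Finset.mem_sdiff, Finset.mem_range, Finset.mem_filter, not_and] at ha
          obtain ⟨h10, h11⟩ := ha
          by_cases h12 : α (n + 1 + a) = 0
          · rw [h12, pow_zero]
          · exfalso
            obtain ⟨h13, -⟩ := hα (n + 1 + a) (by omega) h12
            have h14 : n + 1 + a - (n + 1) = a := by omega
            rw [h14] at h13
            exact h11 h13 h10 h12

theorem RelY.level (H : RelY (GKind K n M r) S d e) (hD : DerStatement)
    (hx : ∀ l, Zf 𝔇 (xF K l)) (hz : Zf 𝔇 (zF K n)) (hc : ∀ c : K, c ≠ 0 → Zf 𝔇 (cF K n c)) :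
    ∀ (D l : ℕ), l < S.atoms.length → e.gate l ≤ D → (d.sum l).card ≤ M → 1 ≤ D ∧
      (SumOf M (Vy ((algebraMap (Pol K n) (FF K n)).comp (cc K n)) 𝔇 M (r + 1) (D - 1))
        (algebraMap (Pol K n) (FF K n) (S.atom (n + 1 + l))) ∨
      PolyOf ((algebraMap (Pol K n) (FF K n)).comp (cc K n)) (r + 1)
        (Vy ((algebraMap (Pol K n) (FF K n)).comp (cc K n)) 𝔇 M (r + 1) (D - 1))
        (algebraMap (Pol K n) (FF K n) (S.atom (n + 1 + l)))) := by
  intro D
  induction D with
  | zero =>
    intro l hl hg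
    have := H.pos l hl
    omega
  | succ D ih =>
    intro l hl hg hcard
    refine ⟨Nat.succ_pos D, ?_⟩
    rw [Nat.add_sub_cancel]
    have key := H.valY hD hx hz hc D ih l hl hg hcard
    obtain ⟨q, Φ, α, hq, he, hα⟩ := H.chn l hl
    rcases hq with ⟨hq, c, hΦ⟩ | ⟨hq, G, hΦ⟩
    · left
      refine ⟨q, hq, fun t => algebraMap (Pol K n) (FF K n) (cc K n (c t) *
        ∏ j ∈ Finset.range (n + 1 + l), S.atom j ^ α t j), fun t => ?_, ?_⟩
      · exact key (c t) (α t) (hα t)
      · rw [he, hΦ, map_sum]
    · right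
      refine ⟨q, hq, G, fun t => algebraMap (Pol K n) (FF K n)
        (∏ j ∈ Finset.range (n + 1 + l), S.atom j ^ α t j), fun t => ?_, ?_⟩
      · have h2 := key 1 (α t) (hα t)
        rwa [map_one, one_mul] at h2
      · rw [he, hΦ]
        exact MvPolynomial.eval₂_comp_left (algebraMap (Pol K n) (FF K n)) (cc K n) _ G

end Level

/-- Row STRUC2. -/
theorem struc2 (hD : DerStatement) : Struc2Statement where
  supp := by
    intro K _ n T h i l hne
    have H := relY n (Q := fun _ _ => True) (T := T) (fun h s F i hg c e S => by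
      obtain ⟨α, h3, h4⟩ := gpol_args S F c e
      exact ⟨s + 1, fun v => MvPolynomial.eval₂ (cc K n) v (homg F c), α, trivial, h3, h4⟩) h
    have h1 := H.supp i (n + 1 + l) hne
    have h2 : n + 1 + l - (n + 1) = l := by omega
    rw [← h2]
    exact h1.2 (by omega)
  level := by
    intro K _ d n M r D w 𝔇 hx hz hc hM T hT h l hl hg hcard
    have H := relY n (Q := GKind K n M r) (fun h s F i hgate c e S =>
      kind_of_gates hT h s F i hgate c e S) h
    obtain ⟨h1, h2⟩ := H.level hD hx hz hc D l hl hg hcard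
    obtain ⟨D', rfl⟩ : ∃ D', D = D' + 1 := ⟨D - 1, by omega⟩
    rw [Nat.add_sub_cancel] at h2
    by_cases h0 : algebraMap (Pol K n) (FF K n) ((sym n T h).atom (n + 1 + l)) = 0
    · exact Or.inl h0
    · right
      refine ⟨1, 1, fun _ => algebraMap (Pol K n) (FF K n) ((sym n T h).atom (n + 1 + l)),
        fun _ => 1, hM, zf_one hc, fun _ => ⟨h0, h2⟩, ?_⟩
      simp

end Pool.Agent.Lib.MP_641cb6_lc.CD
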