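import Pool.Agent.Lib.MP_641cb6_lc.CD.Hn

/-!
# Trees on inputs some of which are repeated or constant
-/

set_option autoImplicit false

namespace Pool.Agent.Lib.MP_641cb6_lc.CD

open Pool.Agent.Lib.MP_641cb6_lc.KG (Ins GTree St deps next Branches Decides Verifies)
open Pool.Agent.Lib.MP_641cb6_lc.KD (Deps)

section Subst

variable {K : Type} [Field K] {n n' : ℕ}

/-- the new number of the value number `l` -/
def sre (φ : Fin n' → Fin n ⊕ K) (l : ℕ) : ℕ :=
  if h : l < n' then Sum.elim (fun i : Fin n => (i : ℕ)) (fun _ => n + 1 + l) (φ ⟨l, h⟩)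
  else if l = n' then n else l + n

omit [Field K] in
theorem sre_le (φ : Fin n' → Fin n ⊕ K) {l : ℕ} (hl : l ≤ n') : sre φ l < n + 1 + n' := by
  unfold sre
  split_ifs with h h2
  · rcases φ ⟨l, h⟩ with i | c
    · have := i.2
      simp only [Sum.elim_inl]
      omega
    · simp only [Sum.elim_inr]
      omega
  · omega
  · omega

omit [Field K] in
theorem getD_sre {A : Type} (d : A) (φ : Fin n' → Fin n ⊕ K) (B B' L : List A)
    (hB : B.length = n' + 1) (hB' : B'.length = n + 1 + n')
    (h : ∀ l, l ≤ n' → B.getD l d = B'.getD (sre φ l) d) (i : ℕ) :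
    (B ++ L).getD i d = (B' ++ L).getD (sre φ i) d := by
  by_cases hi : i ≤ n'
  · rw [List.getD_append _ _ _ _ (by omega), List.getD_append _ _ _ _ (by
      rw [hB']; exact sre_le φ hi)]
    exact h i hi
  · have e : sre φ i = i + n := by
      unfold sre
      rw [dif_neg (by omega), if_neg (by omega)]
    rw [e, List.getD_append_right _ _ _ _ (by omega), List.getD_append_right _ _ _ _ (by omega),
      hB, hB']
    congr 1
    omega

/-- the instruction with other numbers of the values -/
def reIns (ρ : ℕ → ℕ) : Ins K → Ins K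
  | .const c => .const c
  | .mul i j => .mul (ρ i) (ρ j)
  | .div i j => .div (ρ i) (ρ j)
  | .gate r F i => .gate r F fun k => ρ (i k)
  | .test i => .test (ρ i)
  | .answer b => .answer b

/-- the constant number `l` -/
def sco (φ : Fin n' → Fin n ⊕ K) (l : Fin n') : K := Sum.elim (fun _ => 0) id (φ l)

/-- the tree that computes the constants first and then works like `T` -/
def subT (φ : Fin n' → Fin n ⊕ K) (T : GTree K) : GTree K := fun h =>
  if hh : h.length < n' then .const (sco φ ⟨h.length, hh⟩)
  else reIns (sre φ) (T (h.take (h.length - n')))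

theorem subT_lt (φ : Fin n' → Fin n ⊕ K) (T : GTree K) {k : ℕ} (hk : k < n') :
    subT φ T (List.replicate k true) = .const (sco φ ⟨k, hk⟩) := by
  unfold subT
  simp [hk]

theorem subT_app (φ : Fin n' → Fin n ⊕ K) (T : GTree K) (h : List Bool) :
    subT φ T (h ++ List.replicate n' true) = reIns (sre φ) (T h) := by
  unfold subT
  simp

theorem run_lt (P : K → Prop) (φ : Fin n' → Fin n ⊕ K) (T : GTree K) (x : (Fin n → K) × K) :
    ∀ k, k ≤ n' → (subT φ T).run P x k =
      ⟨List.replicate k true, (List.ofFn x.1 ++ [x.2]) ++ (List.ofFn (sco φ)).take k⟩ := by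
  intro k
  induction k with
  | zero => intro _; simp [GTree.run]
  | succ k ih =>
    intro hk
    have hk' : k < n' := hk
    have h1 : (subT φ T).run P x (k + 1) = (subT φ T).step P ((subT φ T).run P x k) := rfl
    rw [h1, ih (by omega)]
    unfold GTree.step
    simp only [subT_lt φ T hk']
    have h2 : (List.ofFn (sco φ)).take (k + 1) = (List.ofFn (sco φ)).take k ++ [sco φ ⟨k, hk'⟩] := by
      rw [List.take_add_one]
      simp [hk']
    rw [h2, List.append_assoc]
    rfl

/-- the values before the first step of the tree -/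
def bas (x : (Fin n → K) × K) : List K := List.ofFn x.1 ++ [x.2]

/-- the values after the constants -/
def bas' (φ : Fin n' → Fin n ⊕ K) (x : (Fin n → K) × K) : List K := bas x ++ List.ofFn (sco φ)

theorem bas_key (φ : Fin n' → Fin n ⊕ K) (x : (Fin n → K) × K) (L : List K) (i : ℕ) :
    (bas (pull φ x) ++ L).getD i 0 = (bas' φ x ++ L).getD (sre φ i) 0 := by
  apply getD_sre
  · simp [bas]
  · simp [bas', bas]
    omega
  · intro l hl
    unfold sre bas' bas
    split_ifs with h1 h2
    · rw [List.getD_append _ _ _ _ (by simpa using h1)]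
      have e1 : (List.ofFn (pull φ x).1).getD l 0 = (pull φ x).1 ⟨l, h1⟩ := by
        rw [List.getD_eq_getElem _ _ (by simpa using h1)]
        simp
      rw [e1]
      have e2 : (pull φ x).1 ⟨l, h1⟩ = Sum.elim x.1 id (φ ⟨l, h1⟩) := rfl
      have e3 : sco φ ⟨l, h1⟩ = Sum.elim (fun _ => 0) id (φ ⟨l, h1⟩) := rfl
      rw [e2]
      rcases hφ : φ ⟨l, h1⟩ with i | c
      · simp only [Sum.elim_inl]
        have hi := i.2
        rw [List.getD_append _ _ _ _ (by simp),
          List.getD_append _ _ _ _ (by simp),
          List.getD_eq_getElem _ _ (by simp)]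
        simp
      · rw [hφ] at e3
        simp only [Sum.elim_inr, id_eq] at e3 ⊢
        rw [List.getD_append_right _ _ _ _ (by simp),
          List.getD_eq_getElem _ _ (by simp [h1])]
        simp only [List.length_append, List.length_ofFn, List.length_cons, List.length_nil,
          zero_add, List.getElem_ofFn]
        have e4 : (⟨n + 1 + l - (n + 1), by omega⟩ : Fin n') = ⟨l, h1⟩ := by
          ext; simp
        rw [e4, e3]
    · subst h2
      rw [List.getD_append_right _ _ _ _ (by simp), List.getD_append _ _ _ _ (by simp),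
        List.getD_append_right _ _ _ _ (by simp)]
      simp [pull]
    · omega

theorem run_ge (P : K → Prop) (φ : Fin n' → Fin n ⊕ K) (T : GTree K) (x : (Fin n → K) × K)
    (k : ℕ) : ∃ (h : List Bool) (L : List K),
      T.run P (pull φ x) k = ⟨h, bas (pull φ x) ++ L⟩ ∧
      (subT φ T).run P x (n' + k) = ⟨h ++ List.replicate n' true, bas' φ x ++ L⟩ := by
  induction k with
  | zero =>
    refine ⟨[], [], ?_, ?_⟩
    · simp [GTree.run, bas]
    · rw [Nat.add_zero, run_lt P φ T x n' le_rfl]
      have : (List.ofFn (sco φ)).take n' = List.ofFn (sco φ) := by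
        apply List.take_of_length_le
        simp
      rw [this]
      simp [bas, bas']
  | succ k ih =>
    obtain ⟨h, L, h1, h2⟩ := ih
    have h3 : T.run P (pull φ x) (k + 1) = T.step P (T.run P (pull φ x) k) := rfl
    have h4 : (subT φ T).run P x (n' + (k + 1)) =
        (subT φ T).step P ((subT φ T).run P x (n' + k)) := rfl
    rw [h3, h4, h1, h2]
    unfold GTree.step
    simp only [subT_app]
    unfold St.val
    simp only [bas_key φ x L]
    rcases hT : T h with c | ⟨i, j⟩ | ⟨i, j⟩ | ⟨r, F, i⟩ | i | b
    · exact ⟨true :: h, L ++ [c], by simp only [List.append_assoc], by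
        simp only [reIns, List.append_assoc, List.cons_append]⟩
    · exact ⟨true :: h, L ++ [(bas' φ x ++ L).getD (sre φ i) 0 * (bas' φ x ++ L).getD (sre φ j) 0],
        by simp only [List.append_assoc], by
        simp only [reIns, List.append_assoc, List.cons_append]⟩
    · refine ⟨@decide ((bas (pull φ x) ++ L).getD j 0 = 0) (Classical.propDecidable _) :: h,
        L ++ [(bas' φ x ++ L).getD (sre φ i) 0 / (bas' φ x ++ L).getD (sre φ j) 0],
        by simp only [List.append_assoc], ?_⟩
      simp only [reIns, List.append_assoc, List.cons_append]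
      congr 2
      rw [decide_eq_decide, bas_key φ x L]
    · exact ⟨true :: h, L ++ [MvPolynomial.eval (fun k => (bas' φ x ++ L).getD (sre φ (i k)) 0) F],
        by simp only [List.append_assoc], by
        simp only [reIns, List.append_assoc, List.cons_append]⟩
    · refine ⟨@decide (P ((bas (pull φ x) ++ L).getD i 0)) (Classical.propDecidable _) :: h, L,
        rfl, ?_⟩
      simp only [reIns, List.cons_append]
      congr 2
      rw [decide_eq_decide, bas_key φ x L]
    · exact ⟨h, L, rfl, rfl⟩

/-- the first dependence sets -/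
theorem deps_lt (φ : Fin n' → Fin n ⊕ K) (T : GTree K) :
    ∀ k, k ≤ n' → deps n (subT φ T) (List.replicate k true) = ⟨[], List.replicate (n + 1 + k) ∅⟩ := by
  intro k
  induction k with
  | zero => intro _; rfl
  | succ k ih =>
    intro hk
    have hk' : k < n' := hk
    rw [List.replicate_succ]
    unfold deps
    rw [ih (by omega), subT_lt φ T hk']
    unfold next
    simp only [Deps.mk.injEq, true_and]
    rw [← List.replicate_succ' ]
    rfl

theorem nests_lt (φ : Fin n' → Fin n ⊕ K) (T : GTree K) :
    ∀ k, k ≤ n' → nests n (subT φ T) (List.replicate k true) = ⟨[], List.replicate (n + 1 + k) 0⟩ := by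
  intro k
  induction k with
  | zero => intro _; rfl
  | succ k ih =>
    intro hk
    have hk' : k < n' := hk
    rw [List.replicate_succ]
    unfold nests
    rw [ih (by omega), subT_lt φ T hk']
    unfold nextN
    simp only [Nst.mk.injEq, true_and]
    rw [← List.replicate_succ' ]
    rfl

omit [Field K] in
theorem rep_key {A : Type} (d : A) (φ : Fin n' → Fin n ⊕ K) (L : List A) (i : ℕ) :
    (List.replicate (n' + 1) d ++ L).getD i d =
      (List.replicate (n + 1 + n') d ++ L).getD (sre φ i) d := by
  apply getD_sre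
  · simp
  · simp
  · intro l hl
    have := sre_le φ hl
    rw [List.getD_eq_getElem _ _ (by simp; omega), List.getD_eq_getElem _ _ (by simpa using this)]
    simp

theorem deps_ge (φ : Fin n' → Fin n ⊕ K) (T : GTree K) (h : List Bool) :
    ∃ (s L : List (Finset ℕ)), deps n' T h = ⟨s, List.replicate (n' + 1) ∅ ++ L⟩ ∧
      deps n (subT φ T) (h ++ List.replicate n' true) =
        ⟨s, List.replicate (n + 1 + n') ∅ ++ L⟩ := by
  induction h with
  | nil => exact ⟨[], [], by simp [deps], by simp [deps_lt φ T n' le_rfl]⟩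
  | cons o h ih =>
    obtain ⟨s, L, h1, h2⟩ := ih
    rw [List.cons_append]
    unfold deps
    rw [h1, h2, subT_app]
    unfold next
    unfold Deps.val
    simp only [rep_key _ φ L]
    rcases hT : T h with c | ⟨i, j⟩ | ⟨i, j⟩ | ⟨r, F, i⟩ | i | b
    · exact ⟨s, L ++ [∅], by simp only [List.append_assoc], by
        simp only [reIns, List.append_assoc]⟩
    · exact ⟨s, L ++ [(List.replicate (n + 1 + n') ∅ ++ L).getD (sre φ i) ∅ ∪
        (List.replicate (n + 1 + n') ∅ ++ L).getD (sre φ j) ∅], by simp only [List.append_assoc], by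
        simp only [reIns, List.append_assoc]⟩
    · exact ⟨s, L ++ [(List.replicate (n + 1 + n') ∅ ++ L).getD (sre φ i) ∅ ∪
        (List.replicate (n + 1 + n') ∅ ++ L).getD (sre φ j) ∅], by simp only [List.append_assoc], by
        simp only [reIns, List.append_assoc]⟩
    · exact ⟨s ++ [insert s.length (Finset.univ.biUnion fun k =>
          (List.replicate (n + 1 + n') ∅ ++ L).getD (sre φ (i k)) ∅)],
        L ++ [insert s.length (Finset.univ.biUnion fun k =>
          (List.replicate (n + 1 + n') ∅ ++ L).getD (sre φ (i k)) ∅)],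
        by simp only [List.append_assoc], by simp only [reIns, List.append_assoc]⟩
    · exact ⟨s, L, rfl, rfl⟩
    · exact ⟨s, L, rfl, rfl⟩

theorem nests_ge (φ : Fin n' → Fin n ⊕ K) (T : GTree K) (h : List Bool) :
    ∃ (s L : List ℕ), nests n' T h = ⟨s, List.replicate (n' + 1) 0 ++ L⟩ ∧
      nests n (subT φ T) (h ++ List.replicate n' true) =
        ⟨s, List.replicate (n + 1 + n') 0 ++ L⟩ := by
  induction h with
  | nil => exact ⟨[], [], by simp [nests], by simp [nests_lt φ T n' le_rfl]⟩
  | cons o h ih =>
    obtain ⟨s, L, h1, h2⟩ := ih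
    rw [List.cons_append]
    unfold nests
    rw [h1, h2, subT_app]
    unfold nextN
    unfold Nst.val
    simp only [rep_key _ φ L]
    rcases hT : T h with c | ⟨i, j⟩ | ⟨i, j⟩ | ⟨r, F, i⟩ | i | b
    · exact ⟨s, L ++ [0], by simp only [List.append_assoc], by
        simp only [reIns, List.append_assoc]⟩
    · exact ⟨s, L ++ [max ((List.replicate (n + 1 + n') 0 ++ L).getD (sre φ i) 0)
        ((List.replicate (n + 1 + n') 0 ++ L).getD (sre φ j) 0)], by simp only [List.append_assoc], by
        simp only [reIns, List.append_assoc]⟩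
    · exact ⟨s, L ++ [max ((List.replicate (n + 1 + n') 0 ++ L).getD (sre φ i) 0)
        ((List.replicate (n + 1 + n') 0 ++ L).getD (sre φ j) 0)], by simp only [List.append_assoc], by
        simp only [reIns, List.append_assoc]⟩
    · exact ⟨s ++ [(Finset.univ.sup fun k =>
          (List.replicate (n + 1 + n') 0 ++ L).getD (sre φ (i k)) 0) + 1],
        L ++ [(Finset.univ.sup fun k =>
          (List.replicate (n + 1 + n') 0 ++ L).getD (sre φ (i k)) 0) + 1],
        by simp only [List.append_assoc], by simp only [reIns, List.append_assoc]⟩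
    · exact ⟨s, L, rfl, rfl⟩
    · exact ⟨s, L, rfl, rfl⟩

theorem branches_re (ρ : ℕ → ℕ) (ins : Ins K) (i' : ℕ) (h : Branches (reIns ρ ins) i') :
    ∃ i, Branches ins i ∧ i' = ρ i := by
  rcases ins with c | ⟨i, j⟩ | ⟨i, j⟩ | ⟨r, F, i⟩ | i | b
  · exact h.elim
  · exact h.elim
  · exact ⟨j, rfl, h⟩
  · exact h.elim
  · exact ⟨i, rfl, h⟩
  · exact h.elim

end Subst

theorem substStatement : SubstStatement := by
  intro K _ P n n' N M φ T Φ S hM hD
  refine ⟨fun u => subT φ (T u), ?_, ?_, ?_⟩
  · intro u h r F i hh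
    have hh' : (if hh : h.length < n' then .const (sco φ ⟨h.length, hh⟩)
      else reIns (sre φ) (T u (h.take (h.length - n')))) = Ins.gate r F i := hh
    split_ifs at hh' with h1
    rcases hT : T u (h.take (h.length - n')) with c | ⟨i, j⟩ | ⟨i, j⟩ | ⟨r', F', i'⟩ | i | b
    all_goals rw [hT] at hh'
    all_goals unfold reIns at hh'
    all_goals simp at hh'
    obtain ⟨rfl, h2, h3⟩ := hh'
    obtain rfl := eq_of_heq h2
    exact hM u _ _ _ _ hT
  · intro x
    obtain ⟨k, b, h1, h2⟩ := hD (pull φ x)
    refine ⟨fun u => n' + k u, b, ?_, h2⟩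
    intro u
    obtain ⟨h, L, h3, h4⟩ := run_ge P φ (T u) x (k u)
    have h5 := h1 u
    rw [h3] at h5
    simp only at h5 ⊢
    rw [h4]
    simp only [subT_app]
    rw [h5]
    rfl
  · intro u x k' i' a hB ha
    by_cases hk : k' < n'
    · simp only at hB
      rw [run_lt P φ (T u) x k' hk.le] at hB
      simp only at hB
      rw [subT_lt φ (T u) hk] at hB
      exact hB.elim
    · obtain ⟨k, rfl⟩ := Nat.exists_eq_add_of_le (not_lt.1 hk)
      obtain ⟨h, L, h3, h4⟩ := run_ge P φ (T u) x k
      obtain ⟨s, L1, h5, h6⟩ := deps_ge φ (T u) h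
      obtain ⟨g, L2, h7, h8⟩ := nests_ge φ (T u) h
      simp only at hB ha ⊢
      rw [h4] at hB ha ⊢
      simp only at hB ha ⊢
      rw [subT_app] at hB
      obtain ⟨i, hi, rfl⟩ := branches_re _ _ _ hB
      refine ⟨k, i, ?_⟩
      rw [h3]
      simp only
      rw [h6] at ha
      rw [h5, h6, h7, h8]
      refine ⟨hi, ?_, rfl, rfl⟩
      unfold Deps.val at ha ⊢
      simp only at ha ⊢
      rw [rep_key _ φ L1]
      exact ha

end Pool.Agent.Lib.MP_641cb6_lc.CD
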