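import Pool.Agent.Lib.MP_641cb6_lc.CD.Defs2
import Pool.Agent.Lib.MP_641cb6_lc.CD.Subst

/-!
# Trees on inputs some of which are repeated or constant, gates of two kinds (row SUBST2)
-/

set_option autoImplicit false

namespace Pool.Agent.Lib.MP_641cb6_lc.CD

open Pool.Agent.Lib.MP_641cb6_lc.KG (Ins GTree St deps next Branches Decides Verifies)
open Pool.Agent.Lib.MP_641cb6_lc.KD (Deps)

theorem gates_subT {K : Type} [Field K] {n n' M r : ℕ} (φ : Fin n' → Fin n ⊕ K) {T : GTree K}
    (hT : Gates T M r) : Gates (subT φ T) M r := by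
  intro h s F i hh
  have hh' : (if hh : h.length < n' then .const (sco φ ⟨h.length, hh⟩)
    else reIns (sre φ) (T (h.take (h.length - n')))) = Ins.gate s F i := hh
  split_ifs at hh' with h1
  rcases hT1 : T (h.take (h.length - n')) with c | ⟨i, j⟩ | ⟨i, j⟩ | ⟨r', F', i'⟩ | i | b
  all_goals rw [hT1] at hh'
  all_goals unfold reIns at hh'
  all_goals simp at hh'
  obtain ⟨rfl, h2, h3⟩ := hh'
  obtain rfl := eq_of_heq h2
  exact hT _ _ _ _ hT1

theorem subst2Statement : Subst2Statement := by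
  intro K _ P n n' N M r φ T Φ S hM hD
  refine ⟨fun u => subT φ (T u), fun u => gates_subT φ (hM u), ?_, ?_⟩
  · intro x
    obtain ⟨k, b, h1, h2⟩ := hD (pull φ x)
    refine ⟨fun u => n' + k u, b, ?_, h2⟩
    intro u
    obtain ⟨h, L, h3, h4⟩ := run_ge P φ (T u) x (k u)
    have h5 := h1 u
    rw [h3] at h5
    simp only at h5 ⊢
    rw [h4]
    simp only [subT_app]
    rw [h5]
    rfl
  · intro u x k' i' a hB ha
    by_cases hk : k' < n'
    · simp only at hB
      rw [run_lt P φ (T u) x k' hk.le] at hB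
      simp only at hB
      rw [subT_lt φ (T u) hk] at hB
      exact hB.elim
    · obtain ⟨k, rfl⟩ := Nat.exists_eq_add_of_le (not_lt.1 hk)
      obtain ⟨h, L, h3, h4⟩ := run_ge P φ (T u) x k
      obtain ⟨s, L1, h5, h6⟩ := deps_ge φ (T u) h
      obtain ⟨g, L2, h7, h8⟩ := nests_ge φ (T u) h
      simp only at hB ha ⊢
      rw [h4] at hB ha ⊢
      simp only at hB ha ⊢
      rw [subT_app] at hB
      obtain ⟨i, hi, rfl⟩ := branches_re _ _ _ hB
      refine ⟨k, i, ?_⟩
      rw [h3]
      simp only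
      rw [h6] at ha
      rw [h5, h6, h7, h8]
      refine ⟨hi, ?_, rfl, rfl⟩
      unfold Deps.val at ha ⊢
      simp only at ha ⊢
      rw [rep_key _ φ L1]
      exact ha

end Pool.Agent.Lib.MP_641cb6_lc.CD
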