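import Pool.Agent.Lib.MP_641cb6_lc.CD.Model

/-!
# Verification with nesting 1
-/

set_option autoImplicit false

namespace Pool.Agent.Lib.MP_641cb6_lc.CD

open Pool.Agent.Lib.MP_641cb6_lc.KG (Ins GTree St deps next Branches Verifies)
open Pool.Agent.Lib.MP_641cb6_lc.KD (Deps)

variable {K : Type} [Field K]

/-- an equation `F (v (i 0), ..., v (i (r - 1))) = 0` for values `v` -/
structure Eqn (K : Type) [Field K] where
  r : ℕ
  F : MvPolynomial (Fin r) K
  i : Fin r → ℕ

/-- the value of the left side -/
noncomputable def Eqn.val (E : Eqn K) (L : List K) : K :=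
  MvPolynomial.eval (fun k => L.getD (E.i k) 0) E.F

/-- the tree that checks `Q` equations, `b` is the number of inputs -/
def eqTree (b Q : ℕ) (E : ℕ → Eqn K) : GTree K := fun h =>
  if h.length < 2 * Q then
    if h.length % 2 = 0 then .gate (E (h.length / 2)).r (E (h.length / 2)).F (E (h.length / 2)).i
    else .div 0 (b + (h.length - 1))
  else .answer (h.all id)

theorem eqTree_terms (b Q M : ℕ) (E : ℕ → Eqn K) (hE : ∀ q, (E q).F.support.card ≤ M) :
    Terms (eqTree b Q E) M := by
  intro h r F i hh
  unfold eqTree at hh
  split_ifs at hh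
  · simp only [Ins.gate.injEq] at hh
    obtain ⟨rfl, hF, -⟩ := hh
    rw [heq_eq_eq] at hF
    subst hF
    exact hE _

section Run

variable (P : K → Prop) {n Q : ℕ} {E : ℕ → Eqn K} (x : (Fin n → K) × K)

theorem getD_append_left' {L L' : List K} {i : ℕ} (h : i < L.length) :
    (L ++ L').getD i 0 = L.getD i 0 := by
  rw [List.getD_append _ _ _ _ h]

theorem eqTree_run (hi : ∀ q, ∀ k, (E q).i k < n + 1) (q : ℕ) (hq : q ≤ Q) :
    ((eqTree (n + 1) Q E).run P x (2 * q)).hist.length = 2 * q ∧
    (∃ L : List K, L.length = 2 * q ∧
      ((eqTree (n + 1) Q E).run P x (2 * q)).vals = (List.ofFn x.1 ++ [x.2]) ++ L) ∧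
    (((eqTree (n + 1) Q E).run P x (2 * q)).hist.all id = true ↔
      ∀ q' < q, (E q').val (List.ofFn x.1 ++ [x.2]) = 0) := by
  classical
  induction q with
  | zero =>
    refine ⟨rfl, ⟨[], rfl, ?_⟩, ?_⟩
    · simp [GTree.run]
    · simp [GTree.run]
  | succ q ih =>
    obtain ⟨h1, ⟨L, hL, h2⟩, h3⟩ := ih (by omega)
    have e1 : (eqTree (n + 1) Q E).run P x (2 * (q + 1)) =
      (eqTree (n + 1) Q E).step P ((eqTree (n + 1) Q E).step P
        ((eqTree (n + 1) Q E).run P x (2 * q))) := rfl
    rw [e1]
    generalize (eqTree (n + 1) Q E).run P x (2 * q) = s at h1 h2 h3 ⊢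
    obtain ⟨hist, vals⟩ := s
    simp only at h1 h2 h3
    have hT1 : eqTree (n + 1) Q E hist = .gate (E q).r (E q).F (E q).i := by
      unfold eqTree
      rw [if_pos (by omega), if_pos (by omega), h1, show 2 * q / 2 = q by omega]
    have hv : MvPolynomial.eval (fun k => (⟨hist, vals⟩ : St K).val ((E q).i k)) (E q).F =
        (E q).val (List.ofFn x.1 ++ [x.2]) := by
      unfold Eqn.val
      congr 2
      funext k
      show vals.getD _ 0 = _
      rw [h2, getD_append_left']
      simp only [List.length_append, List.length_ofFn, List.length_singleton]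
      exact hi q k
    have hs1 : (eqTree (n + 1) Q E).step P ⟨hist, vals⟩ =
        ⟨true :: hist, vals ++ [(E q).val (List.ofFn x.1 ++ [x.2])]⟩ := by
      unfold GTree.step
      simp only [hT1]
      rw [hv]
    rw [hs1]
    have hT2 : eqTree (n + 1) Q E (true :: hist) = .div 0 (n + 1 + 2 * q) := by
      unfold eqTree
      rw [List.length_cons, h1, if_pos (by omega), if_neg (by omega), show 2 * q + 1 - 1 = 2 * q by
        omega]
    have hlen : vals.length = n + 1 + 2 * q := by
      rw [h2]
      simp [hL]
      omega
    have hv2 : (⟨true :: hist, vals ++ [(E q).val (List.ofFn x.1 ++ [x.2])]⟩ : St K).val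
        (n + 1 + 2 * q) = (E q).val (List.ofFn x.1 ++ [x.2]) := by
      show (vals ++ [_]).getD _ 0 = _
      rw [← hlen, List.getD_append_right _ _ _ _ le_rfl]
      simp
    have hs2 : (eqTree (n + 1) Q E).step P
        ⟨true :: hist, vals ++ [(E q).val (List.ofFn x.1 ++ [x.2])]⟩ =
        ⟨decide ((E q).val (List.ofFn x.1 ++ [x.2]) = 0) :: true :: hist,
          vals ++ [(E q).val (List.ofFn x.1 ++ [x.2])] ++
            [(⟨true :: hist, vals ++ [(E q).val (List.ofFn x.1 ++ [x.2])]⟩ : St K).val 0 /
              (E q).val (List.ofFn x.1 ++ [x.2])]⟩ := by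
      unfold GTree.step
      simp only [hT2]
      rw [hv2]
    rw [hs2]
    generalize (⟨true :: hist, vals ++ [(E q).val (List.ofFn x.1 ++ [x.2])]⟩ : St K).val 0 /
      (E q).val (List.ofFn x.1 ++ [x.2]) = v2
    refine ⟨by simp [h1]; omega, ⟨L ++ [(E q).val (List.ofFn x.1 ++ [x.2])] ++ [v2], by
      simp [hL]; omega, by rw [h2]; simp only [List.append_assoc]⟩, ?_⟩
    simp only [List.all_cons, id, Bool.true_and, Bool.and_eq_true, decide_eq_true_eq]
    rw [h3]
    constructor
    · rintro ⟨h4, h5⟩ q' hq'
      rcases Nat.lt_succ_iff_lt_or_eq.1 hq' with h6 | rfl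
      · exact h5 q' h6
      · exact h4
    · intro h4
      exact ⟨h4 q (by omega), fun q' hq' => h4 q' (by omega)⟩

theorem eqTree_answer (hi : ∀ q, ∀ k, (E q).i k < n + 1) :
    ∃ b : Bool, eqTree (n + 1) Q E ((eqTree (n + 1) Q E).run P x (2 * Q)).hist = .answer b ∧
      (b = true ↔ ∀ q < Q, (E q).val (List.ofFn x.1 ++ [x.2]) = 0) := by
  obtain ⟨h1, -, h3⟩ := eqTree_run P x hi Q le_rfl
  refine ⟨((eqTree (n + 1) Q E).run P x (2 * Q)).hist.all id, ?_, h3⟩
  unfold eqTree at h1 ⊢
  rw [if_neg (by omega)]

end Run

/-- the dependence sets and the nesting numbers of the tree -/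
theorem eqTree_deps {n Q : ℕ} {E : ℕ → Eqn K} (hi : ∀ q, ∀ k, (E q).i k < n + 1) (h : List Bool)
    (hh : h.length ≤ 2 * Q) :
    ((deps n (eqTree (n + 1) Q E) h).vals.length = n + 1 + h.length ∧
      (deps n (eqTree (n + 1) Q E) h).sums.length = (h.length + 1) / 2 ∧
      (∀ i < n + 1, (deps n (eqTree (n + 1) Q E) h).val i = ∅) ∧
      (∀ a < (h.length + 1) / 2, (deps n (eqTree (n + 1) Q E) h).sum a = {a}) ∧
      ∀ j < h.length, (deps n (eqTree (n + 1) Q E) h).val (n + 1 + j) = {j / 2}) ∧
    ((nests n (eqTree (n + 1) Q E) h).vals.length = n + 1 + h.length ∧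
      (∀ i < n + 1, (nests n (eqTree (n + 1) Q E) h).val i = 0) ∧
      (∀ i, (nests n (eqTree (n + 1) Q E) h).val i ≤ 1) ∧
      ∀ a, (nests n (eqTree (n + 1) Q E) h).gate a ≤ 1) := by
  induction h with
  | nil =>
    refine ⟨⟨by simp [deps], by simp [deps], ?_, ?_, ?_⟩, ⟨by simp [nests], ?_, ?_, ?_⟩⟩
    · intro i hi'
      simp [deps, Deps.val, List.getD_replicate _ hi']
    · intro a ha
      simp at ha
    · intro j hj
      simp at hj
    · intro i hi'
      simp [nests, Nst.val, List.getD_replicate _ hi']
    · intro i
      simp only [nests, Nst.val]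
      rcases Nat.lt_or_ge i (n + 1) with h1 | h1
      · rw [List.getD_replicate _ h1]; omega
      · rw [List.getD_eq_default _ _ (by simpa using h1)]; omega
    · intro a
      simp [nests, Nst.gate]
  | cons o h ih =>
    rw [List.length_cons] at hh
    obtain ⟨⟨h1, h2, h3, h4, h5⟩, ⟨h6, h7, h8, h9⟩⟩ := ih (by omega)
    have e1 : deps n (eqTree (n + 1) Q E) (o :: h) = next (eqTree (n + 1) Q E h)
      (deps n (eqTree (n + 1) Q E) h) := rfl
    have e2 : nests n (eqTree (n + 1) Q E) (o :: h) = nextN (eqTree (n + 1) Q E h)
      (nests n (eqTree (n + 1) Q E) h) := rfl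
    rw [e1, e2]
    generalize deps n (eqTree (n + 1) Q E) h = d at h1 h2 h3 h4 h5 ⊢
    generalize nests n (eqTree (n + 1) Q E) h = N at h6 h7 h8 h9 ⊢
    obtain ⟨sums, vals⟩ := d
    obtain ⟨gates, nvals⟩ := N
    simp only [Deps.val, Deps.sum, Nst.val, Nst.gate] at h1 h2 h3 h4 h5 h6 h7 h8 h9 ⊢
    by_cases hpar : h.length % 2 = 0
    · have hT : eqTree (n + 1) Q E h = .gate (E (h.length / 2)).r (E (h.length / 2)).F
          (E (h.length / 2)).i := by
        unfold eqTree
        rw [if_pos (by omega), if_pos hpar]
      rw [hT]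
      have hU : (Finset.univ.biUnion fun k => vals.getD ((E (h.length / 2)).i k) ∅) = ∅ := by
        ext a
        simp only [Finset.mem_biUnion, Finset.mem_univ, true_and, Finset.notMem_empty, iff_false,
          not_exists]
        intro k
        rw [h3 _ (hi _ k)]
        exact Finset.notMem_empty a
      have hS : (Finset.univ.sup fun k => nvals.getD ((E (h.length / 2)).i k) 0) = 0 := by
        rw [← Nat.bot_eq_zero, Finset.sup_eq_bot_iff]
        intro k _
        exact h7 _ (hi _ k)
      simp only [next, nextN, Deps.val, Nst.val, hU, hS]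
      refine ⟨⟨by simp [h1]; omega, by simp [h2]; omega, ?_, ?_, ?_⟩, ⟨by simp [h6]; omega, ?_, ?_, ?_⟩⟩
      · intro i hi'
        rw [List.getD_append _ _ _ _ (by omega)]
        exact h3 i hi'
      · intro a ha
        rcases Nat.lt_or_ge a sums.length with h10 | h10
        · rw [List.getD_append _ _ _ _ h10]
          exact h4 a (by omega)
        · have h11 : a = sums.length := by
            simp only [List.length_cons] at ha
            omega
          subst h11
          rw [List.getD_append_right _ _ _ _ le_rfl]
          simp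
      · intro j hj
        rcases Nat.lt_or_ge j h.length with h10 | h10
        · rw [List.getD_append _ _ _ _ (by omega)]
          exact h5 j h10
        · have h11 : j = h.length := by
            simp only [List.length_cons] at hj
            omega
          subst h11
          rw [List.getD_append_right _ _ _ _ (by omega), h1]
          simp only [Nat.sub_self, List.getD_cons_zero, h2, Finset.insert_empty,
            Finset.singleton_inj]
          omega
      · intro i hi'
        rw [List.getD_append _ _ _ _ (by omega)]
        exact h7 i hi'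
      · intro i
        rcases Nat.lt_or_ge i nvals.length with h10 | h10
        · rw [List.getD_append _ _ _ _ h10]
          exact h8 i
        · rw [List.getD_append_right _ _ _ _ h10]
          rcases Nat.eq_zero_or_pos (i - nvals.length) with h11 | h11
          · rw [h11]; simp
          · rw [List.getD_eq_default _ _ (by simp; omega)]; omega
      · intro i
        rcases Nat.lt_or_ge i gates.length with h10 | h10
        · rw [List.getD_append _ _ _ _ h10]
          exact h9 i
        · rw [List.getD_append_right _ _ _ _ h10]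
          rcases Nat.eq_zero_or_pos (i - gates.length) with h11 | h11
          · rw [h11]; simp
          · rw [List.getD_eq_default _ _ (by simp; omega)]; omega
    · have hT : eqTree (n + 1) Q E h = .div 0 (n + 1 + (h.length - 1)) := by
        unfold eqTree
        rw [if_pos (by omega), if_neg hpar]
      rw [hT]
      simp only [next, nextN, Deps.val, Nst.val]
      have h12 : vals.getD 0 ∅ = ∅ := h3 0 (by omega)
      have h13 : vals.getD (n + 1 + (h.length - 1)) ∅ = {(h.length - 1) / 2} :=
        h5 (h.length - 1) (by omega)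
      rw [h12, h13, Finset.empty_union]
      refine ⟨⟨by simp [h1]; omega, by rw [h2, List.length_cons]; omega, ?_, ?_, ?_⟩,
        ⟨by simp [h6]; omega, ?_, ?_, h9⟩⟩
      · intro i hi'
        rw [List.getD_append _ _ _ _ (by omega)]
        exact h3 i hi'
      · intro a ha
        exact h4 a (by simp only [List.length_cons] at ha; omega)
      · intro j hj
        rcases Nat.lt_or_ge j h.length with h10 | h10
        · rw [List.getD_append _ _ _ _ (by omega)]
          exact h5 j h10
        · have h11 : j = h.length := by
            simp only [List.length_cons] at hj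
            omega
          subst h11
          rw [List.getD_append_right _ _ _ _ (by omega), h1]
          simp only [Nat.sub_self, List.getD_cons_zero, Finset.singleton_inj]
          omega
      · intro i hi'
        rw [List.getD_append _ _ _ _ (by omega)]
        exact h7 i hi'
      · intro i
        rcases Nat.lt_or_ge i nvals.length with h10 | h10
        · rw [List.getD_append _ _ _ _ h10]
          exact h8 i
        · rw [List.getD_append_right _ _ _ _ h10]
          rcases Nat.eq_zero_or_pos (i - nvals.length) with h11 | h11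
          · rw [h11, List.getD_cons_zero]
            exact max_le (h8 0) (h8 _)
          · rw [List.getD_eq_default _ _ (by simp; omega)]; omega

end Pool.Agent.Lib.MP_641cb6_lc.CD
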